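import Pool.Agent.P.MP_d483fb_an.Z.TZ.KazInd
import Pool.Agent.P.MP_d483fb_an.Z.Br.Stmt

/-!
Property (T) passes to lattices.
-/

open scoped Topology ENNReal Pointwise
open Filter MeasureTheory Set

set_option linter.unusedSectionVars false

noncomputable section

namespace Pool.Agent.P.MP_d483fb_an.Z.TZ

variable {G : Type} [Group G] [TopologicalSpace G] [IsTopologicalGroup G]
  [SecondCountableTopology G] (Γ : Subgroup G) [DiscreteTopology Γ]

theorem exists_cover : ∃ O : ℕ → Set G, (∀ i, IsOpen (O i)) ∧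
    (∀ i, InjOn (QuotientGroup.mk : G → G ⧸ Γ) (O i)) ∧ ∀ g, ∃ i, g ∈ O i := by
  have h : {(1 : Γ)} ∈ 𝓝 (1 : Γ) := (isOpen_discrete _).mem_nhds rfl
  rw [nhds_subtype, mem_comap] at h
  obtain ⟨W, hW, h1⟩ := h
  have hx : ∀ x : G, ∃ P : Set G, IsOpen P ∧ x ∈ P ∧ ∀ p ∈ P, ∀ q ∈ P, p⁻¹ * q ∈ W := by
    intro x
    have hc : Tendsto (fun p : G × G => p.1⁻¹ * p.2) (𝓝 (x, x)) (𝓝 1) := by
      have : Continuous fun p : G × G => p.1⁻¹ * p.2 := by fun_prop
      simpa using this.tendsto (x, x)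
    obtain ⟨U, hU, V, hV, h⟩ := mem_nhds_prod_iff.mp (hc hW)
    obtain ⟨P, hP, ho, hxP⟩ := mem_nhds_iff.mp (inter_mem hU hV)
    exact ⟨P, ho, hxP, fun p hp q hq => h (mk_mem_prod (hP hp).1 (hP hq).2)⟩
  choose P hP hxP hPW using hx
  obtain ⟨s, hs, hcov⟩ := TopologicalSpace.countable_cover_nhds fun x => (hP x).mem_nhds (hxP x)
  have hne : s.Nonempty := by
    obtain ⟨x, hx, -⟩ := mem_iUnion₂.mp (hcov ▸ mem_univ (1 : G))
    exact ⟨x, hx⟩
  obtain ⟨f, rfl⟩ := hs.exists_eq_range hne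
  refine ⟨fun i => P (f i), fun i => hP _, fun i p hp q hq hpq => ?_, fun g => ?_⟩
  · have := h1 (show (⟨p⁻¹ * q, QuotientGroup.eq.mp hpq⟩ : Γ) ∈ _ from hPW _ p hp q hq)
    exact inv_mul_eq_one.mp (congrArg Subtype.val this)
  · obtain ⟨_, ⟨i, rfl⟩, hg⟩ := mem_iUnion₂.mp (hcov ▸ mem_univ g)
    exact ⟨i, hg⟩

variable [MeasurableSpace G] [BorelSpace G] [MeasurableSpace (G ⧸ Γ)] [BorelSpace (G ⧸ Γ)]

/-- A Borel section that is continuous in measure under translations. -/
theorem exists_section (μ : Measure (G ⧸ Γ)) [IsFiniteMeasure μ]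
    [SMulInvariantMeasure G (G ⧸ Γ) μ] : ∃ σ : G ⧸ Γ → G, Measurable σ ∧
      (∀ b, (σ b : G ⧸ Γ) = b) ∧
      Tendsto (fun g : G => μ.real {b | σ (g • b) ≠ g * σ b}) (𝓝 1) (𝓝 0) := by
  classical
  obtain ⟨O, hO, hinj, hcov⟩ := exists_cover Γ
  have hb : ∀ b : G ⧸ Γ, ∃ i, b ∈ QuotientGroup.mk '' O i := by
    intro b
    obtain ⟨g, rfl⟩ := QuotientGroup.mk_surjective b
    obtain ⟨i, hi⟩ := hcov g
    exact ⟨i, g, hi, rfl⟩
  let idx : G ⧸ Γ → ℕ := fun b => Nat.find (hb b)
  have hidx : Measurable idx :=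
    measurable_find hb fun k => (QuotientGroup.isOpenMap_coe _ (hO k)).measurableSet
  choose σ h1 h2 using fun b => Nat.find_spec (hb b)
  have hσ : Measurable σ := by
    refine measurable_of_isOpen fun U hU => ?_
    have : σ ⁻¹' U = ⋃ i, idx ⁻¹' {i} ∩ QuotientGroup.mk '' (U ∩ O i) := by
      ext b
      simp only [mem_preimage, mem_iUnion, mem_inter_iff, mem_singleton_iff]
      constructor
      · exact fun h => ⟨idx b, rfl, σ b, ⟨h, h1 b⟩, h2 b⟩
      · rintro ⟨_, rfl, g, ⟨hg, hg'⟩, e⟩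
        rwa [hinj _ (h1 b) hg' ((h2 b).trans e.symm)]
    rw [this]
    exact MeasurableSet.iUnion fun i => (hidx (measurableSet_singleton i)).inter
      (QuotientGroup.isOpenMap_coe _ (hU.inter (hO i))).measurableSet
  refine ⟨σ, hσ, h2, ?_⟩
  let Bad : G → Set (G ⧸ Γ) := fun g => {b | g * σ b ∉ O (idx b)}
  have hm : MeasurableSet {p : G × ℕ | p.1 ∈ O p.2} := by
    have : {p : G × ℕ | p.1 ∈ O p.2} = ⋃ i, O i ×ˢ {i} := by
      ext p
      simp
    rw [this]
    exact MeasurableSet.iUnion fun i => (hO i).measurableSet.prod (measurableSet_singleton i)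
  have hBad : ∀ g, MeasurableSet (Bad g) := fun g => ((hσ.const_mul g).prodMk hidx hm).compl
  have hlim : Tendsto (fun g => μ.real (Bad g)) (𝓝 1) (𝓝 0) := by
    have := tendsto_measure_of_ae_tendsto_indicator_of_isFiniteMeasure (𝓝 (1 : G)) (μ := μ)
      MeasurableSet.empty hBad (Eventually.of_forall fun b => ?_)
    · rw [measure_empty] at this
      exact (ENNReal.tendsto_toReal ENNReal.zero_ne_top).comp this
    · have hc : Tendsto (fun g : G => g * σ b) (𝓝 1) (𝓝 (σ b)) := by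
        simpa using (continuous_mul_const (σ b)).tendsto 1
      filter_upwards [hc.eventually ((hO _).mem_nhds (h1 b))] with g hg
      exact iff_of_false (fun h => h hg) (notMem_empty b)
  have hinv : Tendsto (fun g : G => g⁻¹) (𝓝 1) (𝓝 1) := by simpa using continuous_inv.tendsto (1 : G)
  have hmk : ∀ (g : G) b, ((g * σ b : G) : G ⧸ Γ) = g • b := by
    intro g b
    conv_rhs => rw [← h2 b]
    rfl
  refine squeeze_zero (fun _ => measureReal_nonneg) (fun g => ?_)
    (by simpa using hlim.add (hlim.comp hinv))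
  rw [← (measurePreserving_smul g μ).measureReal_preimage (hBad g⁻¹).nullMeasurableSet]
  refine le_trans (measureReal_mono fun b hb' => ?_) (measureReal_union_le _ _)
  by_contra hc
  have a1 : g * σ b ∈ O (idx b) := not_not.mp fun h => hc (Or.inl h)
  have a2 : g⁻¹ * σ (g • b) ∈ O (idx (g • b)) := not_not.mp fun h => hc (Or.inr h)
  have e : idx (g • b) = idx b := le_antisymm (Nat.find_min' _ ⟨_, a1, hmk g b⟩)
    (Nat.find_min' _ ⟨_, a2, by rw [hmk, inv_smul_smul]⟩)
  refine hb' (hinj (idx b) ?_ a1 ((h2 _).trans (hmk g b).symm))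
  rw [← e]
  exact h1 _

omit [MeasurableSpace G] [BorelSpace G] [MeasurableSpace (G ⧸ Γ)] [BorelSpace (G ⧸ Γ)]
  [DiscreteTopology Γ] in
/-- Property (T) passes to lattices. -/
theorem hasT_of_lattice [LocallyCompactSpace G] [T2Space G] (hK : KazG G) (hΓ : IsLattice Γ) :
    HasT Γ := by
  obtain ⟨hd, μ, hμ, hinv⟩ := hΓ
  borelize G
  let _ : MeasurableSpace (G ⧸ Γ) := borel _
  have : BorelSpace (G ⧸ Γ) := ⟨rfl⟩
  have : Countable Γ := TopologicalSpace.separableSpace_iff_countable.mp inferInstance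
  obtain ⟨σ, hσ, h2, hlim⟩ := exists_section Γ μ
  have hmk : ∀ (g : G) b, ((g * σ b : G) : G ⧸ Γ) = g • b := by
    intro g b
    conv_rhs => rw [← h2 b]
    rfl
  let C : Cc G Γ (G ⧸ Γ) :=
    { c := fun g b => ⟨(σ (g • b))⁻¹ * (g * σ b), QuotientGroup.eq.mp ((h2 _).trans (hmk g b).symm)⟩
      mul := fun g h b => Subtype.ext (by simp [mul_smul, mul_assoc])
      meas := Measurable.subtype_mk ((hσ.comp (measurable_fst.smul measurable_snd)).inv.mul
        (measurable_fst.mul (hσ.comp measurable_snd))) }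
  refine C.hasT hK μ (Measure.haar : Measure G).inv ?_ (fun b δ => ?_) ?_ fun Q hQ η hη => ?_
  · exact (Measure.map_eq_zero_iff measurable_inv.aemeasurable).not.mpr (NeZero.ne _)
  · have e : (σ b * δ * (σ b)⁻¹) • b = b := by
      rw [← hmk, inv_mul_cancel_right, QuotientGroup.mk_mul_of_mem _ δ.2, h2]
    exact ⟨_, e, Subtype.ext (by simp [C, e])⟩
  · refine hlim.congr fun g => ?_
    congr 1
    ext b
    simp [C, Subtype.ext_iff, inv_mul_eq_one]
  · let K := CompactExhaustion.choice G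
    have hm : ∀ n, MeasurableSet {b | σ b ∉ K n} := fun n =>
      (hσ (K.isCompact n).measurableSet).compl
    have ht := tendsto_measure_of_ae_tendsto_indicator_of_isFiniteMeasure atTop (μ := μ)
      MeasurableSet.empty hm (Eventually.of_forall fun b => by
        obtain ⟨n, hn⟩ := K.exists_mem (σ b)
        filter_upwards [eventually_ge_atTop n] with m hm
        simpa using K.subset hm hn)
    rw [measure_empty] at ht
    obtain ⟨n, hn⟩ := (((ENNReal.tendsto_toReal ENNReal.zero_ne_top).comp ht).eventually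
      (gt_mem_nhds (half_pos hη))).exists
    have hfin : ((↑) ⁻¹' ((K n)⁻¹ * (Q * K n)) : Set Γ).Finite :=
      ((Subgroup.isClosed_of_discrete (H := Γ)).isClosedEmbedding_subtypeVal.isCompact_preimage
        ((K.isCompact n).inv.mul (hQ.mul (K.isCompact n)))).finite_of_discrete
    refine ⟨hfin.toFinset, fun g hg => ?_⟩
    have hn' : μ.real {b | σ b ∉ K n} < η / 2 := hn
    have e := (measurePreserving_smul g μ).measureReal_preimage (hm n).nullMeasurableSet
    refine le_trans (measureReal_mono (s₂ := {b | σ b ∉ K n} ∪ (g • ·) ⁻¹' {b | σ b ∉ K n})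
      fun b hb => ?_) ((measureReal_union_le _ _).trans (by linarith))
    by_contra hc
    have a1 : σ b ∈ K n := not_not.mp fun h => hc (Or.inl h)
    have a2 : σ (g • b) ∈ K n := not_not.mp fun h => hc (Or.inr h)
    exact hb (hfin.mem_toFinset.mpr (mul_mem_mul (inv_mem_inv.mpr a2) (mul_mem_mul hg a1)))

end Pool.Agent.P.MP_d483fb_an.Z.TZ
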