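import Pool.Agent.P.MP_d483fb_an.Z.TZ.KazLat

/-!
Consequences of property (T): measure preserving actions, finite generation, no additive
characters, quotients, subgroups of finite index.
-/

open scoped Topology ENNReal Pointwise RealInnerProductSpace
open Filter MeasureTheory Set

noncomputable section

namespace Pool.Agent.P.MP_d483fb_an.Z.TZ

variable {Γ : Type} [Group Γ]

/-- Property (T) passes to quotients. -/
theorem HasT.of_surjective {Λ : Type} [Group Λ] (hT : HasT Γ) (f : Γ →* Λ)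
    (hf : Function.Surjective f) : HasT Λ := by
  obtain ⟨S, ε, hε, h⟩ := hT.gap
  classical
  refine hasT_of_gap (S.image f) hε fun H _ _ _ π hπ h0 v hv => ?_
  by_contra hv0
  obtain ⟨w, hw, -, hw0⟩ := h H (π.comp f) (fun g v => hπ _ v) v hv0
    fun s hs => hv _ (Finset.mem_image_of_mem f hs)
  refine hw0 (h0 w fun g => ?_)
  obtain ⟨g, rfl⟩ := hf g
  exact hw g

theorem HasT.of_mulEquiv {Λ : Type} [Group Λ] (hT : HasT Γ) (e : Γ ≃* Λ) : HasT Λ :=
  hT.of_surjective e.toMonoidHom e.surjective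

section Koop

variable (G : Type*) [Group G] {X : Type*} [MulAction G X] [MeasurableSpace X] (μ : Measure X)
  [MeasurableConstSMul G X] [SMulInvariantMeasure G X μ] (E : Type*) [NormedAddCommGroup E]
  [NormedSpace ℝ E]

/-- The Koopman representation on vector valued `L²` functions. -/
def kp : G →* (Lp E 2 μ →L[ℝ] Lp E 2 μ) where
  toFun g := (Lp.compMeasurePreservingₗᵢ ℝ (fun x => g⁻¹ • x)
    (measurePreserving_smul g⁻¹ μ)).toContinuousLinearMap
  map_one' := by
    ext f
    refine (Lp.coeFn_compMeasurePreserving f (measurePreserving_smul (1 : G)⁻¹ μ)).trans ?_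
    refine Eventually.of_forall fun x => ?_
    simp
  map_mul' g h := by
    ext f
    refine (Lp.coeFn_compMeasurePreserving f (measurePreserving_smul (g * h)⁻¹ μ)).trans ?_
    have h1 := Lp.coeFn_compMeasurePreserving
      (Lp.compMeasurePreserving (fun x => h⁻¹ • x) (measurePreserving_smul h⁻¹ μ) f)
      (measurePreserving_smul g⁻¹ μ)
    have h2 := (measurePreserving_smul g⁻¹ μ).quasiMeasurePreserving.ae_eq_comp
      (Lp.coeFn_compMeasurePreserving f (measurePreserving_smul h⁻¹ μ))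
    refine EventuallyEq.symm ((h1.trans h2).trans (Eventually.of_forall fun x => ?_))
    simp [mul_smul]

variable {G E}

theorem kp_ae (g : G) (f : Lp E 2 μ) : kp G μ E g f =ᵐ[μ] fun x => f (g⁻¹ • x) :=
  Lp.coeFn_compMeasurePreserving f (measurePreserving_smul g⁻¹ μ)

theorem kp_norm (g : G) (f : Lp E 2 μ) : ‖kp G μ E g f‖ = ‖f‖ :=
  Lp.norm_compMeasurePreserving f (measurePreserving_smul g⁻¹ μ)

end Koop

/-- Property (T) for measure preserving actions: an almost invariant function is close to an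
invariant function. -/
theorem HasT.l2 (hT : HasT Γ) : ∃ (S : Finset Γ) (C : ℝ), 0 ≤ C ∧
    ∀ (X : Type) [MeasurableSpace X] [MulAction Γ X] [MeasurableConstSMul Γ X] (μ : Measure X)
      [SMulInvariantMeasure Γ X μ] (E : Type) [NormedAddCommGroup E] [InnerProductSpace ℝ E]
      [CompleteSpace E] (f : X → E), MemLp f 2 μ → ∃ w : X → E, StronglyMeasurable w ∧
        MemLp w 2 μ ∧ (∀ g : Γ, (fun x => w (g • x)) =ᵐ[μ] w) ∧
        eLpNorm (fun x => f x - w x) 2 μ ≤
          ENNReal.ofReal C * ∑ s ∈ S, eLpNorm (fun x => f (s • x) - f x) 2 μ := by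
  obtain ⟨S, C, hC, h⟩ := hT
  refine ⟨S, C, hC, fun X _ _ _ μ _ E _ _ _ f hf => ?_⟩
  obtain ⟨w, hw, hle⟩ := h (Lp E 2 μ) (kp Γ μ E) (kp_norm μ) (hf.toLp f)
  refine ⟨w, Lp.stronglyMeasurable w, Lp.memLp w, fun g => ?_, ?_⟩
  · have := kp_ae μ g⁻¹ w
    rw [hw, inv_inv] at this
    exact this.symm
  · have e1 : eLpNorm (fun x => f x - w x) 2 μ = ENNReal.ofReal ‖hf.toLp f - w‖ := by
      rw [Lp.norm_def, ENNReal.ofReal_toReal (Lp.eLpNorm_ne_top _)]
      refine eLpNorm_congr_ae ?_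
      filter_upwards [Lp.coeFn_sub (hf.toLp f) w, hf.coeFn_toLp] with x a1 a2
      rw [a1, Pi.sub_apply, a2]
    have e2 : ∀ s : Γ, eLpNorm (fun x => f (s • x) - f x) 2 μ =
        ENNReal.ofReal ‖kp Γ μ E s (hf.toLp f) - hf.toLp f‖ := by
      intro s
      rw [← kp_norm μ s⁻¹, map_sub, EM.pi_inv_apply, norm_sub_rev, Lp.norm_def,
        ENNReal.ofReal_toReal (Lp.eLpNorm_ne_top _)]
      refine eLpNorm_congr_ae ?_
      filter_upwards [Lp.coeFn_sub (kp Γ μ E s⁻¹ (hf.toLp f)) (hf.toLp f), hf.coeFn_toLp,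
        kp_ae μ s⁻¹ (hf.toLp f),
        (measurePreserving_smul s μ).quasiMeasurePreserving.ae_eq_comp hf.coeFn_toLp]
        with x a1 a2 a3 a4
      rw [a1, Pi.sub_apply, a2, a3, inv_inv]
      exact congrArg (· - f x) a4.symm
    simp only [e1, e2]
    rw [← ENNReal.ofReal_sum_of_nonneg fun _ _ => norm_nonneg _, ← ENNReal.ofReal_mul hC]
    exact ENNReal.ofReal_le_ofReal hle

theorem smulInv_count {G X : Type*} [Group G] [MulAction G X] [MeasurableSpace X]
    [DiscreteMeasurableSpace X] : SMulInvariantMeasure G X Measure.count :=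
  ⟨fun g s hs => by
    rw [Measure.count_apply hs, Measure.count_apply MeasurableSet.of_discrete,
      encard_preimage_of_bijective (MulAction.bijective g)]⟩

/-- A group with property (T) is finitely generated. -/
theorem HasT.fg (hT : HasT Γ) : Group.FG Γ := by
  classical
  obtain ⟨S, C, hC, h⟩ := hT.l2
  let Λ := Subgroup.closure (S : Set Γ)
  let _ : MeasurableSpace (Γ ⧸ Λ) := ⊤
  have : DiscreteMeasurableSpace (Γ ⧸ Λ) := ⟨fun _ => trivial⟩
  have : MeasurableConstSMul Γ (Γ ⧸ Λ) := ⟨fun _ => Measurable.of_discrete⟩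
  have : SMulInvariantMeasure Γ (Γ ⧸ Λ) Measure.count := smulInv_count
  let o : Γ ⧸ Λ := (1 : Γ)
  have ho : ∀ g : Γ, g • o = o ↔ g ∈ Λ := fun g => by
    rw [eq_comm]
    exact QuotientGroup.eq.trans (by simp)
  obtain ⟨w, -, -, hw, hle⟩ := h (Γ ⧸ Λ) Measure.count ℝ (indicator {o} fun _ => 1)
    (memLp_indicator_const 2 MeasurableSet.of_discrete 1 (Or.inr (by simp)))
  have hz : ∀ s ∈ S, eLpNorm (fun x => indicator {o} (fun _ => (1 : ℝ)) (s • x) -
      indicator {o} (fun _ => (1 : ℝ)) x) 2 Measure.count = 0 := by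
    intro s hs
    have hs' : s • o = o := (ho s).mpr (Subgroup.subset_closure hs)
    have : ∀ x : Γ ⧸ Λ, s • x = o ↔ x = o := fun x => by
      rw [← smul_left_cancel_iff s (x := x), hs']
    simp [indicator, this]
  rw [Finset.sum_eq_zero hz, mul_zero, nonpos_iff_eq_zero,
    eLpNorm_eq_zero_iff Measurable.of_discrete.aestronglyMeasurable two_ne_zero] at hle
  have h1 := Measure.ae_count_iff.mp hle
  refine ⟨⟨S, top_le_iff.mp fun g _ => (ho g).mp ?_⟩⟩
  have a1 := sub_eq_zero.mp (h1 o)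
  have a2 := sub_eq_zero.mp (h1 (g • o))
  have a3 : w (g • o) = w o := Measure.ae_count_iff.mp (hw g) o
  rw [a3, ← a1] at a2
  by_contra hc
  simp [indicator, hc] at a2

theorem HasT.countable (hT : HasT Γ) : Countable Γ := by
  obtain ⟨α, _, φ, hφ⟩ := Group.fg_iff_exists_freeGroup_hom_surjective_finite.mp hT.fg
  exact hφ.countable

/-- A group with property (T) has no additive character. -/
theorem HasT.hom_eq_zero (hT : HasT Γ) (χ : Γ → ℝ) (hχ : ∀ g h, χ (g * h) = χ g + χ h) (g : Γ) :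
    χ g = 0 := by
  obtain ⟨S, ε, hε, h⟩ := hT.gap
  have h1 : χ 1 = 0 := by
    have := hχ 1 1
    rw [one_mul] at this
    linarith
  have hc : ∀ s, Tendsto (fun t : ℝ => ‖Complex.exp (Complex.I * (t * χ s : ℝ)) - 1‖) (𝓝[>] 0)
      (𝓝 0) := by
    intro s
    have : Continuous fun t : ℝ => ‖Complex.exp (Complex.I * (t * χ s : ℝ)) - 1‖ := by fun_prop
    simpa using (this.tendsto 0).mono_left nhdsWithin_le_nhds
  have ht : Tendsto (fun t : ℝ => |t * χ g|) (𝓝[>] 0) (𝓝 0) := by
    have : Continuous fun t : ℝ => |t * χ g| := by fun_prop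
    simpa using (this.tendsto 0).mono_left nhdsWithin_le_nhds
  obtain ⟨t, ⟨a1, a2⟩, a3⟩ := ((((eventually_all_finset S).mpr fun s _ =>
    (hc s).eventually (ge_mem_nhds hε)).and (ht.eventually (gt_mem_nhds Real.two_pi_pos))).and
    self_mem_nhdsWithin).exists
  let π : Γ →* (ℂ →L[ℝ] ℂ) :=
    { toFun := fun s => ContinuousLinearMap.mul ℝ ℂ (Complex.exp (Complex.I * (t * χ s : ℝ)))
      map_one' := by
        ext1 z
        simp [h1]
      map_mul' := fun a b => by
        ext1 z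
        simp [hχ, mul_add, Complex.exp_add, mul_assoc] }
  have hπ : ∀ s z, π s z = Complex.exp (Complex.I * (t * χ s : ℝ)) * z := fun _ _ => rfl
  obtain ⟨w, hw, -, hw0⟩ := h ℂ π (fun s z => by
    rw [hπ, norm_mul, Complex.norm_exp_I_mul_ofReal, one_mul]) 1 one_ne_zero
    fun s hs => by simpa [hπ] using a1 s hs
  have e := hw g
  rw [hπ, mul_left_eq_self₀, or_iff_left hw0, Complex.exp_eq_one_iff] at e
  obtain ⟨n, hn⟩ := e
  have e2 : t * χ g = n * (2 * Real.pi) := by simpa using congrArg Complex.im hn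
  have hn0 : n = 0 := by
    rw [e2, abs_mul, abs_of_pos Real.two_pi_pos, mul_lt_iff_lt_one_left Real.two_pi_pos] at a2
    exact Int.abs_lt_one_iff.mp (by exact_mod_cast a2)
  rw [hn0, Int.cast_zero, zero_mul] at e2
  exact (mul_eq_zero.mp e2).resolve_left (ne_of_gt a3)

theorem HasT.kazG [TopologicalSpace Γ] (hT : HasT Γ) : KazG Γ := by
  obtain ⟨S, ε, hε, h⟩ := hT.gap
  refine ⟨S, S.finite_toSet.isCompact, ε, hε, fun H _ _ _ π hπ _ h0 v hv => ?_⟩
  by_contra hv0
  obtain ⟨w, hw, -, hw0⟩ := h H π hπ v hv0 hv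
  exact hw0 (h0 w hw)

/-- Property (T) passes to subgroups of finite index. -/
theorem HasT.of_finiteIndex (hT : HasT Γ) (Λ : Subgroup Γ) [Λ.FiniteIndex] : HasT Λ := by
  let _ : TopologicalSpace Γ := ⊥
  have : DiscreteTopology Γ := ⟨rfl⟩
  have := hT.countable
  refine hasT_of_lattice Λ hT.kazG ⟨inferInstance, ?_⟩
  let _ : MeasurableSpace (Γ ⧸ Λ) := borel _
  have : BorelSpace (Γ ⧸ Λ) := ⟨rfl⟩
  have : DiscreteTopology (Γ ⧸ Λ) := QuotientGroup.discreteTopology (isOpen_discrete _)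
  have : Finite (Γ ⧸ Λ) := Subgroup.finite_quotient_of_finiteIndex
  have : SMulInvariantMeasure Γ (Γ ⧸ Λ) Measure.count := smulInv_count
  refine ⟨(Measure.count (univ : Set (Γ ⧸ Λ)))⁻¹ • Measure.count, ⟨?_⟩, inferInstance⟩
  rw [Measure.smul_apply, smul_eq_mul]
  exact ENNReal.inv_mul_cancel (Measure.count_ne_zero_iff.mpr univ_nonempty) (measure_ne_top _ _)

/-- The form used in the last step. -/
theorem HasT.fg_and_hom (hT : HasT Γ) (L : Subgroup Γ) (hL : L.FiniteIndex) : Group.FG L ∧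
    ∀ f : L → ℝ, (∀ g h, f (g * h) = f g + f h) → ∀ g, f g = 0 :=
  ⟨(hT.of_finiteIndex L).fg, (hT.of_finiteIndex L).hom_eq_zero⟩

end Pool.Agent.P.MP_d483fb_an.Z.TZ
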