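import Mathlib

/-!
Thurston stability: a finitely generated group without nonzero homomorphism to the reals that fixes
a point of a connected manifold with identity derivatives acts trivially.
-/

open scoped Manifold ContDiff Topology
open Filter Set

namespace Pool.Agent.P.MP_d483fb_an.Z.TZ

section Local

variable {Γ : Type*} [Group Γ] {E : Type*} [NormedAddCommGroup E] [NormedSpace ℝ E]
  [FiniteDimensional ℝ E]

/-- An almost additive family of functions that is bounded on generators converges along an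
ultrafilter to an additive map. -/
theorem ultra_additive {X : Type*} (U : Ultrafilter X) (d : Γ → X → E) (S : Set Γ)
    (hS : Subgroup.closure S = ⊤) (h1 : ∀ x, d 1 x = 0)
    (hb : ∀ s ∈ S, ∀ᶠ x in (U : Filter X), ‖d s x‖ ≤ 1)
    (hadd : ∀ g h, ∀ ε : ℝ, 0 < ε →
      ∀ᶠ x in (U : Filter X), ‖d (g * h) x - d g x - d h x‖ ≤ ε * ‖d h x‖) :
    ∃ b : Γ → E, (∀ g h, b (g * h) = b g + b h) ∧ ∀ g, Tendsto (d g) U (𝓝 (b g)) := by
  have hbd : ∀ g, ∃ C : ℝ, ∀ᶠ x in (U : Filter X), ‖d g x‖ ≤ C := by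
    intro g
    have hg : g ∈ Subgroup.closure S := hS ▸ Subgroup.mem_top g
    induction hg using Subgroup.closure_induction with
    | mem s hs => exact ⟨1, hb s hs⟩
    | one => exact ⟨0, Eventually.of_forall fun x => by simp [h1]⟩
    | mul g h _ _ ihg ihh =>
      obtain ⟨C, hC⟩ := ihg
      obtain ⟨C', hC'⟩ := ihh
      refine ⟨C + 2 * C', ?_⟩
      filter_upwards [hC, hC', hadd g h 1 one_pos] with x a1 a2 a3
      have e : d (g * h) x = (d (g * h) x - d g x - d h x) + d g x + d h x := by abel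
      rw [e]
      have := norm_add₃_le (a := d (g * h) x - d g x - d h x) (b := d g x) (c := d h x)
      linarith
    | inv g _ ihg =>
      obtain ⟨C, hC⟩ := ihg
      refine ⟨2 * C, ?_⟩
      filter_upwards [hC, hadd g g⁻¹ (1 / 2) (by norm_num)] with x a1 a2
      rw [mul_inv_cancel, h1] at a2
      have e : d g⁻¹ x = -(0 - d g x - d g⁻¹ x) - d g x := by abel
      have := norm_sub_le (-(0 - d g x - d g⁻¹ x)) (d g x)
      rw [← e, norm_neg] at this
      linarith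
  have hlim : ∀ g, ∃ v, Tendsto (d g) U (𝓝 v) := by
    intro g
    obtain ⟨C, hC⟩ := hbd g
    obtain ⟨v, -, hv⟩ := (isCompact_closedBall (0 : E) C).ultrafilter_le_nhds (U.map (d g))
      (by
        rw [le_principal_iff, Ultrafilter.mem_coe, Ultrafilter.mem_map]
        filter_upwards [hC] with x hx
        simpa using hx)
    exact ⟨v, hv⟩
  choose b hbl using hlim
  refine ⟨b, fun g h => ?_, hbl⟩
  have h2 : ∀ ε : ℝ, 0 < ε → ‖b (g * h) - b g - b h‖ ≤ ε * ‖b h‖ := fun ε hε =>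
    le_of_tendsto_of_tendsto (((hbl (g * h)).sub (hbl g)).sub (hbl h)).norm
      ((hbl h).norm.const_mul ε) (hadd g h ε hε)
  have h3 : ‖b (g * h) - b g - b h‖ ≤ 0 := by
    have h4 : Tendsto (fun ε : ℝ => ε * ‖b h‖) (𝓝[>] 0) (𝓝 (0 * ‖b h‖)) :=
      (tendsto_nhdsWithin_of_tendsto_nhds tendsto_id).mul_const _
    rw [zero_mul] at h4
    exact ge_of_tendsto h4 (eventually_nhdsWithin_of_forall fun ε hε => h2 ε hε)
  have h5 := norm_le_zero_iff.1 h3
  rw [sub_sub, sub_eq_zero] at h5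
  exact h5

/-- The local form of Thurston stability. -/
theorem thurston_local [Group.FG Γ]
    (hH : ∀ f : Γ → ℝ, (∀ g h, f (g * h) = f g + f h) → ∀ g, f g = 0)
    {X : Type*} [TopologicalSpace X] (al : Γ →* Equiv.Perm X) (p : X)
    (hc : ∀ g, Tendsto (al g) (𝓝 p) (𝓝 p)) (φ : X → E) {W : Set X} (hW : W ∈ 𝓝 p)
    (hφ : InjOn φ W)
    (hD : ∀ g, ∀ ε : ℝ, 0 < ε → ∀ᶠ q : X × X in 𝓝 p ×ˢ 𝓝 p,
      ‖φ (al g q.1) - φ (al g q.2) - (φ q.1 - φ q.2)‖ ≤ ε * ‖φ q.1 - φ q.2‖) :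
    ∀ᶠ x in 𝓝 p, ∀ g, al g x = x := by
  classical
  obtain ⟨S, hS⟩ := (Group.fg_def.1 ‹Group.FG Γ›)
  by_contra hne
  have hfix : ∀ x, (∀ s ∈ S, al s x = x) → ∀ g, al g x = x := by
    intro x hx g
    have hg : g ∈ Subgroup.closure (S : Set Γ) := hS ▸ Subgroup.mem_top g
    induction hg using Subgroup.closure_induction with
    | mem s hs => exact hx s hs
    | one => simp
    | mul g h _ _ ihg ihh => rw [map_mul, Equiv.Perm.mul_apply, ihh, ihg]
    | inv g _ ihg => rw [map_inv, Equiv.Perm.inv_eq_iff_eq, ihg]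
  set e : X → ℝ := fun x => ∑ s ∈ S, ‖φ (al s x) - φ x‖ with he
  have hfr : ∃ᶠ x in 𝓝 p, 0 < e x := by
    have h1 : ∀ᶠ x in 𝓝 p, ∀ s ∈ S, al s x ∈ W :=
      (eventually_all_finset S).2 fun s _ => (hc s).eventually hW
    refine ((not_eventually.1 hne).and_eventually (h1.and hW)).mono fun x ⟨a1, a2, a3⟩ => ?_
    by_contra h0
    refine a1 (hfix x fun s hs => hφ (a2 s hs) a3 ?_)
    have h2 : ‖φ (al s x) - φ x‖ ≤ e x :=
      Finset.single_le_sum (f := fun s => ‖φ (al s x) - φ x‖) (fun _ _ => norm_nonneg _) hs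
    exact sub_eq_zero.1 (norm_le_zero_iff.1 (h2.trans (not_lt.1 h0)))
  have hnb : (𝓝 p ⊓ 𝓟 {x | 0 < e x}).NeBot := frequently_iff_neBot.1 hfr
  set U := Ultrafilter.of (𝓝 p ⊓ 𝓟 {x | 0 < e x}) with hU
  have hU1 : (U : Filter X) ≤ 𝓝 p := (Ultrafilter.of_le _).trans inf_le_left
  have hU2 : ∀ᶠ x in (U : Filter X), 0 < e x :=
    le_principal_iff.1 ((Ultrafilter.of_le _).trans inf_le_right)
  obtain ⟨b, hb1, hb2⟩ := ultra_additive U (fun g x => (e x)⁻¹ • (φ (al g x) - φ x)) S hS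
    (fun x => by simp) (fun s hs => by
      filter_upwards [hU2] with x hx
      rw [norm_smul, norm_inv, Real.norm_of_nonneg hx.le, inv_mul_le_iff₀ hx, mul_one]
      exact Finset.single_le_sum (f := fun s => ‖φ (al s x) - φ x‖) (fun _ _ => norm_nonneg _) hs)
    (fun g h ε hε => by
      have h1 : Tendsto (fun x => (al h x, x)) U (𝓝 p ×ˢ 𝓝 p) :=
        ((hc h).mono_left hU1).prodMk hU1
      filter_upwards [h1.eventually (hD g ε hε), hU2] with x a1 hx
      rw [← smul_sub, ← smul_sub, norm_smul, norm_smul, mul_left_comm]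
      refine mul_le_mul_of_nonneg_left (le_trans (le_of_eq ?_) a1) (norm_nonneg _)
      rw [map_mul, Equiv.Perm.mul_apply]
      congr 1
      abel)
  have hb0 : ∀ g, b g = 0 := fun g => by
    refine (SeparatingDual.eq_zero_iff_forall_dual_eq_zero (R := ℝ) _).2 fun l => ?_
    exact hH (fun g => l (b g)) (fun g h => by rw [hb1, map_add]) g
  have h1 : Tendsto (fun x => ∑ s ∈ S, ‖(e x)⁻¹ • (φ (al s x) - φ x)‖) U (𝓝 (∑ s ∈ S, ‖b s‖)) :=
    tendsto_finsetSum _ fun s _ => (hb2 s).norm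
  have h2 : ∀ᶠ x in (U : Filter X), (1 : ℝ) ≤ ∑ s ∈ S, ‖(e x)⁻¹ • (φ (al s x) - φ x)‖ := by
    filter_upwards [hU2] with x hx
    simp only [norm_smul, norm_inv, Real.norm_of_nonneg hx.le, ← Finset.mul_sum]
    exact (inv_mul_cancel₀ hx.ne').ge
  have h3 := ge_of_tendsto h1 h2
  simp only [hb0, norm_zero, Finset.sum_const_zero] at h3
  exact absurd h3 (by norm_num)

end Local

variable {Γ : Type*} [Group Γ] {E : Type*} [NormedAddCommGroup E] [NormedSpace ℝ E]
  [FiniteDimensional ℝ E] {M : Type*} [TopologicalSpace M] [ChartedSpace E M]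

omit [FiniteDimensional ℝ E] in
theorem chart_contDiffAt {f : M → M} (hf : ContMDiff 𝓘(ℝ, E) 𝓘(ℝ, E) 1 f) {p : M} (hp : f p = p) :
    ContDiffAt ℝ 1 (extChartAt 𝓘(ℝ, E) p ∘ f ∘ (extChartAt 𝓘(ℝ, E) p).symm)
      (extChartAt 𝓘(ℝ, E) p p) := by
  have h := (contMDiffAt_iff.1 (hf p)).2
  rwa [ModelWithCorners.range_eq_univ, contDiffWithinAt_univ, hp] at h

/-- Thurston stability near a fixed point, with the derivative read in the chart. -/
theorem thurston_chart [Group.FG Γ]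
    (hH : ∀ f : Γ → ℝ, (∀ g h, f (g * h) = f g + f h) → ∀ g, f g = 0)
    (al : Γ →* Equiv.Perm M) (hal : ∀ g, ContMDiff 𝓘(ℝ, E) 𝓘(ℝ, E) 1 (al g)) (p : M)
    (hp : ∀ g, al g p = p)
    (hD : ∀ g v, fderiv ℝ (extChartAt 𝓘(ℝ, E) p ∘ al g ∘ (extChartAt 𝓘(ℝ, E) p).symm)
      (extChartAt 𝓘(ℝ, E) p p) v = v) :
    ∀ᶠ x in 𝓝 p, ∀ g, al g x = x := by
  have hc : ∀ g, Tendsto (al g) (𝓝 p) (𝓝 p) := fun g => by
    have := (hal g).continuous.continuousAt (x := p)
    rwa [ContinuousAt, hp] at this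
  have h5 := extChartAt_source_mem_nhds (I := 𝓘(ℝ, E)) p
  refine thurston_local hH al p hc (extChartAt 𝓘(ℝ, E) p) h5 (extChartAt 𝓘(ℝ, E) p).injOn
    fun g ε hε => ?_
  have h1 := ((chart_contDiffAt (hal g) (hp g)).hasStrictFDerivAt one_ne_zero).isLittleO.def hε
  have h2 := (continuousAt_extChartAt (I := 𝓘(ℝ, E)) p).tendsto
  have h3 : Tendsto (fun q : M × M => (extChartAt 𝓘(ℝ, E) p q.1, extChartAt 𝓘(ℝ, E) p q.2))
      (𝓝 p ×ˢ 𝓝 p) (𝓝 (extChartAt 𝓘(ℝ, E) p p, extChartAt 𝓘(ℝ, E) p p)) :=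
    (h2.comp tendsto_fst).prodMk_nhds (h2.comp tendsto_snd)
  filter_upwards [h3.eventually h1, tendsto_fst.eventually h5, tendsto_snd.eventually h5]
    with q a1 a2 a3
  simp only [Function.comp_apply] at a1
  rwa [hD, (extChartAt 𝓘(ℝ, E) p).left_inv a2, (extChartAt 𝓘(ℝ, E) p).left_inv a3] at a1

/-- Thurston stability. -/
theorem thurston [Group.FG Γ] [T2Space M] [PreconnectedSpace M]
    (hH : ∀ f : Γ → ℝ, (∀ g h, f (g * h) = f g + f h) → ∀ g, f g = 0)
    (al : Γ →* Equiv.Perm M) (hal : ∀ g, ContMDiff 𝓘(ℝ, E) 𝓘(ℝ, E) 1 (al g)) (p : M)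
    (hp : ∀ g, al g p = p) (hD : ∀ g (v : E), mfderiv 𝓘(ℝ, E) 𝓘(ℝ, E) (al g) p v = v) :
    ∀ g x, al g x = x := by
  have hcl : IsClosed {y | ∀ᶠ z in 𝓝 y, ∀ g, al g z = z} := by
    refine isClosed_iff_frequently.2 fun y hy => ?_
    have hy0 : ∀ g, al g y = y := fun g =>
      tendsto_nhds_unique_of_frequently_eq ((hal g).continuous.tendsto y)
        (continuous_id.tendsto y) (hy.mono fun z hz => hz.self_of_nhds g)
    refine thurston_chart hH al hal y hy0 fun g v => ?_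
    have h1 := chart_contDiffAt (hal g) (hy0 g)
    have hc := continuousAt_extChartAt (I := 𝓘(ℝ, E)) y
    have h2 := (((ContinuousLinearMap.apply ℝ E v).continuous.tendsto _).comp
      (h1.continuousAt_fderiv one_ne_zero)).comp hc
    refine tendsto_nhds_unique_of_frequently_eq h2 tendsto_const_nhds ?_
    refine (hy.and_eventually (extChartAt_source_mem_nhds (I := 𝓘(ℝ, E)) y)).mono
      fun z ⟨hz, hz2⟩ => ?_
    have h4 : Tendsto (extChartAt 𝓘(ℝ, E) y).symm (𝓝 (extChartAt 𝓘(ℝ, E) y z)) (𝓝 z) := by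
      have := continuousAt_extChartAt_symm' hz2
      rwa [ContinuousAt, (extChartAt 𝓘(ℝ, E) y).left_inv hz2] at this
    have h5 : (extChartAt 𝓘(ℝ, E) y ∘ al g ∘ (extChartAt 𝓘(ℝ, E) y).symm)
        =ᶠ[𝓝 (extChartAt 𝓘(ℝ, E) y z)] id := by
      filter_upwards [h4.eventually hz, extChartAt_target_mem_nhds'
        ((extChartAt 𝓘(ℝ, E) y).map_source hz2)] with u hu hu2
      simp only [Function.comp_apply, id]
      rw [hu g, (extChartAt 𝓘(ℝ, E) y).right_inv hu2]
    have h6 := h5.fderiv_eq (𝕜 := ℝ)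
    simp only [Function.comp_apply, ContinuousLinearMap.apply_apply]
    rw [h6, fderiv_id]
    rfl
  have h3 : ∀ᶠ z in 𝓝 p, ∀ g, al g z = z := by
    refine thurston_chart hH al hal p hp fun g v => ?_
    have h1 := hD g v
    rw [((hal g).mdifferentiableAt (x := p) one_ne_zero).mfderiv, ModelWithCorners.range_eq_univ,
      fderivWithin_univ, writtenInExtChartAt, hp] at h1
    exact h1
  have h4 : IsClopen {y | ∀ᶠ z in 𝓝 y, ∀ g, al g z = z} :=
    ⟨hcl, isOpen_setOfPred_eventually_nhds⟩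
  have h5 := h4.eq_univ ⟨p, h3⟩
  intro g y
  have : y ∈ {y | ∀ᶠ z in 𝓝 y, ∀ g, al g z = z} := h5 ▸ Set.mem_univ y
  exact Filter.Eventually.self_of_nhds (p := fun z => ∀ g, al g z = z) (x := y) this g

end Pool.Agent.P.MP_d483fb_an.Z.TZ
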