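import Pool.Agent.P.MP_d483fb_an.Z.Stmt
import Pool.Agent.P.MP_d483fb_an.Z.TZ.Thur

/-!
The end of the proof: a finite index subgroup that fixes a point with bounded derivatives acts
through a finite group.
-/

open scoped Manifold ContDiff Topology Matrix RealInnerProductSpace
open Filter Set MeasureTheory

namespace Pool.Agent.P.MP_d483fb_an.Z.TZ

section Orth

variable {Λ : Type*} [Group Λ] {E : Type*} [NormedAddCommGroup E] [InnerProductSpace ℝ E]
  [FiniteDimensional ℝ E]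

/-- A bounded group of linear maps preserves an inner product. -/
theorem exists_invariant_form (σ : Λ →* (E →L[ℝ] E)) {C : ℝ} (hC : ∀ g, ‖σ g‖ ≤ C) :
    ∃ B : LinearMap.BilinForm ℝ E, B.IsSymm ∧ (∀ v, v ≠ 0 → 0 < B v v) ∧
      ∀ g u v, B (σ g u) (σ g v) = B u v := by
  let S : Submonoid (E →L[ℝ] E) := (MonoidHom.mrange σ).topologicalClosure
  have hS : IsCompact (S : Set (E →L[ℝ] E)) := by
    refine (isCompact_closedBall (0 : E →L[ℝ] E) C).of_isClosed_subset isClosed_closure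
      (closure_minimal ?_ Metric.isClosed_closedBall)
    rintro _ ⟨g, rfl⟩
    simpa using hC g
  have : CompactSpace S.units := isCompact_iff_compactSpace.1 (Submonoid.units_isCompact hS)
  borelize ↥S.units
  let μ : Measure S.units := Measure.haar
  let T : S.units → E →L[ℝ] E := fun k => ((k⁻¹ : S.units) : (E →L[ℝ] E)ˣ)
  have hT : Continuous T := Units.continuous_val.comp (continuous_subtype_val.comp continuous_inv)
  have hc : ∀ u v, Continuous fun k => ⟪T k u, T k v⟫ := fun u v =>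
    (hT.clm_apply continuous_const).inner (hT.clm_apply continuous_const)
  have hi : ∀ u v, Integrable (fun k => ⟪T k u, T k v⟫) μ := fun u v =>
    (hc u v).integrable_of_hasCompactSupport (HasCompactSupport.of_compactSpace _)
  let B : LinearMap.BilinForm ℝ E := LinearMap.mk₂ ℝ (fun u v => ∫ k, ⟪T k u, T k v⟫ ∂μ)
    (fun u u' v => by
      simp only [map_add, inner_add_left]
      exact integral_add (hi u v) (hi u' v))
    (fun c u v => by
      simp only [map_smul, real_inner_smul_left, smul_eq_mul]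
      exact integral_const_mul _ _)
    (fun u v v' => by
      simp only [map_add, inner_add_right]
      exact integral_add (hi u v) (hi u v'))
    (fun c u v => by
      simp only [map_smul, real_inner_smul_right, smul_eq_mul]
      exact integral_const_mul _ _)
  have hB : ∀ u v, B u v = ∫ k, ⟪T k u, T k v⟫ ∂μ := fun _ _ => rfl
  refine ⟨B, ⟨fun u v => ?_⟩, fun v hv => ?_, fun g u v => ?_⟩
  · simp only [hB, real_inner_comm]
  · refine (hc v v).integral_pos_of_hasCompactSupport_nonneg_nonzero (x := 1)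
      (HasCompactSupport.of_compactSpace _) (fun k => real_inner_self_nonneg) ?_
    simpa [T] using hv
  · have hm : ∀ g, σ g ∈ S := fun g => Submonoid.le_topologicalClosure _ ⟨g, rfl⟩
    let k0 : S.units := ⟨σ.toHomUnits g, (Submonoid.mem_units_iff _ _).2 ⟨hm g, by
      rw [← map_inv]
      exact hm g⁻¹⟩⟩
    rw [hB, hB, ← integral_mul_left_eq_self _ k0]
    have e : ∀ k w, T (k0 * k) (σ g w) = T k w := by
      intro k w
      have h1 : T (k0 * k) * σ g = T k := by
        have h2 : σ g = ((k0 : (E →L[ℝ] E)ˣ) : E →L[ℝ] E) := rfl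
        simp only [T, h2, mul_inv_rev, Subgroup.coe_mul, Subgroup.coe_inv, Units.val_mul, mul_assoc,
          Units.inv_mul, mul_one]
      rw [← h1]
      rfl
    simp only [e]

/-- A bounded linear representation has the same kernel as an orthogonal one. -/
theorem exists_orth {m : ℕ} (hm : Module.finrank ℝ E = m) (σ : Λ →* (E →L[ℝ] E)) {C : ℝ}
    (hC : ∀ g, ‖σ g‖ ≤ C) :
    ∃ ρ : Λ →* Mat m, (∀ g, ρ g * (ρ g)ᵀ = 1) ∧ ∀ g, ρ g = 1 → ∀ v, σ g v = v := by
  classical
  subst hm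
  obtain ⟨B, hs, hp, hi⟩ := exists_invariant_form σ hC
  obtain ⟨b, hb⟩ := LinearMap.BilinForm.exists_orthogonal_basis (B := B) ⟨hs.eq⟩
  have hb0 : ∀ i, 0 < B (b i) (b i) := fun i => hp _ (b.ne_zero i)
  let c := b.unitsSMul fun i => Units.mk0 (√(B (b i) (b i)))⁻¹
    (inv_ne_zero (Real.sqrt_pos.2 (hb0 i)).ne')
  have hc : ∀ i j, B (c i) (c j) = if i = j then 1 else 0 := by
    intro i j
    simp only [c, Module.Basis.unitsSMul_apply, Units.smul_def, Units.val_mk0, map_smul,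
      LinearMap.smul_apply, smul_eq_mul]
    split_ifs with h
    · subst h
      have := Real.mul_self_sqrt (hb0 i).le
      have h0 := (Real.sqrt_pos.2 (hb0 i)).ne'
      field_simp
      rw [sq, this]
    · rw [hb h, mul_zero, mul_zero]
  let σ' : Λ →* Module.End ℝ E :=
    { toFun := fun g => (σ g : E →ₗ[ℝ] E)
      map_one' := by rw [map_one]; rfl
      map_mul' := fun g h => by rw [map_mul]; rfl }
  refine ⟨(LinearMap.toMatrixAlgEquiv c).toAlgHom.toMonoidHom.comp σ', fun g => ?_,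
    fun g hg v => ?_⟩
  · rw [mul_eq_one_comm]
    ext i j
    have e : ∀ i, σ g (c i) = ∑ k, LinearMap.toMatrix c c (σ' g) k i • c k := fun i => by
      simp only [LinearMap.toMatrix_apply]
      exact (c.sum_repr _).symm
    have h1 := hi g (c i) (c j)
    rw [hc, e i, e j] at h1
    simp only [map_sum, map_smul, LinearMap.sum_apply, LinearMap.smul_apply, hc, smul_eq_mul,
      mul_ite, mul_one, mul_zero, Finset.sum_ite_eq', Finset.mem_univ, if_true] at h1
    rw [Matrix.mul_apply, Matrix.one_apply, ← h1]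
    exact Finset.sum_congr rfl fun k _ => mul_comm _ _
  · have h1 : σ' g = 1 := (LinearMap.toMatrixAlgEquiv c).injective (by rw [map_one]; exact hg)
    exact LinearMap.congr_fun h1 v

end Orth

variable {Γ : Type*} [Group Γ] {m : ℕ} {M : Type*} [TopologicalSpace M]
  [ChartedSpace (EuclideanSpace ℝ (Fin m)) M]

/-- A pointwise Lipschitz bound in an immersion bounds the derivative. -/
theorem norm_mfderiv_le {W : Type*} [NormedAddCommGroup W] [NormedSpace ℝ W] {F : M → W} {p : M}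
    (hF : MDifferentiableAt (𝓡 m) 𝓘(ℝ, W) F p) {f : M → M}
    (hf : MDifferentiableAt (𝓡 m) (𝓡 m) f p) (hp : f p = p) {C : ℝ}
    (hL : ∀ᶠ y in 𝓝 p, ‖F (f y) - F p‖ ≤ C * ‖F y - F p‖) (v : EuclideanSpace ℝ (Fin m)) :
    @norm W _ (mfderiv (𝓡 m) 𝓘(ℝ, W) F p (mfderiv (𝓡 m) (𝓡 m) f p v)) ≤
      C * @norm W _ (mfderiv (𝓡 m) 𝓘(ℝ, W) F p v) := by
  have key : ∀ {Φ : M → W}, MDifferentiableAt (𝓡 m) 𝓘(ℝ, W) Φ p →
      Tendsto (fun t : ℝ => ‖t⁻¹ • (Φ ((extChartAt (𝓡 m) p).symm (extChartAt (𝓡 m) p p + t • v)) -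
        Φ p)‖) (𝓝[≠] 0) (𝓝 (@norm W _ (mfderiv (𝓡 m) 𝓘(ℝ, W) Φ p v))) := by
    intro Φ hΦ
    have h1 := hΦ.hasMFDerivAt.2
    rw [ModelWithCorners.range_eq_univ, hasFDerivWithinAt_univ] at h1
    have h2 : HasDerivAt (fun t : ℝ => extChartAt (𝓡 m) p p + t • v) v 0 := by
      simpa using ((hasDerivAt_id (0 : ℝ)).smul_const v).const_add (extChartAt (𝓡 m) p p)
    have h3 := HasFDerivAt.comp_hasDerivAt_of_eq (0 : ℝ) h1 h2 (by simp)
    have h4 := (hasDerivAt_iff_tendsto_slope_zero.1 h3).norm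
    refine h4.congr fun t => ?_
    simp [writtenInExtChartAt]
  have hFf : MDifferentiableAt (𝓡 m) 𝓘(ℝ, W) (F ∘ f) p := (hp.symm ▸ hF :
    MDifferentiableAt (𝓡 m) 𝓘(ℝ, W) F (f p)).comp p hf
  have h1 := key hFf
  rw [mfderiv_comp_apply_of_eq p hF hf hp v] at h1
  refine le_of_tendsto_of_tendsto h1 ((key hF).const_mul C) ?_
  have h2 : Tendsto (fun t : ℝ => (extChartAt (𝓡 m) p).symm (extChartAt (𝓡 m) p p + t • v))
      (𝓝[≠] 0) (𝓝 p) := by
    have h3 : Tendsto (fun t : ℝ => extChartAt (𝓡 m) p p + t • v) (𝓝 0)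
        (𝓝 (extChartAt (𝓡 m) p p)) :=
      Continuous.tendsto' (by fun_prop) _ _ (by simp)
    have h4 := (continuousAt_extChartAt_symm (I := 𝓡 m) p).tendsto
    rw [extChartAt_to_inv] at h4
    exact (h4.comp h3).mono_left nhdsWithin_le_nhds
  filter_upwards [h2.eventually hL] with t ht
  simp only [Function.comp_apply, norm_smul, hp]
  rw [mul_left_comm]
  exact mul_le_mul_of_nonneg_left ht (norm_nonneg _)

/-- A group that fixes a point with bounded derivatives acts through a finite group. -/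
theorem finite_of_fixed [T2Space M] [PreconnectedSpace M] (α : Γ →* Equiv.Perm M)
    (hα : ∀ g, ContMDiff (𝓡 m) (𝓡 m) 1 (α g))
    (hT : ∀ L : Subgroup Γ, L.FiniteIndex → Group.FG L ∧
      ∀ f : L → ℝ, (∀ g h, f (g * h) = f g + f h) → ∀ g, f g = 0)
    (hO : ∀ ρ : Γ →* Mat m, (∀ g, ρ g * (ρ g)ᵀ = 1) → (range ρ).Finite)
    {p : M} (hp : ∀ g, α g p = p) {C : ℝ}
    (hC : ∀ g (v : EuclideanSpace ℝ (Fin m)),
      @norm (EuclideanSpace ℝ (Fin m)) _ (mfderiv (𝓡 m) (𝓡 m) (α g) p v) ≤ C * ‖v‖)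
    (hC0 : 0 ≤ C) :
    ∃ L : Subgroup Γ, L.FiniteIndex ∧ ∀ g ∈ L, α g = 1 := by
  let D : Γ → (EuclideanSpace ℝ (Fin m) →L[ℝ] EuclideanSpace ℝ (Fin m)) :=
    fun g => mfderiv (𝓡 m) (𝓡 m) (α g) p
  have hd : ∀ g y, MDifferentiableAt (𝓡 m) (𝓡 m) (α g) y := fun g y =>
    (hα g).mdifferentiableAt one_ne_zero
  have hD1 : D 1 = 1 := by
    have : ((α 1 : Equiv.Perm M) : M → M) = id := by rw [map_one]; rfl
    simp only [D]
    rw [this, mfderiv_id]
    rfl
  have hDm : ∀ g h, D (g * h) = D g * D h := fun g h => by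
    have : ((α (g * h) : Equiv.Perm M) : M → M) = α g ∘ α h := by rw [map_mul]; rfl
    ext1 v
    simp only [D]
    rw [this]
    exact mfderiv_comp_apply_of_eq p (hd g p) (hd h p) (hp h) v
  obtain ⟨ρ, hρ, hk⟩ := exists_orth (m := m) (by simp) ⟨⟨D, hD1⟩, hDm⟩ (C := C)
    fun g => ContinuousLinearMap.opNorm_le_bound _ hC0 (hC g)
  have hfin : Finite ρ.toHomUnits.range := by
    refine Set.Finite.of_finite_image (f := Units.val) ((hO ρ hρ).subset ?_)
      Units.val_injective.injOn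
    rintro _ ⟨_, ⟨g, rfl⟩, rfl⟩
    exact ⟨g, rfl⟩
  have hfi : ρ.toHomUnits.ker.FiniteIndex := Subgroup.finiteIndex_ker _
  obtain ⟨h1, h2⟩ := hT _ hfi
  refine ⟨_, hfi, fun g hg => Equiv.ext fun x => ?_⟩
  exact thurston h2 (α.comp ρ.toHomUnits.ker.subtype) (fun g => hα g) p (fun g => hp g)
    (fun g v => hk g (congrArg Units.val g.2) v) ⟨g, hg⟩ x

theorem finite_range_of_trivial {P : Type*} [Group P] (α : Γ →* P) (L : Subgroup Γ)
    [L.FiniteIndex] (h : ∀ g ∈ L, α g = 1) : (range α).Finite := by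
  have : α.ker.FiniteIndex := Subgroup.finiteIndex_of_le (H := L) h
  have h1 : Finite α.range := Finite.of_equiv _ (QuotientGroup.quotientKerEquivRange α).toEquiv
  exact Set.toFinite (α.range : Set P)

theorem finiteIndex_map_subtype (L : Subgroup Γ) [L.FiniteIndex] (L' : Subgroup L)
    [L'.FiniteIndex] : (L'.map L.subtype).FiniteIndex := by
  refine ⟨?_⟩
  rw [Subgroup.index_map_of_injective _ L.subtype_injective, Subgroup.range_subtype]
  exact mul_ne_zero Subgroup.FiniteIndex.index_ne_zero Subgroup.FiniteIndex.index_ne_zero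

/-- The last step of the proof. -/
theorem end_finite [T2Space M] [PreconnectedSpace M] (α : Γ →* Equiv.Perm M)
    (hα : ∀ g, ContMDiff (𝓡 m) (𝓡 m) 1 (α g))
    (hT : ∀ L : Subgroup Γ, L.FiniteIndex → Group.FG L ∧
      ∀ f : L → ℝ, (∀ g h, f (g * h) = f g + f h) → ∀ g, f g = 0)
    (hO : ∀ L : Subgroup Γ, L.FiniteIndex →
      ∀ ρ : L →* Mat m, (∀ g, ρ g * (ρ g)ᵀ = 1) → (range ρ).Finite)
    {W : Type*} [NormedAddCommGroup W] [NormedSpace ℝ W] {F : M → W} {p : M}
    (hF : MDifferentiableAt (𝓡 m) 𝓘(ℝ, W) F p)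
    (hFi : Function.Injective (mfderiv (𝓡 m) 𝓘(ℝ, W) F p))
    (Γ₁ : Subgroup Γ) [Γ₁.FiniteIndex] (hp : ∀ g ∈ Γ₁, α g p = p) {C : ℝ}
    (hL : ∀ g ∈ Γ₁, ∀ᶠ y in 𝓝 p, ‖F (α g y) - F p‖ ≤ C * ‖F y - F p‖) :
    (range α).Finite := by
  let L : EuclideanSpace ℝ (Fin m) →L[ℝ] W := mfderiv (𝓡 m) 𝓘(ℝ, W) F p
  obtain ⟨K, -, hK⟩ := LinearMap.exists_antilipschitzWith (L : EuclideanSpace ℝ (Fin m) →ₗ[ℝ] W)
    (LinearMap.ker_eq_bot.2 hFi)
  have hK1 : ∀ v, ‖v‖ ≤ K * ‖L v‖ := fun v => by simpa using hK.le_mul_dist v 0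
  obtain ⟨L₂, hL₂, h⟩ := finite_of_fixed (α.comp Γ₁.subtype) (fun g => hα g)
    (fun L' hL' => by
      obtain ⟨h1, h2⟩ := hT _ (finiteIndex_map_subtype Γ₁ L')
      let e := L'.equivMapOfInjective _ Γ₁.subtype_injective
      exact ⟨Group.fg_of_surjective (f := e.symm.toMonoidHom) e.symm.surjective, fun f hf g => by
        simpa using h2 (fun x => f (e.symm x)) (fun x y => by rw [map_mul, hf]) (e g)⟩)
    (hO Γ₁ ‹_›) (fun g => hp g g.2) (C := K * (|C| * ‖L‖))
    (fun g v => by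
      refine (hK1 _).trans ?_
      rw [mul_assoc]
      refine mul_le_mul_of_nonneg_left ((norm_mfderiv_le hF ((hα g).mdifferentiableAt one_ne_zero)
        (hp g g.2) (hL g g.2) v).trans ?_) K.coe_nonneg
      rw [mul_assoc]
      exact mul_le_mul (le_abs_self C) (L.le_opNorm v) (norm_nonneg _) (abs_nonneg C))
    (by positivity)
  have := finiteIndex_map_subtype Γ₁ L₂
  refine finite_range_of_trivial α (L₂.map Γ₁.subtype) ?_
  rintro _ ⟨g, hg, rfl⟩
  exact h g hg

end Pool.Agent.P.MP_d483fb_an.Z.TZ
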