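import Pool.Agent.P.MP_d483fb_an.Z.TZ.KazLat
import Pool.Agent.P.MP_d483fb_an.Z.TZ.End

/-!
Finite index subgroups of lattices are lattices; reduction to connected manifolds.
-/

open scoped Manifold ContDiff Topology ENNReal
open Filter Set MeasureTheory

namespace Pool.Agent.P.MP_d483fb_an.Z.TZ

variable {G : Type} [Group G] [TopologicalSpace G] [IsTopologicalGroup G]
  [SecondCountableTopology G]

/-- A subgroup of finite index in a lattice is a lattice. -/
theorem isLattice_map {Γ : Subgroup G} (hΓ : IsLattice Γ) (L : Subgroup Γ) [L.FiniteIndex] :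
    IsLattice (L.map Γ.subtype) := by
  classical
  obtain ⟨hd, μ, hμ, hinv⟩ := hΓ
  refine ⟨DiscreteTopology.of_subset hd (Subgroup.map_subtype_le L), ?_⟩
  borelize G
  let _ : MeasurableSpace (G ⧸ Γ) := borel _
  have : BorelSpace (G ⧸ Γ) := ⟨rfl⟩
  let _ : MeasurableSpace (G ⧸ L.map Γ.subtype) := borel _
  have : BorelSpace (G ⧸ L.map Γ.subtype) := ⟨rfl⟩
  obtain ⟨σ, hσ, h2, -⟩ := exists_section Γ μ
  have : Fintype (Γ ⧸ L) := Fintype.ofFinite _
  let Φ : G → Γ ⧸ L → G ⧸ L.map Γ.subtype := fun h q => QuotientGroup.mk (h * (q.out : Γ))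
  have hΦ : ∀ (h : G) (γ : Γ) q, Φ (h * γ) q = Φ h (γ • q) := by
    intro h γ q
    have h1 : (γ * q.out)⁻¹ * (γ • q).out ∈ L := by
      rw [← QuotientGroup.eq, QuotientGroup.out_eq', ← smul_eq_mul, MulAction.Quotient.mk_smul_out]
    refine QuotientGroup.eq.2 ⟨_, h1, ?_⟩
    simp [mul_assoc]
  have hm : ∀ q, Measurable fun b => Φ (σ b) q := fun q =>
    QuotientGroup.continuous_mk.measurable.comp (hσ.mul_const _)
  let ν : Measure (G ⧸ L.map Γ.subtype) := ∑ q, μ.map fun b => Φ (σ b) q
  have hν : ∀ S, MeasurableSet S → ν S = ∫⁻ b, ∑ q, S.indicator 1 (Φ (σ b) q) ∂μ := by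
    intro S hS
    rw [lintegral_finsetSum (f := fun q b => S.indicator 1 (Φ (σ b) q)) _
      fun q _ => (measurable_one.indicator hS).comp (hm q), Measure.finsetSum_apply]
    refine Finset.sum_congr rfl fun q _ => ?_
    rw [Measure.map_apply (hm q) hS, ← lintegral_indicator_one (hm q hS)]
    rfl
  have hc : (Fintype.card (Γ ⧸ L) : ℝ≥0∞) ≠ 0 := by simp
  refine ⟨(Fintype.card (Γ ⧸ L) : ℝ≥0∞)⁻¹ • ν, ⟨?_⟩, ⟨fun g S hS => ?_⟩⟩
  · rw [Measure.smul_apply, hν _ MeasurableSet.univ]
    simp [ENNReal.inv_mul_cancel hc]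
  · rw [Measure.smul_apply, Measure.smul_apply, hν _ hS, hν _ (measurable_const_smul g hS)]
    congr 1
    rw [← (measurePreserving_smul g μ).lintegral_comp (f := fun b =>
      ∑ q, S.indicator 1 (Φ (σ b) q))
      (Finset.measurable_sum _ fun q _ => (measurable_one.indicator hS).comp (hm q))]
    refine lintegral_congr fun b => ?_
    have h3 : ((g * σ b : G) : G ⧸ Γ) = g • b := by
      conv_rhs => rw [← h2 b]
      rfl
    let γ : Γ := ⟨(σ (g • b))⁻¹ * (g * σ b), QuotientGroup.eq.mp ((h2 _).trans h3.symm)⟩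
    have h4 : g * σ b = σ (g • b) * γ := by simp [γ]
    refine Fintype.sum_equiv (MulAction.toPerm γ) _ _ fun q => ?_
    rw [MulAction.toPerm_apply, ← hΦ, ← h4]
    have h5 : Φ (g * σ b) q = g • Φ (σ b) q := by
      simp only [Φ, mul_assoc]
      rfl
    rw [h5]
    rfl

/-- Reduction to connected manifolds. -/
theorem finite_of_connected {m : ℕ}
    (main : ∀ (Γ : Subgroup G), IsLattice Γ → ∀ (M : Type) [TopologicalSpace M] [T2Space M]
      [CompactSpace M] [ConnectedSpace M] [ChartedSpace (EuclideanSpace ℝ (Fin m)) M]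
      [IsManifold (𝓡 m) ∞ M] (α : Γ →* Equiv.Perm M),
      (∀ γ, ContMDiff (𝓡 m) (𝓡 m) ∞ (α γ)) → (range α).Finite)
    (Γ : Subgroup G) (hΓ : IsLattice Γ) (M : Type) [TopologicalSpace M] [T2Space M]
    [CompactSpace M] [ChartedSpace (EuclideanSpace ℝ (Fin m)) M] [IsManifold (𝓡 m) ∞ M]
    (α : Γ →* Equiv.Perm M) (hα : ∀ γ, ContMDiff (𝓡 m) (𝓡 m) ∞ (α γ)) : (range α).Finite := by
  have : LocallyConnectedSpace M := ChartedSpace.locallyConnectedSpace (EuclideanSpace ℝ (Fin m)) M
  let : MulAction Γ (ConnectedComponents M) :=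
    { smul := fun γ => (hα γ).continuous.connectedComponentsMap
      one_smul := fun c => by
        obtain ⟨x, rfl⟩ := ConnectedComponents.surjective_coe c
        change ((α 1 x : M) : ConnectedComponents M) = x
        rw [map_one]
        rfl
      mul_smul := fun g h c => by
        obtain ⟨x, rfl⟩ := ConnectedComponents.surjective_coe c
        change ((α (g * h) x : M) : ConnectedComponents M) = (α g (α h x) : M)
        rw [map_mul]
        rfl }
  let L := (MulAction.toPermHom Γ (ConnectedComponents M)).ker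
  have hL : ∀ γ ∈ L, ∀ x : M, ((α γ x : M) : ConnectedComponents M) = x := fun γ hγ x =>
    Equiv.congr_fun (MonoidHom.mem_ker.1 hγ) (x : ConnectedComponents M)
  have key : ∀ c : ConnectedComponents M, ∃ N : Subgroup Γ, N.FiniteIndex ∧
      ∀ γ ∈ N, ∀ y : M, (y : ConnectedComponents M) = c → α γ y = y := by
    intro c
    obtain ⟨x, rfl⟩ := ConnectedComponents.surjective_coe c
    let U : TopologicalSpace.Opens M := ⟨connectedComponent x, isOpen_connectedComponent⟩
    have : CompactSpace U := isCompact_iff_compactSpace.1 isClosed_connectedComponent.isCompact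
    have : ConnectedSpace U := isConnected_iff_connectedSpace.1 isConnected_connectedComponent
    have hU : ∀ γ ∈ L, ∀ y, α γ y ∈ U ↔ y ∈ U := fun γ hγ y => by
      change α γ y ∈ connectedComponent x ↔ y ∈ connectedComponent x
      rw [← ConnectedComponents.coe_eq_coe', ← ConnectedComponents.coe_eq_coe', hL γ hγ]
    let e := L.equivMapOfInjective _ Γ.subtype_injective
    let β₀ : L →* Equiv.Perm U :=
      { toFun := fun γ => (α γ).subtypePerm (hU γ γ.2)
        map_one' := by ext y; simp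
        map_mul' := fun g h => by ext y; simp }
    have hβ : ∀ γ, ContMDiff (𝓡 m) (𝓡 m) ∞ (β₀ γ) := fun γ =>
      (ContMDiff.subtypeVal_comp_iff U _).1 ((hα γ).comp contMDiff_subtype_val)
    have hfin := main _ (isLattice_map hΓ L) U (β₀.comp e.symm.toMonoidHom) fun γ => hβ _
    have : Finite β₀.range := by
      refine hfin.subset ?_
      rintro _ ⟨γ, rfl⟩
      exact ⟨e γ, by simp⟩
    refine ⟨β₀.ker.map L.subtype, finiteIndex_map_subtype _ _, ?_⟩
    rintro _ ⟨γ, hγ, rfl⟩ y hy
    exact congrArg Subtype.val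
      (Equiv.congr_fun (MonoidHom.mem_ker.1 hγ) ⟨y, ConnectedComponents.coe_eq_coe'.1 hy⟩)
  choose N hN hfix using key
  have := Subgroup.finiteIndex_iInf hN
  exact finite_range_of_trivial α (⨅ c, N c) fun γ hγ =>
    Equiv.ext fun y => hfix _ γ (Subgroup.mem_iInf.1 hγ _) y rfl

end Pool.Agent.P.MP_d483fb_an.Z.TZ
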