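import Pool.Agent.P.MP_d483fb_an.Z.NF.Defs

/-!
The general linear group of the model space, and the derivative of an embedding in the charts.
-/

open MeasureTheory Filter Topology Set Real

noncomputable section

namespace Pool.Agent.P.MP_d483fb_an.Z.TZ

open NF

/-- The general linear group of the model space. -/
abbrev GLu (D : ℕ) : Type := (E D →L[ℝ] E D)ˣ

instance (D : ℕ) : BorelSpace (GLu D) :=
  ⟨by
    have h := borel_comap (f := (Units.val : GLu D → (E D →L[ℝ] E D)))
      (t := inferInstance)
    have h2 := (Units.isOpenEmbedding_val (R := E D →L[ℝ] E D)).isInducing.eq_induced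
    have h3 := BorelSpace.measurable_eq (α := E D →L[ℝ] E D)
    change MeasurableSpace.comap Units.val _ = _
    rw [h3]
    exact h.symm.trans (congrArg (@borel (GLu D)) h2.symm)⟩

instance (D : ℕ) : LocallyCompactSpace (GLu D) := Units.isOpenEmbedding_val.locallyCompactSpace

instance (D : ℕ) : SecondCountableTopology (GLu D) :=
  Units.isOpenEmbedding_val.isInducing.secondCountableTopology

instance (D : ℕ) : PolishSpace (GLu D) := by
  have h := (Units.isOpenEmbedding_val (R := E D →L[ℝ] E D)).isOpen_range.polishSpace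
  exact Units.isOpenEmbedding_val.isEmbedding.toHomeomorph.isClosedEmbedding.polishSpace

/-- The size of an invertible linear map. -/
def lg {D : ℕ} (g : GLu D) : ℝ :=
  log (max 1 (max ‖(g : E D →L[ℝ] E D)‖ ‖((g⁻¹ : GLu D) : E D →L[ℝ] E D)‖))

variable {Γ M : Type} [Group Γ] [MetricSpace M] [MeasurableSpace M] {α : Γ →* Equiv.Perm M}
  {len : Γ → ℝ} {D : ℕ}

/-- The derivative of an isometric embedding `ι` in the charts of `J`. -/
structure JEmb (J : Jets α len D) {N : ℕ} (ι : M → EuclideanSpace ℝ (Fin N)) where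
  B : M → E D →L[ℝ] EuclideanSpace ℝ (Fin N)
  K : ℝ
  measB : Measurable B
  tay : ∀ p z, dist z p ≤ exp (-K) → ‖ι z - ι p - B p (J.c p z)‖ ≤ exp K * dist z p ^ 2
  isom : ∀ p q, dist p q = ‖ι p - ι q‖

end Pool.Agent.P.MP_d483fb_an.Z.TZ
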