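import Pool.Agent.P.MP_d483fb_an.Z.TZ.KazNm
import Pool.Agent.P.MP_d483fb_an.Z.Lie.STData
import Pool.Agent.P.MP_d483fb_an.Z.Su.Len2

/-!
Property (T) for a group in standard form and for its lattices.
-/

namespace Pool.Agent.P.MP_d483fb_an.Z

variable {G : Type} [Group G] [TopologicalSpace G] [IsTopologicalGroup G] [ConnectedSpace G]
  [T2Space G] [LocallyCompactSpace G] {n k : ℕ}

theorem Std.appT (D : Std G n k) : TZ.AppT fun g => Real.exp (D.len g) := by
  obtain ⟨ι, _, T, N, h1, h2, h3⟩ := D.exists_stData D.nm.size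
    ⟨1, fun X hX _ => (D.len_ex_le hX).trans_eq (one_mul _).symm⟩
  exact D.nm.appT T N h1 h2 h3

theorem Std.kazG (D : Std G n k) : TZ.KazG G := D.nm.kazG D.appT

theorem Std.hasT [SecondCountableTopology G] (D : Std G n k) {Γ : Subgroup G}
    (hΓ : IsLattice Γ) : TZ.HasT Γ := TZ.hasT_of_lattice Γ D.kazG hΓ

end Pool.Agent.P.MP_d483fb_an.Z
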