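import Pool.Agent.P.MP_d483fb_an.Z.TZ.KazDefs

/-!
Measure theory on a compact group: translation in measure, spectral gap in probability form and
the right stabiliser of a measurable function.
-/

open MeasureTheory Filter Set Topology
open scoped ENNReal

noncomputable section

set_option linter.unusedSectionVars false

namespace Pool.Agent.P.MP_d483fb_an.Z.TZ

variable {K : Type} [Group K] [TopologicalSpace K] [IsTopologicalGroup K] [CompactSpace K]
  [T2Space K] [SecondCountableTopology K] [MeasurableSpace K] [BorelSpace K]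
  (μ : Measure K) [μ.IsHaarMeasure] [IsProbabilityMeasure μ]

theorem haar_right : μ.IsMulRightInvariant := by
  refine ⟨fun g => ?_⟩
  have : IsProbabilityMeasure (μ.map (· * g)) :=
    Measure.isProbabilityMeasure_map (measurable_mul_const g).aemeasurable
  have h := Measure.isMulInvariant_eq_smul_of_compactSpace (μ.map (· * g)) μ
  have h1 := congrArg (fun ν : Measure K => ν univ) h
  simp only [measure_univ, Measure.smul_apply, ENNReal.smul_def, smul_eq_mul, mul_one,
    ENNReal.one_eq_coe] at h1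
  rw [h, ← h1, one_smul]

theorem mp_right (g : K) : MeasurePreserving (fun k => k * g) μ μ := by
  have := haar_right μ
  exact measurePreserving_mul_right μ g

section Sub

variable {Z : Type} [NormedAddCommGroup Z] [NormedSpace ℝ Z] [SecondCountableTopology Z]
  [MeasurableSpace Z] [BorelSpace Z]

theorem exists_subseq_bdd (z : K → Z) (hz : Measurable z) (hb : ∀ k, ‖z k‖ ≤ 1) (a : ℕ → K)
    (ha : Tendsto a atTop (𝓝 1)) : ∃ ms : ℕ → ℕ, StrictMono ms ∧
      ∀ᵐ k ∂μ, Tendsto (fun n => z (k * a (ms n))) atTop (𝓝 (z k)) := by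
  have hm : MemLp z 1 μ := MemLp.of_bound hz.aestronglyMeasurable 1 (Eventually.of_forall hb)
  let R : C(K, C(K, K)) := (ContinuousMap.mk (fun p : K × K => p.2 * p.1) (by fun_prop)).curry
  have hR : ∀ g, MeasurePreserving (R g) μ μ := fun g => mp_right μ g
  have h1 : Tendsto (fun n => Lp.compMeasurePreserving (R (a n)) (hR _) (hm.toLp z)) atTop
      (𝓝 (Lp.compMeasurePreserving (R 1) (hR _) (hm.toLp z))) :=
    tendsto_const_nhds.compMeasurePreservingLp ((R.continuous.tendsto 1).comp ha) (fun n => hR _)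
      (hR _) (by simp)
  have key : ∀ g, (Lp.compMeasurePreserving (R g) (hR g) (hm.toLp z) : K → Z) =ᵐ[μ]
      fun k => z (k * g) := fun g =>
    (Lp.coeFn_compMeasurePreserving _ (hR g)).trans
      ((hR g).quasiMeasurePreserving.ae_eq_comp hm.coeFn_toLp)
  obtain ⟨ms, hms, h2⟩ := (tendstoInMeasure_of_tendsto_Lp h1).exists_seq_tendsto_ae
  refine ⟨ms, hms, ?_⟩
  filter_upwards [h2, ae_all_iff.2 fun n => key (a (ms n)), key 1] with k hk h3 h4
  simp only [h3, h4, mul_one] at hk
  exact hk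

theorem exists_subseq (z : K → Z) (hz : Measurable z) (a : ℕ → K)
    (ha : Tendsto a atTop (𝓝 1)) : ∃ ms : ℕ → ℕ, StrictMono ms ∧
      ∀ᵐ k ∂μ, Tendsto (fun n => z (k * a (ms n))) atTop (𝓝 (z k)) := by
  let e : Z → Z := fun v => (Homeomorph.unitBall v : Z)
  have he : IsInducing e := IsInducing.subtypeVal.comp Homeomorph.unitBall.isInducing
  obtain ⟨ms, hms, h⟩ := exists_subseq_bdd μ (fun k => e (z k))
    (he.continuous.measurable.comp hz)
    (fun k => (mem_ball_zero_iff.1 (Homeomorph.unitBall (z k)).2).le) a ha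
  refine ⟨ms, hms, h.mono fun k hk => ?_⟩
  exact he.tendsto_nhds_iff.2 hk

theorem small_near {ι : Type} (l : Filter ι) [l.IsCountablyGenerated] (a b : ι → K)
    (ha : Tendsto a l (𝓝 1)) (hb : Tendsto b l (𝓝 1)) (z : K → Z) (hz : Measurable z)
    (B : ι → Set K) (hB : ∀ i, MeasurableSet (B i))
    (H : ∀ s : ℕ → ι, ∀ᵐ k ∂μ, Tendsto (fun n => z (k * a (s n))) atTop (𝓝 (z k)) →
      Tendsto (fun n => z (k * b (s n))) atTop (𝓝 (z k)) → ∀ᶠ n in atTop, k ∉ B (s n)) :
    Tendsto (fun i => μ (B i)) l (𝓝 0) := by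
  refine tendsto_of_subseq_tendsto fun ns hns => ?_
  obtain ⟨m1, hm1, h1⟩ := exists_subseq μ z hz (fun n => a (ns n)) (ha.comp hns)
  obtain ⟨m2, hm2, h2⟩ := exists_subseq μ z hz (fun n => b (ns (m1 n)))
    ((hb.comp hns).comp hm1.tendsto_atTop)
  refine ⟨fun n => m1 (m2 n), ?_⟩
  have := tendsto_measure_of_ae_tendsto_indicator_of_isFiniteMeasure (μ := μ) (A := ∅)
    (As := fun n => B (ns (m1 (m2 n)))) atTop MeasurableSet.empty (fun n => hB _) ?_
  · simpa using this
  filter_upwards [h1, h2, H fun n => ns (m1 (m2 n))] with k hk1 hk2 hk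
  filter_upwards [hk (hk1.comp hm2.tendsto_atTop) hk2] with n hn
  simpa using hn

/-- The right stabiliser of the class of a function. -/
def stabR {Y : Type} (x : K → Y) : Subgroup K where
  carrier := {h | (fun k => x (k * h)) =ᵐ[μ] x}
  one_mem' := by simp
  mul_mem' := by
    intro a b ha hb
    have h1 := (mp_right μ a).quasiMeasurePreserving.ae_eq_comp hb
    show (fun k => x (k * (a * b))) =ᵐ[μ] x
    filter_upwards [h1, show (fun k => x (k * a)) =ᵐ[μ] x from ha] with k h2 h3
    rw [← mul_assoc, ← h3]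
    exact h2
  inv_mem' := by
    intro a ha
    have h1 := (mp_right μ a⁻¹).quasiMeasurePreserving.ae_eq_comp ha
    show (fun k => x (k * a⁻¹)) =ᵐ[μ] x
    filter_upwards [h1] with k h2
    simpa using h2.symm

theorem mem_stabR {Y : Type} (x : K → Y) (h : K) :
    h ∈ stabR μ x ↔ (fun k => x (k * h)) =ᵐ[μ] x := Iff.rfl

theorem isClosed_stabR (x : K → Z) (hx : Measurable x) : IsClosed (stabR μ x : Set K) := by
  refine IsSeqClosed.isClosed fun a h ha hah => ?_
  have h0 : Tendsto (fun n => h⁻¹ * a n) atTop (𝓝 1) := by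
    simpa using hah.const_mul h⁻¹
  obtain ⟨ms, -, h1⟩ := exists_subseq μ x hx _ h0
  have h2 := (mp_right μ h).quasiMeasurePreserving.ae h1
  have h3 : ∀ᵐ k ∂μ, ∀ n, x (k * a (ms n)) = x k := ae_all_iff.2 fun n => ha (ms n)
  show (fun k => x (k * h)) =ᵐ[μ] x
  filter_upwards [h2, h3] with k hk hk'
  simp only [mul_assoc, mul_inv_cancel_left, hk'] at hk
  exact (tendsto_nhds_unique tendsto_const_nhds hk).symm

end Sub

theorem ae_const_of_dense {Γ : Type} [Group Γ] (j : Γ →* K) (hj : DenseRange j) {Y : Type}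
    [MeasurableSpace Y] [MeasurableSpace.CountablySeparated Y] [Nonempty Y] (f : K → Y)
    (hf : NullMeasurable f μ) (h : ∀ g, (fun k => f (j g * k)) =ᵐ[μ] f) :
    ∃ c, f =ᵐ[μ] fun _ => c := by
  refine exists_eventuallyEq_const_of_forall_separating MeasurableSet fun U hU => ?_
  have := aeconst_of_dense_setOfPred_preimage_smul_ae (M := K) (μ := μ) (s := f ⁻¹' U) (hf hU)
    (hj.mono ?_)
  · exact eventuallyConst_set.1 this
  rintro _ ⟨g, rfl⟩
  refine mem_ofPred.2 ?_
  filter_upwards [h g] with k hk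
  show (f (j g * k) ∈ U) = (f k ∈ U)
  rw [hk]

/-- The left regular representation on vector valued square integrable functions. -/
def regRep {Γ : Type} [Group Γ] (j : Γ →* K) (E : Type) [NormedAddCommGroup E]
    [InnerProductSpace ℝ E] : Γ →* (Lp E 2 μ →L[ℝ] Lp E 2 μ) where
  toFun g := (Lp.compMeasurePreservingₗᵢ ℝ (fun k => (j g)⁻¹ * k)
    (measurePreserving_mul_left μ (j g)⁻¹)).toContinuousLinearMap
  map_one' := by
    refine ContinuousLinearMap.ext fun f => Lp.ext ?_
    refine (Lp.coeFn_compMeasurePreserving f (measurePreserving_mul_left μ (j 1)⁻¹)).trans ?_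
    refine Eventually.of_forall fun x => ?_
    simp
  map_mul' g h := by
    refine ContinuousLinearMap.ext fun f => Lp.ext ?_
    refine (Lp.coeFn_compMeasurePreserving f
      (measurePreserving_mul_left μ (j (g * h))⁻¹)).trans ?_
    have h1 := Lp.coeFn_compMeasurePreserving
      (Lp.compMeasurePreserving (fun k => (j h)⁻¹ * k) (measurePreserving_mul_left μ (j h)⁻¹) f)
      (measurePreserving_mul_left μ (j g)⁻¹)
    have h2 := (measurePreserving_mul_left μ (j g)⁻¹).quasiMeasurePreserving.ae_eq_comp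
      (Lp.coeFn_compMeasurePreserving f (measurePreserving_mul_left μ (j h)⁻¹))
    refine EventuallyEq.symm ((h1.trans h2).trans (Eventually.of_forall fun x => ?_))
    simp [mul_assoc]

theorem regRep_ae {Γ : Type} [Group Γ] (j : Γ →* K) (E : Type) [NormedAddCommGroup E]
    [InnerProductSpace ℝ E] (g : Γ) (f : Lp E 2 μ) :
    (regRep μ j E g f : K → E) =ᵐ[μ] fun k => f ((j g)⁻¹ * k) :=
  Lp.coeFn_compMeasurePreserving f (measurePreserving_mul_left μ (j g)⁻¹)

theorem regRep_norm {Γ : Type} [Group Γ] (j : Γ →* K) (E : Type) [NormedAddCommGroup E]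
    [InnerProductSpace ℝ E] (g : Γ) (f : Lp E 2 μ) : ‖regRep μ j E g f‖ = ‖f‖ :=
  Lp.norm_compMeasurePreserving f (measurePreserving_mul_left μ (j g)⁻¹)

theorem almost_const {Γ : Type} [Group Γ]
    (hT : HasT Γ)
    (j : Γ →* K) (hj : DenseRange j) {E : Type} [NormedAddCommGroup E] [InnerProductSpace ℝ E]
    [FiniteDimensional ℝ E] [MeasurableSpace E] [BorelSpace E]
    (f : ℕ → K → E) (hf : ∀ n, Measurable (f n)) (hb : ∀ n k, ‖f n k‖ ≤ 1)
    (h : ∀ g, ∀ᵐ k ∂μ, Tendsto (fun n => f n (j g * k) - f n k) atTop (𝓝 0)) :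
    ∃ m : ℕ → E, ∀ ε : ℝ, 0 < ε →
      Tendsto (fun n => μ {k | ε ≤ ‖f n k - m n‖}) atTop (𝓝 0) := by
  obtain ⟨S, C, -, hT⟩ := hT
  have hm : ∀ n, MemLp (f n) 2 μ := fun n =>
    MemLp.of_bound (hf n).aestronglyMeasurable 1 (Eventually.of_forall (hb n))
  choose w hw hw' using fun n => hT (Lp E 2 μ) (regRep μ j E) (regRep_norm μ j E)
    ((hm n).toLp (f n))
  have hc : ∀ n, ∃ c, (w n : K → E) =ᵐ[μ] fun _ => c := fun n => by
    refine ae_const_of_dense μ j hj (w n : K → E)
      (Lp.aestronglyMeasurable (w n)).aemeasurable.nullMeasurable fun g => ?_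
    have := regRep_ae μ j E g⁻¹ (w n)
    rw [hw n, map_inv, inv_inv] at this
    exact this.symm
  choose m hm' using hc
  have hs : ∀ s : Γ, Tendsto (fun n => ‖regRep μ j E s ((hm n).toLp (f n)) - (hm n).toLp (f n)‖)
      atTop (𝓝 0) := fun s => by
    have e1 : ∀ n, (regRep μ j E s ((hm n).toLp (f n)) - (hm n).toLp (f n) : Lp E 2 μ) =ᵐ[μ]
        fun k => f n (j s⁻¹ * k) - f n k := fun n => by
      have h1 := (measurePreserving_mul_left μ (j s)⁻¹).quasiMeasurePreserving.ae_eq_comp
        (hm n).coeFn_toLp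
      filter_upwards [Lp.coeFn_sub (regRep μ j E s ((hm n).toLp (f n))) ((hm n).toLp (f n)),
        regRep_ae μ j E s ((hm n).toLp (f n)), h1, (hm n).coeFn_toLp] with k h2 h3 h4 h5
      rw [h2, Pi.sub_apply, h3, h5, map_inv]
      exact congrArg (· - f n k) h4
    have e2 : ∀ n, ‖regRep μ j E s ((hm n).toLp (f n)) - (hm n).toLp (f n)‖ =
        √(∫ k, ‖f n (j s⁻¹ * k) - f n k‖ ^ 2 ∂μ) := fun n => by
      rw [norm_eq_sqrt_real_inner, L2.inner_def]
      refine congrArg Real.sqrt (integral_congr_ae ?_)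
      filter_upwards [e1 n] with k hk
      rw [hk, real_inner_self_eq_norm_sq]
    simp only [e2]
    have e3 : Tendsto (fun n => ∫ k, ‖f n (j s⁻¹ * k) - f n k‖ ^ 2 ∂μ) atTop
        (𝓝 (∫ _k : K, (0 : ℝ) ∂μ)) := by
      refine tendsto_integral_of_dominated_convergence (fun _ => (2 : ℝ) ^ 2) (fun n => ?_)
        (integrable_const _) (fun n => Eventually.of_forall fun k => ?_) ?_
      · exact ((((hf n).comp (measurable_const_mul _)).sub (hf n)).norm.pow_const
          2).aestronglyMeasurable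
      · rw [Real.norm_of_nonneg (by positivity)]
        refine pow_le_pow_left₀ (norm_nonneg _) ((norm_sub_le _ _).trans ?_) 2
        linarith [hb n (j s⁻¹ * k), hb n k]
      · filter_upwards [h s⁻¹] with k hk
        simpa using hk.norm.pow 2
    simpa using e3.sqrt
  have h0 : Tendsto (fun n => (hm n).toLp (f n) - w n) atTop (𝓝 0) := by
    rw [tendsto_zero_iff_norm_tendsto_zero]
    have h6 := (tendsto_finsetSum S fun s _ => hs s).const_mul C
    rw [Finset.sum_const_zero, mul_zero] at h6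
    exact squeeze_zero (fun _ => norm_nonneg _) hw' h6
  refine ⟨m, fun ε hε => ?_⟩
  have h4 := tendstoInMeasure_of_tendsto_Lp h0
  rw [tendstoInMeasure_iff_norm] at h4
  have h5 := h4 ε hε
  have h7 : ∀ n, μ {k | ε ≤ ‖((hm n).toLp (f n) - w n : Lp E 2 μ) k - (0 : Lp E 2 μ) k‖} =
      μ {k | ε ≤ ‖f n k - m n‖} := fun n => by
    apply measure_congr
    filter_upwards [Lp.coeFn_sub ((hm n).toLp (f n)) (w n), (hm n).coeFn_toLp, hm' n,
      Lp.coeFn_zero E 2 μ] with k h1 h2 h3 h4
    show (ε ≤ ‖((hm n).toLp (f n) - w n : Lp E 2 μ) k - (0 : Lp E 2 μ) k‖) = (ε ≤ ‖f n k - m n‖)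
    rw [h1, h4, Pi.sub_apply, h2, h3, Pi.zero_apply, sub_zero]
  simpa only [h7] using h5

end Pool.Agent.P.MP_d483fb_an.Z.TZ
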