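import Pool.Agent.P.MP_d483fb_an.Z.Stmt

/-! Almost homomorphisms near the identity of a topological group. -/

open scoped Topology
open Filter Set

namespace Pool.Agent.P.MP_d483fb_an.Z.TZ

/-- For every `η` there is a bounded `η`-almost homomorphism near `1` with zero set `K₀`. -/
def AlmHom {K : Type} [Group K] [TopologicalSpace K] (E : Type) [NormedAddCommGroup E]
    (K₀ : Subgroup K) : Prop :=
  ∀ η : ℝ, 0 < η → ∃ U ∈ 𝓝 (1 : K), ∃ u : K → E, (∀ h ∈ U, ‖u h‖ ≤ 1) ∧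
    (∀ h ∈ U, u h = 0 ↔ h ∈ K₀) ∧
    ∀ h ∈ U, ∀ h' ∈ U, h * h' ∈ U → ‖u (h * h') - u h - u h'‖ ≤ η * (‖u h‖ + ‖u h'‖)

end Pool.Agent.P.MP_d483fb_an.Z.TZ
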