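import Pool.Agent.P.MP_d483fb_an.Z.TZ.AHErg
import Pool.Agent.P.MP_d483fb_an.Z.TZ.DimDefs

/-!
An equivariant measurable map from a compact group to a framed manifold gives almost homomorphisms
near the identity whose zero set is the right stabiliser of the map.
-/

open MeasureTheory Filter Set Topology
open scoped ENNReal

noncomputable section

set_option linter.unusedSectionVars false

namespace Pool.Agent.P.MP_d483fb_an.Z.TZ

section Rt

variable {E : Type} [NormedAddCommGroup E] [NormedSpace ℝ E]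

/-- The radial retraction on the unit ball. -/
def rt (v : E) : E := (max 1 ‖v‖)⁻¹ • v

theorem continuous_rt : Continuous (rt : E → E) :=
  ((continuous_const.max continuous_norm).inv₀ fun _ =>
    (lt_max_of_lt_left one_pos).ne').smul continuous_id

theorem rt_of_le {v : E} (h : ‖v‖ ≤ 1) : rt v = v := by simp [rt, max_eq_left h]

theorem norm_rt_of_ge {v : E} (h : 1 ≤ ‖v‖) : ‖rt v‖ = 1 := by
  rw [rt, max_eq_right h, norm_smul, norm_inv, norm_norm]
  exact inv_mul_cancel₀ (by linarith)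

theorem norm_rt_le (v : E) : ‖rt v‖ ≤ 1 := by
  rcases le_total ‖v‖ 1 with h | h
  · rwa [rt_of_le h]
  · exact (norm_rt_of_ge h).le

theorem rt_sub {v v' : E} {θ : ℝ} (hθ : 0 ≤ θ) (h : ‖v' - v‖ ≤ θ * ‖v‖) :
    ‖rt v' - rt v‖ ≤ 2 * θ := by
  have ha : 0 < max 1 ‖v‖ := lt_max_of_lt_left one_pos
  have hb : 0 < max 1 ‖v'‖ := lt_max_of_lt_left one_pos
  have e : rt v' - rt v = (max 1 ‖v‖)⁻¹ • ((v' - v) + (max 1 ‖v‖ - max 1 ‖v'‖) • rt v') := by
    have h1 : v' = max 1 ‖v'‖ • rt v' := by rw [rt, smul_smul, mul_inv_cancel₀ hb.ne', one_smul]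
    have h2 : (v' - v) + (max 1 ‖v‖ - max 1 ‖v'‖) • rt v' = max 1 ‖v‖ • rt v' - v := by
      rw [sub_smul, ← h1]
      abel
    rw [h2, smul_sub, smul_smul, inv_mul_cancel₀ ha.ne', one_smul]
    rfl
  have h3 : |max 1 ‖v‖ - max 1 ‖v'‖| ≤ ‖v' - v‖ := by
    rw [max_comm 1, max_comm 1, norm_sub_rev]
    exact (abs_max_sub_max_le_abs _ _ _).trans (abs_norm_sub_norm_le _ _)
  have h4 : ‖(v' - v) + (max 1 ‖v‖ - max 1 ‖v'‖) • rt v'‖ ≤ 2 * θ * max 1 ‖v‖ := by
    refine (norm_add_le _ _).trans ?_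
    rw [norm_smul, Real.norm_eq_abs]
    have h5 := mul_le_mul h3 (norm_rt_le v') (norm_nonneg _) (norm_nonneg _)
    have h6 := mul_le_mul_of_nonneg_left (le_max_right 1 ‖v‖) hθ
    linarith
  rw [e, norm_smul, norm_inv, Real.norm_of_nonneg ha.le, inv_mul_le_iff₀ ha]
  linarith

end Rt

theorem exists_median {K : Type} [MeasurableSpace K] (μ : Measure K) [IsProbabilityMeasure μ]
    (g : K → ℝ) (hg : Measurable g) (h0 : μ {k | g k ≤ 0} < 1 / 2) :
    ∃ r : ℝ, 0 < r ∧ μ {k | g k ≤ r} < 1 / 2 ∧ 1 / 2 ≤ μ {k | g k ≤ 2 * r} := by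
  have h1 : Tendsto (fun n : ℕ => μ {k | g k ≤ 1 / ((n : ℝ) + 1)}) atTop
      (𝓝 (μ {k | g k ≤ 0})) := by
    refine tendsto_measure_of_ae_tendsto_indicator_of_isFiniteMeasure atTop
      (measurableSet_le hg measurable_const) (fun n => measurableSet_le hg measurable_const)
      (Eventually.of_forall fun k => ?_)
    rcases le_or_gt (g k) 0 with h | h
    · exact Eventually.of_forall fun n => iff_of_true (h.trans Nat.one_div_pos_of_nat.le) h
    · filter_upwards [tendsto_one_div_add_atTop_nhds_zero_nat.eventually_lt_const h] with n hn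
      exact iff_of_false (not_le.2 hn) (not_le.2 h)
  obtain ⟨n0, hn0⟩ := (h1.eventually_lt_const h0).exists
  set t : ℝ := 1 / ((n0 : ℝ) + 1)
  have ht : 0 < t := Nat.one_div_pos_of_nat
  have h2 : Tendsto (fun n : ℕ => μ {k | g k ≤ 2 ^ n * t}) atTop (𝓝 (μ univ)) := by
    refine tendsto_measure_of_ae_tendsto_indicator_of_isFiniteMeasure atTop
      MeasurableSet.univ (fun n => measurableSet_le hg measurable_const)
      (Eventually.of_forall fun k => ?_)
    filter_upwards [((tendsto_pow_atTop_atTop_of_one_lt one_lt_two).atTop_mul_const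
      ht).eventually_ge_atTop (g k)] with n hn
    exact iff_of_true hn trivial
  have h3 : ∃ n : ℕ, 1 / 2 ≤ μ {k | g k ≤ 2 ^ n * t} := by
    refine (h2.eventually_const_le ?_).exists
    rw [measure_univ, one_div]
    exact ENNReal.one_half_lt_one
  classical
  have h4 := Nat.find_spec h3
  rcases hN : Nat.find h3 with _ | N
  · rw [hN, pow_zero, one_mul] at h4
    exact absurd hn0 (not_lt.2 h4)
  · refine ⟨2 ^ N * t, by positivity, not_le.1 (Nat.find_min h3 (by omega)), ?_⟩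
    rwa [hN, pow_succ', mul_assoc] at h4

theorem exists_notMem4 {K : Type} [MeasurableSpace K] (μ : Measure K) [IsProbabilityMeasure μ]
    {A B C D : Set K} (hA : μ A < 1 / 2) (hB : μ B < 1 / 8) (hC : μ C < 1 / 8)
    (hD : μ D < 1 / 8) : ∃ k, k ∉ A ∧ k ∉ B ∧ k ∉ C ∧ k ∉ D := by
  by_contra hc
  have h1 : (univ : Set K) ⊆ A ∪ B ∪ C ∪ D := fun k _ => by
    by_contra hk
    simp only [mem_union, not_or] at hk
    exact hc ⟨k, hk.1.1.1, hk.1.1.2, hk.1.2, hk.2⟩
  have h2 : μ.real univ ≤ μ.real A + μ.real B + μ.real C + μ.real D :=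
    (measureReal_mono h1).trans ((measureReal_union_le _ _).trans (add_le_add_left
      ((measureReal_union_le _ _).trans (add_le_add_left (measureReal_union_le _ _) _)) _))
  have h8 : ∀ {S : Set K}, μ S < 1 / 8 → μ.real S < 1 / 8 := fun {S} hS => by
    simpa [measureReal_def] using (ENNReal.toReal_lt_toReal (measure_ne_top μ S) (by simp)).2 hS
  have h3 : μ.real A < 1 / 2 := by
    simpa [measureReal_def] using (ENNReal.toReal_lt_toReal (measure_ne_top μ A) (by simp)).2 hA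
  have := h8 hB
  have := h8 hC
  have := h8 hD
  rw [probReal_univ] at h2
  linarith

variable {Γ K E F : Type} [Group Γ] [Group K] [TopologicalSpace K] [IsTopologicalGroup K]
  [CompactSpace K] [T2Space K] [SecondCountableTopology K] [MeasurableSpace K] [BorelSpace K]
  [NormedAddCommGroup E] [InnerProductSpace ℝ E] [FiniteDimensional ℝ E] [MeasurableSpace E]
  [BorelSpace E] [NormedAddCommGroup F] [NormedSpace ℝ F] [FiniteDimensional ℝ F]
  [MeasurableSpace F] [BorelSpace F]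
  (μ : Measure K) [μ.IsHaarMeasure] [IsProbabilityMeasure μ]

/-- The displacement read in the frame. -/
def disp (x : K → F) (A : K → F →L[ℝ] E) (h k : K) : E := A k (x (k * h) - x k)

theorem measurable_app {B : K → F →L[ℝ] E} {y : K → F} (hB : Measurable B) (hy : Measurable y) :
    Measurable fun k => B k (y k) :=
  ContinuousLinearMap.measurable_apply₂.comp (hB.prodMk hy)

theorem measurable_disp {x : K → F} {A : K → F →L[ℝ] E} (hx : Measurable x) (hA : Measurable A)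
    (h : K) : Measurable (disp x A h) :=
  measurable_app hA ((hx.comp (measurable_mul_const h)).sub hx)

theorem ae_ne_of_notMem (j : Γ →* K) (hj : DenseRange j) (act : Γ → F → F) {x : K → F}
    (hx : Measurable x) (heq : ∀ g, ∀ᵐ k ∂μ, x (j g * k) = act g (x k)) {h : K}
    (hh : h ∉ stabR μ x) : ∀ᵐ k ∂μ, x (k * h) ≠ x k := by
  have hs : MeasurableSet {k | x (k * h) = x k} :=
    measurableSet_eq_fun (hx.comp (measurable_mul_const h)) hx
  have := aeconst_of_dense_setOfPred_preimage_smul_ae (M := K) (μ := μ) hs.nullMeasurableSet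
    (hj.mono ?_)
  · exact (eventuallyConst_set.1 this).resolve_left hh
  rintro _ ⟨g, rfl⟩
  refine mem_ofPred.2 (ae_eq_of_ae_subset_of_measure_ge ?_ (measure_preimage_mul μ (j g) _).le
    hs.nullMeasurableSet (measure_ne_top _ _)).symm
  filter_upwards [heq g, (mp_right μ h).quasiMeasurePreserving.ae (heq g)] with k h1 h2 hk
  show x (j g * k * h) = x (j g * k)
  rw [mul_assoc, h1, h2, show x (k * h) = x k from hk]

section Main

variable {M : Set F} {x : K → F} {A : K → F →L[ℝ] E}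

theorem ae_inj (hM : ∀ᵐ k ∂μ, x k ∈ M)
    (hinj : ∀ᵐ k ∂μ, ∃ r : ℝ, 0 < r ∧ ∃ c : ℝ, ∀ y ∈ M, ‖y - x k‖ ≤ r →
      ‖y - x k‖ ≤ c * ‖A k (y - x k)‖) (a : ℕ → K) :
    ∀ᵐ k ∂μ, ∃ c : ℝ, 0 < c ∧ (Tendsto (fun n => x (k * a n)) atTop (𝓝 (x k)) →
      ∀ᶠ n in atTop, ‖x (k * a n) - x k‖ ≤ c * ‖disp x A (a n) k‖) := by
  filter_upwards [hinj, ae_all_iff.2 fun n => (mp_right μ (a n)).quasiMeasurePreserving.ae hM]
    with k ⟨r, hr, c, hc⟩ hk
  refine ⟨|c| + 1, by positivity, fun ht => ?_⟩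
  filter_upwards [(tendsto_iff_norm_sub_tendsto_zero.1 ht).eventually_le_const hr] with n hn
  refine (hc _ (hk n) hn).trans (mul_le_mul_of_nonneg_right ?_ (norm_nonneg _))
  linarith [le_abs_self c]

theorem zero_near (hx : Measurable x) (hA : Measurable A) (hM : ∀ᵐ k ∂μ, x k ∈ M)
    (hinj : ∀ᵐ k ∂μ, ∃ r : ℝ, 0 < r ∧ ∃ c : ℝ, ∀ y ∈ M, ‖y - x k‖ ≤ r →
      ‖y - x k‖ ≤ c * ‖A k (y - x k)‖) :
    Tendsto (fun h => μ {k | ‖disp x A h k‖ ≤ 0 ∧ x (k * h) ≠ x k}) (𝓝 1) (𝓝 0) := by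
  refine small_near μ (𝓝 1) id id tendsto_id tendsto_id x hx _ (fun h => ?_) fun s => ?_
  · exact (measurableSet_le (measurable_disp hx hA h).norm measurable_const).inter
      (measurableSet_eq_fun (hx.comp (measurable_mul_const h)) hx).compl
  filter_upwards [ae_inj μ hM hinj s] with k ⟨c, hc, hk⟩ ht _
  filter_upwards [hk ht] with n hn h0
  refine h0.2 (sub_eq_zero.1 (norm_le_zero_iff.1 (hn.trans ?_)))
  exact mul_nonpos_of_nonneg_of_nonpos hc.le h0.1

theorem bdd_near (hx : Measurable x) (hA : Measurable A) :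
    Tendsto (fun h => μ {k | 1 / 2 < ‖disp x A h k‖}) (𝓝 1) (𝓝 0) := by
  refine small_near μ (𝓝 1) id id tendsto_id tendsto_id x hx _ (fun h => ?_) fun s => ?_
  · exact measurableSet_lt measurable_const (measurable_disp hx hA h).norm
  refine Eventually.of_forall fun k ht _ => ?_
  have h1 : Tendsto (fun n => ‖disp x A (s n) k‖) atTop (𝓝 ‖A k (x k - x k)‖) :=
    (((A k).continuous.tendsto _).comp (ht.sub_const (x k))).norm
  rw [sub_self, map_zero, norm_zero] at h1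
  filter_upwards [h1.eventually_le_const one_half_pos] with n hn
  exact not_lt.2 hn

theorem err_near (hx : Measurable x) (hA : Measurable A) (hM : ∀ᵐ k ∂μ, x k ∈ M)
    (hinj : ∀ᵐ k ∂μ, ∃ r : ℝ, 0 < r ∧ ∃ c : ℝ, ∀ y ∈ M, ‖y - x k‖ ≤ r →
      ‖y - x k‖ ≤ c * ‖A k (y - x k)‖) {η : ℝ} (hη : 0 < η) :
    Tendsto (fun p : K × K => μ {k | η * ‖disp x A p.2 k‖ <
      ‖(A (k * p.1⁻¹) - A k) (x (k * p.2) - x k)‖}) (𝓝 (1, 1)) (𝓝 0) := by
  refine small_near μ (𝓝 ((1, 1) : K × K)) (fun p => p.1⁻¹) (fun p => p.2) ?_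
    (continuous_snd.tendsto _) (fun k => (x k, A k)) (hx.prodMk hA) _ (fun p => ?_) fun s => ?_
  · exact continuous_fst.inv.tendsto' ((1, 1) : K × K) 1 inv_one
  · exact measurableSet_lt ((measurable_disp hx hA _).norm.const_mul η)
      (measurable_app ((hA.comp (measurable_mul_const _)).sub hA)
        ((hx.comp (measurable_mul_const _)).sub hx)).norm
  filter_upwards [ae_inj μ hM hinj fun n => (s n).2] with k ⟨c, hc, hk⟩ h1 h2
  have h3 := tendsto_iff_norm_sub_tendsto_zero.1 ((continuous_snd.tendsto _).comp h1)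
  filter_upwards [hk ((continuous_fst.tendsto _).comp h2),
    h3.eventually_le_const (div_pos hη hc)] with n hn hn'
  refine not_lt.2 ((ContinuousLinearMap.le_opNorm _ _).trans ?_)
  refine (mul_le_mul hn' hn (norm_nonneg _) (div_pos hη hc).le).trans_eq ?_
  rw [← mul_assoc, div_mul_cancel₀ _ hc.ne']

theorem good_near (hT : HasT Γ) (j : Γ →* K) (hj : DenseRange j) (act : Γ → F → F)
    (hx : Measurable x) (hA : Measurable A) (hM : ∀ᵐ k ∂μ, x k ∈ M)
    (heq : ∀ g, ∀ᵐ k ∂μ, x (j g * k) = act g (x k))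
    (hlin : ∀ g, ∀ᵐ k ∂μ, ∀ θ : ℝ, 0 < θ → ∃ r : ℝ, 0 < r ∧ ∀ y ∈ M, ‖y - x k‖ ≤ r →
      ‖A (j g * k) (act g y - act g (x k)) - A k (y - x k)‖ ≤ θ * ‖y - x k‖)
    (hinj : ∀ᵐ k ∂μ, ∃ r : ℝ, 0 < r ∧ ∃ c : ℝ, ∀ y ∈ M, ‖y - x k‖ ≤ r →
      ‖y - x k‖ ≤ c * ‖A k (y - x k)‖) {η : ℝ} (hη : 0 < η) (hη1 : η ≤ 1) :
    ∀ᶠ h in 𝓝 (1 : K), h ∉ stabR μ x →
      ∃ v : E, v ≠ 0 ∧ μ {k | η * ‖v‖ < ‖disp x A h k - v‖} < 1 / 8 := by
  by_contra hc
  have h0 := (zero_near μ hx hA hM hinj).eventually_lt_const (show (0 : ℝ≥0∞) < 1 / 2 by simp)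
  obtain ⟨a0, ha0, ha0'⟩ := frequently_iff_seq_forall.1
    ((not_eventually.1 hc).and_eventually h0)
  obtain ⟨ms, -, hms⟩ := exists_subseq μ x hx a0 ha0
  set a : ℕ → K := fun n => a0 (ms n)
  have ha : ∀ n, a n ∉ stabR μ x := fun n => (Classical.not_imp.1 (ha0' (ms n)).1).1
  have ha' : ∀ n (v : E), v ≠ 0 → ¬ μ {k | η * ‖v‖ < ‖disp x A (a n) k - v‖} < 1 / 8 :=
    fun n v hv h => (Classical.not_imp.1 (ha0' (ms n)).1).2 ⟨v, hv, h⟩
  have hr : ∀ n, ∃ r : ℝ, 0 < r ∧ μ {k | ‖disp x A (a n) k‖ ≤ r} < 1 / 2 ∧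
      1 / 2 ≤ μ {k | ‖disp x A (a n) k‖ ≤ 2 * r} := fun n => by
    refine exists_median μ _ (measurable_disp hx hA _).norm
      (lt_of_le_of_lt (measure_mono_ae ?_) (ha0' (ms n)).2)
    filter_upwards [ae_ne_of_notMem μ j hj act hx heq (ha n)] with k hk hk'
    exact ⟨hk', hk⟩
  choose r hr hr1 hr2 using hr
  obtain ⟨m, hm⟩ := almost_const μ hT j hj (fun n k => rt ((4 * r n)⁻¹ • disp x A (a n) k))
    (fun n => continuous_rt.measurable.comp ((measurable_disp hx hA _).const_smul _))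
    (fun n k => norm_rt_le _) fun g => by
      filter_upwards [hms, ae_inj μ hM hinj a, hlin g, heq g,
        ae_all_iff.2 fun n => (mp_right μ (a n)).quasiMeasurePreserving.ae (heq g),
        ae_all_iff.2 fun n => (mp_right μ (a n)).quasiMeasurePreserving.ae hM]
        with k h1 ⟨c, hc, h2⟩ h3 h4 h5 h6
      refine NormedAddGroup.tendsto_nhds_zero.2 fun ε hε => ?_
      obtain ⟨ρ, hρ, h7⟩ := h3 (ε / 4 / c) (by positivity)
      filter_upwards [h2 h1, (tendsto_iff_norm_sub_tendsto_zero.1 h1).eventually_le_const hρ]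
        with n hn hn'
      refine (rt_sub (θ := ε / 4) (by positivity) ?_).trans_lt (by linarith)
      have h8 : ‖disp x A (a n) (j g * k) - disp x A (a n) k‖ ≤ ε / 4 * ‖disp x A (a n) k‖ := by
        have h9 := h7 _ (h6 n) hn'
        rw [← h4, ← h5 n, ← mul_assoc] at h9
        refine h9.trans ((mul_le_mul_of_nonneg_left hn (by positivity)).trans_eq ?_)
        rw [← mul_assoc, div_mul_cancel₀ _ hc.ne']
      rw [← smul_sub, norm_smul, norm_smul, mul_left_comm]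
      exact mul_le_mul_of_nonneg_left h8 (norm_nonneg _)
  obtain ⟨n, hn⟩ := ((hm (η / 8) (by positivity)).eventually_lt_const
    (show (0 : ℝ≥0∞) < 1 / 8 by simp)).exists
  have h4 : 0 < 4 * r n := by linarith [hr n]
  have hs : ∀ k, ‖(4 * r n)⁻¹ • disp x A (a n) k‖ = ‖disp x A (a n) k‖ / (4 * r n) := fun k => by
    rw [norm_smul, norm_inv, Real.norm_of_nonneg h4.le, div_eq_inv_mul]
  have hlow : 1 / 8 ≤ ‖m n‖ := by
    obtain ⟨k, h1, h2, -⟩ := exists_notMem4 μ (hr1 n) hn hn hn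
    rw [mem_ofPred_eq] at h1 h2
    have h3 : 1 / 4 ≤ ‖rt ((4 * r n)⁻¹ • disp x A (a n) k)‖ := by
      rcases le_total ‖(4 * r n)⁻¹ • disp x A (a n) k‖ 1 with h | h
      · rw [rt_of_le h, hs, le_div_iff₀ h4]
        linarith [not_le.1 h1]
      · rw [norm_rt_of_ge h]
        norm_num
    linarith [not_le.1 h2, norm_sub_norm_le (rt ((4 * r n)⁻¹ • disp x A (a n) k)) (m n)]
  have hup : ‖m n‖ ≤ 5 / 8 := by
    obtain ⟨k, h1, h2⟩ : ∃ k, ‖disp x A (a n) k‖ ≤ 2 * r n ∧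
        ¬ η / 8 ≤ ‖rt ((4 * r n)⁻¹ • disp x A (a n) k) - m n‖ := by
      by_contra h
      refine absurd ((hr2 n).trans (measure_mono fun k hk => ?_)) (not_le.2 (hn.trans_le ?_))
      · by_contra h'
        exact h ⟨k, hk, h'⟩
      · exact ENNReal.div_le_div_left (by norm_num) _
    have h3 : ‖(4 * r n)⁻¹ • disp x A (a n) k‖ ≤ 1 / 2 := by
      rw [hs, div_le_iff₀ h4]
      linarith
    rw [rt_of_le (h3.trans (by norm_num)), norm_sub_rev] at h2
    linarith [not_le.1 h2, norm_sub_norm_le (m n) ((4 * r n)⁻¹ • disp x A (a n) k)]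
  refine ha' n ((4 * r n) • m n) (smul_ne_zero h4.ne' (norm_pos_iff.1 (by linarith)))
    (lt_of_le_of_lt (measure_mono fun k hk => ?_) hn)
  by_contra h'
  have h1 : ‖rt ((4 * r n)⁻¹ • disp x A (a n) k) - m n‖ < η / 8 := not_le.1 h'
  have h2 : ‖(4 * r n)⁻¹ • disp x A (a n) k‖ ≤ 1 := by
    by_contra h
    linarith [norm_rt_of_ge (not_le.1 h).le,
      norm_sub_norm_le (rt ((4 * r n)⁻¹ • disp x A (a n) k)) (m n)]
  have h3 : disp x A (a n) k - (4 * r n) • m n =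
      (4 * r n) • ((4 * r n)⁻¹ • disp x A (a n) k - m n) := by
    rw [smul_sub, smul_smul, mul_inv_cancel₀ h4.ne', one_smul]
  have h5 : η * ‖(4 * r n) • m n‖ < ‖disp x A (a n) k - (4 * r n) • m n‖ := hk
  rw [h3, norm_smul, norm_smul, mul_left_comm, Real.norm_of_nonneg h4.le] at h5
  rw [rt_of_le h2] at h1
  nlinarith [lt_of_mul_lt_mul_left h5 h4.le]

theorem almHom (hT : HasT Γ) (j : Γ →* K) (hj : DenseRange j) (act : Γ → F → F)
    (hx : Measurable x) (hA : Measurable A) (hM : ∀ᵐ k ∂μ, x k ∈ M)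
    (heq : ∀ g, ∀ᵐ k ∂μ, x (j g * k) = act g (x k))
    (hlin : ∀ g, ∀ᵐ k ∂μ, ∀ θ : ℝ, 0 < θ → ∃ r : ℝ, 0 < r ∧ ∀ y ∈ M, ‖y - x k‖ ≤ r →
      ‖A (j g * k) (act g y - act g (x k)) - A k (y - x k)‖ ≤ θ * ‖y - x k‖)
    (hinj : ∀ᵐ k ∂μ, ∃ r : ℝ, 0 < r ∧ ∃ c : ℝ, ∀ y ∈ M, ‖y - x k‖ ≤ r →
      ‖y - x k‖ ≤ c * ‖A k (y - x k)‖) : AlmHom E (stabR μ x) := by
  intro η0 hη0
  set η : ℝ := min (η0 / 8) (1 / 2)
  have hη : 0 < η := lt_min (by positivity) one_half_pos
  have hη1 : η ≤ 1 / 2 := min_le_right _ _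
  have hη2 : η ≤ η0 / 8 := min_le_left _ _
  have h8 : (0 : ℝ≥0∞) < 1 / 8 := by simp
  have h82 : (1 / 8 : ℝ≥0∞) ≤ 1 / 2 := ENNReal.div_le_div_left (by norm_num) _
  obtain ⟨U2, hU2, U3, hU3, hU⟩ := mem_nhds_prod_iff.1
    ((err_near μ hx hA hM hinj hη).eventually_lt_const h8)
  have h1 := (good_near μ hT j hj act hx hA hM heq hlin hinj hη (by linarith)).and
    ((bdd_near μ hx hA).eventually_lt_const h8)
  set U1 := {h : K | (h ∉ stabR μ x →
      ∃ v : E, v ≠ 0 ∧ μ {k | η * ‖v‖ < ‖disp x A h k - v‖} < 1 / 8) ∧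
      μ {k | 1 / 2 < ‖disp x A h k‖} < 1 / 8}
  have h2 : ∀ h, ∃ v : E, h ∈ U1 → (v = 0 ↔ h ∈ stabR μ x) ∧
      μ {k | η * ‖v‖ < ‖disp x A h k - v‖} < 1 / 8 := fun h => by
    by_cases hh : h ∈ stabR μ x
    · refine ⟨0, fun _ => ⟨iff_of_true rfl hh, lt_of_eq_of_lt (measure_eq_zero_iff_ae_notMem.2 ?_) h8⟩⟩
      filter_upwards [(mem_stabR μ x h).1 hh] with k hk
      simp [disp, hk]
    · by_cases h1 : h ∈ U1
      · obtain ⟨v, hv, hv'⟩ := h1.1 hh
        exact ⟨v, fun _ => ⟨iff_of_false hv hh, hv'⟩⟩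
      · exact ⟨0, fun h => absurd h h1⟩
  choose u hu using h2
  refine ⟨U1 ∩ (U2 ∩ U3), inter_mem h1 (inter_mem hU2 hU3), u, fun h hh => ?_,
    fun h hh => (hu h hh.1).1, fun h hh h' hh' hm => ?_⟩
  · obtain ⟨k, h3, h4, -⟩ := exists_notMem4 μ ((hu h hh.1).2.trans_le h82) hh.1.2 hh.1.2 hh.1.2
    have h5 : ‖disp x A h k - u h‖ ≤ η * ‖u h‖ := not_lt.1 h3
    have h6 : ‖disp x A h k‖ ≤ 1 / 2 := not_lt.1 h4
    rw [norm_sub_rev] at h5
    nlinarith [norm_sub_norm_le (u h) (disp x A h k), norm_nonneg (u h)]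
  · have := haar_right μ
    obtain ⟨k, h3, h4, h5, h6⟩ := exists_notMem4 μ ((hu _ hm.1).2.trans_le h82) (hu h hh.1).2
      ((measure_preimage_mul_right μ h _).trans_lt (hu h' hh'.1).2)
      ((measure_preimage_mul_right μ h _).trans_lt (hU (mk_mem_prod hh.2.1 hh'.2.2)))
    have h3' : ‖disp x A (h * h') k - u (h * h')‖ ≤ η * ‖u (h * h')‖ := not_lt.1 h3
    have h4' : ‖disp x A h k - u h‖ ≤ η * ‖u h‖ := not_lt.1 h4
    have h5' : ‖disp x A h' (k * h) - u h'‖ ≤ η * ‖u h'‖ := not_lt.1 h5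
    have h6' : ‖(A (k * h * h⁻¹) - A (k * h)) (x (k * h * h') - x (k * h))‖ ≤
      η * ‖disp x A h' (k * h)‖ := not_lt.1 h6
    rw [mul_inv_cancel_right] at h6'
    have e : u (h * h') - u h - u h' = (disp x A h k - u h) + (disp x A h' (k * h) - u h') +
        (A k - A (k * h)) (x (k * h * h') - x (k * h)) - (disp x A (h * h') k - u (h * h')) := by
      simp only [disp, sub_apply, map_sub, mul_assoc]
      abel
    have h7 : ‖u (h * h') - u h - u h'‖ ≤ η * ‖u h‖ + η * ‖u h'‖ + η * ‖disp x A h' (k * h)‖ +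
        η * ‖u (h * h')‖ := by
      rw [e]
      exact (norm_sub_le _ _).trans (add_le_add ((norm_add_le _ _).trans
        (add_le_add ((norm_add_le _ _).trans (add_le_add h4' h5')) h6')) h3')
    have h9 : ‖u (h * h')‖ ≤ ‖u (h * h') - u h - u h'‖ + ‖u h‖ + ‖u h'‖ := by
      have := norm_add₃_le (a := u (h * h') - u h - u h') (b := u h') (c := u h)
      rw [sub_add_cancel, sub_add_cancel] at this
      linarith
    have h10 : ‖disp x A h' (k * h)‖ ≤ 2 * ‖u h'‖ := by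
      nlinarith [norm_sub_norm_le (disp x A h' (k * h)) (u h'), norm_nonneg (u h')]
    have h11 := mul_le_mul_of_nonneg_left h9 hη.le
    have h12 := mul_le_mul_of_nonneg_left h10 hη.le
    have h13 := mul_le_mul_of_nonneg_right hη1 (norm_nonneg (u (h * h') - u h - u h'))
    have h14 := mul_le_mul_of_nonneg_right hη2 (norm_nonneg (u h))
    have h15 := mul_le_mul_of_nonneg_right hη2 (norm_nonneg (u h'))
    have h16 := mul_nonneg hη.le (norm_nonneg (u h))
    nlinarith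

end Main

end Pool.Agent.P.MP_d483fb_an.Z.TZ
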