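import Pool.Agent.P.MP_d483fb_an.Z.SR.GlueDec
import Pool.Agent.P.MP_d483fb_an.Z.EM.Equi

/-!
Decay of coefficients along bounded words for groups in standard form.
-/

open scoped Topology ENNReal RealInnerProductSpace
open MeasureTheory Filter Set

noncomputable section

namespace Pool.Agent.P.MP_d483fb_an.Z.TZ

variable {G : Type} [Group G] [TopologicalSpace G] [IsTopologicalGroup G] {n k : ℕ}

theorem Std.exists_far_ray (D : Std G n k) : ∃ c : ℝ, 0 < c ∧ ∀ r : ℝ, 0 ≤ r →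
    ∃ t : Euc k, ‖t‖ ≤ r ∧ D.Far (D.a t) (c * r) := by
  obtain ⟨s, hs⟩ := D.exists_reg
  obtain ⟨e, he, h⟩ : ∃ e : ℝ, 0 < e ∧ ∀ β ∈ D.roots, e ≤ |⟪β, s⟫| := by
    rcases D.roots.eq_empty_or_nonempty with h | h
    · exact ⟨1, one_pos, by simp [h]⟩
    · obtain ⟨β, hβ, h⟩ := D.roots.exists_min_image (fun β => |⟪β, s⟫|) h
      exact ⟨_, abs_pos.2 (hs β hβ), h⟩
  have h0 : 0 < ‖s‖ + 1 := by positivity
  refine ⟨e / (‖s‖ + 1), by positivity, fun r hr => ⟨(r / (‖s‖ + 1)) • s, ?_, 1, D.K.one_mem, 1,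
    D.K.one_mem, _, by rw [one_mul, mul_one], fun γ hγ => ⟨γ, hγ, Relation.ReflTransGen.refl, ?_⟩⟩⟩
  · rw [norm_smul, Real.norm_of_nonneg (by positivity), div_mul_eq_mul_div, div_le_iff₀ h0]
    nlinarith
  · rw [real_inner_smul_right, abs_mul, abs_of_nonneg (by positivity : 0 ≤ r / (‖s‖ + 1))]
    calc e / (‖s‖ + 1) * r = r / (‖s‖ + 1) * e := by ring
      _ ≤ _ := mul_le_mul_of_nonneg_left (h γ hγ) (by positivity)

variable [LocallyCompactSpace G] [SecondCountableTopology G] [MeasurableSpace G] [BorelSpace G]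

theorem Std.dec (D : Std G n k) (Γ : EM.Gauge D.toExpData)
    (hM : ∀ (H : Type) [NormedAddCommGroup H] [InnerProductSpace ℝ H] [CompleteSpace H]
      (π : G →* (H →L[ℝ] H)), (∀ g v, ‖π g v‖ = ‖v‖) → (∀ v, Continuous fun g => π g v) →
      EM.MixH Γ.dd D.Far π) (Z : Set G) : SR.Dec D.a Z := by
  obtain ⟨c, hc, h⟩ := Std.exists_far_ray D
  exact SR.dec_of_mix Γ hc h hM Z

/-- Decay of coefficients along bounded words. -/
theorem Std.dec0 [PreconnectedSpace G] (D : Std G n k) (Z : Set G) : SR.Dec D.a Z := by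
  obtain ⟨Γ⟩ := EM.exists_gauge D.toExpData
  exact Std.dec D Γ (fun _ _ _ _ _ hπ hc => D.mixH Γ hπ hc) Z

end Pool.Agent.P.MP_d483fb_an.Z.TZ
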