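import Mathlib

/-! Covering numbers and volumes in finite dimensional normed spaces. -/

open scoped Topology
open Filter Set Module Metric MeasureTheory

namespace Pool.Agent.P.MP_d483fb_an.Z.TZ

/-- A shrinking chain of sets, each covered by `M` translates of the next one. -/
theorem vol_cover {W : Type} [NormedAddCommGroup W] [NormedSpace ℝ W] [FiniteDimensional ℝ W]
    (N : ℕ → Set W) (M : ℕ) (h0 : N 0 ∈ 𝓝 (0 : W))
    (hc : ∀ j, ∃ T : Finset W, T.card ≤ M ∧ ∀ x ∈ N j, ∃ t ∈ T, x - t ∈ N (j + 1))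
    {ρ θ : ℝ} (hθ : 0 < θ) (hb : ∀ j, N j ⊆ closedBall 0 (θ ^ j * ρ)) :
    1 ≤ M * θ ^ finrank ℝ W := by
  borelize W
  let μ : Measure W := Measure.addHaar
  have hfin : ∀ j, μ (N j) ≠ ⊤ := fun j =>
    ne_top_of_le_ne_top (measure_closedBall_lt_top (μ := μ)).ne (measure_mono (hb j))
  have h1 : ∀ j, μ.real (N j) ≤ M * μ.real (N (j + 1)) := by
    intro j
    obtain ⟨T, hT, h⟩ := hc j
    have e : ∀ t : W, μ ((fun x => -t + x) ⁻¹' N (j + 1)) = μ (N (j + 1)) := fun t =>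
      measure_preimage_add μ _ _
    have h2 : μ (N j) ≤ M * μ (N (j + 1)) := by
      calc μ (N j) ≤ μ (⋃ t ∈ T, (fun x => -t + x) ⁻¹' N (j + 1)) := by
            refine measure_mono fun x hx => ?_
            obtain ⟨t, ht, h'⟩ := h x hx
            exact mem_biUnion ht (by rwa [mem_preimage, neg_add_eq_sub])
        _ ≤ ∑ t ∈ T, μ ((fun x => -t + x) ⁻¹' N (j + 1)) := measure_biUnion_finset_le _ _
        _ = T.card * μ (N (j + 1)) := by simp only [e, Finset.sum_const, nsmul_eq_mul]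
        _ ≤ M * μ (N (j + 1)) := by gcongr
    have h3 := ENNReal.toReal_mono (ENNReal.mul_ne_top (by simp) (hfin _)) h2
    rwa [ENNReal.toReal_mul, ENNReal.toReal_natCast] at h3
  have h2 : ∀ j, μ.real (N 0) ≤ M ^ j * μ.real (N j) := by
    intro j
    induction j with
    | zero => simp
    | succ j ih =>
      refine ih.trans ?_
      rw [pow_succ, mul_assoc]
      gcongr
      exact h1 j
  have h3 : ∀ j, μ.real (N 0) ≤ (M * θ ^ finrank ℝ W) ^ j * μ.real (closedBall 0 ρ) := by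
    intro j
    refine (h2 j).trans ?_
    rw [mul_pow, mul_assoc]
    gcongr
    refine (measureReal_mono (hb j) (measure_closedBall_lt_top (μ := μ)).ne).trans_eq ?_
    rw [measureReal_def, Measure.addHaar_closedBall_mul_of_pos μ _ (pow_pos hθ j),
      ENNReal.toReal_mul, ENNReal.toReal_ofReal (by positivity), ← pow_mul, ← pow_mul, mul_comm j]
    rfl
  by_contra hlt
  have h4 := (tendsto_pow_atTop_nhds_zero_of_lt_one (by positivity) (not_le.1 hlt)).mul_const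
    (μ.real (closedBall 0 ρ))
  rw [zero_mul] at h4
  have h5 : 0 < μ.real (N 0) :=
    ENNReal.toReal_pos (Measure.measure_pos_of_mem_nhds μ h0).ne' (hfin 0)
  exact h5.not_ge (ge_of_tendsto' h4 h3)

/-- Polynomial covering numbers of balls. -/
theorem cells (E : Type) [NormedAddCommGroup E] [NormedSpace ℝ E] [FiniteDimensional ℝ E] :
    ∃ C : ℕ, ∀ (P : ℕ) (r : ℝ), 0 < P → 0 < r → ∀ {X : Type} (S : Set X) (f : X → E),
      (∀ x ∈ S, ‖f x‖ ≤ r) → ∃ T : Finset X, (T : Set X) ⊆ S ∧ T.card ≤ (C * P) ^ finrank ℝ E ∧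
        ∀ x ∈ S, ∃ t ∈ T, ‖f x - f t‖ ≤ r / P := by
  classical
  let e : E ≃L[ℝ] (Fin (finrank ℝ E) → ℝ) := ContinuousLinearEquiv.ofFinrankEq (by simp)
  obtain ⟨a, ha, h1⟩ := (e : E →L[ℝ] (Fin (finrank ℝ E) → ℝ)).bound
  obtain ⟨b, hb, h2⟩ := (e.symm : (Fin (finrank ℝ E) → ℝ) →L[ℝ] E).bound
  obtain ⟨Q, hQ⟩ := exists_nat_ge (a * b)
  refine ⟨2 * Q + 1, fun P r hP hr X S f hf => ?_⟩
  have hP' : (0 : ℝ) < P := by exact_mod_cast hP
  set κ : ℝ := b * P / r with hκ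
  have hκ0 : 0 < κ := by positivity
  let g : X → Fin (finrank ℝ E) → ℤ := fun x i => ⌊κ * e (f x) i⌋
  let B : Finset (Fin (finrank ℝ E) → ℤ) :=
    Fintype.piFinset fun _ => Finset.Icc (-(Q * P : ℤ)) (Q * P)
  have hB : ∀ x ∈ S, g x ∈ B := by
    intro x hx
    refine Fintype.mem_piFinset.2 fun i => ?_
    have h3 : |κ * e (f x) i| ≤ Q * P := by
      rw [abs_mul, abs_of_pos hκ0]
      have h4 : |e (f x) i| ≤ a * r :=
        ((norm_le_pi_norm (e (f x)) i).trans (h1 (f x))).trans (by gcongr; exact hf x hx)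
      calc κ * |e (f x) i| ≤ κ * (a * r) := by gcongr
        _ = a * b * P := by rw [hκ]; field_simp
        _ ≤ Q * P := by gcongr
    rw [abs_le] at h3
    refine Finset.mem_Icc.2 ⟨Int.le_floor.2 ?_, Int.floor_le_iff.2 ?_⟩
    · push_cast
      exact h3.1
    · push_cast
      linarith [h3.2]
  let I : Finset (Fin (finrank ℝ E) → ℤ) := B.filter fun v => ∃ x ∈ S, g x = v
  have hI : ∀ v : I, ∃ x ∈ S, g x = v := fun v => (Finset.mem_filter.1 v.2).2
  choose σ hσ hσ' using hI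
  refine ⟨Finset.univ.image σ, ?_, ?_, fun x hx => ?_⟩
  · intro t ht
    obtain ⟨v, -, rfl⟩ := Finset.mem_image.1 ht
    exact hσ v
  · refine Finset.card_image_le.trans ?_
    rw [Finset.card_univ, Fintype.card_coe]
    refine (Finset.card_filter_le _ _).trans ?_
    rw [Fintype.card_piFinset_const, Int.card_Icc]
    refine Nat.pow_le_pow_left ?_ _
    have : (Q * P + 1 - -(Q * P) : ℤ) = (2 * (Q * P) + 1 : ℕ) := by push_cast; ring
    rw [this, Int.toNat_natCast]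
    nlinarith
  · let v : I := ⟨g x, Finset.mem_filter.2 ⟨hB x hx, x, hx, rfl⟩⟩
    refine ⟨σ v, Finset.mem_image_of_mem σ (Finset.mem_univ v), ?_⟩
    have h3 : ‖e (f x - f (σ v))‖ ≤ κ⁻¹ := by
      refine (pi_norm_le_iff_of_nonneg (by positivity)).2 fun i => ?_
      have h4 : ⌊κ * e (f x) i⌋ = ⌊κ * e (f (σ v)) i⌋ := (congrFun (hσ' v) i).symm
      have h5 := Int.abs_sub_lt_one_of_floor_eq_floor h4
      rw [← mul_sub, abs_mul, abs_of_pos hκ0] at h5
      rw [map_sub, Pi.sub_apply, Real.norm_eq_abs, ← one_div, le_div_iff₀ hκ0, mul_comm]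
      exact h5.le
    have h4 := h2 (e (f x - f (σ v)))
    simp only [ContinuousLinearEquiv.coe_coe, ContinuousLinearEquiv.symm_apply_apply] at h4
    calc ‖f x - f (σ v)‖ ≤ b * κ⁻¹ := h4.trans (by gcongr)
      _ = r / P := by rw [hκ]; field_simp

/-- The dimension count. -/
theorem count {W E : Type} [NormedAddCommGroup W] [NormedSpace ℝ W] [FiniteDimensional ℝ W]
    [NormedAddCommGroup E] [NormedSpace ℝ E] [FiniteDimensional ℝ E]
    (H : ∀ η : ℝ, 0 < η → η ≤ 1 / 10 → ∃ (f : W → E) (ρ c : ℝ), 0 < ρ ∧ 0 < c ∧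
      (∀ ε > 0, ∀ᶠ X in 𝓝 (0 : W), ‖f X‖ ≤ ε) ∧
      (∀ (k : ℕ) (X : W), ‖X‖ ≤ ρ → ‖f X‖ ≤ c / (2 * (1 + η)) ^ k → ‖X‖ ≤ ρ / 2 ^ k) ∧
      ∀ (k : ℕ) (X Y : W), ‖X‖ ≤ ρ / 2 ^ k → ‖Y‖ ≤ ρ / 2 ^ k →
        ‖f (X - Y)‖ ≤ 2 * ‖f X - f Y‖ + 3 / 3 ^ k + 2 * η * (‖f X‖ + ‖f Y‖)) :
    finrank ℝ W ≤ finrank ℝ E := by
  by_contra hlt
  rw [not_le] at hlt
  obtain ⟨C, hC⟩ := cells E
  obtain ⟨s, hs⟩ : ∃ s : ℕ, (C * 12) ^ finrank ℝ E < 2 ^ s := ⟨_, Nat.lt_two_pow_self⟩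
  obtain ⟨η, ⟨⟨hη1, hη2⟩, hη3⟩, hη0⟩ : ∃ η : ℝ, ((η ≤ 1 / 10 ∧ η ≤ 1 / (24 * 2 ^ s)) ∧
      (1 + η) ^ s ≤ 2) ∧ 0 < η := by
    have h1 : ∀ᶠ η in 𝓝 (0 : ℝ), η ≤ 1 / 10 := eventually_le_nhds (by norm_num)
    have h2 : ∀ᶠ η in 𝓝 (0 : ℝ), η ≤ 1 / (24 * 2 ^ s) := eventually_le_nhds (by positivity)
    have h3 : ∀ᶠ η in 𝓝 (0 : ℝ), (1 + η) ^ s ≤ 2 := by
      have h4 : ContinuousAt (fun η : ℝ => (1 + η) ^ s) 0 := by fun_prop
      exact h4.eventually (eventually_le_nhds (by norm_num))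
    exact ((((h1.and h2).and h3).filter_mono nhdsWithin_le_nhds).and
      (self_mem_nhdsWithin (s := Ioi (0 : ℝ)))).exists
  obtain ⟨f, ρ, c, hρ, hc, h0, hl, ha⟩ := H η hη0 hη1
  set b : ℝ := 2 * (1 + η) with hb
  have hb0 : 0 < b := by positivity
  have hbs : b ^ s ≤ 2 * 2 ^ s := by
    rw [hb, mul_pow, mul_comm]
    gcongr
  obtain ⟨k₀, hk₀⟩ : ∃ k₀ : ℕ, ∀ k ≥ k₀, 1 ≤ k ∧ (b / 3) ^ k ≤ c / (18 * 2 ^ s) := by
    have h1 := (tendsto_pow_atTop_nhds_zero_of_lt_one (r := b / 3) (by positivity)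
      (by rw [hb]; linarith)).eventually (eventually_le_nhds (b := c / (18 * 2 ^ s))
        (by positivity))
    exact eventually_atTop.1 ((eventually_ge_atTop 1).and h1)
  have key := vol_cover (fun j => {X : W | ‖X‖ ≤ ρ ∧ ‖f X‖ ≤ c / b ^ (k₀ + j * s)})
    ((C * (12 * 2 ^ s)) ^ finrank ℝ E) ?_ ?_ (ρ := ρ) (θ := (2 ^ s)⁻¹) (by positivity) ?_
  · have h1 : ((2 : ℝ) ^ s) ^ (finrank ℝ E + 1) ≤ (2 ^ s) ^ finrank ℝ W :=
      pow_le_pow_right₀ (one_le_pow₀ one_le_two) hlt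
    rw [inv_pow, ← div_eq_mul_inv, one_le_div (by positivity)] at key
    have h2 := h1.trans key
    push_cast at h2
    rw [← mul_assoc, mul_pow, pow_succ, mul_comm] at h2
    have h3 := le_of_mul_le_mul_right h2 (by positivity)
    have h4 : (((C * 12) ^ finrank ℝ E : ℕ) : ℝ) < ((2 ^ s : ℕ) : ℝ) := by exact_mod_cast hs
    push_cast at h4
    exact h4.not_ge h3
  · filter_upwards [closedBall_mem_nhds (0 : W) hρ, h0 (c / b ^ (k₀ + 0 * s)) (by positivity)]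
      with X h1 h2
    exact ⟨mem_closedBall_zero_iff.1 h1, h2⟩
  · intro j
    obtain ⟨hk1, hk2⟩ := hk₀ (k₀ + j * s) (Nat.le_add_right _ _)
    have e : k₀ + (j + 1) * s = k₀ + j * s + s := by ring
    simp only [e]
    generalize k₀ + j * s = k at hk1 hk2 ⊢
    set r : ℝ := c / b ^ k with hr
    have hr0 : 0 < r := by positivity
    obtain ⟨T, hT, hcard, hT'⟩ := hC (12 * 2 ^ s) r (by positivity) hr0
      {X : W | ‖X‖ ≤ ρ ∧ ‖f X‖ ≤ r} f fun x hx => hx.2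
    refine ⟨T, hcard, fun x hx => ?_⟩
    obtain ⟨t, ht, h1⟩ := hT' x hx
    have ht' := hT ht
    have hx1 := hl k x hx.1 hx.2
    have ht1 := hl k t ht'.1 ht'.2
    refine ⟨t, ht, ?_, ?_⟩
    · have h2 : ρ / 2 ^ k ≤ ρ / 2 ^ 1 := by
        gcongr
        exact one_le_two
      have h3 := norm_sub_le x t
      rw [pow_one] at h2
      linarith
    · have h2 := ha k x t hx1 ht1
      set q : ℝ := 2 ^ s with hq
      have hq0 : 0 < q := by positivity
      have h3 : (3 : ℝ) / 3 ^ k ≤ r / (6 * q) := by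
        rw [div_pow, div_le_div_iff₀ (by positivity) (by positivity)] at hk2
        rw [hr, div_div, div_le_div_iff₀ (by positivity) (by positivity)]
        linarith
      have h4 : 2 * η * (‖f x‖ + ‖f t‖) ≤ r / (6 * q) := by
        calc 2 * η * (‖f x‖ + ‖f t‖) ≤ 2 * (1 / (24 * q)) * (r + r) := by
              gcongr
              exacts [hx.2, ht'.2]
          _ = r / (6 * q) := by field_simp; ring
      have h5 : 2 * ‖f x - f t‖ ≤ r / (6 * q) := by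
        push_cast at h1
        calc 2 * ‖f x - f t‖ ≤ 2 * (r / (12 * q)) := by gcongr
          _ = r / (6 * q) := by field_simp; ring
      calc ‖f (x - t)‖ ≤ r / (6 * q) + r / (6 * q) + r / (6 * q) := by linarith
        _ = r / (2 * q) := by field_simp; ring
        _ ≤ r / b ^ s := by gcongr
        _ = c / b ^ (k + s) := by rw [hr, div_div, pow_add]
  · intro j X hX
    refine mem_closedBall_zero_iff.2 ((hl _ X hX.1 hX.2).trans ?_)
    rw [inv_pow, ← pow_mul, mul_comm _ ρ, ← div_eq_mul_inv]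
    gcongr
    · exact one_le_two
    · rw [mul_comm]
      exact Nat.le_add_left _ _

end Pool.Agent.P.MP_d483fb_an.Z.TZ
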