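import Pool.Agent.P.MP_d483fb_an.Z.Lie.Mx1
import Pool.Agent.P.MP_d483fb_an.Z.TZ.DimVol

/-! The dimension count for almost homomorphisms on a group of units of a Banach algebra. -/

open scoped Topology Nat
open NormedSpace Filter Set Module Metric

noncomputable section

namespace Pool.Agent.P.MP_d483fb_an.Z.TZ

variable {A : Type} [NormedRing A]

/-- A subadditive size function. -/
def sz (y : A) : ℝ := Real.log (1 + ‖y - 1‖)

theorem sz_nonneg (y : A) : 0 ≤ sz y := Real.log_nonneg (by simp)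

theorem sz_le (y : A) : sz y ≤ ‖y - 1‖ := by
  have h := Real.log_le_sub_one_of_pos (x := 1 + ‖y - 1‖) (by positivity)
  rwa [add_sub_cancel_left] at h

theorem sz_mul (x y : A) : sz (x * y) ≤ sz x + sz y := by
  unfold sz
  rw [← Real.log_mul (by positivity) (by positivity)]
  refine Real.log_le_log (by positivity) ?_
  have e : x * y - 1 = (x - 1) + (y - 1) + (x - 1) * (y - 1) := by noncomm_ring
  have h := norm_add₃_le (a := x - 1) (b := y - 1) (c := (x - 1) * (y - 1))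
  have h2 := norm_mul_le (x - 1) (y - 1)
  rw [e]
  linarith

theorem sz_nhds {O : Set A} (hO : O ∈ 𝓝 (1 : A)) : ∃ δ > 0, ∀ y, sz y ≤ δ → y ∈ O := by
  obtain ⟨ε, hε, h⟩ := nhds_basis_closedBall.mem_iff.1 hO
  refine ⟨Real.log (1 + ε), Real.log_pos (by linarith), fun y hy => h ?_⟩
  have := (Real.log_le_log_iff (by positivity) (by positivity)).1 hy
  rw [mem_closedBall, dist_eq_norm]
  linarith

theorem sz_cont : Continuous (sz : A → ℝ) :=
  Continuous.log (by fun_prop) fun y => by positivity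

theorem sz_one : sz (1 : A) = 0 := by simp [sz]

theorem norm_mul_sub (x y X Y : A) :
    ‖x * y - 1 - (X + Y)‖ ≤ ‖x - 1 - X‖ + ‖y - 1 - Y‖ + ‖x - 1‖ * ‖y - 1‖ := by
  have e : x * y - 1 - (X + Y) = (x - 1 - X) + (y - 1 - Y) + (x - 1) * (y - 1) := by noncomm_ring
  rw [e]
  exact norm_add₃_le.trans (by gcongr; exact norm_mul_le _ _)

/-- A bounded almost homomorphism near the identity of `L` whose zeros lie in `L₀`. -/
structure AH {E : Type} [NormedAddCommGroup E] (L L₀ : Set A) (η δ : ℝ) (u : A → E) : Prop where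
  mul : ∀ x ∈ L, ∀ y ∈ L, x * y ∈ L
  bdd : ∀ y ∈ L, sz y ≤ δ → ‖u y‖ ≤ 1
  zero : ∀ y ∈ L, sz y ≤ δ → u y = 0 → y ∈ L₀
  add : ∀ x ∈ L, ∀ y ∈ L, sz x + sz y ≤ δ → ‖u (x * y) - u x - u y‖ ≤ η * (‖u x‖ + ‖u y‖)

section AH

variable {E : Type} [NormedAddCommGroup E] [NormedSpace ℝ E] {L L₀ : Set A} {η δ : ℝ} {u : A → E}

theorem sq_bounds {a v : E} (h : ‖a - v - v‖ ≤ η * (‖v‖ + ‖v‖)) :
    2 * (1 - η) * ‖v‖ ≤ ‖a‖ ∧ ‖a‖ ≤ 2 * (1 + η) * ‖v‖ := by
  have e : ‖v + v‖ = 2 * ‖v‖ := by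
    rw [← two_smul ℝ v, norm_smul, Real.norm_two]
  rw [sub_sub] at h
  have h1 := abs_norm_sub_norm_le a (v + v)
  rw [e, abs_le] at h1
  constructor <;> linarith [h1.1, h1.2]

theorem AH.upper (H : AH L L₀ η δ u) (hδ : 0 ≤ δ) (hη : η ≤ 1 / 10) (j : ℕ) :
    ∀ y ∈ L, sz y ≤ δ / 2 ^ j → (9 / 5) ^ j * ‖u y‖ ≤ 1 := by
  induction j with
  | zero => intro y hy h; simpa using H.bdd y hy (by simpa using h)
  | succ j ih =>
    intro y hy h
    have h1 : sz y + sz y ≤ δ / 2 ^ j := by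
      rw [pow_succ, ← div_div] at h
      linarith
    have h2 : δ / 2 ^ j ≤ δ := div_le_self hδ (one_le_pow₀ one_le_two)
    have h3 := ih (y * y) (H.mul y hy y hy) ((sz_mul y y).trans h1)
    have h4 := (sq_bounds (H.add y hy y hy (h1.trans h2))).1
    refine le_trans ?_ h3
    rw [pow_succ, mul_assoc]
    gcongr
    refine le_trans ?_ h4
    gcongr
    linarith

theorem AH.small (H : AH L L₀ η δ u) (hδ : 0 < δ) (hη : η ≤ 1 / 10) {ε : ℝ} (hε : 0 < ε) :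
    ∀ᶠ y in 𝓝 (1 : A), y ∈ L → ‖u y‖ ≤ ε := by
  obtain ⟨j, hj⟩ := pow_unbounded_of_one_lt ε⁻¹ (show (1 : ℝ) < 9 / 5 by norm_num)
  have h1 : ∀ᶠ y in 𝓝 (1 : A), sz y ≤ δ / 2 ^ j :=
    sz_cont.continuousAt.eventually (eventually_le_nhds (by rw [sz_one]; positivity))
  filter_upwards [h1] with y hy hL
  have h2 := H.upper hδ.le hη j y hL hy
  have h3 : ε⁻¹ * ‖u y‖ ≤ 1 := le_trans (by gcongr) h2
  rwa [inv_mul_le_iff₀ hε, mul_one] at h3

end AH

variable [NormedAlgebra ℝ A] [CompleteSpace A]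

theorem norm_exp_sub_le (X : A) : ‖exp X - 1 - X‖ ≤ Real.exp ‖X‖ - 1 - ‖X‖ := by
  have h1 := (hasSum_nat_add_iff' 2).2 (exp_series_hasSum_exp' (𝕂 := ℝ) X)
  have h2 := (hasSum_nat_add_iff' 2).2 (exp_series_hasSum_exp' (𝕂 := ℝ) ‖X‖)
  simp only [Finset.sum_range_succ, Finset.sum_range_zero, Nat.factorial_zero, Nat.factorial_one,
    Nat.cast_one, inv_one, pow_zero, pow_one, one_smul, zero_add, ← sub_sub] at h1 h2
  rw [← h1.tsum_eq, Real.exp_eq_exp_ℝ]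
  refine tsum_of_norm_bounded h2 fun n => ?_
  rw [norm_smul, Real.norm_of_nonneg (by positivity), smul_eq_mul]
  gcongr
  exact norm_pow_le' X (by omega)

theorem norm_exp_sub_one_le (X : A) : ‖exp X - 1‖ ≤ Real.exp ‖X‖ - 1 := by
  have h := norm_add_le (exp X - 1 - X) X
  rw [sub_add_cancel] at h
  linarith [norm_exp_sub_le X]

theorem sz_exp (X : A) : sz (exp X) ≤ ‖X‖ := by
  rw [sz, Real.log_le_iff_le_exp (by positivity)]
  linarith [norm_exp_sub_one_le X]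

theorem exp_bounds {X : A} {t : ℝ} (h : ‖X‖ ≤ t) (ht : t ≤ 1) :
    ‖exp X - 1 - X‖ ≤ t ^ 2 ∧ ‖exp X - 1‖ ≤ 2 * t := by
  have h1 := Real.abs_exp_sub_one_sub_id_le (x := ‖X‖) (by rw [abs_norm]; linarith)
  have h2 : ‖exp X - 1 - X‖ ≤ t ^ 2 :=
    ((norm_exp_sub_le X).trans ((le_abs_self _).trans h1)).trans (by gcongr)
  have h3 := norm_add_le (exp X - 1 - X) X
  rw [sub_add_cancel] at h3
  refine ⟨h2, ?_⟩
  nlinarith [norm_nonneg X]

theorem norm_triple {X Y : A} {t : ℝ} (hX : ‖X‖ ≤ t) (hY : ‖Y‖ ≤ t) (ht : t ≤ 1 / 4) :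
    ‖exp (-X) * exp (X - Y) * exp Y - 1‖ ≤ 24 * t ^ 2 := by
  have h0 : 0 ≤ t := (norm_nonneg X).trans hX
  obtain ⟨a1, b1⟩ := exp_bounds (X := -X) (t := t) (by rwa [norm_neg]) (by linarith)
  obtain ⟨a2, b2⟩ := exp_bounds (X := X - Y) (t := 2 * t) (by linarith [norm_sub_le X Y])
    (by linarith)
  obtain ⟨a3, b3⟩ := exp_bounds hY (by linarith)
  have h1 := norm_mul_sub (exp (-X)) (exp (X - Y)) (-X) (X - Y)
  have h2 := norm_mul_sub (exp (-X) * exp (X - Y)) (exp Y) (-X + (X - Y)) Y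
  have e1 : -X + (X - Y) = -Y := by abel
  rw [e1] at h1 h2
  rw [neg_add_cancel, sub_zero] at h2
  have h3 : ‖exp (-X) - 1‖ * ‖exp (X - Y) - 1‖ ≤ 2 * t * (2 * (2 * t)) := by gcongr
  have h4 := norm_add_le (exp (-X) * exp (X - Y) - 1 - -Y) (-Y)
  rw [sub_add_cancel, norm_neg] at h4
  have h5 : ‖exp (-X) * exp (X - Y) - 1‖ ≤ 5 * t := by nlinarith
  have h6 : ‖exp (-X) * exp (X - Y) - 1‖ * ‖exp Y - 1‖ ≤ 5 * t * (2 * t) := by gcongr
  nlinarith

/-- A closed group of units. -/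
structure Grp (L : Set A) : Prop where
  one : 1 ∈ L
  mul : ∀ x ∈ L, ∀ y ∈ L, x * y ∈ L
  inv : ∀ x ∈ L, ∀ y, x * y = 1 → y ∈ L
  closed : IsClosed L

theorem Grp.exp_mem {L : Set A} (h : Grp L) {X : A}
    (hX : ∀ ε : ℝ, 0 < ε → ∃ t ∈ Ioo 0 ε, exp (t • X) ∈ L) (t : ℝ) : exp (t • X) ∈ L := by
  let S : AddSubgroup ℝ :=
    { carrier := {t | exp (t • X) ∈ L}
      zero_mem' := by simpa using h.one
      add_mem' := fun {a b} ha hb => by
        show exp ((a + b) • X) ∈ L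
        rw [exp_add_smul]
        exact h.mul _ ha _ hb
      neg_mem' := fun {a} ha => by
        show exp ((-a) • X) ∈ L
        rw [neg_smul]
        exact h.inv _ ha _ (exp_mul_neg _) }
  have h1 : Dense (S : Set ℝ) := S.dense_of_not_isolated_zero fun ε hε => by
    obtain ⟨t, ht, h'⟩ := hX ε hε
    exact ⟨t, h', ht⟩
  have h2 : IsClosed (S : Set ℝ) :=
    h.closed.preimage (exp_cont.comp (continuous_id.smul continuous_const))
  have h3 : t ∈ closure (S : Set ℝ) := h1 t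
  rwa [h2.closure_eq] at h3

theorem exp_two (X : A) : exp ((2 : ℝ) • X) = exp X * exp X := by
  rw [two_smul, exp_add_comm (Commute.refl X)]

variable {E : Type} [NormedAddCommGroup E] [NormedSpace ℝ E] {L L₀ : Set A} {η δ : ℝ} {u : A → E}
  {W : Submodule ℝ A}

theorem AH.dbl (H : AH L L₀ η δ u) (hW : ∀ X ∈ W, exp X ∈ L) {X : A} (hX : X ∈ W)
    (h : 2 * ‖X‖ ≤ δ) : 2 * (1 - η) * ‖u (exp X)‖ ≤ ‖u (exp ((2 : ℝ) • X))‖ ∧
      ‖u (exp ((2 : ℝ) • X))‖ ≤ 2 * (1 + η) * ‖u (exp X)‖ := by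
  rw [exp_two]
  exact sq_bounds (H.add _ (hW X hX) _ (hW X hX) (by linarith [sz_exp X]))

theorem AH.ne_zero (H : AH L L₀ η δ u) (hη : η ≤ 1 / 10) (h₀ : Grp L₀) (hW : ∀ X ∈ W, exp X ∈ L)
    (hW₀ : ∀ X ∈ W, (∀ t : ℝ, exp (t • X) ∈ L₀) → X = 0) {X : A} (hX : X ∈ W) (h : ‖X‖ ≤ δ)
    (hu : u (exp X) = 0) : X = 0 := by
  have hn : ∀ k : ℕ, ‖((1 / 2 : ℝ) ^ k) • X‖ ≤ ‖X‖ := fun k => by
    rw [norm_smul, Real.norm_of_nonneg (by positivity)]
    exact mul_le_of_le_one_left (norm_nonneg X) (pow_le_one₀ (by norm_num) (by norm_num))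
  have h1 : ∀ k : ℕ, u (exp (((1 / 2 : ℝ) ^ k) • X)) = 0 := by
    intro k
    induction k with
    | zero => simpa using hu
    | succ k ih =>
      have e : (2 : ℝ) • ((1 / 2 : ℝ) ^ (k + 1)) • X = ((1 / 2 : ℝ) ^ k) • X := by
        rw [smul_smul]
        congr 1
        ring
      have h2 : 2 * ‖((1 / 2 : ℝ) ^ (k + 1)) • X‖ ≤ δ := by
        have h3 := hn k
        rw [← e, norm_smul, Real.norm_two] at h3
        linarith
      have h3 := (H.dbl hW (W.smul_mem _ hX) h2).1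
      rw [e, ih, norm_zero] at h3
      refine norm_le_zero_iff.1 ?_
      nlinarith [norm_nonneg (u (exp (((1 / 2 : ℝ) ^ (k + 1)) • X)))]
  refine hW₀ X hX (h₀.exp_mem fun ε hε => ?_)
  obtain ⟨k, hk⟩ := exists_pow_lt_of_lt_one hε (show (1 / 2 : ℝ) < 1 by norm_num)
  exact ⟨_, ⟨by positivity, hk⟩, H.zero _ (hW _ (W.smul_mem _ hX))
    ((sz_exp _).trans ((hn k).trans h)) (h1 k)⟩

theorem AH.lsc (H : AH L L₀ η δ u) (hδ : 0 < δ) (hη : η ≤ 1 / 10) (hW : ∀ X ∈ W, exp X ∈ L)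
    (X₀ : W) (h : ‖X₀‖ < δ / 2) {ε : ℝ} (hε : 0 < ε) :
    ∀ᶠ X : W in 𝓝 X₀, ‖u (exp X₀.1)‖ ≤ 2 * ‖u (exp X.1)‖ + 2 * ε := by
  have h1 : Tendsto (fun X : W => exp (-X.1) * exp X₀.1) (𝓝 X₀) (𝓝 1) := by
    rw [← exp_neg_mul X₀.1]
    exact ((exp_cont.comp continuous_subtype_val.neg).mul continuous_const).tendsto X₀
  have h2 : ∀ᶠ y in 𝓝 (1 : A), sz y ≤ δ / 2 :=
    sz_cont.continuousAt.eventually (eventually_le_nhds (by rw [sz_one]; positivity))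
  have h3 : ∀ᶠ X : W in 𝓝 X₀, ‖X‖ ≤ δ / 2 :=
    continuous_norm.continuousAt.eventually (eventually_le_nhds h)
  filter_upwards [h1.eventually (H.small hδ hη hε), h1.eventually h2, h3] with X a1 a2 a3
  have m : exp (-X.1) * exp X₀.1 ∈ L := H.mul _ (hW _ (W.neg_mem X.2)) _ (hW _ X₀.2)
  have h4 := H.add _ (hW _ X.2) _ m (by linarith [sz_exp X.1, show ‖X.1‖ = ‖X‖ from rfl])
  rw [← mul_assoc, exp_mul_neg, one_mul, sub_sub] at h4
  have h5 := norm_sub_norm_le (u (exp X₀.1)) (u (exp X.1) + u (exp (-X.1) * exp X₀.1))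
  have h6 := norm_add_le (u (exp X.1)) (u (exp (-X.1) * exp X₀.1))
  have h7 := a1 m
  nlinarith [norm_nonneg (u (exp X.1)), norm_nonneg (u (exp (-X.1) * exp X₀.1))]

theorem AH.sub_le (H : AH L L₀ η δ u) (hη₀ : 0 ≤ η) (hη : η ≤ 1 / 10) (hW : ∀ X ∈ W, exp X ∈ L)
    {ρ : ℝ} (h1 : ρ ≤ 1 / 24) (h2 : 3 * ρ ≤ δ) (k : ℕ) {X Y : A} (hX : X ∈ W) (hY : Y ∈ W)
    (nX : ‖X‖ ≤ ρ / 2 ^ k) (nY : ‖Y‖ ≤ ρ / 2 ^ k) :
    ‖u (exp (X - Y))‖ ≤ 2 * ‖u (exp X) - u (exp Y)‖ + 3 / 3 ^ k +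
      2 * η * (‖u (exp X)‖ + ‖u (exp Y)‖) := by
  have h0 : 0 ≤ ρ := by
    have h3 := (norm_nonneg X).trans nX
    rwa [le_div_iff₀ (by positivity), zero_mul] at h3
  have h3 : ρ / 2 ^ k ≤ ρ := div_le_self h0 (one_le_pow₀ one_le_two)
  set z := exp (-X) * exp (X - Y) * exp Y with hz
  have m : z ∈ L := H.mul _ (H.mul _ (hW _ (W.neg_mem hX)) _ (hW _ (W.sub_mem hX hY))) _ (hW _ hY)
  have h4 : sz z ≤ ρ / 2 ^ (2 * k) := by
    refine ((sz_le z).trans (norm_triple nX nY (by linarith))).trans ?_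
    rw [div_pow, ← pow_mul, mul_comm k 2, ← mul_div_assoc]
    gcongr
    nlinarith
  have h5 : ρ / 2 ^ (2 * k) ≤ ρ := div_le_self h0 (one_le_pow₀ one_le_two)
  have h6 : ‖u z‖ ≤ 1 / 3 ^ k := by
    have h7 := H.upper (by linarith) hη (2 * k) z m (h4.trans (by gcongr; linarith))
    rw [le_div_iff₀ (by positivity), mul_comm]
    refine le_trans ?_ h7
    rw [pow_mul]
    gcongr
    norm_num
  have h7 := H.add _ (hW _ (W.sub_mem hX hY)) _ (hW _ hY)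
    (by linarith [sz_exp (X - Y), sz_exp Y, norm_sub_le X Y])
  have h8 := H.add _ (hW _ hX) _ m (by linarith [sz_exp X])
  have e : exp X * z = exp (X - Y) * exp Y := by
    rw [hz, ← mul_assoc, ← mul_assoc, exp_mul_neg, one_mul]
  rw [e] at h8
  generalize u (exp (X - Y) * exp Y) = p at h7 h8
  generalize u (exp (X - Y)) = a at h7 ⊢
  generalize u (exp Y) = b at h7 ⊢
  generalize u (exp X) = c at h8 ⊢
  generalize u z = d at h6 h8
  have e2 : a = (c - b) + d + ((p - c - d) - (p - a - b)) := by abel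
  have h9 : ‖a‖ ≤ ‖c - b‖ + ‖d‖ + (‖p - c - d‖ + ‖p - a - b‖) := by
    conv_lhs => rw [e2]
    exact norm_add₃_le.trans (by gcongr; exact norm_sub_le _ _)
  have e3 : (3 : ℝ) / 3 ^ k = 3 * (1 / 3 ^ k) := by ring
  rw [e3]
  nlinarith [norm_nonneg a, norm_nonneg b, norm_nonneg c, norm_nonneg d, norm_nonneg (c - b),
    mul_nonneg hη₀ (norm_nonneg b), mul_nonneg hη₀ (norm_nonneg c)]

theorem dim_core [FiniteDimensional ℝ E] [FiniteDimensional ℝ W] (h₀ : Grp L₀)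
    (hW : ∀ X ∈ W, exp X ∈ L) (hW₀ : ∀ X ∈ W, (∀ t : ℝ, exp (t • X) ∈ L₀) → X = 0)
    (H : ∀ η : ℝ, 0 < η → ∃ δ > 0, ∃ u : A → E, AH L L₀ η δ u) :
    finrank ℝ W ≤ finrank ℝ E := by
  refine count fun η hη₀ hη => ?_
  obtain ⟨δ, hδ, u, H⟩ := H η hη₀
  obtain ⟨ρ, hρ, h1, h2⟩ : ∃ ρ > 0, ρ ≤ 1 / 24 ∧ 3 * ρ ≤ δ :=
    ⟨min (1 / 24) (δ / 3), by positivity, min_le_left _ _, by linarith [min_le_right (1 / 24) (δ / 3)]⟩
  obtain ⟨c, hc', hc⟩ : ∃ c : ℝ, (∀ X ∈ closedBall (0 : W) ρ \ ball 0 (ρ / 2),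
      c < ‖u (exp X.1)‖) ∧ 0 < c := by
    have h3 : IsCompact (closedBall (0 : W) ρ \ ball 0 (ρ / 2)) :=
      (isCompact_closedBall _ _).diff isOpen_ball
    have h4 := h3.eventually_forall_of_forall_eventually (x₀ := (0 : ℝ))
      (P := fun c X => c < ‖u (exp X.1)‖) fun X₀ hX₀ => by
        have n1 : ‖X₀‖ ≤ ρ := mem_closedBall_zero_iff.1 hX₀.1
        have n2 : 0 < ‖u (exp X₀.1)‖ := norm_pos_iff.2 fun h => hX₀.2 (by
          rw [show X₀ = 0 from Subtype.ext (H.ne_zero hη h₀ hW hW₀ X₀.2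
            (show ‖X₀‖ ≤ δ by linarith) h)]
          exact mem_ball_self (by positivity))
        have h5 := H.lsc hδ hη hW X₀ (by linarith) (ε := ‖u (exp X₀.1)‖ / 4) (by positivity)
        have h6 : ∀ᶠ c in 𝓝 (0 : ℝ), c < ‖u (exp X₀.1)‖ / 4 := eventually_lt_nhds (by positivity)
        filter_upwards [h6.prod_nhds h5] with z hz
        linarith [hz.1, hz.2]
    exact ((h4.filter_mono nhdsWithin_le_nhds).and
      (self_mem_nhdsWithin (s := Ioi (0 : ℝ)))).exists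
  refine ⟨fun X => u (exp X.1), ρ, c, hρ, hc, fun ε hε => ?_, fun k => ?_,
    fun k X Y nX nY => H.sub_le hη₀.le hη hW h1 h2 k X.2 Y.2 nX nY⟩
  · have h3 : Tendsto (fun X : W => exp X.1) (𝓝 0) (𝓝 1) := by
      rw [← exp_zero]
      exact (exp_cont.comp continuous_subtype_val).tendsto 0
    filter_upwards [h3.eventually (H.small hδ hη hε)] with X hX
    exact hX (hW _ X.2)
  · induction k with
    | zero => intro X h _; simpa using h
    | succ k ih =>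
      intro X h h'
      have hb : 1 ≤ 2 * (1 + η) := by linarith
      have h3 : ‖X‖ < ρ / 2 := by
        by_contra h4
        have h5 := hc' X ⟨mem_closedBall_zero_iff.2 h, fun h5 => h4 (mem_ball_zero_iff.1 h5)⟩
        exact h5.not_ge (h'.trans (div_le_self hc.le (one_le_pow₀ hb)))
      have e : ‖(2 : ℝ) • X‖ = 2 * ‖X‖ := by rw [norm_smul, Real.norm_two]
      have h4 := ih ((2 : ℝ) • X) (by linarith) (by
        refine (H.dbl hW X.2 (show 2 * ‖X‖ ≤ δ by linarith)).2.trans ?_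
        rw [pow_succ, ← div_div, le_div_iff₀ (by positivity)] at h'
        rwa [mul_comm])
      rw [pow_succ, ← div_div]
      linarith

end Pool.Agent.P.MP_d483fb_an.Z.TZ
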