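import Pool.Agent.P.MP_d483fb_an.Z.Lie.MatGrp
import Pool.Agent.P.MP_d483fb_an.Z.SR.SRdDef
import Pool.Agent.P.MP_d483fb_an.Z.TZ.DimDefs
import Pool.Agent.P.MP_d483fb_an.Z.TZ.DimAlg

/-! The dimension count for almost homomorphisms on a compact group. -/

open scoped Matrix Matrix.Norms.Operator Topology
open NormedSpace Filter Set Module

noncomputable section

namespace Pool.Agent.P.MP_d483fb_an.Z.TZ

variable {K : Type} [Group K] [TopologicalSpace K] {E : Type} [NormedAddCommGroup E]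
  [NormedSpace ℝ E] {K₀ : Subgroup K} {n : ℕ}

/-- Small subgroups lie in `K₀`. -/
theorem AlmHom.small (H : AlmHom E K₀) :
    ∃ U ∈ 𝓝 (1 : K), ∀ S : Subgroup K, (S : Set K) ⊆ U → S ≤ K₀ := by
  obtain ⟨U, hU, u, hb, hz, ha⟩ := H (1 / 4) (by norm_num)
  refine ⟨U, hU, fun S hS h hh => (hz h (hS hh)).1 ?_⟩
  have h1 : ∀ j : ℕ, ∀ h ∈ S, (3 / 2) ^ j * ‖u h‖ ≤ 1 := by
    intro j
    induction j with
    | zero => intro h hh; simpa using hb h (hS hh)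
    | succ j ih =>
      intro h hh
      have h2 := (sq_bounds (ha h (hS hh) h (hS hh) (hS (S.mul_mem hh hh)))).1
      refine le_trans ?_ (ih _ (S.mul_mem hh hh))
      rw [pow_succ, mul_assoc]
      gcongr
      linarith
  by_contra h0
  have h2 : 0 < ‖u h‖ := norm_pos_iff.2 h0
  obtain ⟨j, hj⟩ := pow_unbounded_of_one_lt ‖u h‖⁻¹ (show (1 : ℝ) < 3 / 2 by norm_num)
  rw [inv_lt_iff_one_lt_mul₀ h2] at hj
  exact hj.not_ge (h1 j h hh)

theorem AlmHom.isClosed [IsTopologicalGroup K] (H : AlmHom E K₀) : IsClosed (K₀ : Set K) := by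
  obtain ⟨U, hU, u, hb, hz, ha⟩ := H (1 / 4) (by norm_num)
  have hs : Tendsto (fun y : K => y * y) (𝓝 1) (𝓝 1) :=
    (continuous_id.mul continuous_id).tendsto' 1 1 (mul_one 1)
  have h1 : ∀ j : ℕ, ∀ᶠ y in 𝓝 (1 : K), (3 / 2) ^ j * ‖u y‖ ≤ 1 := by
    intro j
    induction j with
    | zero => filter_upwards [hU] with y hy; simpa using hb y hy
    | succ j ih =>
      filter_upwards [hU, hs.eventually ih, hs.eventually hU] with y a1 a2 a3
      have h2 := (sq_bounds (ha y a1 y a1 a3)).1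
      refine le_trans ?_ a2
      rw [pow_succ, mul_assoc]
      gcongr
      linarith
  have h2 : ∀ h ∈ closure (K₀ : Set K), h ∈ interior U → h ∈ K₀ := by
    intro h hc hi
    refine (hz h (interior_subset hi)).1 (by_contra fun h0 => ?_)
    have h3 : 0 < ‖u h‖ := norm_pos_iff.2 h0
    obtain ⟨j, hj⟩ := pow_unbounded_of_one_lt (2 * ‖u h‖⁻¹) (show (1 : ℝ) < 3 / 2 by norm_num)
    have t : Tendsto (fun k : K => k⁻¹ * h) (𝓝 h) (𝓝 1) :=
      (continuous_inv.mul continuous_const).tendsto' h 1 (inv_mul_cancel h)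
    obtain ⟨k, hk, ⟨a1, a2⟩, a3⟩ := ((mem_closure_iff_frequently.1 hc).and_eventually
      (((t.eventually (h1 j)).and (t.eventually hU)).and (mem_interior_iff_mem_nhds.1 hi))).exists
    have h4 := ha k a3 _ a2 (by rw [mul_inv_cancel_left]; exact interior_subset hi)
    rw [mul_inv_cancel_left, (hz k a3).2 hk, sub_zero, norm_zero, zero_add] at h4
    have h5 := norm_sub_norm_le (u h) (u (k⁻¹ * h))
    have h6 : 2 * ‖u h‖⁻¹ * ‖u (k⁻¹ * h)‖ ≤ 1 := le_trans (by gcongr) a1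
    rw [mul_assoc, mul_left_comm, inv_mul_le_iff₀ h3] at h6
    linarith
  refine isClosed_of_closure_subset fun h hc => ?_
  have t : Tendsto (fun k : K => k⁻¹ * h) (𝓝 h) (𝓝 1) :=
    (continuous_inv.mul continuous_const).tendsto' h 1 (inv_mul_cancel h)
  obtain ⟨k, hk, a⟩ := ((mem_closure_iff_frequently.1 hc).and_eventually
    (t.eventually (interior_mem_nhds.2 hU))).exists
  have h3 : k⁻¹ * h ∈ K₀.topologicalClosure :=
    K₀.topologicalClosure.mul_mem (K₀.le_topologicalClosure (K₀.inv_mem hk)) hc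
  have h4 := K₀.mul_mem hk (h2 _ h3 a)
  rwa [mul_inv_cancel_left] at h4

variable [IsTopologicalGroup K] [CompactSpace K]

theorem image_nhds (ρ : K →* Mat n) (hρ : Continuous ρ) {V : Set K} (hV : V ∈ 𝓝 (1 : K)) :
    ∀ᶠ y in 𝓝 (1 : Mat n), y ∈ range ρ → y ∈ ρ '' V := by
  have h := hρ.isClosedMap.eventually_nhds_fiber (p := fun k => ρ k ∈ ρ '' V) 1 fun z hz => by
    have t : Tendsto (fun k : K => k * z⁻¹) (𝓝 z) (𝓝 1) :=
      (continuous_id.mul continuous_const).tendsto' z 1 (mul_inv_cancel z)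
    filter_upwards [t.eventually hV] with k hk
    refine ⟨_, hk, ?_⟩
    have e : ρ z = 1 := hz
    rw [← mul_one (ρ (k * z⁻¹)), ← e, ← map_mul, inv_mul_cancel_right]
  filter_upwards [h] with y hy
  rintro ⟨k, rfl⟩
  exact hy k rfl

omit [IsTopologicalGroup K] in
theorem grp_image (ρ : K →* Mat n) (hρ : Continuous ρ) (hc : IsClosed (K₀ : Set K)) :
    Grp (ρ '' K₀) where
  one := ⟨1, K₀.one_mem, map_one ρ⟩
  mul := by
    rintro _ ⟨a, ha, rfl⟩ _ ⟨b, hb, rfl⟩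
    exact ⟨a * b, K₀.mul_mem ha hb, map_mul ρ a b⟩
  inv := by
    rintro _ ⟨a, ha, rfl⟩ y h
    refine ⟨a⁻¹, K₀.inv_mem ha, ?_⟩
    rw [← mul_one (ρ a⁻¹), ← h, ← mul_assoc, ← map_mul, inv_mul_cancel, map_one, one_mul]
  closed := hρ.isClosedMap _ hc

omit [IsTopologicalGroup K] in
theorem matGrp_image (ρ : K →* Mat n) (hρ : Continuous ρ) (hc : IsClosed (K₀ : Set K)) :
    MatGrp (ρ '' K₀) :=
  MatGrp.of_isClosed (hρ.isClosedMap _ hc) (grp_image ρ hρ hc).one (grp_image ρ hρ hc).mul (by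
    rintro _ ⟨a, ha, rfl⟩
    exact ⟨_, ⟨a⁻¹, K₀.inv_mem ha, rfl⟩, by rw [← map_mul, mul_inv_cancel, map_one]⟩)

omit [IsTopologicalGroup K] in
theorem matGrp_range (ρ : K →* Mat n) (hρ : Continuous ρ) : MatGrp (range ρ) := by
  have h := matGrp_image (K₀ := ⊤) ρ hρ isClosed_univ
  rwa [Subgroup.coe_top, image_univ] at h

omit [NormedSpace ℝ E] in
theorem AlmHom.descend (H : AlmHom E K₀) (ρ : K →* Mat n) (hρ : Continuous ρ)
    (hk : ∀ k, ρ k = 1 → k ∈ K₀) (η : ℝ) (hη : 0 < η) :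
    ∃ δ > 0, ∃ u : Mat n → E, AH (range ρ) (ρ '' K₀) η δ u := by
  classical
  obtain ⟨θ, h0, h1, h2⟩ : ∃ θ > 0, θ ≤ 1 / 2 ∧ 4 * θ ≤ η :=
    ⟨min (1 / 2) (η / 4), by positivity, min_le_left _ _, by linarith [min_le_right (1 / 2) (η / 4)]⟩
  obtain ⟨U, hU, u, hb, hz, ha⟩ := H θ h0
  obtain ⟨V, hV, hVU⟩ : ∃ V ∈ 𝓝 (1 : K), ∀ a ∈ V, ∀ b ∈ V, ∀ c ∈ V,
      a ∈ U ∧ a * b ∈ U ∧ c⁻¹ * (a * b) ∈ U := by
    have t : Tendsto (fun p : K × K => p.1⁻¹ * p.2) (𝓝 (1, 1)) (𝓝 1) :=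
      (continuous_fst.inv.mul continuous_snd).tendsto' _ 1 (by simp)
    obtain ⟨V₁, hV₁, V₂, hV₂, h⟩ := mem_nhds_prod_iff.1 (t.eventually hU)
    obtain ⟨V₃, hV₃, h'⟩ := exists_nhds_one_split (inter_mem hU hV₂)
    refine ⟨U ∩ (V₁ ∩ V₃), inter_mem hU (inter_mem hV₁ hV₃), fun a ha b hb c hc =>
      ⟨ha.1, (h' a ha.2.2 b hb.2.2).1, ?_⟩⟩
    exact h (mk_mem_prod hc.2.1 (h' a ha.2.2 b hb.2.2).2)
  obtain ⟨δ, hδ, hO⟩ := sz_nhds (A := Mat n) (image_nhds ρ hρ hV)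
  have hσ : ∀ y : Mat n, ∃ k, y ∈ range ρ → sz y ≤ δ → k ∈ V ∧ ρ k = y := fun y => by
    by_cases h : y ∈ range ρ ∧ sz y ≤ δ
    · obtain ⟨k, hk, e⟩ := hO y h.2 h.1
      exact ⟨k, fun _ _ => ⟨hk, e⟩⟩
    · exact ⟨1, fun a b => absurd ⟨a, b⟩ h⟩
  choose σ hσ using hσ
  have hm := (matGrp_range ρ hρ).mul
  refine ⟨δ, hδ, fun y => u (σ y), hm, fun y hy h => ?_, fun y hy h h' => ?_,
    fun x hx y hy h => ?_⟩
  · have a := (hσ y hy h).1
    exact hb _ (hVU _ a _ a _ a).1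
  · have a := (hσ y hy h).1
    exact ⟨σ y, (hz _ (hVU _ a _ a _ a).1).1 h', (hσ y hy h).2⟩
  · obtain ⟨a, ea⟩ := hσ x hx (by linarith [sz_nonneg y])
    obtain ⟨b, eb⟩ := hσ y hy (by linarith [sz_nonneg x])
    obtain ⟨c, ec⟩ := hσ (x * y) (hm x hx y hy) ((sz_mul x y).trans h)
    obtain ⟨m1, m2, m3⟩ := hVU _ a _ b _ c
    have z : u ((σ (x * y))⁻¹ * (σ x * σ y)) = 0 := (hz _ m3).2 (hk _ (by
      rw [map_mul, map_mul, ea, eb, ← congrArg (ρ (σ (x * y))⁻¹ * ·) ec, ← map_mul,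
        inv_mul_cancel, map_one]))
    have h3 := ha _ (hVU _ c _ c _ c).1 _ m3 (by rwa [mul_inv_cancel_left])
    rw [mul_inv_cancel_left, z, sub_zero, norm_zero, add_zero] at h3
    have h4 := ha _ m1 _ (hVU _ b _ b _ b).1 m2
    show ‖u (σ (x * y)) - u (σ x) - u (σ y)‖ ≤ η * (‖u (σ x)‖ + ‖u (σ y)‖)
    generalize u (σ x * σ y) = p at h3 h4
    generalize u (σ (x * y)) = q at h3 ⊢
    generalize u (σ x) = v at h4 ⊢
    generalize u (σ y) = w at h4 ⊢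
    have h5 : ‖q - v - w‖ ≤ ‖p - v - w‖ + ‖p - q‖ := by
      rw [show q - v - w = (p - v - w) - (p - q) by abel]
      exact norm_sub_le _ _
    have h6 : ‖q‖ ≤ ‖q - v - w‖ + ‖v‖ + ‖w‖ := by
      conv_lhs => rw [show q = (q - v - w) + v + w by abel]
      exact norm_add₃_le
    have h7 : θ * ‖q‖ ≤ θ * (‖q - v - w‖ + ‖v‖ + ‖w‖) := by gcongr
    have h8 : θ * ‖q - v - w‖ ≤ 1 / 2 * ‖q - v - w‖ := by gcongr
    have h9 : 4 * θ * (‖v‖ + ‖w‖) ≤ η * (‖v‖ + ‖w‖) := by gcongr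
    linarith

attribute [local instance 100] LieRing.ofAssociativeRing

/-- Lemma C. -/
theorem AlmHom.dim_le [FiniteDimensional ℝ E] (H : AlmHom E K₀) (ρ : K →* Mat n)
    (hρ : Continuous ρ) (hk : ∀ k, ρ k = 1 → k ∈ K₀) :
    finrank ℝ (lieAlg (range ρ)) ≤ finrank ℝ (lieAlg (ρ '' K₀)) + finrank ℝ E := by
  set l := (lieAlg (range ρ)).toSubmodule
  set l₀ := (lieAlg (ρ '' K₀)).toSubmodule
  have hle : l₀ ≤ l := LieSubalgebra.lieSpan_mono fun X hX t => image_subset_range _ _ (hX t)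
  obtain ⟨C, hC⟩ := l₀.exists_isCompl
  have h1 : finrank ℝ (C ⊓ l : Submodule ℝ (Mat n)) ≤ finrank ℝ E := by
    refine dim_core (A := Mat n) (grp_image ρ hρ H.isClosed) (fun X hX => ?_) (fun X hX h => ?_)
      (H.descend ρ hρ hk)
    · have h := (matGrp_range ρ hρ).mem_lieAlg.1 hX.2 1
      rwa [one_smul] at h
    · exact (Submodule.disjoint_def.1 hC.disjoint) X (LieSubalgebra.subset_lieSpan h) hX.1
  have h2 : l₀ ⊔ C ⊓ l = l := by
    rw [← sup_inf_assoc_of_le C hle, hC.sup_eq_top, top_inf_eq]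
  have h3 := Submodule.finrank_add_le_finrank_add_finrank l₀ (C ⊓ l)
  rw [h2] at h3
  exact h3.trans (Nat.add_le_add_left h1 _)

/-- A closed subgroup with the full Lie algebra is open. -/
theorem isOpen_of_lie (hc : IsClosed (K₀ : Set K))
    (ρ : K →* Mat n) (hρ : Continuous ρ) (hk : ∀ k, ρ k = 1 → k ∈ K₀)
    (h : lieAlg (range ρ) ≤ lieAlg (ρ '' K₀)) : IsOpen (K₀ : Set K) := by
  refine K₀.isOpen_of_mem_nhds (g := 1) ?_
  have hL := matGrp_range ρ hρ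
  have t : Tendsto ρ (𝓝 1) (𝓝 1) := hρ.tendsto' 1 1 (map_one ρ)
  filter_upwards [t.eventually (MatGrp.mlog_mem (A := Mat n) hL),
    t.eventually (exp_mlog (A := Mat n))] with k a1 a2
  have h1 := (matGrp_image ρ hρ hc).mem_lieAlg.1
    (h (hL.mem_lieAlg.2 (hL.mem_lieOf_mat.1 (a1 ⟨k, rfl⟩)))) 1
  rw [one_smul] at h1
  obtain ⟨k', hk', e⟩ := h1
  have h2 : ρ (k'⁻¹ * k) = 1 := by
    rw [map_mul, ← e.trans a2, ← map_mul, inv_mul_cancel, map_one]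
  have h3 := K₀.mul_mem hk' (hk _ h2)
  rwa [mul_inv_cancel_left] at h3

/-- Lemma C together with superrigidity: `K₀` is open. -/
theorem AlmHom.isOpen [FiniteDimensional ℝ E] (H : AlmHom E K₀) {Λ : Type} [Group Λ] (j : Λ →* K)
    (hj : DenseRange j) {m : ℕ} (hS : SR.SRd Λ m) (hm : finrank ℝ E ≤ m)
    (hA : ∀ U ∈ 𝓝 (1 : K), ∃ (n : ℕ) (ρ : K →* Mat n), Continuous ρ ∧
      (∀ k, ρ k * (ρ k)ᵀ = 1) ∧ ∀ k, ρ k = 1 → k ∈ U) : IsOpen (K₀ : Set K) := by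
  obtain ⟨U, hU, hs⟩ := H.small
  obtain ⟨n, ρ, hρ, ho, hk⟩ := hA U hU
  have hk' : ∀ k, ρ k = 1 → k ∈ K₀ := fun k h => hs ρ.ker (fun x hx => hk x hx) h
  have e : closure (range (ρ.comp j)) = range ρ := by
    refine (closure_minimal ?_ hρ.isClosedMap.isClosed_range).antisymm ?_
    · rintro _ ⟨γ, rfl⟩
      exact ⟨j γ, rfl⟩
    · rintro _ ⟨k, rfl⟩
      rw [MonoidHom.coe_comp, range_comp]
      exact image_closure_subset_closure_image hρ ⟨k, hj k, rfl⟩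
  have h1 := hS n (ρ.comp j) (fun γ => ho _) (lieAlg (ρ '' K₀))
  rw [e] at h1
  refine isOpen_of_lie H.isClosed ρ hρ hk' (h1 ?_ ?_).ge
  · exact LieSubalgebra.lieSpan_mono fun X hX t => image_subset_range _ _ (hX t)
  · have h2 := H.dim_le ρ hρ hk'
    omega

end Pool.Agent.P.MP_d483fb_an.Z.TZ
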