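import Pool.Agent.P.MP_d483fb_an.Z.TZ.Spec3

/-!
Invariant kernels near the diagonal give a compact group with dense image of `Γ` and an
equivariant measurable map to the space.
-/

open MeasureTheory Set Filter Topology
open scoped RealInnerProductSpace Matrix

set_option linter.unusedSectionVars false

noncomputable section

namespace Pool.Agent.P.MP_d483fb_an.Z.TZ

namespace Spec

theorem ae_summable {α : Type} [MeasurableSpace α] {Q : Measure α} {f : ℕ → α → ℝ}
    (hf : ∀ n, Integrable (f n) Q) {C : ℝ} (h : ∀ n, ∫ x, |f n x| ∂Q ≤ C * (1 / 2) ^ n) :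
    ∀ᵐ x ∂Q, Summable fun n => |f n x| := by
  have h1 : ∫⁻ x, ∑' n, ‖f n x‖ₑ ∂Q ≠ ⊤ := by
    rw [lintegral_tsum fun n => (hf n).aestronglyMeasurable.enorm]
    have h2 : ∀ n, ∫⁻ x, ‖f n x‖ₑ ∂Q ≤ ENNReal.ofReal (C * (1 / 2) ^ n) := fun n => by
      rw [← ofReal_integral_norm_eq_lintegral_enorm (hf n)]
      exact ENNReal.ofReal_le_ofReal (h n)
    have h0 : ∀ n, 0 ≤ C * (1 / 2 : ℝ) ^ n := fun n =>
      (integral_nonneg fun x => abs_nonneg _).trans (h n)
    refine ne_top_of_le_ne_top ?_ (ENNReal.tsum_le_tsum h2)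
    rw [← ENNReal.ofReal_tsum_of_nonneg h0 (summable_geometric_two.mul_left C)]
    exact ENNReal.ofReal_ne_top
  have h3 : AEMeasurable (fun x => ∑' n, ‖f n x‖ₑ) Q :=
    AEMeasurable.tsum fun n => (hf n).aestronglyMeasurable.enorm
  filter_upwards [ae_lt_top' h3 h1] with x hx
  exact ENNReal.tsum_coe_ne_top_iff_summable_coe.1 hx.ne

variable {Ω : Type} [MeasurableSpace Ω] {ν : Measure Ω} [IsProbabilityMeasure ν]

theorem sum_ae {ι : Type} (s : Finset ι) (a : ι → ℝ) (e : ι → Lp ℝ 2 ν) :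
    (∑ i ∈ s, a i • e i : Lp ℝ 2 ν) =ᵐ[ν] fun w => ∑ i ∈ s, a i * e i w := by
  classical
  induction s using Finset.induction_on with
  | empty => exact Lp.coeFn_zero ℝ 2 ν
  | insert i s hi ih =>
    rw [Finset.sum_insert hi]
    filter_upwards [Lp.coeFn_add (a i • e i) (∑ i ∈ s, a i • e i), Lp.coeFn_smul (a i) (e i), ih]
      with w h1 h2 h3
    rw [h1, Pi.add_apply, h2, h3, Finset.sum_insert hi, Pi.smul_apply, smul_eq_mul]

theorem int_sub_le (x y : Lp ℝ 2 ν) : ∫ w, |x w - y w| ∂ν ≤ ‖x - y‖ := by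
  refine le_trans (le_of_eq (integral_congr_ae ?_)) (integral_abs_le_norm (x - y))
  filter_upwards [Lp.coeFn_sub x y] with w hw
  rw [hw, Pi.sub_apply]

theorem int_tri {x y z : Ω → ℝ} (hx : Integrable x ν) (hy : Integrable y ν) (hz : Integrable z ν) :
    ∫ w, |x w - z w| ∂ν ≤ ∫ w, |x w - y w| ∂ν + ∫ w, |y w - z w| ∂ν :=
  int_le_add (φ := fun w => |x w - z w|) (a := fun w => |x w - y w|) (b := fun w => |y w - z w|)
    (hx.sub hz).abs (hx.sub hy).abs (hy.sub hz).abs fun w => abs_sub_le _ (y w) _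

theorem continuous_int_sub {K : Type} [TopologicalSpace K] {x y : K → Lp ℝ 2 ν} (hx : Continuous x)
    (hy : Continuous y) : Continuous fun k => ∫ w, |x k w - y k w| ∂ν := by
  have h1 : Continuous fun z : Lp ℝ 2 ν => ∫ w, |z w| ∂ν := by
    refine (LipschitzWith.of_le_add fun a b => ?_).continuous
    rw [dist_eq_norm]
    have h2 := int_tri (integrable_L2 a) (integrable_L2 b) (integrable_zero _ _ _)
    have h3 := int_sub_le a b
    simp only [Pi.zero_apply, sub_zero] at h2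
    linarith
  refine (h1.comp (hx.sub hy)).congr fun k => integral_congr_ae ?_
  filter_upwards [Lp.coeFn_sub (x k) (y k)] with w hw
  rw [Pi.sub_apply, hw, Pi.sub_apply]

variable {Γ : Type} [Group Γ] [MulAction Γ Ω]

/-- From continuous orbit maps to an equivariant measurable map. -/
theorem exists_equivariant [Countable Γ]
    (hν : ∀ γ : Γ, MeasurePreserving (fun w : Ω => γ • w) ν ν)
    {N : ℕ} {c : Ω → EuclideanSpace ℝ (Fin N)} (hc : MeasurableEmbedding c) {M : ℝ}
    (hM : ∀ w, ‖c w‖ ≤ M) {K : Type} [Group K] [TopologicalSpace K] [IsTopologicalGroup K]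
    [MeasurableSpace K] [BorelSpace K] (μ : Measure K) [SFinite μ] (j : Γ →* K) (hj : DenseRange j)
    (Φ : ℕ → Fin N → K → Lp ℝ 2 ν) (hΦ : ∀ n i, Continuous (Φ n i))
    (f : ℕ → Fin N → K × Ω → ℝ) (hf : ∀ n i, Measurable (f n i))
    (hfΦ : ∀ n i k, Φ n i k =ᵐ[ν] fun w => f n i (k, w))
    (h1 : ∀ n i δ, ∫ w, |Φ n i (j δ) w - c (δ • w) i| ∂ν ≤ (1 / 2) ^ n) :
    ∃ π : K → Ω, Measurable π ∧ ∀ γ : Γ, ∀ᵐ k ∂μ, π (j γ * k) = γ • π k := by
  have := nonempty_of_isProbabilityMeasure ν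
  have hci : ∀ (δ : Γ) i, Integrable (fun w => c (δ • w) i) ν := fun δ i =>
    Integrable.of_bound ((((PiLp.continuous_apply 2 _ i).measurable.comp hc.measurable).comp
      (hν δ).measurable).aestronglyMeasurable) M
      (ae_of_all _ fun w => (PiLp.norm_apply_le _ i).trans (hM _))
  have h2 : ∀ n i k, ∫ w, |Φ n i k w - Φ (n + 1) i k w| ∂ν ≤ 2 * (1 / 2) ^ n := fun n i k => by
    refine hj.induction_on k (isClosed_le (continuous_int_sub (hΦ n i) (hΦ (n + 1) i))
      continuous_const) fun δ => ?_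
    have a1 := int_tri (integrable_L2 (Φ n i (j δ))) (hci δ i) (integrable_L2 (Φ (n + 1) i (j δ)))
    have a2 := h1 n i δ
    have a3 := h1 (n + 1) i δ
    simp only [abs_sub_comm (Φ (n + 1) i (j δ) _)] at a3
    have a4 : (1 / 2 : ℝ) ^ (n + 1) ≤ (1 / 2) ^ n :=
      pow_le_pow_of_le_one (by norm_num) (by norm_num) n.le_succ
    linarith
  let G : K × Ω → EuclideanSpace ℝ (Fin N) := fun p =>
    WithLp.toLp 2 fun i => limUnder atTop fun n => f n i p
  have hG : Measurable G := (PiLp.continuous_toLp 2 _).measurable.comp (measurable_pi_lambda _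
    fun i => (StronglyMeasurable.limUnder fun n => (hf n i).stronglyMeasurable).measurable)
  have h3 : ∀ k i, ∀ᵐ w ∂ν, Tendsto (fun n => Φ n i k w) atTop (𝓝 (G (k, w) i)) := fun k i => by
    filter_upwards [ae_summable (f := fun n w => Φ n i k w - Φ (n + 1) i k w)
      (fun n => (integrable_L2 _).sub (integrable_L2 _)) (h2 · i k),
      ae_all_iff.2 fun n => hfΦ n i k] with w a1 a2
    have a3 : CauchySeq fun n => Φ n i k w :=
      cauchySeq_of_summable_dist (by simpa only [Real.dist_eq] using a1)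
    simp only [a2] at a3 ⊢
    exact a3.tendsto_limUnder
  have h4 : ∀ k (δ : ℕ → Γ), (∀ n i, ‖Φ n i k - Φ n i (j (δ n))‖ ≤ (1 / 2) ^ n) →
      ∀ᵐ w ∂ν, Tendsto (fun n => c (δ n • w)) atTop (𝓝 (G (k, w))) := fun k δ hδ => by
    have a1 : ∀ i, ∀ᵐ w ∂ν, Tendsto (fun n => c (δ n • w) i) atTop (𝓝 (G (k, w) i)) := fun i => by
      filter_upwards [h3 k i, ae_summable (f := fun n w => Φ n i k w - c (δ n • w) i) (C := 2)
        (fun n => (integrable_L2 _).sub (hci _ i)) fun n => by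
          have b1 := int_tri (integrable_L2 (Φ n i k)) (integrable_L2 (Φ n i (j (δ n)))) (hci (δ n) i)
          have b2 := int_sub_le (Φ n i k) (Φ n i (j (δ n)))
          have b3 := h1 n i (δ n)
          have b4 := hδ n i
          linarith] with w b1 b2
      have b3 := b1.sub b2.of_abs.tendsto_atTop_zero
      simpa using b3
    filter_upwards [ae_all_iff.2 a1] with w hw
    exact ((PiLp.continuous_toLp 2 _).tendsto _).comp (tendsto_pi_nhds.2 hw)
  have hS : ∀ γ : Γ, Measurable fun y => c (γ • hc.invFun y) := fun γ =>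
    (hc.measurable.comp (hν γ).measurable).comp hc.measurable_invFun
  have h5 : ∀ (γ : Γ) k, ∀ᵐ w ∂ν, G (j γ * k, w) = c (γ • hc.invFun (G (k, w))) := fun γ k => by
    have a1 : ∀ n : ℕ, ∃ δ : Γ, ∀ i, ‖Φ n i k - Φ n i (j δ)‖ ≤ (1 / 2) ^ n ∧
        ‖Φ n i (j γ * k) - Φ n i (j (γ * δ))‖ ≤ (1 / 2) ^ n := fun n => by
      have b1 : ∀ᶠ k' in 𝓝 k, ∀ i, ‖Φ n i k - Φ n i k'‖ ≤ (1 / 2) ^ n ∧
          ‖Φ n i (j γ * k) - Φ n i (j γ * k')‖ ≤ (1 / 2) ^ n := by
        refine eventually_all.2 fun i => Eventually.and ?_ ?_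
        · refine ((continuous_const.sub (hΦ n i)).norm.tendsto k).eventually (ge_mem_nhds ?_)
          simp
        · refine ((continuous_const.sub ((hΦ n i).comp (continuous_const.mul
            continuous_id))).norm.tendsto k).eventually (ge_mem_nhds ?_)
          simp
      obtain ⟨δ, hδ⟩ := hj.mem_nhds b1
      exact ⟨δ, fun i => by rw [map_mul]; exact hδ i⟩
    choose δ hδ using a1
    have m1 : Measurable fun w => (G (k, w), G (j γ * k, w)) :=
      (hG.comp measurable_prodMk_left).prodMk (hG.comp measurable_prodMk_left)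
    have m2 : Measurable fun w => (c w, c (γ • w)) :=
      hc.measurable.prodMk (hc.measurable.comp (hν γ).measurable)
    have a2 : ν.map (fun w => (G (k, w), G (j γ * k, w))) = ν.map fun w => (c w, c (γ • w)) := by
      refine ext_of_forall_integral_eq_of_IsFiniteMeasure fun ψ => ?_
      rw [integral_map m1.aemeasurable ψ.continuous.aestronglyMeasurable,
        integral_map m2.aemeasurable ψ.continuous.aestronglyMeasurable]
      have b1 : Tendsto (fun n => ∫ w, ψ (c (δ n • w), c (γ • δ n • w)) ∂ν) atTop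
          (𝓝 (∫ w, ψ (G (k, w), G (j γ * k, w)) ∂ν)) := by
        refine tendsto_integral_of_dominated_convergence (fun _ => ‖ψ‖) (fun n => ?_)
          (integrable_const _) (fun n => ae_of_all _ fun w => ψ.norm_coe_le_norm _) ?_
        · exact (ψ.continuous.measurable.comp (m2.comp (hν (δ n)).measurable)).aestronglyMeasurable
        · filter_upwards [h4 k δ fun n i => (hδ n i).1,
            h4 (j γ * k) (fun n => γ * δ n) fun n i => (hδ n i).2] with w c1 c2
          simp only [mul_smul] at c2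
          exact (ψ.continuous.tendsto _).comp (c1.prodMk_nhds c2)
      have b2 : ∀ n, ∫ w, ψ (c (δ n • w), c (γ • δ n • w)) ∂ν = ∫ w, ψ (c w, c (γ • w)) ∂ν :=
        fun n => (hν (δ n)).integral_comp (emb hν (δ n)) fun w => ψ (c w, c (γ • w))
      simp only [b2] at b1
      exact tendsto_nhds_unique b1 tendsto_const_nhds
    have a3 : ∀ᵐ p ∂ν.map fun w => (c w, c (γ • w)), p.2 = c (γ • hc.invFun p.1) :=
      (ae_map_iff m2.aemeasurable (measurableSet_eq_fun measurable_snd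
        ((hS γ).comp measurable_fst))).2 (ae_of_all _ fun w => by
          show c (γ • w) = c (γ • hc.invFun (c w))
          rw [hc.leftInverse_invFun w])
    rw [← a2] at a3
    exact ae_of_ae_map m1.aemeasurable a3
  have h6 : ∀ γ : Γ, ∀ᵐ w ∂ν, ∀ᵐ k ∂μ, G (j γ * k, w) = c (γ • hc.invFun (G (k, w))) := fun γ =>
    (Measure.ae_ae_comm (p := fun k w => G (j γ * k, w) = c (γ • hc.invFun (G (k, w))))
      (measurableSet_eq_fun (hG.comp (((measurable_const_mul (j γ)).comp
      measurable_fst).prodMk measurable_snd)) ((hS γ).comp hG))).1 (ae_of_all _ (h5 γ))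
  obtain ⟨w, hw⟩ := (ae_all_iff.2 h6).exists
  refine ⟨fun k => hc.invFun (G (k, w)), hc.measurable_invFun.comp (hG.comp measurable_prodMk_right),
    fun γ => ?_⟩
  filter_upwards [hw γ] with k hk
  rw [hk, hc.leftInverse_invFun]

end Spec

open Spec in
/-- Invariant kernels near the diagonal give a compact group with dense image of `Γ` and an
equivariant measurable map to `Ω`. -/
theorem outA {Γ Ω : Type} [Group Γ] [Countable Γ] [MeasurableSpace Ω] [MulAction Γ Ω]
    {ν : Measure Ω} [IsProbabilityMeasure ν]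
    (hν : ∀ γ : Γ, MeasurePreserving (fun w : Ω => γ • w) ν ν)
    {N : ℕ} {c : Ω → EuclideanSpace ℝ (Fin N)} (hc : MeasurableEmbedding c) {M : ℝ}
    (hM : ∀ w, ‖c w‖ ≤ M)
    (hker : ∀ ε : ℝ, 0 < ε → ∃ (k : Lp ℝ 2 (ν.prod ν)) (f : Ω × Ω → ℝ), Measurable f ∧
      (∀ γ : Γ, ∀ᵐ p ∂ν.prod ν, k (γ • p.1, γ • p.2) = k p) ∧
      (∀ w, ∫⁻ w', ENNReal.ofReal (f (w, w') ^ 2) ∂ν = 1) ∧
      (∫⁻ p, ENNReal.ofReal ((k p - f p) ^ 2) ∂ν.prod ν ≤ ENNReal.ofReal ε) ∧
      ∫⁻ p, ENNReal.ofReal (f p ^ 2 * ‖c p.1 - c p.2‖) ∂ν.prod ν ≤ ENNReal.ofReal ε) :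
    ∃ (K : Type) (_ : Group K) (_ : TopologicalSpace K) (_ : IsTopologicalGroup K)
      (_ : CompactSpace K) (_ : T2Space K) (_ : SecondCountableTopology K) (_ : MeasurableSpace K)
      (_ : BorelSpace K) (μ : Measure K) (_ : μ.IsHaarMeasure) (_ : IsProbabilityMeasure μ)
      (j : Γ →* K) (π : K → Ω), DenseRange j ∧ Measurable π ∧
      (∀ γ : Γ, ∀ᵐ k ∂μ, π (j γ * k) = γ • π k) ∧
      ∀ U ∈ 𝓝 (1 : K), ∃ (n : ℕ) (ρ : K →* Mat n), Continuous ρ ∧ (∀ k, ρ k * (ρ k)ᵀ = 1) ∧
        ∀ k, ρ k = 1 → k ∈ U := by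
  obtain ⟨w₀⟩ := nonempty_of_isProbabilityMeasure ν
  have hM0 : 0 ≤ M := (norm_nonneg _).trans (hM w₀)
  have hcm : ∀ i, Measurable fun w => c w i := fun i =>
    (PiLp.continuous_apply 2 _ i).measurable.comp hc.measurable
  have h1 : ∀ t : ℕ × Fin N, ∃ (n : ℕ) (R : Γ →* Orth n) (e : Fin n → Lp ℝ 2 ν)
      (a : Fin n → Orth n → ℝ), (∀ i, Continuous (a i)) ∧ ∀ δ : Γ,
        ∫ w, |(∑ i, a i (R δ) • e i : Lp ℝ 2 ν) w - c (δ • w) t.2| ∂ν ≤ (1 / 2) ^ t.1 := by
    intro t
    have hp : (0 : ℝ) < (1 / 2) ^ t.1 := by positivity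
    have hp1 : (1 / 2 : ℝ) ^ t.1 ≤ 1 := pow_le_one₀ (by norm_num) (by norm_num)
    obtain ⟨η, hη, hη1, hη2⟩ : ∃ η : ℝ, 0 < η ∧ η ≤ 1 ∧ η * (4 * M + 2) = (1 / 2) ^ t.1 :=
      ⟨(1 / 2) ^ t.1 / (4 * M + 2), by positivity, by
        rw [div_le_one (by positivity)]; linarith, by field_simp⟩
    obtain ⟨k, f, hf, hk, hrow, b1, b2⟩ := hker (η ^ 2) (by positivity)
    obtain ⟨V, hV, hVi, u, hu, hd⟩ := approx_of_kernel hν (hcm t.2) (M := M)
      (fun w => (PiLp.norm_apply_le (c w) t.2).trans (hM w)) hf hk hrow hη b1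
      (le_trans (lintegral_mono fun p => ENNReal.ofReal_le_ofReal (mul_le_mul_of_nonneg_left
        (PiLp.norm_apply_le (c p.1 - c p.2) t.2) (sq_nonneg _))) b2)
    obtain ⟨n, R, e, a, ha, hR⟩ := exists_rep (koop hν) (koop_inner hν) (koop_mul hν) (koop_one hν)
      V hVi hu
    refine ⟨n, R, e, a, ha, fun δ => ?_⟩
    have e1 : ∫ w, |(∑ i, a i (R δ) • e i : Lp ℝ 2 ν) w - c (δ • w) t.2| ∂ν =
        ∫ w, |u w - c w t.2| ∂ν := by
      rw [hR, ← (hν δ).integral_comp (emb hν δ) fun w => |u w - c w t.2|]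
      refine integral_congr_ae ?_
      filter_upwards [koop_ae hν δ⁻¹ u] with w hw
      rw [hw, inv_inv]
    rw [e1, ← hη2]
    have : η ^ 2 ≤ η := by nlinarith
    nlinarith [mul_le_mul_of_nonneg_left this hM0]
  choose d R e a ha hR using h1
  let j₀ : Γ →* ∀ t, Orth (d t) := MonoidHom.pi R
  let K : Subgroup (∀ t, Orth (d t)) := j₀.range.topologicalClosure
  have hK : CompactSpace K :=
    isCompact_iff_compactSpace.1 j₀.range.isClosed_topologicalClosure.isCompact
  have : ∀ n, SecondCountableTopology (Mat n) := fun n =>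
    inferInstanceAs (SecondCountableTopology (Fin n → Fin n → ℝ))
  have : ∀ n, SecondCountableTopology (Orth n) := fun n =>
    TopologicalSpace.Subtype.secondCountableTopology (unitary (Mat n) : Set (Mat n))
  have hsc : SecondCountableTopology K :=
    TopologicalSpace.Subtype.secondCountableTopology (K : Set (∀ t, Orth (d t)))
  borelize ↥K
  let μ : Measure K := Measure.haarMeasure ⊤
  have hμ : IsProbabilityMeasure μ := ⟨by
    have := Measure.haarMeasure_self (G := K) (K₀ := ⊤)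
    simpa using this⟩
  let j : Γ →* K := j₀.codRestrict K fun γ => j₀.range.le_topologicalClosure ⟨γ, rfl⟩
  have hj : DenseRange j := by
    refine Subtype.dense_iff.2 ?_
    refine closure_mono ?_
    rintro _ ⟨γ, rfl⟩
    exact ⟨j γ, ⟨γ, rfl⟩, rfl⟩
  have hev : ∀ t l, Continuous fun k : K => a t l (k.1 t) := fun t l =>
    (ha t l).comp ((continuous_apply t).comp continuous_subtype_val)
  obtain ⟨π, hπ, heq⟩ := exists_equivariant hν hc hM μ j hj
    (fun n i k => ∑ l, a (n, i) l (k.1 (n, i)) • e (n, i) l)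
    (fun n i => continuous_finsetSum _ fun l _ => (hev (n, i) l).smul continuous_const)
    (fun n i p => ∑ l, a (n, i) l (p.1.1 (n, i)) * e (n, i) l p.2)
    (fun n i => Finset.measurable_sum _ fun l _ => ((hev (n, i) l).measurable.comp
      measurable_fst).mul ((Lp.stronglyMeasurable _).measurable.comp measurable_snd))
    (fun n i k => sum_ae _ _ _) fun n i δ => hR (n, i) δ
  exact ⟨K, inferInstance, inferInstance, inferInstance, hK, inferInstance, hsc, inferInstance,
    inferInstance, μ, inferInstance, hμ, j, π, hj, hπ, heq, fun U hU => small_ker K hU⟩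

end Pool.Agent.P.MP_d483fb_an.Z.TZ
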