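import Pool.Agent.P.MP_d483fb_an.Z.TZ.KerC
import Pool.Agent.P.MP_d483fb_an.Z.TZ.SpecMain

/-!
Discrete spectrum for an invariant probability on a frame bundle.
-/

open MeasureTheory Filter Topology Set
open scoped Matrix

namespace Pool.Agent.P.MP_d483fb_an.Z.TZ

theorem Frm.outA {Γ Ω E F : Type} [Group Γ] [Countable Γ] [MulAction Γ Ω] [MeasurableSpace Ω]
    [NormedAddCommGroup E] [NormedSpace ℝ E] [NormedAddCommGroup F] [NormedSpace ℝ F]
    [MeasurableSpace F] [FiniteDimensional ℝ E] [FiniteDimensional ℝ F] [BorelSpace F]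
    (P : Frm Γ Ω E F) (hT : HasT Γ) {ν : Measure Ω} [IsProbabilityMeasure ν]
    (hν : ∀ g : Γ, MeasurePreserving (fun w : Ω => g • w) ν ν)
    (hemb : MeasurableEmbedding fun w => (P.x w, P.φ w)) :
    ∃ (K : Type) (_ : Group K) (_ : TopologicalSpace K) (_ : IsTopologicalGroup K)
      (_ : CompactSpace K) (_ : T2Space K) (_ : SecondCountableTopology K) (_ : MeasurableSpace K)
      (_ : BorelSpace K) (μ : Measure K) (_ : μ.IsHaarMeasure) (_ : IsProbabilityMeasure μ)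
      (j : Γ →* K) (π : K → Ω), DenseRange j ∧ Measurable π ∧
      (∀ γ : Γ, ∀ᵐ k ∂μ, π (j γ * k) = γ • π k) ∧
      ∀ U ∈ 𝓝 (1 : K), ∃ (n : ℕ) (ρ : K →* Mat n), Continuous ρ ∧ (∀ k, ρ k * (ρ k)ᵀ = 1) ∧
        ∀ k, ρ k = 1 → k ∈ U := by
  obtain ⟨N, c, M, h1, h2, h3⟩ := P.hker hT hν hemb
  exact TZ.outA hν h1 h2 h3

end Pool.Agent.P.MP_d483fb_an.Z.TZ
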