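import Mathlib

/-!
An equivariant map from a compact group that is invariant under an open subgroup gives a fixed
point of a finite index subgroup, with a uniform pointwise Lipschitz constant.
-/

open scoped Topology ENNReal
open Filter Set MeasureTheory

namespace Pool.Agent.P.MP_d483fb_an.Z.TZ

variable {Γ K E F : Type*} [Group Γ] [Group K] [TopologicalSpace K] [IsTopologicalGroup K]
  [CompactSpace K] [SecondCountableTopology K] [MeasurableSpace K] [BorelSpace K]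
  [NormedAddCommGroup E] [NormedSpace ℝ E] [NormedAddCommGroup F] [NormedSpace ℝ F]
  [SecondCountableTopology F] [MeasurableSpace F] [BorelSpace F]

omit [CompactSpace K] [NormedSpace ℝ F] in
theorem exists_const_coset (μ : Measure K) [μ.IsHaarMeasure] [IsProbabilityMeasure μ] {x : K → F}
    (hx : Measurable x) {M : Set F} (hM : ∀ᵐ k ∂μ, x k ∈ M) (K0 : Subgroup K)
    (hK0 : IsOpen (K0 : Set K)) (hinv : ∀ h ∈ K0, (fun k => x (k * h)) =ᵐ[μ] x) :
    ∃ k0 : K, ∃ p ∈ M, ∀ᵐ k ∂μ, k0⁻¹ * k ∈ K0 → x k = p := by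
  have h1 : ∀ᵐ k ∂μ, ∀ᵐ h ∂μ, h ∈ K0 → x (k * h) = x k := by
    rw [Measure.ae_ae_comm]
    · refine Eventually.of_forall fun h => ?_
      by_cases hh : h ∈ K0
      · filter_upwards [hinv h hh] with k hk _ using hk
      · exact Eventually.of_forall fun k hk => absurd hk hh
    · exact (measurable_snd hK0.measurableSet).imp
        (measurableSet_eq_fun (hx.comp (measurable_fst.mul measurable_snd))
          (hx.comp measurable_fst))
  obtain ⟨k0, h2, h3⟩ := (h1.and hM).exists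
  refine ⟨k0, x k0, h3, ?_⟩
  filter_upwards [(measurePreserving_mul_left μ k0⁻¹).quasiMeasurePreserving.ae h2] with k hk hk'
  simpa using hk hk'

theorem tail (μ : Measure K) [μ.IsHaarMeasure] [IsProbabilityMeasure μ] (j : Γ →* K) {M : Set F}
    (act : Γ → F → F) {x : K → F} {A : K → F →L[ℝ] E} (hx : Measurable x) (hA : Measurable A)
    (hM : ∀ᵐ k ∂μ, x k ∈ M) (heq : ∀ g, ∀ᵐ k ∂μ, x (j g * k) = act g (x k))
    (hlin : ∀ g, ∀ᵐ k ∂μ, ∀ θ : ℝ, 0 < θ → ∃ r : ℝ, 0 < r ∧ ∀ y ∈ M, ‖y - x k‖ ≤ r →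
      ‖A (j g * k) (act g y - act g (x k)) - A k (y - x k)‖ ≤ θ * ‖y - x k‖)
    (hinj : ∀ᵐ k ∂μ, ∃ r : ℝ, 0 < r ∧ ∃ c : ℝ, ∀ y ∈ M, ‖y - x k‖ ≤ r →
      ‖y - x k‖ ≤ c * ‖A k (y - x k)‖)
    (hmap : ∀ g, MapsTo (act g) M M) (hcont : ∀ g, ContinuousOn (act g) M)
    (K0 : Subgroup K) (hK0 : IsOpen (K0 : Set K))
    (hinv : ∀ h ∈ K0, (fun k => x (k * h)) =ᵐ[μ] x) :
    ∃ Γ₁ : Subgroup Γ, Γ₁.FiniteIndex ∧ ∃ p ∈ M, (∀ g ∈ Γ₁, act g p = p) ∧
      ∃ C : ℝ, ∀ g ∈ Γ₁, ∀ᶠ y in 𝓝[M] p, ‖act g y - p‖ ≤ C * ‖y - p‖ := by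
  obtain ⟨k0, p, hp, hc⟩ := exists_const_coset μ hx hM K0 hK0 hinv
  have : Finite (K ⧸ K0) := K0.quotient_finite_of_isOpen hK0
  have : K0.FiniteIndex := Subgroup.finiteIndex_of_finite_quotient
  set V : Set K := {k | k0⁻¹ * k ∈ K0} with hV
  have hVo : IsOpen V := hK0.preimage (continuous_const.mul continuous_id)
  have hV0 : μ V ≠ 0 := hVo.measure_ne_zero μ ⟨k0, by simp [hV, K0.one_mem]⟩
  let P : ℕ → Set (F →L[ℝ] E) := fun R => {T | ‖T‖ ≤ R} ∩
    ⋃ n : ℕ, ⋂ y ∈ {y ∈ M | ‖y - p‖ ≤ 1 / (n + 1 : ℝ)}, {T | ‖y - p‖ ≤ R * ‖T (y - p)‖}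
  have hPm : ∀ R, MeasurableSet (P R) := fun R =>
    (isClosed_le continuous_norm continuous_const).measurableSet.inter
      (MeasurableSet.iUnion fun n => (isClosed_biInter fun y _ =>
        isClosed_le continuous_const (by fun_prop)).measurableSet)
  have hPmono : Monotone P := by
    intro R R' hR T hT
    have hR' : (R : ℝ) ≤ R' := by exact_mod_cast hR
    obtain ⟨h1, h2⟩ := hT
    obtain ⟨n, hn⟩ := mem_iUnion.1 h2
    refine ⟨le_trans h1 hR', mem_iUnion.2 ⟨n, mem_iInter₂.2 fun y hy => ?_⟩⟩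
    exact le_trans (mem_iInter₂.1 hn y hy) (mul_le_mul_of_nonneg_right hR' (norm_nonneg _))
  let B : ℕ → Set K := fun R => V \ A ⁻¹' P R
  have hBm : ∀ R, MeasurableSet (B R) := fun R => hVo.measurableSet.diff (hA (hPm R))
  have hB0 : μ (⋂ R, B R) = 0 := by
    rw [measure_eq_zero_iff_ae_notMem]
    filter_upwards [hc, hinj] with k h1 ⟨r, hr, c, h2⟩ hk
    rw [mem_iInter] at hk
    rw [h1 (hk 0).1] at h2
    obtain ⟨R, hR⟩ := exists_nat_ge (max ‖A k‖ c)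
    obtain ⟨n, hn⟩ := exists_nat_one_div_lt hr
    refine (hk R).2 ⟨(le_max_left _ _).trans hR, mem_iUnion.2 ⟨n, mem_iInter₂.2 fun y hy => ?_⟩⟩
    exact (h2 y hy.1 (hy.2.trans hn.le)).trans
      (mul_le_mul_of_nonneg_right ((le_max_right _ _).trans hR) (norm_nonneg _))
  have hlim := tendsto_measure_iInter_atTop (μ := μ) (fun R => (hBm R).nullMeasurableSet)
    (fun R R' hR => sdiff_subset_sdiff_right (preimage_mono (hPmono hR))) ⟨0, measure_ne_top _ _⟩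
  rw [hB0] at hlim
  obtain ⟨R, hR⟩ := (hlim.eventually (gt_mem_nhds (ENNReal.half_pos hV0))).exists
  let Γ₁ : Subgroup Γ := K0.comap ((MulAut.conj k0⁻¹).toMonoidHom.comp j)
  have hΓ : ∀ g ∈ Γ₁, ∀ k ∈ V, j g * k ∈ V := by
    intro g hg k hk
    have h1 : k0⁻¹ * j g * k0⁻¹⁻¹ ∈ K0 := hg
    simpa [hV, mul_assoc] using K0.mul_mem h1 hk
  have key : ∀ g ∈ Γ₁, ∀ Q : K → Prop, (∀ᵐ k ∂μ, Q k) →
      ∃ k ∈ V, A k ∈ P R ∧ A (j g * k) ∈ P R ∧ Q k := by
    intro g hg Q hQ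
    by_contra hne
    push Not at hne
    have h1 : V ≤ᵐ[μ] (B R ∪ (fun k => j g * k) ⁻¹' B R : Set K) := by
      filter_upwards [hQ] with k hk hkV
      by_cases h2 : A k ∈ P R
      · exact Or.inr ⟨hΓ g hg k hkV, fun h3 => hne k hkV h2 h3 hk⟩
      · exact Or.inl ⟨hkV, h2⟩
    have h2 := (measure_mono_ae h1).trans (measure_union_le _ _)
    rw [measure_preimage_mul] at h2
    have h3 := ENNReal.add_lt_add hR hR
    rw [ENNReal.add_halves] at h3
    exact absurd h2 (not_le.2 h3)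
  have hc' : ∀ g, ∀ᵐ k ∂μ, j g * k ∈ V → x (j g * k) = p := fun g =>
    (measurePreserving_mul_left μ (j g)).quasiMeasurePreserving.ae hc
  have hfix : ∀ g ∈ Γ₁, act g p = p := by
    intro g hg
    obtain ⟨k, hk, -, -, h1, h2, h3⟩ := key g hg _ (hc.and ((hc' g).and (heq g)))
    rw [← h1 hk, ← h3, h2 (hΓ g hg k hk), h1 hk]
  refine ⟨Γ₁, ⟨?_⟩, p, hp, hfix, R * (R + 1), fun g hg => ?_⟩
  · rw [Subgroup.index_comap]
    exact Subgroup.FiniteIndex.index_ne_zero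
  · obtain ⟨k, hk, ⟨a1, -⟩, ⟨-, a2⟩, h1, h2⟩ := key g hg _ (hc.and (hlin g))
    obtain ⟨r, hr, h3⟩ := h2 1 one_pos
    rw [h1 hk, hfix g hg] at h3
    obtain ⟨n, hn⟩ := mem_iUnion.1 a2
    have h4 : ∀ s : ℝ, 0 < s → ∀ᶠ y in 𝓝 p, ‖y - p‖ ≤ s := fun s hs => by
      filter_upwards [Metric.closedBall_mem_nhds p hs] with y hy
      rwa [mem_closedBall_iff_norm] at hy
    have h5 : Tendsto (act g) (𝓝[M] p) (𝓝 p) := by
      have := hcont g p hp
      rwa [ContinuousWithinAt, hfix g hg] at this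
    filter_upwards [self_mem_nhdsWithin, nhdsWithin_le_nhds (h4 r hr),
      h5.eventually (h4 (1 / (n + 1 : ℝ)) (by positivity))] with y b1 b2 b3
    have b4 : ‖act g y - p‖ ≤ R * ‖A (j g * k) (act g y - p)‖ :=
      mem_iInter₂.1 hn (act g y) ⟨hmap g b1, b3⟩
    have b5 := h3 y b1 b2
    have b6 : ‖A k (y - p)‖ ≤ R * ‖y - p‖ := (A k).le_of_opNorm_le a1 _
    have b7 := norm_sub_norm_le (A (j g * k) (act g y - p)) (A k (y - p))
    refine b4.trans ?_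
    rw [mul_assoc]
    exact mul_le_mul_of_nonneg_left (by linarith) (Nat.cast_nonneg _)

end Pool.Agent.P.MP_d483fb_an.Z.TZ
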