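import Pool.Agent.P.MP_d483fb_an.Z.TZ.FrInst
import Pool.Agent.P.MP_d483fb_an.Z.TZ.KerMain
import Pool.Agent.P.MP_d483fb_an.Z.TZ.AlmHom
import Pool.Agent.P.MP_d483fb_an.Z.TZ.Kaz
import Pool.Agent.P.MP_d483fb_an.Z.TZ.Dim
import Pool.Agent.P.MP_d483fb_an.Z.TZ.Tail
import Pool.Agent.P.MP_d483fb_an.Z.TZ.End
import Pool.Agent.P.MP_d483fb_an.Z.SR.End

/-!
An invariant probability measure on the frame bundle forces the action to be finite.
-/

open MeasureTheory Filter Topology Set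
open scoped Manifold ContDiff

noncomputable section

namespace Pool.Agent.P.MP_d483fb_an.Z.TZ

open NF

/-- A fixed point of a subgroup of finite index with bounded derivatives. -/
theorem Frm.fixed {Γ Ω E F M : Type} [Group Γ] [MulAction Γ Ω] [MeasurableSpace Ω]
    [NormedAddCommGroup E] [InnerProductSpace ℝ E] [NormedAddCommGroup F] [InnerProductSpace ℝ F]
    [MeasurableSpace F] [FiniteDimensional ℝ E] [FiniteDimensional ℝ F] [BorelSpace F]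
    (P : Frm Γ Ω E F) (hT : HasT Γ) {m : ℕ} (hS : SR.SRd (⊤ : Subgroup Γ) m)
    (hm : Module.finrank ℝ E ≤ m) {ν : Measure Ω} [IsProbabilityMeasure ν]
    (hν : ∀ g : Γ, MeasurePreserving (fun w : Ω => g • w) ν ν)
    (hemb : MeasurableEmbedding fun w => (P.x w, P.φ w)) [TopologicalSpace M]
    (α : Γ →* Equiv.Perm M) (hα : ∀ g, Continuous (α g)) {ι : M → F} (hι : IsEmbedding ι)
    {pt : Ω → M} (hpt : Function.Surjective pt) (hx : ∀ w, P.x w = ι (pt w))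
    (hs : ∀ (g : Γ) w, pt (g • w) = α g (pt w)) :
    ∃ Γ₁ : Subgroup Γ, Γ₁.FiniteIndex ∧ ∃ p : M, (∀ g ∈ Γ₁, α g p = p) ∧
      ∃ C : ℝ, ∀ g ∈ Γ₁, ∀ᶠ y in 𝓝 p, ‖ι (α g y) - ι p‖ ≤ C * ‖ι y - ι p‖ := by
  have := hT.countable
  obtain ⟨K, _, _, _, _, _, _, _, _, μ, _, _, j, π, hj, hπ, he, hA⟩ := P.outA hT hν hemb
  let act : Γ → F → F := fun g => Function.extend ι (fun y => ι (α g y)) id
  have ha : ∀ g y, act g (ι y) = ι (α g y) := fun g y => hι.injective.extend_apply _ _ y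
  have ha' : ∀ (g : Γ) w, act g (P.x w) = P.x (g • w) := fun g w => by rw [hx, hx, ha, hs]
  have hr : ∀ y ∈ range ι, ∃ w, P.x w = y := by
    rintro _ ⟨p, rfl⟩
    obtain ⟨w, rfl⟩ := hpt p
    exact ⟨w, hx w⟩
  have h1 : Measurable fun k => P.x (π k) := P.mx.comp hπ
  have h2 : Measurable fun k => P.ψ (π k) := P.mψ.comp hπ
  have h3 : ∀ᵐ k ∂μ, P.x (π k) ∈ range ι := Eventually.of_forall fun k => ⟨_, (hx _).symm⟩
  have h4 : ∀ g, ∀ᵐ k ∂μ, P.x (π (j g * k)) = act g (P.x (π k)) := fun g => by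
    filter_upwards [he g] with k hk
    rw [hk, ha']
  have h5 : ∀ g, ∀ᵐ k ∂μ, ∀ θ : ℝ, 0 < θ → ∃ r : ℝ, 0 < r ∧ ∀ y ∈ range ι, ‖y - P.x (π k)‖ ≤ r →
      ‖P.ψ (π (j g * k)) (act g y - act g (P.x (π k))) - P.ψ (π k) (y - P.x (π k))‖ ≤
        θ * ‖y - P.x (π k)‖ := fun g => by
    filter_upwards [he g] with k hk θ hθ
    obtain ⟨r, hr0, h⟩ := P.lin g (θ / (‖P.ψ (g • π k)‖ + 1)) (by positivity)
    refine ⟨r, hr0, fun y hy hy' => ?_⟩
    obtain ⟨w, rfl⟩ := hr y hy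
    rw [hk, ha', ha']
    refine (h _ _ hy').1.trans (mul_le_mul_of_nonneg_right ?_ (norm_nonneg _))
    rw [div_mul_eq_mul_div, div_le_iff₀ (by positivity)]
    nlinarith
  have h6 : ∀ᵐ k ∂μ, ∃ r : ℝ, 0 < r ∧ ∃ c : ℝ, ∀ y ∈ range ι, ‖y - P.x (π k)‖ ≤ r →
      ‖y - P.x (π k)‖ ≤ c * ‖P.ψ (π k) (y - P.x (π k))‖ := Eventually.of_forall fun k => by
    obtain ⟨r, hr0, h⟩ := P.tan (1 / 2) (by norm_num)
    refine ⟨r, hr0, 2 * ‖P.φ (π k)‖, fun y hy hy' => ?_⟩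
    obtain ⟨w, rfl⟩ := hr y hy
    have a1 := (h _ _ hy').1
    have a2 := (P.φ (π k)).le_opNorm (P.ψ (π k) (P.x w - P.x (π k)))
    have a3 := norm_sub_norm_le (P.x w - P.x (π k)) (P.φ (π k) (P.ψ (π k) (P.x w - P.x (π k))))
    linarith
  borelize E
  have hH := almHom μ hT j hj act h1 h2 h3 h4 h5 h6
  have hj' : DenseRange (j.comp (⊤ : Subgroup Γ).subtype) :=
    hj.mono (by rintro _ ⟨g, rfl⟩; exact ⟨⟨g, trivial⟩, rfl⟩)
  have hop := hH.isOpen _ hj' hS hm hA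
  have hc : ∀ g, ContinuousOn (act g) (range ι) := fun g => by
    rw [continuousOn_iff_continuous_domRestrict]
    have : (range ι).domRestrict (act g) = fun y => ι (α g (hι.toHomeomorph.symm y)) := by
      funext y
      obtain ⟨p, rfl⟩ := hι.toHomeomorph.surjective y
      rw [Homeomorph.symm_apply_apply]
      exact ha g p
    rw [this]
    exact hι.continuous.comp ((hα g).comp hι.toHomeomorph.symm.continuous)
  obtain ⟨Γ₁, hΓ, _, ⟨p, rfl⟩, hp, C, hC⟩ := TZ.tail μ j act h1 h2 h3 h4 h5 h6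
    (fun g => by rintro _ ⟨p, rfl⟩; exact ⟨_, (ha g p).symm⟩) hc _ hop fun _ h => h
  refine ⟨Γ₁, hΓ, p, fun g hg => hι.injective ((ha g p).symm.trans (hp g hg)), C, fun g hg => ?_⟩
  have h7 : Tendsto ι (𝓝 p) (𝓝[range ι] ι p) :=
    tendsto_nhdsWithin_iff.2 ⟨hι.continuous.continuousAt, Eventually.of_forall fun y => ⟨y, rfl⟩⟩
  filter_upwards [h7.eventually (hC g hg)] with y hy
  rwa [ha] at hy

theorem finite_of_frames {Γ : Type} [Group Γ] {m : ℕ} {M : Type} [MetricSpace M] [CompactSpace M]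
    [ConnectedSpace M] [MeasurableSpace M] [BorelSpace M]
    [ChartedSpace (EuclideanSpace ℝ (Fin m)) M] [IsManifold (𝓡 m) ∞ M]
    (hT : ∀ L : Subgroup Γ, L.FiniteIndex → HasT L)
    (hR : ∀ L : Subgroup Γ, L.FiniteIndex → SR.SRd L m)
    (α : Γ →* Equiv.Perm M) (hα : ∀ γ, ContMDiff (𝓡 m) (𝓡 m) ∞ (α γ)) {len : Γ → ℝ}
    (J : Jets α len m) {N : ℕ} {ι : M → EuclideanSpace ℝ (Fin N)}
    (hι : ContMDiff (𝓡 m) (𝓡 N) ∞ ι) (himm : ∀ p, Function.Injective (mfderiv (𝓡 m) (𝓡 N) ι p))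
    (B : JEmb J ι) (ν : Measure (M × GLu m)) [hp : IsProbabilityMeasure ν]
    (hν : ∀ γ, MeasurePreserving (fun w : M × GLu m => (α γ w.1, Dlu J γ w.1 * w.2)) ν ν) :
    (range α).Finite := by
  have hT0 : HasT Γ := (hT ⊤ inferInstance).of_mulEquiv Subgroup.topEquiv
  obtain ⟨P, hx, hemb⟩ := exists_frm B
  have hiso : Isometry ι := Isometry.of_dist_eq fun p q => by rw [B.isom, dist_eq_norm]
  obtain ⟨Γ₁, hΓ, p, h1, C, h2⟩ := @Frm.fixed Γ (Fr J) _ _ M _ _ _ _ _ _ _ _ _ _ _ P hT0 m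
    (hR ⊤ inferInstance) (by simp) ν hp hν hemb _ α (fun g => (hα g).continuous) ι hiso.isEmbedding
    (fun w => w.1) (fun p => ⟨(p, 1), rfl⟩) hx fun _ _ => rfl
  have : IsManifold (𝓡 m) 1 M := IsManifold.of_le (n := ∞) (by simp)
  exact end_finite α (fun g => (hα g).of_le (by simp)) hT0.fg_and_hom
    (fun L hL ρ hρ => (hR L hL).finite_of_le le_rfl ρ hρ)
    ((hι p).mdifferentiableAt (by simp)) (himm p) Γ₁ h1 h2

end Pool.Agent.P.MP_d483fb_an.Z.TZ
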