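import Pool.Agent.P.MP_d483fb_an.Z.TZ.S2
import Pool.Agent.P.MP_d483fb_an.Z.TZ.DecMix
import Pool.Agent.P.MP_d483fb_an.Z.TZ.Main
import Pool.Agent.P.MP_d483fb_an.Z.NF.Words
import Pool.Agent.P.MP_d483fb_an.Z.Su.Len2

/-!
An invariant probability on the suspension forces the action to be finite.
-/

open scoped Manifold ContDiff Topology
open MeasureTheory Filter Set

noncomputable section

namespace Pool.Agent.P.MP_d483fb_an.Z

variable {G : Type} [Group G] [TopologicalSpace G] [IsTopologicalGroup G] [ConnectedSpace G]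
  [T2Space G] [LocallyCompactSpace G] [SecondCountableTopology G] [MeasurableSpace G]
  [BorelSpace G] {n k : ℕ}
  {m : ℕ} {M : Type} [MetricSpace M] [CompactSpace M] [MeasurableSpace M] [BorelSpace M]
  [ChartedSpace (EuclideanSpace ℝ (Fin m)) M] [IsManifold (𝓡 m) ∞ M]

omit [CompactSpace M] in
theorem Emb.jemb {Γ : Type} [Group Γ] (e : Emb m M) {α : Γ →* Equiv.Perm M} {len : Γ → ℝ}
    (A : Jet.Atl (Jet.stdc (D := m) (M := M))) (J : NF.Jets α len m) (hJ : J.c = A.c) :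
    Nonempty (TZ.JEmb J e.ι) := by
  refine NF.jemb_of_atl A J hJ e.dist_eq fun x => ?_
  have h := ((contMDiff_iff.1 e.smooth).2 x 0).comp
    (EuclideanSpace.equiv (Fin m) ℝ).symm.contDiff.contDiffOn (s := (Jet.stdc (D := m) x).target)
    fun u hu => by
      have : (EuclideanSpace.equiv (Fin m) ℝ).symm u ∈
        (chartAt (EuclideanSpace ℝ (Fin m)) x).target := hu
      simpa using this
  exact h.congr fun _ _ => rfl

theorem Std.finite_of_inv (D : Std G n k) (Γ : Subgroup G) [DiscreteTopology Γ]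
    [ConnectedSpace M] (e : Emb m M) (α : (D.lat Γ).Γ →* Equiv.Perm M)
    (hα : ∀ γ, ContMDiff (𝓡 m) (𝓡 m) ∞ (α γ))
    (A : Jet.Atl (Jet.stdc (D := m) (M := M))) (J : NF.Jets α (fun γ => D.len γ) m)
    (hJ : J.c = A.c)
    {X : Type} [MetricSpace X] [ProperSpace X] [MeasurableSpace X] [BorelSpace X] [MulAction G X]
    [ContinuousSMul G X] (E : Skw (D.lat Γ) α X) (ν : Measure X) [IsProbabilityMeasure ν]
    (hG : ∀ g : G, MeasurePreserving (fun x : X => g • x) ν ν) (hA : D.ErgA ν) (hv : D.ltV m)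
    (hT : ∀ Λ : Subgroup (D.lat Γ).Γ, Λ.FiniteIndex → TZ.HasT Λ)
    (hS : ∀ Λ : Subgroup (D.lat Γ).Γ, Λ.FiniteIndex → SR.SRd Λ m) :
    (range α).Finite := by
  obtain ⟨B⟩ := e.jemb A J hJ
  obtain ⟨η, _, hη⟩ := TZ.frames_jets D E J ν hG hA hv (TZ.Std.dec0 D ∅)
  exact TZ.finite_of_frames hT hS α hα J e.smooth e.imm B η hη

end Pool.Agent.P.MP_d483fb_an.Z
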