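import Pool.Agent.P.MP_d483fb_an.Z.Su.Base

/-!
An invariant probability measure of a suspension gives an invariant probability measure on the
fibre.
-/

open scoped Topology ENNReal
open MeasureTheory ProbabilityTheory Filter Set

set_option linter.unusedSectionVars false

namespace Pool.Agent.P.MP_d483fb_an.Z

theorem measurableSet_kernel_eq {α β : Type} [MeasurableSpace α] [MeasurableSpace β]
    [MeasurableSpace.CountablyGenerated β] (κ η : Kernel α β) [IsFiniteKernel κ]
    [IsFiniteKernel η] : MeasurableSet {a | κ a = η a} := by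
  have : {a | κ a = η a} = {a | κ a ≪ η a} ∩
      {a | η a (Prod.mk a ⁻¹' {p : α × β | κ.rnDeriv η p.1 p.2 = 1}ᶜ) = 0} := by
    ext a
    constructor
    · intro h
      have h1 : κ a ≪ η a := Measure.absolutelyContinuous_of_eq h
      exact ⟨h1, (Kernel.rnDeriv_eq_one_iff_eq h1).2 h⟩
    · rintro ⟨h1, h2⟩
      exact (Kernel.rnDeriv_eq_one_iff_eq h1).1 h2
  rw [this]
  refine (Kernel.measurableSet_absolutelyContinuous κ η).inter ?_
  exact Kernel.measurable_kernel_prodMk_left (κ := η)
    (measurableSet_eq_fun (κ.measurable_rnDeriv η) measurable_const).compl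
    (measurableSet_singleton 0)

namespace Lat

variable {G : Type} [Group G] [TopologicalSpace G] [IsTopologicalGroup G] [T2Space G]
  [SecondCountableTopology G] [MeasurableSpace G] [BorelSpace G] (L : Lat G)

theorem measurable_act {Y Z : Type} [MeasurableSpace Y] [MeasurableSpace Z] {act : L.Γ → Y → Y}
    (hm : ∀ γ, Measurable (act γ)) {f : Z → L.Γ} (hf : Measurable f) {y : Z → Y}
    (hy : Measurable y) : Measurable fun z => act (f z) (y z) :=
  (measurable_from_prod_countable_left (f := fun p : Y × L.Γ => act p.2 p.1) hm).comp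
    (hy.prodMk hf)

/-- Restriction of an invariant probability measure to a fibre. -/
theorem fibre_measure {Y : Type} [MeasurableSpace Y] [StandardBorelSpace Y] [Nonempty Y]
    (act : L.Γ → Y → Y) (hone : ∀ y, act 1 y = y)
    (hmul : ∀ γ γ' y, act (γ * γ') y = act γ (act γ' y)) (hm : ∀ γ, Measurable (act γ))
    (η : Measure (L.B × Y)) [IsProbabilityMeasure η]
    (hη : ∀ g : G, MeasurePreserving (fun p : L.B × Y => (g • p.1, act (L.c g p.1) p.2)) η η) :
    ∃ lam : Measure Y, IsProbabilityMeasure lam ∧ ∀ γ, MeasurePreserving (act γ) lam lam := by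
  have := L.locallyCompact
  set m := η.fst with hm'
  set κ := η.condKernel with hκ
  have hd : m ⊗ₘ κ = η := η.disintegrate κ
  have hsm : Measurable fun p : G × L.B => p.1 • p.2 := Continuous.measurable (by fun_prop)
  have hmg : ∀ g : G, MeasurePreserving (fun b : L.B => g • b) m m := by
    intro g
    have h1 : Measurable fun b : L.B => g • b := Continuous.measurable (by fun_prop)
    refine ⟨h1, ?_⟩
    rw [hm', Measure.fst, Measure.map_map h1 measurable_fst]
    conv_rhs => rw [← (hη g).map_eq, Measure.map_map measurable_fst (hη g).measurable]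
    rfl
  have hpre : ∀ {E : Set Y}, MeasurableSet E →
      Measurable fun p : G × L.B => κ p.2 (act (L.c p.1 p.2) ⁻¹' E) := fun {E} hE =>
    (measurable_from_prod_countable_left (f := fun p : L.B × L.Γ => κ p.1 (act p.2 ⁻¹' E))
      fun γ => κ.measurable_coe (hm γ hE)).comp (measurable_snd.prodMk L.measurable_c)
  let κ₁ : Kernel (G × L.B) Y := κ.comap _ hsm
  let κ₂ : Kernel (G × L.B) Y :=
    ⟨fun p => (κ p.2).map (act (L.c p.1 p.2)), Measure.measurable_of_measurable_coe _ fun E hE => by
      simp only [Measure.map_apply (hm _) hE]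
      exact hpre hE⟩
  have : IsMarkovKernel κ₂ := ⟨fun p => Measure.isProbabilityMeasure_map (hm _).aemeasurable⟩
  have h1 : ∀ g : G, ∀ᵐ b ∂m, κ₁ (g, b) = κ₂ (g, b) := by
    intro g
    have hg : Measurable fun b : L.B => (g, b) := measurable_prodMk_left
    refine Kernel.ae_eq_of_compProd_eq (κ := κ₁.comap _ hg) (η := κ₂.comap _ hg) ?_
    refine Measure.ext_prod fun {A E} hA hE => ?_
    have hA' : MeasurableSet ((fun b : L.B => g⁻¹ • b) ⁻¹' A) := (hmg g⁻¹).measurable hA
    rw [Measure.compProd_apply_prod hA hE, Measure.compProd_apply_prod hA hE]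
    have e1 : ∫⁻ b in A, (κ₁.comap _ hg) b E ∂m = η (((fun b : L.B => g⁻¹ • b) ⁻¹' A) ×ˢ E) := by
      rw [← hd, Measure.compProd_apply_prod hA' hE,
        ← (hmg g).setLIntegral_comp_preimage hA' (κ.measurable_coe hE)]
      have : (fun b : L.B => g • b) ⁻¹' ((fun b : L.B => g⁻¹ • b) ⁻¹' A) = A := by
        ext b
        simp
      rw [this]
      rfl
    rw [e1, ← (hη g).measure_preimage (hA'.prod hE).nullMeasurableSet, ← hd,
      Measure.compProd_apply ((hη g).measurable (hA'.prod hE)), ← lintegral_indicator hA]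
    refine lintegral_congr fun b => ?_
    by_cases hb : b ∈ A
    · rw [indicator_of_mem hb]
      show _ = ((κ b).map (act (L.c g b))) E
      rw [Measure.map_apply (hm _) hE]
      congr 1
      ext y
      simp [hb]
    · rw [indicator_of_notMem hb]
      convert measure_empty (μ := κ b)
      ext y
      simp [hb]
  set lam : Measure G := (Measure.haar : Measure G).inv with hlam
  have h2 : ∀ᵐ b ∂m, ∀ᵐ g ∂lam, κ₁ (g, b) = κ₂ (g, b) :=
    (Measure.ae_ae_comm (p := fun g b => κ₁ (g, b) = κ₂ (g, b))
      (measurableSet_kernel_eq κ₁ κ₂)).1 (Eventually.of_forall h1)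
  obtain ⟨b, hb⟩ := h2.exists
  refine ⟨κ b, inferInstance, fun γ => ⟨hm γ, ?_⟩⟩
  set w : G := L.sec b * γ * (L.sec b)⁻¹ with hw
  have hwb : w • b = b := by
    conv_lhs => rw [← L.pj_sec b]
    rw [smul_pj, hw, inv_mul_cancel_right, pj_mul, pj_sec]
  have hc : L.c w b = γ := by
    refine Subtype.ext ?_
    rw [coe_c, hwb, hw]
    group
  have hb' : ∀ᵐ g ∂lam, κ₁ (g * w, b) = κ₂ (g * w, b) :=
    (measurePreserving_mul_right lam w).quasiMeasurePreserving.ae hb
  have : NeBot (ae lam) := ae_neBot.2 (NeZero.ne lam)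
  obtain ⟨g, q1, q2⟩ := (hb.and hb').exists
  have q3 : (κ b).map (act (L.c g b)) = (κ b).map (act (L.c g b * γ)) := by
    have e1 : κ₁ (g * w, b) = κ₁ (g, b) := by
      show κ ((g * w) • b) = κ (g • b)
      rw [mul_smul, hwb]
    have e2 : κ₂ (g * w, b) = (κ b).map (act (L.c g b * γ)) := by
      show (κ b).map (act (L.c (g * w) b)) = _
      rw [c_mul, hwb, hc]
    rw [← e2, ← q2, e1, q1]
    rfl
  have q4 := congrArg (Measure.map (act (L.c g b)⁻¹)) q3
  rw [Measure.map_map (hm _) (hm _), Measure.map_map (hm _) (hm _)] at q4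
  have e3 : act (L.c g b)⁻¹ ∘ act (L.c g b) = id := by
    ext y
    simp [← hmul, hone]
  have e4 : act (L.c g b)⁻¹ ∘ act (L.c g b * γ) = act γ := by
    ext y
    simp [← hmul]
  rw [e3, e4, Measure.map_id] at q4
  exact q4.symm

end Lat

end Pool.Agent.P.MP_d483fb_an.Z
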