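import Mathlib

/-!
An abstract frame bundle of an embedded compact manifold with an action by `C¹` maps.
-/

namespace Pool.Agent.P.MP_d483fb_an.Z.TZ

/-- A point `w` of `Ω` is a base point `x w` in `F` with a frame `φ w` of the tangent space and a
left inverse `ψ w` of the frame. The estimates express uniform differentiability. -/
structure Frm (Γ Ω E F : Type) [Group Γ] [MulAction Γ Ω] [MeasurableSpace Ω]
    [NormedAddCommGroup E] [NormedSpace ℝ E] [NormedAddCommGroup F] [NormedSpace ℝ F]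
    [MeasurableSpace F] where
  x : Ω → F
  φ : Ω → E →L[ℝ] F
  ψ : Ω → F →L[ℝ] E
  mx : Measurable x
  mφ : Measurable φ
  mψ : Measurable ψ
  inv : ∀ w v, ψ w (φ w v) = v
  tan : ∀ θ : ℝ, 0 < θ → ∃ r : ℝ, 0 < r ∧ ∀ w w', ‖x w' - x w‖ ≤ r →
    ‖x w' - x w - φ w (ψ w (x w' - x w))‖ ≤ θ * ‖x w' - x w‖ ∧
      ‖φ w' - φ w ∘L ψ w ∘L φ w'‖ ≤ θ * ‖φ w'‖
  lip : ∀ g : Γ, ∃ C r : ℝ, 0 < r ∧ ∀ w w', ‖x w' - x w‖ ≤ r →
    ‖x (g • w') - x (g • w)‖ ≤ C * ‖x w' - x w‖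
  lin : ∀ (g : Γ) (θ : ℝ), 0 < θ → ∃ r : ℝ, 0 < r ∧ ∀ w w', ‖x w' - x w‖ ≤ r →
    ‖ψ (g • w) (x (g • w') - x (g • w)) - ψ w (x w' - x w)‖ ≤
        θ * ‖ψ (g • w)‖ * ‖x w' - x w‖ ∧
      ‖ψ (g • w) ∘L φ (g • w') - ψ w ∘L φ w'‖ ≤ θ * ‖ψ (g • w)‖ * ‖φ w'‖

end Pool.Agent.P.MP_d483fb_an.Z.TZ
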