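import Pool.Agent.P.MP_d483fb_an.Z.TZ.FrLin
import Pool.Agent.P.MP_d483fb_an.Z.TZ.FrmDefs

/-!
The frame bundle of a compact manifold in the charts is an abstract frame bundle.
-/

open MeasureTheory Filter Topology Set Real

noncomputable section

namespace Pool.Agent.P.MP_d483fb_an.Z.TZ

open NF

variable {D : ℕ} {Γ M : Type} [Group Γ] [MetricSpace M] [MeasurableSpace M]
  {α : Γ →* Equiv.Perm M} {len : Γ → ℝ} {J : Jets α len D} {N : ℕ}
  {ι : M → EuclideanSpace ℝ (Fin N)}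

/-- The frame bundle. -/
def Fr (_J : Jets α len D) : Type := M × GLu D

instance : MeasurableSpace (Fr J) := inferInstanceAs (MeasurableSpace (M × GLu D))

instance : MulAction Γ (Fr J) where
  smul γ w := (α γ w.1, Dlu J γ w.1 * w.2)
  one_smul w := by
    change (α 1 w.1, Dlu J 1 w.1 * w.2) = w
    rw [map_one, Dlu_one, one_mul]
    rfl
  mul_smul γ γ' w := by
    change (α (γ * γ') w.1, Dlu J (γ * γ') w.1 * w.2) =
      (α γ (α γ' w.1), Dlu J γ (α γ' w.1) * (Dlu J γ' w.1 * w.2))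
    rw [map_mul, Dlu_mul, mul_assoc]
    rfl

section Est

variable (B : JEmb J ι) {R : M → EuclideanSpace ℝ (Fin N) →L[ℝ] E D} {C : ℝ}
  (hB : ∀ p, ‖B.B p‖ ≤ C) (hR : ∀ p, ‖R p‖ ≤ C) (hRB : ∀ p u, R p (B.B p u) = u)

theorem JEmb.q_tay : Q3 fun p _ z => ι z - ι p - B.B p (J.c p z) :=
  Q3.of_two (f := fun p z => ι z - ι p - B.B p (J.c p z)) (exp_pos _).le (exp_pos _) B.tay

include hR hRB in
theorem JEmb.q_R : Q3 fun p _ z => R p (ι z - ι p) - J.c p z := by
  simpa only [map_sub (R _) (ι _ - ι _), hRB] using B.q_tay.clm (fun p _ => R p) fun p _ => hR p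

include hB hR hRB in
theorem JEmb.q_tan : Q3 fun p _ z => ι z - ι p - B.B p (R p (ι z - ι p)) := by
  convert B.q_tay.sub ((B.q_R hR hRB).clm (fun p _ => B.B p) fun p _ => hB p) using 4
  rw [map_sub (B.B _)]
  abel

include hB hR hRB in
theorem JEmb.q_tan2 : Q3 fun p q z => (B.B q - B.B p ∘L R p ∘L B.B q) (J.c q z) := by
  have h1 := B.q_tan hB hR hRB
  have h2 := B.q_tay.qz
  convert (h1.sub h1.pq).sub (h2.sub ((h2.clm (fun p _ => R p) fun p _ => hR p).clm
    (fun p _ => B.B p) fun p _ => hB p)) using 4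
  simp only [sub_apply, ContinuousLinearMap.comp_apply, map_sub]
  abel

theorem q_jet (γ : Γ) : Q3 fun p _ z => J.c (α γ p) (α γ z) - J.Dl γ p (J.c p z) := by
  obtain ⟨A, ρ, hA, hρ, -, -, h⟩ := jets_loc J γ
  exact Q3.of_two (f := fun p z => J.c (α γ p) (α γ z) - J.Dl γ p (J.c p z)) (by linarith) hρ h

include hR hRB in
theorem JEmb.q_lin (γ : Γ) : Q3 fun p _ z =>
    R (α γ p) (ι (α γ z) - ι (α γ p)) - J.Dl γ p (R p (ι z - ι p)) := by
  obtain ⟨A, ρ, hA, -, h1, h2, -⟩ := jets_loc J γ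
  have h3 := B.q_R hR hRB
  convert ((h3.comp (by linarith) h2).add (q_jet (J := J) γ)).sub
    (h3.clm (fun p _ => J.Dl γ p) fun p _ => h1 p) using 4
  rw [map_sub (J.Dl γ _) (R _ _)]
  abel

include hB hR hRB in
theorem JEmb.q_lin2 (γ : Γ) : Q3 fun p q z =>
    (R (α γ p) ∘L B.B (α γ q) ∘L J.Dl γ q - J.Dl γ p ∘L R p ∘L B.B q) (J.c q z) := by
  obtain ⟨A, ρ, hA, -, h1, h2, -⟩ := jets_loc J γ
  have h3 := B.q_lin hR hRB γ
  have h4 := B.q_tay.qz
  have h5 := ((h4.comp (by linarith) h2).add ((q_jet (J := J) γ).qz.clm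
    (fun _ q => B.B (α γ q)) fun _ q => hB _)).clm (fun p _ => R (α γ p)) fun p _ => hR _
  have h6 := (h4.clm (fun p _ => R p) fun p _ => hR p).clm (fun p _ => J.Dl γ p) fun p _ => h1 p
  convert ((h3.sub h3.pq).sub h5).add h6 using 4
  simp only [sub_apply, ContinuousLinearMap.comp_apply, map_sub, map_add]
  abel

end Est

theorem exists_frm [BorelSpace M] [CompactSpace M] (B : JEmb J ι) :
    ∃ P : Frm Γ (Fr J) (EuclideanSpace ℝ (Fin D)) (EuclideanSpace ℝ (Fin N)),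
      (∀ w, P.x w = ι w.1) ∧ MeasurableEmbedding fun w => (P.x w, P.φ w) := by
  obtain ⟨R, C, hRm, hB, hR, hRB⟩ := B.exists_R
  set e := EuclideanSpace.equiv (Fin D) ℝ with he
  have hι : Isometry ι := Isometry.of_dist_eq fun p q => by rw [B.isom, dist_eq_norm]
  let φ : Fr J → EuclideanSpace ℝ (Fin D) →L[ℝ] EuclideanSpace ℝ (Fin N) := fun w =>
    B.B w.1 ∘L (w.2 : E D →L[ℝ] E D) ∘L e.toContinuousLinearMap
  let χ : GLu D → E D →L[ℝ] EuclideanSpace ℝ (Fin D) := fun g =>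
    e.symm.toContinuousLinearMap ∘L ((g⁻¹ : GLu D) : E D →L[ℝ] E D)
  let ψ : Fr J → EuclideanSpace ℝ (Fin N) →L[ℝ] EuclideanSpace ℝ (Fin D) := fun w => χ w.2 ∘L R w.1
  have hg1 : ∀ (g : GLu D) u, ((g⁻¹ : GLu D) : E D →L[ℝ] E D) ((g : E D →L[ℝ] E D) u) = u :=
    fun g u => DFunLike.congr_fun g.inv_mul u
  have hg2 : ∀ (g : GLu D) u, (g : E D →L[ℝ] E D) (((g⁻¹ : GLu D) : E D →L[ℝ] E D) u) = u :=
    fun g u => DFunLike.congr_fun g.mul_inv u
  have hC : ∀ _ : M, 0 ≤ C := fun p => (norm_nonneg _).trans (hB p)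
  have hx : Measurable fun w : Fr J => ι w.1 := hι.continuous.measurable.comp measurable_fst
  have hφ : Measurable φ := measurable_clm_comp (B.measB.comp measurable_fst)
    (measurable_clm_comp (Units.continuous_val.measurable.comp measurable_snd) measurable_const)
  have hψ : Measurable ψ := measurable_clm_comp (measurable_clm_comp measurable_const
    (Units.continuous_coe_inv.measurable.comp measurable_snd)) (hRm.comp measurable_fst)
  have hχ : ∀ w : Fr J, ‖χ w.2‖ ≤ ‖ψ w‖ * C := fun w => by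
    have : χ w.2 = ψ w ∘L B.B w.1 := by
      ext1 u
      simp only [ψ, ContinuousLinearMap.comp_apply, hRB]
    rw [this]
    exact (ContinuousLinearMap.opNorm_comp_le _ _).trans (by gcongr; exact hB _)
  have hge : ∀ w : Fr J, ‖(w.2 : E D →L[ℝ] E D) ∘L e.toContinuousLinearMap‖ ≤ C * ‖φ w‖ :=
    fun w => by
      have : (w.2 : E D →L[ℝ] E D) ∘L e.toContinuousLinearMap = R w.1 ∘L φ w := by
        ext1 u
        simp only [φ, ContinuousLinearMap.comp_apply, hRB]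
      rw [this]
      exact (ContinuousLinearMap.opNorm_comp_le _ _).trans (by gcongr; exact hR _)
  have hφψ : ∀ w v, φ w (ψ w v) = B.B w.1 (R w.1 v) := fun w v => by
    simp [φ, ψ, χ, hg2]
  have hχm : ∀ γ (w : Fr J) u, χ (γ • w).2 (J.Dl γ w.1 u) = χ w.2 u := fun γ w u => by
    change e.symm (((Dlu J γ w.1 * w.2)⁻¹ : GLu D).val ((Dlu J γ w.1).val u)) = e.symm _
    rw [mul_inv_rev, Units.val_mul, mul_apply_eq_comp, hg1]
    rfl
  refine ⟨⟨fun w => ι w.1, φ, ψ, hx, hφ, hψ, fun w v => by simp [φ, ψ, χ, hRB, hg1],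
    fun θ hθ => ?_, fun γ => ?_, fun γ θ hθ => ?_⟩, fun _ => rfl, ?_⟩
  · have h0 : 0 < θ / (|C| + 1) := by positivity
    obtain ⟨r1, hr1, h1⟩ := (B.q_tan hB hR hRB).small hθ
    obtain ⟨r2, hr2, h2⟩ := (B.q_tan2 hB hR hRB).small_op h0
    refine ⟨min r1 r2, by positivity, fun w w' hw => ?_⟩
    rw [← B.isom] at hw ⊢
    refine ⟨by rw [hφψ]; exact h1 _ _ (hw.trans (min_le_left _ _)), ?_⟩
    have e1 : φ w' - φ w ∘L ψ w ∘L φ w' = (B.B w'.1 - B.B w.1 ∘L R w.1 ∘L B.B w'.1) ∘L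
        (w'.2 : E D →L[ℝ] E D) ∘L e.toContinuousLinearMap := by
      ext1 u
      simp only [sub_apply, ContinuousLinearMap.comp_apply, hφψ]
      rfl
    rw [e1]
    refine (ContinuousLinearMap.opNorm_comp_le _ _).trans ((mul_le_mul
      (h2 _ _ (hw.trans (min_le_right _ _))) (hge w') (norm_nonneg _) h0.le).trans ?_)
    rw [← mul_assoc]
    gcongr
    rw [div_mul_eq_mul_div, div_le_iff₀ (by positivity)]
    nlinarith [le_abs_self C]
  · obtain ⟨A, ρ, -, -, -, h2, -⟩ := jets_loc J γ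
    refine ⟨A, 1, one_pos, fun w w' _ => ?_⟩
    rw [← B.isom, ← B.isom]
    exact h2 _ _
  · have h0 : 0 < θ / (|C| + 1) := by positivity
    have h0' : 0 < θ / (C ^ 2 + 1) := by positivity
    obtain ⟨r1, hr1, h1⟩ := (B.q_lin hR hRB γ).small h0
    obtain ⟨r2, hr2, h2⟩ := (B.q_lin2 hB hR hRB γ).small_op h0'
    refine ⟨min r1 r2, by positivity, fun w w' hw => ?_⟩
    have hC0 := hC w.1
    rw [← B.isom] at hw ⊢
    constructor
    · have e1 : ψ (γ • w) (ι (γ • w').1 - ι (γ • w).1) - ψ w (ι w'.1 - ι w.1) =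
          χ (γ • w).2 (R (α γ w.1) (ι (α γ w'.1) - ι (α γ w.1)) -
            J.Dl γ w.1 (R w.1 (ι w'.1 - ι w.1))) := by
        rw [map_sub (χ _), hχm]
        rfl
      rw [e1]
      refine ((χ _).le_opNorm _).trans ((mul_le_mul (hχ _)
        (h1 _ _ (hw.trans (min_le_left _ _))) (norm_nonneg _) (by positivity)).trans ?_)
      have h3 : C * (θ / (|C| + 1)) ≤ θ := by
        rw [← mul_div_assoc, div_le_iff₀ (by positivity)]
        nlinarith [le_abs_self C]
      calc _ = C * (θ / (|C| + 1)) * (‖ψ (γ • w)‖ * dist w'.1 w.1) := by ring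
        _ ≤ θ * (‖ψ (γ • w)‖ * dist w'.1 w.1) := by gcongr
        _ = _ := by ring
    · have e1 : ψ (γ • w) ∘L φ (γ • w') - ψ w ∘L φ w' = χ (γ • w).2 ∘L
          (R (α γ w.1) ∘L B.B (α γ w'.1) ∘L J.Dl γ w'.1 - J.Dl γ w.1 ∘L R w.1 ∘L B.B w'.1) ∘L
          (w'.2 : E D →L[ℝ] E D) ∘L e.toContinuousLinearMap := by
        ext1 u
        simp only [sub_apply, ContinuousLinearMap.comp_apply, map_sub, hχm]
        rfl
      rw [e1]
      have h3 := (ContinuousLinearMap.opNorm_comp_le _ _).trans (mul_le_mul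
        (h2 _ _ (hw.trans (min_le_right _ _))) (hge w') (norm_nonneg _) h0'.le)
      refine (ContinuousLinearMap.opNorm_comp_le _ _).trans ((mul_le_mul (hχ _) h3
        (norm_nonneg _) (by positivity)).trans ?_)
      have h4 : C ^ 2 * (θ / (C ^ 2 + 1)) ≤ θ := by
        rw [← mul_div_assoc, div_le_iff₀ (by positivity)]
        nlinarith
      calc _ = C ^ 2 * (θ / (C ^ 2 + 1)) * (‖ψ (γ • w)‖ * ‖φ w'‖) := by ring
        _ ≤ θ * (‖ψ (γ • w)‖ * ‖φ w'‖) := by gcongr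
        _ = _ := by ring
  · have : StandardBorelSpace (Fr J) := inferInstanceAs (StandardBorelSpace (M × GLu D))
    refine (hx.prodMk hφ).measurableEmbedding ?_
    rintro ⟨p, g⟩ ⟨p', g'⟩ h
    obtain rfl : p = p' := hι.injective (congrArg Prod.fst h)
    refine Prod.ext rfl (Units.ext (ContinuousLinearMap.ext fun u => ?_))
    have := congrArg (R p) (DFunLike.congr_fun (congrArg Prod.snd h) (e.symm u))
    simpa [φ, hRB] using this

end Pool.Agent.P.MP_d483fb_an.Z.TZ
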