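import Pool.Agent.P.MP_d483fb_an.Z.TZ.FrDefs

/-!
The derivative cocycle in the charts, with values in the general linear group.
-/

open MeasureTheory Filter Topology Set Real

noncomputable section

namespace Pool.Agent.P.MP_d483fb_an.Z.TZ

open NF

variable {D : ℕ}

theorem evv_two (T : Jt D 2) (w : E D) : evv T w = linv T w := by
  classical
  funext i
  rw [linv_apply]
  simp only [evv, ev, lin, toPoly, MvPolynomial.coeff_sum, MvPolynomial.coeff_monomial,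
    sum_apply, smul_apply, ContinuousLinearMap.proj_apply,
    smul_eq_mul, Finset.sum_mul]
  rw [Finset.sum_comm]
  refine Finset.sum_congr rfl fun a _ => ?_
  have h1 : a.1.degree = 1 := by
    have := a.2
    omega
  obtain ⟨j, hj⟩ : a.1 ∈ Set.range (fun j : Fin D => Finsupp.single j 1) := by
    rw [Finsupp.range_single_one]
    exact h1
  have h2 : mono a.1 w = w j := by
    rw [← hj, mono, Finset.prod_eq_single j]
    · simp
    · intro b _ hb
      simp [Finsupp.single_eq_of_ne hb]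
    · simp
  rw [h2, Finset.sum_eq_single j]
  · simp [hj]
  · intro b _ hb
    rw [if_neg, zero_mul]
    rw [← hj]
    exact fun h => hb (Finsupp.single_left_injective one_ne_zero h).symm
  · simp

/-- The linear part as a continuous linear map. -/
def linvL (D : ℕ) : Jt D 2 →L[ℝ] (E D →L[ℝ] E D) :=
  LinearMap.toContinuousLinearMap
    { toFun := linv
      map_add' := fun S T => by
        ext w i
        simp [← evv_two, evv, ev, add_mul, Finset.sum_add_distrib]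
      map_smul' := fun c T => by
        ext w i
        simp [← evv_two, evv, ev, Finset.mul_sum, mul_assoc] }

theorem opNorm_le_of_small {A B : Type} [NormedAddCommGroup A] [NormedSpace ℝ A]
    [NormedAddCommGroup B] [NormedSpace ℝ B] (T : A →L[ℝ] B) {s K : ℝ} (hs : 0 < s) (hK : 0 ≤ K)
    (h : ∀ u, ‖u‖ ≤ s → ‖T u‖ ≤ K * s) : ‖T‖ ≤ K := by
  refine T.opNorm_le_of_unit_norm hK fun x hx => ?_
  have := h (s • x) (by rw [norm_smul, hx, mul_one, Real.norm_of_nonneg hs.le])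
  rw [map_smul, norm_smul, Real.norm_of_nonneg hs.le, mul_comm] at this
  exact le_of_mul_le_mul_right this hs

variable {Γ M : Type} [Group Γ] [MetricSpace M] [MeasurableSpace M] {α : Γ →* Equiv.Perm M}
  {len : Γ → ℝ} (J : Jets α len D)

theorem measurable_Dl (γ : Γ) : Measurable (J.Dl γ) :=
  (linvL D).continuous.measurable.comp (J.measT 2 γ)

theorem norm_Dl_le (γ : Γ) (p : M) : ‖J.Dl γ p‖ ≤ ‖linvL D‖ * exp (J.Lr 2 * (1 + len γ)) :=
  ((linvL D).le_opNorm _).trans (mul_le_mul_of_nonneg_left (J.T_le 2 γ p) (norm_nonneg _))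

/-- Uniform estimates for one group element. -/
theorem jets_loc (γ : Γ) : ∃ C ρ : ℝ, 1 ≤ C ∧ 0 < ρ ∧ (∀ p, ‖J.Dl γ p‖ ≤ C) ∧
    (∀ z z', dist (α γ z) (α γ z') ≤ C * dist z z') ∧
    ∀ p z, dist z p ≤ ρ → ‖J.c (α γ p) (α γ z) - J.Dl γ p (J.c p z)‖ ≤ C * dist z p ^ 2 := by
  have h1 := exp_pos (J.Lr 2 * (1 + len γ))
  have h2 := exp_pos (J.L0 * (1 + len γ))
  have h3 : 0 ≤ ‖linvL D‖ * exp (J.Lr 2 * (1 + len γ)) := by positivity
  refine ⟨1 + ‖linvL D‖ * exp (J.Lr 2 * (1 + len γ)) + exp (J.Lr 2 * (1 + len γ)) +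
    exp (J.L0 * (1 + len γ)), _, by linarith, exp_pos (-(J.Lr 2 * (1 + len γ))),
    fun p => (norm_Dl_le J γ p).trans (by linarith),
    fun z z' => (J.lip γ z z').trans (mul_le_mul_of_nonneg_right (by linarith) dist_nonneg),
    fun p z hz => ?_⟩
  have := J.jet 2 γ p z hz
  rw [evv_two] at this
  exact this.trans (mul_le_mul_of_nonneg_right (by linarith) (by positivity))

/-- Uniform estimates for the charts. -/
theorem jets_onto : ∃ C ρ : ℝ, 1 ≤ C ∧ 0 < ρ ∧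
    (∀ p u, ‖u‖ ≤ ρ → ∃ z, dist z p ≤ C * ‖u‖ ∧ J.c p z = u) ∧
    ∀ p z, dist z p ≤ ρ → ‖J.c p z‖ ≤ C * dist z p := by
  refine ⟨exp J.L0, exp (-(2 * J.L0)), one_le_exp J.L0_nonneg, exp_pos _, J.c_onto,
    fun p z hz => ?_⟩
  have := J.c_lip p z p (hz.trans (exp_le_exp.2 (by linarith [J.L0_nonneg])))
    (by simpa using (exp_pos _).le)
  simpa [J.c_self] using this

theorem lin_unique {F : Type} [NormedAddCommGroup F] [NormedSpace ℝ F] (p : M)
    (T : E D →L[ℝ] F) {C ρ : ℝ} (hC : 0 ≤ C) (hρ : 0 < ρ)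
    (h : ∀ z, dist z p ≤ ρ → ‖T (J.c p z)‖ ≤ C * dist z p ^ 2) : T = 0 := by
  obtain ⟨A, σ, hA, hσ, hon, -⟩ := jets_onto J
  have hA0 : 0 < A := by linarith
  refine norm_le_zero_iff.1 (le_of_forall_pos_le_add fun ε hε => ?_)
  set s := min (min σ (ρ / A)) (ε / (C * A ^ 2 + 1)) with hs
  have hs0 : 0 < s := by positivity
  rw [zero_add]
  refine opNorm_le_of_small T hs0 hε.le fun u hu => ?_
  obtain ⟨z, hz, rfl⟩ := hon p u (hu.trans ((min_le_left _ _).trans (min_le_left _ _)))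
  have h1 : dist z p ≤ A * s := hz.trans (mul_le_mul_of_nonneg_left hu hA0.le)
  have h2 : s * A ≤ ρ := (le_div_iff₀ hA0).1 ((min_le_left _ _).trans (min_le_right _ _))
  have h3 : s * (C * A ^ 2 + 1) ≤ ε := (le_div_iff₀ (by positivity)).1 (min_le_right _ _)
  calc _ ≤ C * dist z p ^ 2 := h z (by linarith)
    _ ≤ C * (A * s) ^ 2 := by gcongr
    _ = s * (C * A ^ 2) * s := by ring
    _ ≤ ε * s := mul_le_mul_of_nonneg_right (by nlinarith) hs0.le

theorem dl_one (p : M) : J.Dl 1 p = 1 := by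
  obtain ⟨C, ρ, hC, hρ, -, -, h⟩ := jets_loc J 1
  refine (sub_eq_zero.1 (lin_unique J p (1 - J.Dl 1 p) (by linarith : 0 ≤ C) hρ
    fun z hz => ?_)).symm
  simpa using h p z hz

theorem dl_mul (γ γ' : Γ) (p : M) : J.Dl (γ * γ') p = J.Dl γ (α γ' p) * J.Dl γ' p := by
  obtain ⟨C1, ρ1, hC1, hρ1, -, -, h1⟩ := jets_loc J (γ * γ')
  obtain ⟨C2, ρ2, hC2, hρ2, hb, -, h2⟩ := jets_loc J γ
  obtain ⟨C3, ρ3, hC3, hρ3, -, hl, h3⟩ := jets_loc J γ'
  have hC3' : 0 < C3 := by linarith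
  refine sub_eq_zero.1 (lin_unique J p _ (C := C1 + C2 * C3 ^ 2 + C2 * C3)
    (ρ := min (min ρ1 ρ3) (ρ2 / C3)) (by positivity) (by positivity) fun z hz => ?_)
  have a1 := h1 p z (hz.trans ((min_le_left _ _).trans (min_le_left _ _)))
  have a3 := h3 p z (hz.trans ((min_le_left _ _).trans (min_le_right _ _)))
  have a4 := (le_div_iff₀ hC3').1 (hz.trans (min_le_right _ _))
  have a2 := h2 (α γ' p) (α γ' z) ((hl z p).trans (by linarith))
  have a5 : C2 * dist (α γ' z) (α γ' p) ^ 2 ≤ C2 * (C3 * dist z p) ^ 2 := by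
    have := hl z p
    gcongr
  have a6 := ((J.Dl γ (α γ' p)).le_opNorm _).trans (mul_le_mul (hb _) a3 (norm_nonneg _)
    (by linarith))
  rw [map_mul, Equiv.Perm.mul_apply, Equiv.Perm.mul_apply] at a1
  have e : (J.Dl (γ * γ') p - J.Dl γ (α γ' p) * J.Dl γ' p) (J.c p z) =
      -(J.c (α γ (α γ' p)) (α γ (α γ' z)) - J.Dl (γ * γ') p (J.c p z)) +
      (J.c (α γ (α γ' p)) (α γ (α γ' z)) - J.Dl γ (α γ' p) (J.c (α γ' p) (α γ' z))) +
      J.Dl γ (α γ' p) (J.c (α γ' p) (α γ' z) - J.Dl γ' p (J.c p z)) := by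
    simp only [sub_apply, mul_apply_eq_comp, map_sub]
    abel
  rw [e]
  refine (norm_add₃_le).trans ?_
  rw [norm_neg]
  nlinarith

/-- The derivative cocycle with values in the general linear group. -/
def Dlu (γ : Γ) (p : M) : GLu D where
  val := J.Dl γ p
  inv := J.Dl γ⁻¹ (α γ p)
  val_inv := by
    have := dl_mul J γ γ⁻¹ (α γ p)
    rw [mul_inv_cancel, dl_one, map_inv] at this
    simpa using this.symm
  inv_val := by rw [← dl_mul, inv_mul_cancel, dl_one]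

theorem Dlu_val (γ : Γ) (p : M) : (Dlu J γ p : E D →L[ℝ] E D) = J.Dl γ p := rfl

theorem Dlu_inv (γ : Γ) (p : M) :
    (((Dlu J γ p)⁻¹ : GLu D) : E D →L[ℝ] E D) = J.Dl γ⁻¹ (α γ p) := rfl

theorem Dlu_one (p : M) : Dlu J 1 p = 1 := Units.ext (dl_one J p)

theorem Dlu_mul (γ γ' : Γ) (p : M) : Dlu J (γ * γ') p = Dlu J γ (α γ' p) * Dlu J γ' p :=
  Units.ext (dl_mul J γ γ' p)

theorem measurable_Dlu (γ : Γ) : Measurable (Dlu J γ) :=
  measurable_comap_iff.2 (measurable_Dl J γ)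

theorem lg_Dlu_le : ∃ C : ℝ, 0 ≤ C ∧ ∀ γ p, lg (Dlu J γ p) ≤ C * (1 + len γ + len γ⁻¹) := by
  have h3 : 0 ≤ ‖linvL D‖ := (linvL D).opNorm_nonneg
  refine ⟨‖linvL D‖ + J.Lr 2, add_nonneg h3 (J.Lr_nonneg 2), fun γ p => ?_⟩
  have h0 := J.len_nonneg γ
  have h1 := J.len_nonneg γ⁻¹
  have h2 := J.Lr_nonneg 2
  have h4 : ∀ g q, len g ≤ len γ + len γ⁻¹ →
      ‖J.Dl g q‖ ≤ exp ((‖linvL D‖ + J.Lr 2) * (1 + len γ + len γ⁻¹)) := fun g q hg => by
    refine (norm_Dl_le J g q).trans ?_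
    rw [add_mul, exp_add]
    refine mul_le_mul ?_ (exp_le_exp.2 (by nlinarith)) (exp_pos _).le (exp_pos _).le
    nlinarith [add_one_le_exp (‖linvL D‖ * (1 + len γ + len γ⁻¹))]
  rw [lg, log_le_iff_le_exp (lt_of_lt_of_le one_pos (le_max_left _ _))]
  exact max_le (one_le_exp (by positivity))
    (max_le (h4 γ p (by linarith)) (h4 γ⁻¹ _ (by linarith)))

end Pool.Agent.P.MP_d483fb_an.Z.TZ
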