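import Pool.Agent.P.MP_d483fb_an.Z.TZ.FrJet

/-!
A measurable left inverse of the derivative of the embedding, and a calculus of second order
errors.
-/

open MeasureTheory Filter Topology Set Real
open scoped RealInnerProductSpace

noncomputable section

namespace Pool.Agent.P.MP_d483fb_an.Z.TZ

open NF

theorem measurable_ringInv {R : Type} [NormedRing R] [CompleteSpace R] [MeasurableSpace R]
    [BorelSpace R] : Measurable (Ring.inverse : R → R) := by
  classical
  have h1 : ContinuousOn Ring.inverse {x : R | IsUnit x} := fun x ⟨u, hu⟩ =>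
    hu ▸ (NormedRing.inverse_continuousAt u).continuousWithinAt
  have h2 := ContinuousOn.measurable_piecewise h1 (continuousOn_const (c := (0 : R)))
    Units.isOpen.measurableSet
  convert h2 using 1
  funext x
  by_cases h : IsUnit x
  · rw [piecewise_eq_of_mem _ _ _ (show x ∈ {x : R | IsUnit x} from h)]
  · rw [piecewise_eq_of_notMem _ _ _ (show x ∉ {x : R | IsUnit x} from h),
      Ring.inverse_non_unit _ h]

theorem measurable_clm_comp {X A B C : Type} [MeasurableSpace X] [NormedAddCommGroup A]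
    [NormedSpace ℝ A] [FiniteDimensional ℝ A] [NormedAddCommGroup B] [NormedSpace ℝ B]
    [FiniteDimensional ℝ B] [NormedAddCommGroup C] [NormedSpace ℝ C] {S : X → B →L[ℝ] C}
    {T : X → A →L[ℝ] B} (hS : Measurable S) (hT : Measurable T) :
    Measurable fun x => S x ∘L T x := by
  have : ProperSpace B := FiniteDimensional.proper_real B
  have h : Continuous fun q : (B →L[ℝ] C) × (A →L[ℝ] B) => q.1 ∘L q.2 :=
    continuous_fst.clm_comp continuous_snd
  exact h.measurable.comp (hS.prodMk hT)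

theorem exists_linv {A F : Type} [NormedAddCommGroup A] [InnerProductSpace ℝ A]
    [FiniteDimensional ℝ A] [NormedAddCommGroup F] [InnerProductSpace ℝ F]
    [FiniteDimensional ℝ F] :
    ∃ R : (A →L[ℝ] F) → (F →L[ℝ] A), Measurable R ∧ ∀ (B : A →L[ℝ] F) (C : ℝ), 0 ≤ C →
      (∀ u, ‖u‖ ≤ C * ‖B u‖) → (∀ u, R B (B u) = u) ∧ ‖R B‖ ≤ C := by
  have := FiniteDimensional.complete ℝ A
  have := FiniteDimensional.complete ℝ F
  have ha : Continuous fun B : A →L[ℝ] F => ContinuousLinearMap.adjoint B :=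
    ContinuousLinearMap.adjoint.continuous
  refine ⟨fun B => Ring.inverse (ContinuousLinearMap.adjoint B ∘L B) ∘L
    ContinuousLinearMap.adjoint B, measurable_clm_comp
      (measurable_ringInv.comp (ha.clm_comp continuous_id).measurable) ha.measurable,
    fun B C hC h => ?_⟩
  set S := ContinuousLinearMap.adjoint B ∘L B with hS
  have h1 : ∀ u, ⟪S u, u⟫ = ‖B u‖ ^ 2 := fun u => by
    rw [hS, ContinuousLinearMap.comp_apply, ContinuousLinearMap.adjoint_inner_left,
      real_inner_self_eq_norm_sq]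
  have h2 : Function.Injective S := (injective_iff_map_eq_zero S).2 fun u hu => by
    have h3 := h1 u
    rw [hu, inner_zero_left] at h3
    have h4 := h u
    rw [pow_eq_zero_iff (two_ne_zero) |>.1 h3.symm, mul_zero] at h4
    exact norm_le_zero_iff.1 h4
  have h3 : IsUnit S := ContinuousLinearMap.isUnit_iff_bijective.2
    ⟨h2, (LinearMap.injective_iff_surjective (f := (S : A →ₗ[ℝ] A))).1 h2⟩
  refine ⟨fun u => ?_, ContinuousLinearMap.opNorm_le_bound _ hC fun v => ?_⟩
  · exact DFunLike.congr_fun (Ring.inverse_mul_cancel S h3) u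
  · set u := (Ring.inverse S ∘L ContinuousLinearMap.adjoint B) v with hu
    have h4 : S u = ContinuousLinearMap.adjoint B v :=
      DFunLike.congr_fun (Ring.mul_inverse_cancel S h3) _
    have h5 := h1 u
    rw [h4, ContinuousLinearMap.adjoint_inner_left] at h5
    have h6 : ‖B u‖ ≤ ‖v‖ := by
      have h7 := real_inner_le_norm v (B u)
      by_contra h8
      nlinarith [norm_nonneg v]
    exact (h u).trans (mul_le_mul_of_nonneg_left h6 hC)

variable {D : ℕ} {Γ M : Type} [Group Γ] [MetricSpace M] [MeasurableSpace M]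
  {α : Γ →* Equiv.Perm M} {len : Γ → ℝ} {J : Jets α len D} {N : ℕ}
  {ι : M → EuclideanSpace ℝ (Fin N)}

theorem JEmb.bounds (B : JEmb J ι) : ∃ C : ℝ, 0 ≤ C ∧ (∀ p, ‖B.B p‖ ≤ C) ∧
    ∀ p u, ‖u‖ ≤ C * ‖B.B p u‖ := by
  obtain ⟨A, σ, hA, hσ, hon, hc⟩ := jets_onto J
  have hA0 : 0 < A := by linarith
  have hK := exp_pos B.K
  have hK' := exp_pos (-B.K)
  have hKK : exp B.K * exp (-B.K) = 1 := by rw [← exp_add, add_neg_cancel, exp_zero]
  set s := min σ (min σ (exp (-B.K) / 2) / A) with hs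
  have hs0 : 0 < s := by positivity
  have key : ∀ p u, ‖u‖ ≤ s → ‖B.B p u‖ ≤ 2 * A * ‖u‖ ∧ ‖u‖ ≤ 2 * A * ‖B.B p u‖ := by
    intro p u hu
    obtain ⟨z, hz, rfl⟩ := hon p u (hu.trans (min_le_left _ _))
    have h1 := (le_div_iff₀ hA0).1 (hu.trans (min_le_right _ _))
    have h2 : dist z p ≤ σ := by linarith [min_le_left σ (exp (-B.K) / 2)]
    have h3 : dist z p ≤ exp (-B.K) / 2 := by linarith [min_le_right σ (exp (-B.K) / 2)]
    have h4 := B.tay p z (by linarith)
    have h5 : exp B.K * dist z p ^ 2 ≤ dist z p / 2 := by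
      have := mul_le_mul_of_nonneg_left h3 (mul_nonneg hK.le (dist_nonneg (x := z) (y := p)))
      nlinarith
    have h6 := B.isom z p
    have h7 := norm_sub_norm_le (ι z - ι p) (B.B p (J.c p z))
    have h8 := norm_sub_norm_le (B.B p (J.c p z)) (ι z - ι p)
    rw [norm_sub_rev (B.B p _)] at h8
    have h9 := hc p z h2
    have h10 := dist_nonneg (x := z) (y := p)
    constructor <;> nlinarith
  refine ⟨2 * A, by positivity, fun p => opNorm_le_of_small _ hs0 (by positivity) fun u hu =>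
    (key p u hu).1.trans (by gcongr), fun p u => ?_⟩
  have ht : 0 < s / (‖u‖ + 1) := by positivity
  have h1 := (key p ((s / (‖u‖ + 1)) • u) (by
    rw [norm_smul, Real.norm_of_nonneg ht.le, div_mul_eq_mul_div, div_le_iff₀ (by positivity)]
    nlinarith)).2
  rw [map_smul, norm_smul, norm_smul, Real.norm_of_nonneg ht.le, mul_left_comm] at h1
  exact le_of_mul_le_mul_left h1 ht

theorem JEmb.exists_R (B : JEmb J ι) : ∃ (R : M → EuclideanSpace ℝ (Fin N) →L[ℝ] E D) (C : ℝ),
    Measurable R ∧ (∀ p, ‖B.B p‖ ≤ C) ∧ (∀ p, ‖R p‖ ≤ C) ∧ ∀ p u, R p (B.B p u) = u := by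
  obtain ⟨C, hC, h1, h2⟩ := B.bounds
  obtain ⟨R, hR, h3⟩ := exists_linv (A := EuclideanSpace ℝ (Fin D)) (F := EuclideanSpace ℝ (Fin N))
  set e := EuclideanSpace.equiv (Fin D) ℝ with he
  set a := ‖e.symm.toContinuousLinearMap‖ with ha
  have h4 : ∀ p v, ‖v‖ ≤ a * C * ‖(B.B p ∘L e.toContinuousLinearMap) v‖ := fun p v => by
    have h5 := e.symm.toContinuousLinearMap.le_opNorm (e v)
    rw [ContinuousLinearEquiv.coe_coe, e.symm_apply_apply] at h5
    rw [mul_assoc]
    exact h5.trans (mul_le_mul_of_nonneg_left (h2 p _) (norm_nonneg _))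
  have h5 := fun p => h3 _ _ (by positivity) (h4 p)
  refine ⟨fun p => e.toContinuousLinearMap ∘L R (B.B p ∘L e.toContinuousLinearMap),
    C + ‖e.toContinuousLinearMap‖ * (a * C), measurable_clm_comp measurable_const
      (hR.comp (measurable_clm_comp B.measB measurable_const)),
    fun p => (h1 p).trans (le_add_of_nonneg_right (by positivity)), fun p => ?_, fun p u => ?_⟩
  · refine (ContinuousLinearMap.opNorm_comp_le _ _).trans (le_add_of_nonneg_of_le hC ?_)
    exact mul_le_mul_of_nonneg_left (h5 p).2 (norm_nonneg _)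
  · have := congrArg e ((h5 p).1 (e.symm u))
    simpa using this

section Q3

variable {X Y : Type} [NormedAddCommGroup X] [NormedAddCommGroup Y]

/-- A function of three points which is of second order in their distances. -/
def Q3 (f : M → M → M → X) : Prop :=
  ∃ K ρ : ℝ, 0 ≤ K ∧ 0 < ρ ∧ ∀ p q z s, dist q p ≤ s → dist z p ≤ s → dist z q ≤ s → s ≤ ρ →
    ‖f p q z‖ ≤ K * s ^ 2

omit [MeasurableSpace M]

theorem Q3.add {f g : M → M → M → X} (hf : Q3 f) (hg : Q3 g) :
    Q3 fun p q z => f p q z + g p q z := by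
  obtain ⟨K, ρ, hK, hρ, h⟩ := hf
  obtain ⟨K', ρ', hK', hρ', h'⟩ := hg
  refine ⟨K + K', min ρ ρ', by positivity, by positivity, fun p q z s a b c d => ?_⟩
  rw [add_mul]
  exact norm_add_le_of_le (h p q z s a b c (d.trans (min_le_left _ _)))
    (h' p q z s a b c (d.trans (min_le_right _ _)))

theorem Q3.neg {f : M → M → M → X} (hf : Q3 f) : Q3 fun p q z => -f p q z := by
  simpa only [Q3, norm_neg] using hf

theorem Q3.sub {f g : M → M → M → X} (hf : Q3 f) (hg : Q3 g) :
    Q3 fun p q z => f p q z - g p q z := by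
  simpa only [sub_eq_add_neg] using hf.add hg.neg

theorem Q3.clm [NormedSpace ℝ X] [NormedSpace ℝ Y] {f : M → M → M → X} (hf : Q3 f)
    (L : M → M → X →L[ℝ] Y) {C : ℝ} (hL : ∀ p q, ‖L p q‖ ≤ C) :
    Q3 fun p q z => L p q (f p q z) := by
  obtain ⟨K, ρ, hK, hρ, h⟩ := hf
  refine ⟨|C| * K, ρ, by positivity, hρ, fun p q z s a b c d => ?_⟩
  rw [mul_assoc]
  exact ((L p q).le_opNorm _).trans (mul_le_mul ((hL p q).trans (le_abs_self C))
    (h p q z s a b c d) (norm_nonneg _) (abs_nonneg C))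

theorem Q3.comp {f : M → M → M → X} (hf : Q3 f) {g : M → M} {C : ℝ} (hC : 0 < C)
    (hg : ∀ z z', dist (g z) (g z') ≤ C * dist z z') : Q3 fun p q z => f (g p) (g q) (g z) := by
  obtain ⟨K, ρ, hK, hρ, h⟩ := hf
  refine ⟨K * C ^ 2, ρ / C, by positivity, by positivity, fun p q z s a b c d => ?_⟩
  rw [mul_assoc, ← mul_pow]
  exact h _ _ _ _ ((hg _ _).trans (by gcongr)) ((hg _ _).trans (by gcongr))
    ((hg _ _).trans (by gcongr)) (by rw [mul_comm]; exact (le_div_iff₀ hC).1 d)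

theorem Q3.of_two {f : M → M → X} {C ρ : ℝ} (hC : 0 ≤ C) (hρ : 0 < ρ)
    (h : ∀ p z, dist z p ≤ ρ → ‖f p z‖ ≤ C * dist z p ^ 2) : Q3 fun p _ z => f p z :=
  ⟨C, ρ, hC, hρ, fun p _ z s _ b _ d => (h p z (b.trans d)).trans (by gcongr)⟩

theorem Q3.pq {f : M → M → X} (hf : Q3 fun p _ z => f p z) : Q3 fun p q _ => f p q := by
  obtain ⟨K, ρ, hK, hρ, h⟩ := hf
  exact ⟨K, ρ, hK, hρ, fun p q _ s a _ _ d =>
    h p q q s a a (by simpa using dist_nonneg.trans a) d⟩

theorem Q3.qz {f : M → M → X} (hf : Q3 fun p _ z => f p z) : Q3 fun _ q z => f q z := by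
  obtain ⟨K, ρ, hK, hρ, h⟩ := hf
  exact ⟨K, ρ, hK, hρ, fun _ q z s _ _ c d =>
    h q q z s (by simpa using dist_nonneg.trans c) c c d⟩

theorem Q3.small {f : M → M → X} (hf : Q3 fun p _ z => f p z) {θ : ℝ} (hθ : 0 < θ) :
    ∃ r : ℝ, 0 < r ∧ ∀ p q, dist q p ≤ r → ‖f p q‖ ≤ θ * dist q p := by
  obtain ⟨K, ρ, hK, hρ, h⟩ := hf
  refine ⟨min ρ (θ / (K + 1)), by positivity, fun p q hq => ?_⟩
  have h1 := h p q q _ le_rfl le_rfl (by simp) (hq.trans (min_le_left _ _))
  have h2 := (le_div_iff₀ (by positivity)).1 (hq.trans (min_le_right _ _))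
  have h3 := dist_nonneg (x := q) (y := p)
  nlinarith

end Q3

theorem Q3.small_op {Y : Type} [NormedAddCommGroup Y] [NormedSpace ℝ Y]
    {T : M → M → E D →L[ℝ] Y} (hf : Q3 fun p q z => T p q (J.c q z)) {θ : ℝ} (hθ : 0 < θ) :
    ∃ r : ℝ, 0 < r ∧ ∀ p q, dist q p ≤ r → ‖T p q‖ ≤ θ := by
  obtain ⟨K, ρ, hK, hρ, h⟩ := hf
  obtain ⟨A, σ, hA, hσ, hon, -⟩ := jets_onto J
  set r := min (min σ (ρ / (A + 1))) (θ / (K * (A + 1) ^ 2 + 1)) with hr
  have hr0 : 0 < r := by positivity
  refine ⟨r, hr0, fun p q hq => opNorm_le_of_small _ hr0 hθ.le fun u hu => ?_⟩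
  obtain ⟨z, hz, rfl⟩ := hon q u (hu.trans ((min_le_left _ _).trans (min_le_left _ _)))
  have h1 : dist z q ≤ A * r := hz.trans (by gcongr)
  have h2 : r * (A + 1) ≤ ρ :=
    (le_div_iff₀ (by positivity)).1 ((min_le_left _ _).trans (min_le_right _ _))
  have h3 : r * (K * (A + 1) ^ 2 + 1) ≤ θ := (le_div_iff₀ (by positivity)).1 (min_le_right _ _)
  have h4 := h p q z (r * (A + 1)) (by nlinarith) (by nlinarith [dist_triangle z q p])
    (by nlinarith) h2
  calc _ ≤ K * (r * (A + 1)) ^ 2 := h4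
    _ = r * (K * (A + 1) ^ 2) * r := by ring
    _ ≤ θ * r := mul_le_mul_of_nonneg_right (by nlinarith) hr0.le

end Pool.Agent.P.MP_d483fb_an.Z.TZ
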