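import Mathlib

/-!
The group of units of a finite dimensional real normed algebra: Borel structure and a square
integrable positive weight that is supermultiplicative.
-/

open scoped Topology ENNReal
open MeasureTheory Filter Set

noncomputable section

namespace Pool.Agent.P.MP_d483fb_an.Z.TZ

variable {R : Type} [NormedRing R] [NormedAlgebra ℝ R] [FiniteDimensional ℝ R]

instance unitsPolish : PolishSpace Rˣ := by
  have := FiniteDimensional.proper_real R
  have : PolishSpace Rᵐᵒᵖ := MulOpposite.opHomeomorph.symm.isClosedEmbedding.polishSpace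
  exact Units.isClosedEmbedding_embedProduct.polishSpace

instance unitsBorel [MeasurableSpace R] [BorelSpace R] : BorelSpace Rˣ := ⟨by
  have := FiniteDimensional.complete ℝ R
  have h := borel_comap (f := (Units.val : Rˣ → R)) (t := inferInstance)
  rw [← (Units.isOpenEmbedding_val (R := R)).isInducing.eq_induced,
    ← BorelSpace.measurable_eq (α := R)] at h
  exact h.symm⟩

/-- The size of a unit. -/
def uN (h : Rˣ) : ℝ := max 1 (max ‖(h : R)‖ ‖((h⁻¹ : Rˣ) : R)‖)

omit [NormedAlgebra ℝ R] [FiniteDimensional ℝ R] in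
theorem one_le_uN (h : Rˣ) : 1 ≤ uN h := le_max_left _ _

omit [NormedAlgebra ℝ R] [FiniteDimensional ℝ R] in
theorem norm_le_uN (h : Rˣ) : ‖(h : R)‖ ≤ uN h := (le_max_left _ _).trans (le_max_right _ _)

omit [NormedAlgebra ℝ R] [FiniteDimensional ℝ R] in
theorem uN_inv (h : Rˣ) : uN h⁻¹ = uN h := by
  simp only [uN, inv_inv, max_comm]

omit [NormedAlgebra ℝ R] [FiniteDimensional ℝ R] in
theorem uN_mul (g h : Rˣ) : uN (g * h) ≤ uN g * uN h := by
  have key : ∀ g h : Rˣ, ‖((g * h : Rˣ) : R)‖ ≤ uN g * uN h := fun g h =>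
    (norm_mul_le _ _).trans (mul_le_mul (norm_le_uN g) (norm_le_uN h) (norm_nonneg _)
      (zero_le_one.trans (one_le_uN g)))
  refine max_le (one_le_mul_of_one_le_of_one_le (one_le_uN g) (one_le_uN h))
    (max_le (key g h) ?_)
  rw [mul_inv_rev, mul_comm (uN g), ← uN_inv g, ← uN_inv h]
  exact key _ _

omit [NormedAlgebra ℝ R] [FiniteDimensional ℝ R] in
theorem continuous_uN : Continuous (uN : Rˣ → ℝ) :=
  continuous_const.max (Units.continuous_val.norm.max Units.continuous_coe_inv.norm)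

variable [MeasurableSpace R] [BorelSpace R]

theorem haar_uN_le (m : Measure Rˣ) [m.IsHaarMeasure] : ∃ C : ℝ≥0∞, C ≠ ∞ ∧ ∀ ρ : ℝ, 1 ≤ ρ →
    m {h | uN h ≤ ρ} ≤ C * ENNReal.ofReal ((8 * ρ ^ 2) ^ Module.finrank ℝ R) := by
  have := FiniteDimensional.complete ℝ R
  have := FiniteDimensional.proper_real R
  set U : Set Rˣ := Units.val ⁻¹' Metric.closedBall (1 : R) 2⁻¹ with hU
  have hUc : IsCompact U := by
    refine (Units.isOpenEmbedding_val.isInducing.isCompact_preimage_iff fun x hx => ?_).2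
      (isCompact_closedBall _ _)
    have h1 : ‖1 - x‖ < 1 := by
      rw [norm_sub_rev]
      exact (mem_closedBall_iff_norm.1 hx).trans_lt (by norm_num)
    exact ⟨Units.oneSub (1 - x) h1, by simp⟩
  refine ⟨m U, hUc.measure_lt_top.ne, fun ρ hρ => ?_⟩
  set r : ℝ := (4 * ρ)⁻¹ with hr
  have hr0 : 0 < r := by positivity
  set vol : Measure R := Measure.addHaar with hvol
  set S : Set Rˣ := {h | uN h ≤ ρ} with hS
  have hSm : MeasurableSet S := (isClosed_le continuous_uN continuous_const).measurableSet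
  set W : Set (Rˣ × R) := {p | p.1 ∈ S ∧ ‖p.2 - p.1‖ ≤ r} with hW
  have hWm : MeasurableSet W := (measurable_fst hSm).inter (isClosed_le (continuous_snd.sub
    (Units.continuous_val.comp continuous_fst)).norm continuous_const).measurableSet
  have h1 : (m.prod vol) W = vol (Metric.closedBall 0 r) * m S := by
    rw [Measure.prod_apply hWm, ← lintegral_indicator_const hSm]
    refine lintegral_congr fun h => ?_
    by_cases hh : h ∈ S
    · rw [indicator_of_mem hh, ← Measure.addHaar_closedBall_center vol (h : R)]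
      congr 1
      ext x
      simp only [hW, mem_preimage, mem_ofPred_eq, hh, true_and, mem_closedBall_iff_norm]
    · rw [indicator_of_notMem hh]
      have : Prod.mk h ⁻¹' W = ∅ := eq_empty_of_forall_notMem fun x hx => hh hx.1
      rw [this, measure_empty]
  have h2 : (m.prod vol) W ≤ m U * vol (Metric.closedBall 0 (8 * ρ ^ 2 * r)) := by
    rw [Measure.prod_apply_symm hWm,
      ← lintegral_indicator_const Metric.isClosed_closedBall.measurableSet]
    refine lintegral_mono fun x => ?_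
    rcases eq_empty_or_nonempty ((fun h : Rˣ => (h, x)) ⁻¹' W) with he | ⟨h0, hh0, hx0⟩
    · simp only [he, measure_empty, zero_le]
    have e1 : 4 * ρ * r = 1 := mul_inv_cancel₀ (by positivity)
    have hx : x ∈ Metric.closedBall (0 : R) (8 * ρ ^ 2 * r) := by
      have a1 := norm_add_le (x - h0) (h0 : R)
      have a2 : ‖(h0 : R)‖ ≤ ρ := (norm_le_uN h0).trans hh0
      have a3 : ‖x - h0‖ ≤ r := hx0
      rw [sub_add_cancel] at a1
      rw [mem_closedBall_zero_iff]
      nlinarith
    rw [indicator_of_mem hx, ← measure_preimage_mul m h0⁻¹ U]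
    refine measure_mono fun h hh => ?_
    have a1 : ‖((h0⁻¹ : Rˣ) : R)‖ ≤ ρ := (norm_le_uN h0⁻¹).trans ((uN_inv h0).trans_le hh0)
    have a2 : ‖(h : R) - h0‖ ≤ 2 * r := by
      have a3 : ‖x - h0‖ ≤ r := hx0
      have a4 : ‖x - h‖ ≤ r := hh.2
      have a5 := norm_sub_le (x - h0) (x - h)
      rw [sub_sub_sub_cancel_left] at a5
      linarith
    have e2 : ((h0⁻¹ * h : Rˣ) : R) - 1 = (h0⁻¹ : Rˣ) * ((h : R) - h0) := by
      rw [mul_sub, Units.inv_mul, Units.val_mul]
    show ((h0⁻¹ * h : Rˣ) : R) ∈ Metric.closedBall (1 : R) 2⁻¹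
    rw [mem_closedBall_iff_norm, e2]
    refine (norm_mul_le _ _).trans ((mul_le_mul a1 a2 (norm_nonneg _) (by positivity)).trans ?_)
    nlinarith
  rw [h1, Measure.addHaar_closedBall_mul_of_pos vol 0 (by positivity : 0 < 8 * ρ ^ 2) r,
    ← mul_assoc, mul_comm] at h2
  exact (ENNReal.mul_le_mul_iff_left (Metric.measure_closedBall_pos vol 0 hr0).ne'
    measure_closedBall_lt_top.ne).1 h2

/-- A positive, symmetric, supermultiplicative and square integrable weight. -/
theorem exists_weight (m : Measure Rˣ) [m.IsHaarMeasure] : ∃ s : ℕ,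
    MemLp (fun h : Rˣ => (uN h)⁻¹ ^ s) 2 m := by
  obtain ⟨C, hC, h⟩ := haar_uN_le m
  set d := Module.finrank ℝ R
  refine ⟨d + 1, ?_⟩
  have hc : Continuous fun h : Rˣ => (uN h)⁻¹ ^ (d + 1) :=
    (continuous_uN.inv₀ fun h => (zero_lt_one.trans_le (one_le_uN h)).ne').pow _
  rw [memLp_two_iff_integrable_sq hc.aestronglyMeasurable]
  refine ⟨(hc.pow 2).aestronglyMeasurable, ?_⟩
  rw [hasFiniteIntegral_iff_ofReal (Eventually.of_forall fun h => sq_nonneg _)]
  have hm : ∀ j : ℕ, MeasurableSet {h : Rˣ | uN h ≤ 2 ^ (j + 1)} := fun j =>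
    (isClosed_le continuous_uN continuous_const).measurableSet
  calc ∫⁻ h, ENNReal.ofReal (((uN h)⁻¹ ^ (d + 1)) ^ 2) ∂m
      ≤ ∫⁻ h, ∑' j : ℕ, {h : Rˣ | uN h ≤ 2 ^ (j + 1)}.indicator
          (fun _ => ENNReal.ofReal ((((2 : ℝ) ^ j)⁻¹ ^ (d + 1)) ^ 2)) h ∂m := by
        refine lintegral_mono fun h => ?_
        obtain ⟨j, h1, h2⟩ := exists_nat_pow_near (one_le_uN h) (one_lt_two (α := ℝ))
        refine le_trans ?_ (ENNReal.le_tsum j)
        rw [indicator_of_mem (show h ∈ {h : Rˣ | uN h ≤ 2 ^ (j + 1)} from h2.le)]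
        have := one_le_uN h
        refine ENNReal.ofReal_le_ofReal ?_
        gcongr
    _ = ∑' j : ℕ, ENNReal.ofReal ((((2 : ℝ) ^ j)⁻¹ ^ (d + 1)) ^ 2) *
          m {h : Rˣ | uN h ≤ 2 ^ (j + 1)} := by
        rw [lintegral_tsum fun j => (measurable_const.indicator (hm j)).aemeasurable]
        exact tsum_congr fun j => lintegral_indicator_const (hm j) _
    _ ≤ ∑' j : ℕ, C * ENNReal.ofReal (32 ^ d * (4 : ℝ)⁻¹ ^ j) := by
        refine ENNReal.tsum_le_tsum fun j => ?_
        refine (mul_le_mul_right (h _ (one_le_pow₀ one_le_two)) _).trans (le_of_eq ?_)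
        rw [mul_left_comm, ← ENNReal.ofReal_mul (by positivity)]
        congr 2
        have e1 : (8 * ((2 : ℝ) ^ (j + 1)) ^ 2) = 32 * (2 ^ j) ^ 2 := by ring
        have e2 : (4 : ℝ)⁻¹ ^ j = ((2 ^ j)⁻¹) ^ 2 := by
          rw [← inv_pow, ← pow_mul, mul_comm, pow_mul]
          norm_num
        have e3 : ((2 : ℝ) ^ j) ≠ 0 := by positivity
        rw [e1, e2]
        generalize (2 : ℝ) ^ j = x at e3
        simp only [inv_pow, mul_pow]
        field_simp
        ring
    _ < ∞ := by
        rw [ENNReal.tsum_mul_left]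
        exact ENNReal.mul_lt_top hC.lt_top (Summable.tsum_ofReal_lt_top
          ((summable_geometric_of_lt_one (by norm_num) (by norm_num)).mul_left _))

end Pool.Agent.P.MP_d483fb_an.Z.TZ
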