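import Pool.Agent.P.MP_d483fb_an.Z.TZ.FrameA
import Pool.Agent.P.MP_d483fb_an.Z.TZ.FrameU

/-!
Zero exponents give an invariant probability measure on the frames.
-/

open scoped Topology ENNReal
open MeasureTheory Filter Set

noncomputable section

namespace Pool.Agent.P.MP_d483fb_an.Z.TZ

variable {G : Type} [Group G] [TopologicalSpace G] [IsTopologicalGroup G] [LocallyCompactSpace G]
  [T2Space G] [SecondCountableTopology G] [MeasurableSpace G] [BorelSpace G]
  {Y : Type} [MeasurableSpace Y] [MeasurableSpace.CountablyGenerated Y]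
  {R : Type} [NormedRing R] [NormedAlgebra ℝ R] [FiniteDimensional ℝ R] [MeasurableSpace R]
  [BorelSpace R] {A : Type} [NormedAddCommGroup A]

/-- Zero exponents give an invariant probability on the frames. -/
theorem frame (ν : Measure Y) [IsProbabilityMeasure ν] (T : G → Y → Y)
    (hT : Measurable fun p : G × Y => T p.1 p.2) (h1 : ∀ y, T 1 y = y)
    (hmul : ∀ g h y, T (g * h) y = T g (T h y)) (hp : ∀ g, MeasurePreserving (T g) ν ν)
    (c : G → Y → Rˣ) (hc : Measurable fun p : G × Y => (c p.1 p.2 : R))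
    (hcm : ∀ g h y, c (g * h) y = c g (T h y) * c h y)
    {a : A → G} (ha : ∀ t, a (-t) = (a t)⁻¹) (hD : SR.Dec a ∅)
    (hsub : ∀ ε : ℝ, 0 < ε → ∀ δ : ℝ≥0∞, δ ≠ 0 →
      ∃ Q : ℝ, ∀ t, ν {y | Real.exp (Q + ε * ‖t‖) < ‖(c (a t) y : R)‖} ≤ δ) :
    ∃ η : Measure (Y × Rˣ), IsProbabilityMeasure η ∧ η.fst ≪ ν ∧
      ∀ g, MeasurePreserving (fun p : Y × Rˣ => (T g p.1, c g p.1 * p.2)) η η := by
  have := FiniteDimensional.proper_real R
  obtain ⟨s, hs⟩ := exists_weight (Measure.haar : Measure Rˣ)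
  have h0 : ∀ h : Rˣ, 0 < uN h := fun h => zero_lt_one.trans_le (one_le_uN h)
  have H : FrCo ν T c fun h : Rˣ => (uN h)⁻¹ ^ s :=
    { mT := hT, one := h1, mul := hmul, mp := hp, cm := hcm
      mc := measurable_comap_iff.2 hc
      mf := (continuous_uN.measurable.inv).pow_const s
      pos := fun h => pow_pos (inv_pos.2 (h0 h)) s
      fmul := fun g h => by
        rw [← mul_pow, ← mul_inv]
        exact pow_le_pow_left₀ (inv_pos.2 (mul_pos (h0 g) (h0 h))).le
          (inv_anti₀ (h0 _) (uN_mul g h)) s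
      finv := fun h => by rw [uN_inv] }
  refine H.exists_inv Measure.haar hs hD fun ε hε δ hδ => ?_
  obtain ⟨Q, hQ⟩ := hsub (ε / (s + 1)) (by positivity) (δ / 2) (by simp [hδ])
  refine ⟨(s + 1) * max Q 0, fun t => ?_⟩
  set u := max Q 0 + ε / (s + 1) * ‖t‖ with hu
  have hu0 : 0 ≤ u := add_nonneg (le_max_right _ _) (by positivity)
  have hu1 : Q + ε / (s + 1) * ‖t‖ ≤ u := add_le_add_left (le_max_left _ _) _
  have hm : MeasurableSet {y | Real.exp (Q + ε / (s + 1) * ‖-t‖) < ‖(c (a (-t)) y : R)‖} :=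
    measurableSet_lt measurable_const (hc.comp measurable_prodMk_left).norm
  have h2 := hQ (-t)
  rw [← (hp (a t)).measure_preimage hm.nullMeasurableSet] at h2
  rw [← ENNReal.add_halves δ]
  refine le_trans (measure_mono fun y hy => ?_) ((measure_union_le _ _).trans (add_le_add (hQ t) h2))
  by_contra hn
  simp only [mem_union, mem_preimage, mem_ofPred_eq, not_or, not_lt, norm_neg] at hn hy
  have e : c (a (-t)) (T (a t) y) = (c (a t) y)⁻¹ := by
    have h3 := H.c_inv (a (-t)) y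
    rw [ha, inv_inv] at h3
    rw [ha, h3, inv_inv]
  have h3 : uN (c (a t) y) ≤ Real.exp u := max_le (Real.one_le_exp hu0)
    (max_le (hn.1.trans (Real.exp_le_exp.2 hu1)) (e ▸ hn.2.trans (Real.exp_le_exp.2 hu1)))
  have h4 := pow_le_pow_left₀ (inv_pos.2 (Real.exp_pos u)).le (inv_anti₀ (h0 _) h3) s
  rw [← Real.exp_neg, ← Real.exp_nat_mul] at h4
  refine absurd (h4.trans_lt hy) (not_lt.2 (Real.exp_le_exp.2 ?_))
  have e2 : (s + 1) * max Q 0 + ε * ‖t‖ = (s + 1) * u := by
    rw [hu]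
    field_simp
  rw [e2]
  linarith

/-- The units given by a cocycle with values in a monoid. -/
def cocU {G Y R : Type} [Group G] [Monoid R] (T : G → Y → Y) (c : G → Y → R)
    (h1 : ∀ y, T 1 y = y) (hmul : ∀ g h y, T (g * h) y = T g (T h y)) (hc1 : ∀ y, c 1 y = 1)
    (hcm : ∀ g h y, c (g * h) y = c g (T h y) * c h y) (g : G) (y : Y) : Rˣ where
  val := c g y
  inv := c g⁻¹ (T g y)
  val_inv := by
    have h := hcm g g⁻¹ (T g y)
    rw [← hmul, mul_inv_cancel, inv_mul_cancel, h1, hc1] at h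
    exact h.symm
  inv_val := by rw [← hcm, inv_mul_cancel, hc1]

end Pool.Agent.P.MP_d483fb_an.Z.TZ
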