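import Pool.Agent.P.MP_d483fb_an.Z.SR.Koop

/-!
A cocycle that grows subexponentially in probability along the Cartan subgroup has an invariant
probability measure on the skew product: abstract form.
-/

open scoped Topology ENNReal RealInnerProductSpace Pointwise
open MeasureTheory Filter Set

set_option linter.unusedSectionVars false

noncomputable section

namespace Pool.Agent.P.MP_d483fb_an.Z.TZ

/-- The normalised square of a nonzero square integrable function. -/
theorem exists_prob_of_L2 {Ω : Type} [MeasurableSpace Ω] (lam : Measure Ω) (ξ : Lp ℝ 2 lam)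
    (hξ : ξ ≠ 0) : ∃ η : Measure Ω, IsProbabilityMeasure η ∧ η ≪ lam ∧ ∀ T : Ω → Ω,
      MeasurePreserving T lam lam → (ξ =ᵐ[lam] fun ω => ξ (T ω)) → MeasurePreserving T η η := by
  set ρ : Ω → ℝ≥0∞ := fun ω => ENNReal.ofReal (ξ ω ^ 2) with hρ
  have hm : Measurable ρ := ((Lp.stronglyMeasurable ξ).measurable.pow_const 2).ennreal_ofReal
  have hi : Integrable (fun ω => ξ ω ^ 2) lam := (Lp.memLp ξ).integrable_sq
  have h1 : ∫⁻ ω, ρ ω ∂lam ≠ ∞ := hi.lintegral_lt_top.ne
  have h0 : ∫⁻ ω, ρ ω ∂lam ≠ 0 := by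
    intro h
    refine hξ (Lp.eq_zero_iff_ae_eq_zero.2 ?_)
    filter_upwards [(lintegral_eq_zero_iff hm).1 h] with ω hω
    have h2 : ξ ω ^ 2 ≤ 0 := ENNReal.ofReal_eq_zero.1 hω
    exact pow_eq_zero_iff (two_ne_zero) |>.1 (le_antisymm h2 (sq_nonneg _))
  refine ⟨(∫⁻ ω, ρ ω ∂lam)⁻¹ • lam.withDensity ρ, ⟨?_⟩,
    (withDensity_absolutelyContinuous lam ρ).smul_left _, fun T hT h => ?_⟩
  · rw [Measure.smul_apply, withDensity_apply _ MeasurableSet.univ, Measure.restrict_univ,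
      smul_eq_mul, ENNReal.inv_mul_cancel h0 h1]
  · refine MeasurePreserving.smul_measure ⟨hT.measurable, ?_⟩ _
    ext s hs
    rw [Measure.map_apply hT.measurable hs, withDensity_apply _ hs,
      withDensity_apply _ (hT.measurable hs), ← hT.setLIntegral_comp_preimage hs hm]
    refine lintegral_congr_ae (ae_restrict_of_ae (h.mono fun ω hω => ?_))
    exact congrArg (fun t : ℝ => ENNReal.ofReal (t ^ 2)) hω

variable {G : Type} [Group G] [TopologicalSpace G] [IsTopologicalGroup G] [LocallyCompactSpace G]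
  [T2Space G] [SecondCountableTopology G] [MeasurableSpace G] [BorelSpace G]
  {Y : Type} [MeasurableSpace Y] {L : Type} [Group L] [MeasurableSpace L]

/-- A measurable cocycle over a measure preserving action and a weight on the target group. -/
structure FrCo (ν : Measure Y) (T : G → Y → Y) (c : G → Y → L) (f : L → ℝ) : Prop where
  mT : Measurable fun p : G × Y => T p.1 p.2
  one : ∀ y, T 1 y = y
  mul : ∀ g h y, T (g * h) y = T g (T h y)
  mp : ∀ g, MeasurePreserving (T g) ν ν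
  mc : Measurable fun p : G × Y => c p.1 p.2
  cm : ∀ g h y, c (g * h) y = c g (T h y) * c h y
  mf : Measurable f
  pos : ∀ h, 0 < f h
  fmul : ∀ g h, f g * f h ≤ f (g * h)
  finv : ∀ h, f h⁻¹ = f h

/-- The weight of the cocycle is small only with small probability. -/
def Tight (ν : Measure Y) (c : G → Y → L) (f : L → ℝ) (g : G) (Q : ℝ) (δ : ℝ≥0∞) : Prop :=
  ν {y | f (c g y) < Real.exp (-Q)} ≤ δ

variable {ν : Measure Y} {T : G → Y → Y} {c : G → Y → L} {f : L → ℝ}

theorem Tight.mono {g : G} {Q Q' : ℝ} {δ δ' : ℝ≥0∞} (h : Tight ν c f g Q δ) (hQ : Q ≤ Q')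
    (hδ : δ ≤ δ') : Tight ν c f g Q' δ' :=
  (measure_mono fun _ hy => lt_of_lt_of_le hy (Real.exp_le_exp.2 (neg_le_neg hQ))).trans
    (h.trans hδ)

namespace FrCo

variable (H : FrCo ν T c f)
include H

theorem c_one (y : Y) : c 1 y = 1 := by
  have h := H.cm 1 1 y
  rw [mul_one, H.one] at h
  exact mul_eq_left.1 h.symm

theorem c_inv (g : G) (y : Y) : c g⁻¹ y = (c g (T g⁻¹ y))⁻¹ := by
  have h := H.cm g g⁻¹ y
  rw [mul_inv_cancel, H.c_one] at h
  exact eq_inv_of_mul_eq_one_right h.symm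

theorem measSet (Q : ℝ) : MeasurableSet {p : G × Y | f (c p.1 p.2) < Real.exp (-Q)} :=
  measurableSet_lt (H.mf.comp H.mc) measurable_const

theorem measSet' (g : G) (Q : ℝ) : MeasurableSet {y | f (c g y) < Real.exp (-Q)} :=
  measurable_prodMk_left (H.measSet Q)

theorem tight_inv {g : G} {Q : ℝ} {δ : ℝ≥0∞} (h : Tight ν c f g Q δ) : Tight ν c f g⁻¹ Q δ := by
  refine le_trans (le_of_eq ?_) h
  rw [← (H.mp g⁻¹).measure_preimage (H.measSet' g Q).nullMeasurableSet]
  congr 1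
  ext y
  simp only [mem_preimage, mem_ofPred_eq, H.c_inv, H.finv]

theorem tight_mul {g g' : G} {Q Q' : ℝ} {δ δ' : ℝ≥0∞} (h : Tight ν c f g Q δ)
    (h' : Tight ν c f g' Q' δ') : Tight ν c f (g * g') (Q + Q') (δ + δ') := by
  refine le_trans ?_ (add_le_add h h')
  rw [← (H.mp g').measure_preimage (H.measSet' g Q).nullMeasurableSet]
  refine le_trans (measure_mono fun y hy => ?_) (measure_union_le _ _)
  by_contra hn
  simp only [mem_union, mem_preimage, mem_ofPred_eq, not_or, not_lt] at hn hy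
  have h1 := mul_le_mul hn.1 hn.2 (Real.exp_pos _).le (H.pos _).le
  rw [← Real.exp_add, ← neg_add] at h1
  rw [H.cm] at hy
  exact absurd (h1.trans (H.fmul _ _)) (not_le.2 hy)

variable [IsProbabilityMeasure ν]

theorem exists_tight (g : G) {δ : ℝ≥0∞} (hδ : δ ≠ 0) : ∃ j : ℕ, Tight ν c f g j δ := by
  have h1 := tendsto_measure_iInter_atTop (μ := ν)
    (s := fun j : ℕ => {y | f (c g y) < Real.exp (-(j : ℝ))})
    (fun j => (H.measSet' g j).nullMeasurableSet)
    (fun i j hij y hy => lt_of_lt_of_le hy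
      (Real.exp_le_exp.2 (neg_le_neg (Nat.cast_le.2 hij)))) ⟨0, measure_ne_top _ _⟩
  have h2 : ⋂ j : ℕ, {y | f (c g y) < Real.exp (-(j : ℝ))} = ∅ := by
    refine eq_empty_of_forall_notMem fun y hy => ?_
    have h3 : Tendsto (fun j : ℕ => Real.exp (-(j : ℝ))) atTop (𝓝 0) :=
      Real.tendsto_exp_neg_atTop_nhds_zero.comp tendsto_natCast_atTop_atTop
    exact absurd (ge_of_tendsto' h3 fun j => le_of_lt (mem_iInter.1 hy j)) (not_le.2 (H.pos _))
  rw [h2, measure_empty] at h1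
  exact (h1.eventually (ge_mem_nhds (pos_iff_ne_zero.2 hδ))).exists

theorem tight_compact {K : Set G} (hK : IsCompact K) {δ : ℝ≥0∞} (hδ : δ ≠ 0) :
    ∃ Q : ℝ, ∀ g ∈ K, Tight ν c f g Q (δ + (δ + δ)) := by
  obtain ⟨j, hj⟩ := SR.steinhaus_cover (fun j : ℕ => {g : G | Tight ν c f g j δ})
    (fun j => measurableSet_le (measurable_measure_prodMk_left (H.measSet j)) measurable_const)
    (eq_univ_of_forall fun g => mem_iUnion.2 (H.exists_tight g hδ))
  refine hK.induction_on (p := fun s => ∃ Q : ℝ, ∀ g ∈ s, Tight ν c f g Q (δ + (δ + δ)))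
    ⟨0, fun _ h => h.elim⟩ (fun s t hst ⟨Q, h⟩ => ⟨Q, fun g hg => h g (hst hg)⟩)
    (fun s t ⟨Q, h⟩ ⟨Q', h'⟩ => ⟨max Q Q', fun g hg => hg.elim
      (fun k => (h g k).mono (le_max_left _ _) le_rfl)
      fun k => (h' g k).mono (le_max_right _ _) le_rfl⟩) fun x _ => ?_
  obtain ⟨i, hi⟩ := H.exists_tight x hδ
  have h1 : Tendsto (fun g => x⁻¹ * g) (𝓝 x) (𝓝 1) := by
    have := (continuous_const_mul x⁻¹).tendsto x
    rwa [inv_mul_cancel] at this
  refine ⟨_, mem_nhdsWithin_of_mem_nhds (h1 hj), i + (j + j), fun g ⟨s, hs, t, ht, e⟩ => ?_⟩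
  have e2 : g = x * (s⁻¹ * t) := by rw [← e, mul_inv_cancel_left]
  rw [e2]
  exact H.tight_mul hi (H.tight_mul (H.tight_inv hs) ht)

theorem tight_word {Q : ℝ} {δ : ℝ≥0∞} (h1 : Real.exp (-Q) ≤ f 1) (l : List G)
    (hl : ∀ g ∈ l, Tight ν c f g Q δ) : Tight ν c f l.prod ((l.length + 1) * Q) (l.length * δ) := by
  induction l with
  | nil =>
    refine le_trans (le_of_eq (measure_mono_null (fun y hy => ?_) measure_empty)) zero_le
    simp only [List.prod_nil, List.length_nil, Nat.cast_zero, zero_add, one_mul, mem_ofPred_eq,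
      H.c_one] at hy
    exact absurd h1 (not_le.2 hy)
  | cons g l ih =>
    refine (H.tight_mul (hl g List.mem_cons_self)
      (ih fun g hg => hl g (List.mem_cons_of_mem _ hg))).mono (le_of_eq ?_) (le_of_eq ?_)
    · simp only [List.length_cons, Nat.cast_add, Nat.cast_one]
      ring
    · simp only [List.length_cons, Nat.cast_add, Nat.cast_one]
      ring

variable [MeasurableMul₂ L] (m : Measure L) [SigmaFinite m] [m.IsMulLeftInvariant]

theorem skew_mp (g : G) :
    MeasurePreserving (fun p : Y × L => (T g p.1, c g p.1 * p.2)) (ν.prod m) (ν.prod m) :=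
  (H.mp g).skew_product (g := fun y h => c g y * h)
    ((H.mc.comp (measurable_const.prodMk measurable_fst)).mul measurable_snd)
    (Eventually.of_forall fun y => map_mul_left_eq_self m (c g y))

theorem lower (hf : MemLp f 2 m) {g : G} {Q : ℝ} (h : Tight ν c f g Q 2⁻¹)
    (hi : Integrable (fun p : Y × L => f (c g p.1 * p.2) * f p.2) (ν.prod m)) :
    2⁻¹ * (Real.exp (-Q) * ∫ h, f h ^ 2 ∂m) ≤ ∫ p, f (c g p.1 * p.2) * f p.2 ∂(ν.prod m) := by
  have hB := (H.measSet' g Q).compl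
  have h1 : 2⁻¹ ≤ ν.real {y | f (c g y) < Real.exp (-Q)}ᶜ := by
    rw [probReal_compl_eq_one_sub (H.measSet' g Q)]
    have := ENNReal.toReal_mono (by simp) h
    rw [ENNReal.toReal_inv, ENNReal.toReal_ofNat] at this
    rw [measureReal_def]
    linarith
  have hI : 0 ≤ ∫ h, f h ^ 2 ∂m := integral_nonneg fun h => sq_nonneg _
  refine (mul_le_mul_of_nonneg_right h1 (by positivity)).trans ?_
  rw [← mul_assoc, ← smul_eq_mul (ν.real _), ← integral_indicator_const _ hB, ← integral_prod_mul]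
  refine integral_mono (((integrable_const _).indicator hB).mul_prod hf.integrable_sq) hi
    fun p => ?_
  by_cases hp : p.1 ∈ {y | f (c g y) < Real.exp (-Q)}ᶜ
  · simp only [indicator_of_mem hp]
    rw [sq, ← mul_assoc]
    have hp' : Real.exp (-Q) ≤ f (c g p.1) := le_of_not_gt hp
    exact mul_le_mul_of_nonneg_right ((mul_le_mul_of_nonneg_right hp'
      (H.pos _).le).trans (H.fmul _ _)) (H.pos _).le
  · simp only [indicator_of_notMem hp, zero_mul]
    exact (mul_pos (H.pos _) (H.pos _)).le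

theorem exists_inv [MeasurableSpace.CountablyGenerated Y] [MeasurableSpace.CountablyGenerated L]
    [NeZero m] (hf : MemLp f 2 m) {A : Type} [NormedAddCommGroup A] {a : A → G} (hD : SR.Dec a ∅)
    (hsub : ∀ ε : ℝ, 0 < ε → ∀ δ : ℝ≥0∞, δ ≠ 0 →
      ∃ Q : ℝ, ∀ t, Tight ν c f (a t) (Q + ε * ‖t‖) δ) :
    ∃ η : Measure (Y × L), IsProbabilityMeasure η ∧ η.fst ≪ ν ∧
      ∀ g, MeasurePreserving (fun p : Y × L => (T g p.1, c g p.1 * p.2)) η η := by
  obtain ⟨U, hU1, hU2, hU3⟩ := SR.koopman (ν.prod m)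
    (fun (g : G) (p : Y × L) => (T g p.1, c g p.1 * p.2))
    ((H.mT.comp (measurable_fst.prodMk measurable_snd.fst)).prodMk
      ((H.mc.comp (measurable_fst.prodMk measurable_snd.fst)).mul measurable_snd.snd))
    (fun p => by rw [H.one, H.c_one, one_mul]) (fun g h p => by rw [H.mul, H.cm, mul_assoc])
    (H.skew_mp m)
  by_cases hinv : ∀ ξ, (∀ g, U g ξ = ξ) → ξ = 0
  swap
  · push Not at hinv
    obtain ⟨ξ, h1, h0⟩ := hinv
    obtain ⟨η, k1, k2, k3⟩ := exists_prob_of_L2 _ ξ h0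
    refine ⟨η, k1, Measure.AbsolutelyContinuous.mk fun s hs h => ?_, fun g =>
      k3 _ (H.skew_mp m g) ?_⟩
    · rw [Measure.fst_apply hs]
      refine k2 ?_
      rw [← prod_univ, Measure.prod_prod, h, zero_mul]
    · have h := hU3 g⁻¹ ξ
      rwa [h1, inv_inv] at h
  exfalso
  have hf2 : MemLp (fun p : Y × L => f p.2) 2 (ν.prod m) := hf.comp_snd ν
  obtain ⟨q, K, κ, C, hK, hκ, hev⟩ := hD _ U hU1 hU2 hinv hf2.toLp
  obtain ⟨δ, hδ, hδq⟩ : ∃ δ : ℝ≥0∞, δ ≠ 0 ∧ q * (δ + (δ + δ)) ≤ 2⁻¹ := by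
    refine ⟨(3 * q + 1 : ℝ≥0∞)⁻¹ * 2⁻¹, by simp [ENNReal.mul_eq_top], ?_⟩
    calc _ = (3 * q * (3 * q + 1 : ℝ≥0∞)⁻¹) * 2⁻¹ := by ring
      _ ≤ 1 * 2⁻¹ := mul_le_mul_left
          ((mul_le_mul_left le_self_add _).trans (ENNReal.mul_inv_le_one _)) _
      _ = _ := one_mul _
  obtain ⟨Q1, hQ1⟩ := H.tight_compact hK hδ
  obtain ⟨Q2, hQ2⟩ := hsub (κ / 2 / (q + 1)) (by positivity) δ hδ
  set ε := κ / 2 / (q + 1) with hε
  have hε0 : 0 < ε := by positivity
  have hε1 : (q + 1) * ε = κ / 2 := mul_div_cancel₀ _ (by positivity)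
  obtain ⟨Q, hQ0, hQ3, hQQ1, hQQ2⟩ : ∃ Q : ℝ, 0 ≤ Q ∧ -Real.log (f 1) ≤ Q ∧ Q1 ≤ Q ∧ Q2 ≤ Q :=
    ⟨max (max 0 (-Real.log (f 1))) (max Q1 Q2), (le_max_left _ _).trans (le_max_left _ _),
      (le_max_right _ _).trans (le_max_left _ _), (le_max_left _ _).trans (le_max_right _ _),
      (le_max_right _ _).trans (le_max_right _ _)⟩
  have hI : 0 < ∫ h, f h ^ 2 ∂m := by
    rw [integral_pos_iff_support_of_nonneg (fun h => sq_nonneg _) hf.integrable_sq]
    have : (Function.support fun h => f h ^ 2) = univ :=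
      eq_univ_of_forall fun h => (pow_pos (H.pos h) 2).ne'
    rw [this]
    exact Measure.measure_univ_pos.2 (NeZero.ne m)
  have key : ∀ᶠ r : ℝ in atTop, 2⁻¹ * (Real.exp (-((q + 1) * Q)) * ∫ h, f h ^ 2 ∂m) ≤
      C * Real.exp (-(κ / 2 * r)) := by
    filter_upwards [hev, eventually_ge_atTop 0] with r ⟨l, hl, hlet, hle⟩ hr0
    have hεr : 0 ≤ ε * r := mul_nonneg hε0.le hr0
    have hw := H.tight_word (Q := Q + ε * r) (δ := δ + (δ + δ)) (by
      rw [← Real.exp_log (H.pos 1)]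
      exact Real.exp_le_exp.2 (by linarith)) l (fun g hg => by
        rcases hlet g hg with h | h | ⟨t, ht, rfl⟩
        · exact (hQ1 g h).mono (by linarith) le_rfl
        · exact h.elim
        · exact (hQ2 t).mono (add_le_add hQQ2 (mul_le_mul_of_nonneg_left ht hε0.le)) le_self_add)
    have hw2 : Tight ν c f l.prod⁻¹ ((q + 1) * Q + κ / 2 * r) 2⁻¹ := by
      refine H.tight_inv (hw.mono ?_ ((mul_le_mul_left (Nat.cast_le.2 hl) _).trans hδq))
      rw [← hε1, mul_assoc, ← mul_add]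
      have : (l.length : ℝ) ≤ q := Nat.cast_le.2 hl
      exact mul_le_mul_of_nonneg_right (by linarith) (by linarith)
    have hae : (fun p => ⟪(U l.prod hf2.toLp : Y × L → ℝ) p, (hf2.toLp : Y × L → ℝ) p⟫)
        =ᵐ[ν.prod m] fun p : Y × L => f (c l.prod⁻¹ p.1 * p.2) * f p.2 := by
      filter_upwards [hU3 l.prod hf2.toLp, hf2.coeFn_toLp,
        (H.skew_mp m l.prod⁻¹).quasiMeasurePreserving.ae hf2.coeFn_toLp] with p k1 k2 k3
      rw [k1, k2, k3, real_inner_comm]
      rfl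
    have h1 := H.lower m hf hw2 ((L2.integrable_inner _ _).congr hae)
    rw [← integral_congr_ae hae, ← L2.inner_def] at h1
    have h2 := h1.trans hle
    have e1 : Real.exp (-(κ * r)) = Real.exp (-(κ / 2 * r)) * Real.exp (-(κ / 2 * r)) := by
      rw [← Real.exp_add]
      congr 1
      ring
    rw [neg_add, Real.exp_add, e1] at h2
    refine le_of_mul_le_mul_right (le_trans (le_of_eq ?_) (h2.trans (le_of_eq ?_)))
      (Real.exp_pos (-(κ / 2 * r))) <;> ring
  have h1 : Tendsto (fun r : ℝ => C * Real.exp (-(κ / 2 * r))) atTop (𝓝 (C * 0)) :=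
    (Real.tendsto_exp_neg_atTop_nhds_zero.comp
      (tendsto_id.const_mul_atTop (half_pos hκ))).const_mul C
  have h2 := ge_of_tendsto h1 key
  rw [mul_zero] at h2
  exact absurd h2 (not_le.2 (by positivity))

end FrCo

end Pool.Agent.P.MP_d483fb_an.Z.TZ
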