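import Pool.Agent.P.MP_d483fb_an.Z.EM.Proj

/-!
Property (T): definitions, and the restriction of a representation to the orthogonal complement of
the invariant vectors.
-/

open scoped RealInnerProductSpace

namespace Pool.Agent.P.MP_d483fb_an.Z.TZ

/-- Property (T) for a discrete group, with a finite Kazhdan set and a linear constant. -/
def HasT (Γ : Type) [Group Γ] : Prop :=
  ∃ (S : Finset Γ) (C : ℝ), 0 ≤ C ∧ ∀ (H : Type) [NormedAddCommGroup H] [InnerProductSpace ℝ H]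
    [CompleteSpace H] (π : Γ →* (H →L[ℝ] H)), (∀ g v, ‖π g v‖ = ‖v‖) →
    ∀ v : H, ∃ w : H, (∀ g, π g w = w) ∧ ‖v - w‖ ≤ C * ∑ s ∈ S, ‖π s v - v‖

/-- Property (T) for a topological group, with a compact Kazhdan set. -/
def KazG (G : Type) [Group G] [TopologicalSpace G] : Prop :=
  ∃ Q : Set G, IsCompact Q ∧ ∃ ε : ℝ, 0 < ε ∧ ∀ (H : Type) [NormedAddCommGroup H]
    [InnerProductSpace ℝ H] [CompleteSpace H] (π : G →* (H →L[ℝ] H)), (∀ g v, ‖π g v‖ = ‖v‖) →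
    (∀ v, Continuous fun g => π g v) → (∀ w, (∀ g, π g w = w) → w = 0) →
    ∀ v : H, (∀ g ∈ Q, ‖π g v - v‖ ≤ ε * ‖v‖) → v = 0

variable {G : Type*} [Group G] {H : Type*} [NormedAddCommGroup H] [InnerProductSpace ℝ H]

theorem perp_inv {π : G →* (H →L[ℝ] H)} (hπ : ∀ g v, ‖π g v‖ = ‖v‖) (g : G) {v : H}
    (hv : v ∈ (EM.fixS π ⊤)ᗮ) : π g v ∈ (EM.fixS π ⊤)ᗮ := by
  rw [Submodule.mem_orthogonal'] at hv ⊢
  intro w hw
  rw [EM.inner_pi_left hπ, hw g⁻¹ trivial]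
  exact hv w hw

/-- The restriction to the orthogonal complement of the invariant vectors. -/
noncomputable def perp (π : G →* (H →L[ℝ] H)) (hπ : ∀ g v, ‖π g v‖ = ‖v‖) :
    G →* ((EM.fixS π ⊤)ᗮ →L[ℝ] (EM.fixS π ⊤)ᗮ) where
  toFun g := ((π g).comp (EM.fixS π ⊤)ᗮ.subtypeL).codRestrict _ fun v => perp_inv hπ g v.2
  map_one' := by
    ext v
    simp
  map_mul' g h := by
    ext v
    exact EM.pi_mul π g h v

theorem perp_coe {π : G →* (H →L[ℝ] H)} (hπ : ∀ g v, ‖π g v‖ = ‖v‖) (g : G)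
    (v : (EM.fixS π ⊤)ᗮ) : (perp π hπ g v : H) = π g v := rfl

theorem perp_norm {π : G →* (H →L[ℝ] H)} (hπ : ∀ g v, ‖π g v‖ = ‖v‖) (g : G)
    (v : (EM.fixS π ⊤)ᗮ) : ‖perp π hπ g v‖ = ‖v‖ := hπ g v

theorem perp_noinv {π : G →* (H →L[ℝ] H)} (hπ : ∀ g v, ‖π g v‖ = ‖v‖)
    (w : (EM.fixS π ⊤)ᗮ) (hw : ∀ g, perp π hπ g w = w) : w = 0 := by
  have h1 : (w : H) ∈ EM.fixS π ⊤ := fun g _ => congrArg Subtype.val (hw g)
  have h2 := (Submodule.mem_orthogonal' _ _).mp w.2 w h1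
  exact Subtype.ext (inner_self_eq_zero.mp h2)

theorem sub_prj_mem [CompleteSpace H] (π : G →* (H →L[ℝ] H)) (v : H) :
    v - EM.prj π ⊤ v ∈ (EM.fixS π ⊤)ᗮ :=
  (Submodule.mem_orthogonal' _ _).mpr fun _ hw => EM.inner_sub_prj π ⊤ v hw

/-- The criterion: no almost invariant vectors in representations without invariant vectors. -/
theorem hasT_of_gap {Γ : Type} [Group Γ] (S : Finset Γ) {ε : ℝ} (hε : 0 < ε)
    (h : ∀ (H : Type) [NormedAddCommGroup H] [InnerProductSpace ℝ H] [CompleteSpace H]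
      (π : Γ →* (H →L[ℝ] H)), (∀ g v, ‖π g v‖ = ‖v‖) → (∀ w, (∀ g, π g w = w) → w = 0) →
      ∀ v : H, (∀ s ∈ S, ‖π s v - v‖ ≤ ε * ‖v‖) → v = 0) : HasT Γ := by
  refine ⟨S, ε⁻¹, by positivity, fun H _ _ _ π hπ v => ⟨EM.prj π ⊤ v,
    fun g => EM.prj_fix π ⊤ v trivial, ?_⟩⟩
  set u : (EM.fixS π ⊤)ᗮ := ⟨_, sub_prj_mem π v⟩ with hu
  have e : ∀ s, ‖perp π hπ s u - u‖ = ‖π s v - v‖ := by
    intro s
    have : ((perp π hπ s u - u : (EM.fixS π ⊤)ᗮ) : H) = π s v - v := by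
      rw [Submodule.coe_sub, perp_coe, hu]
      simp only [map_sub, EM.prj_fix π ⊤ v (Subgroup.mem_top s)]
      abel
    rw [← this]
    rfl
  have hn : ‖v - EM.prj π ⊤ v‖ = ‖u‖ := rfl
  have hs : 0 ≤ ∑ s ∈ S, ‖π s v - v‖ := Finset.sum_nonneg fun _ _ => norm_nonneg _
  rw [hn]
  by_contra hc
  push Not at hc
  have h0 : u = 0 := by
    refine h _ (perp π hπ) (perp_norm hπ) (perp_noinv hπ) u fun s hs' => ?_
    rw [e]
    have h1 : ‖π s v - v‖ ≤ ∑ s ∈ S, ‖π s v - v‖ :=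
      Finset.single_le_sum (f := fun s => ‖π s v - v‖) (fun _ _ => norm_nonneg _) hs'
    have h2 := mul_lt_mul_of_pos_left hc hε
    rw [← mul_assoc, mul_inv_cancel₀ hε.ne', one_mul] at h2
    linarith
  rw [h0, norm_zero] at hc
  have := mul_nonneg (inv_nonneg.mpr hε.le) hs
  linarith

/-- The converse: the gap form of property (T). -/
theorem HasT.gap {Γ : Type} [Group Γ] (hT : HasT Γ) : ∃ (S : Finset Γ) (ε : ℝ), 0 < ε ∧
    ∀ (H : Type) [NormedAddCommGroup H] [InnerProductSpace ℝ H] [CompleteSpace H]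
      (π : Γ →* (H →L[ℝ] H)), (∀ g v, ‖π g v‖ = ‖v‖) →
      ∀ v : H, v ≠ 0 → (∀ s ∈ S, ‖π s v - v‖ ≤ ε * ‖v‖) →
        ∃ w : H, (∀ g, π g w = w) ∧ ‖v - w‖ ≤ ‖v‖ / 2 ∧ w ≠ 0 := by
  obtain ⟨S, C, hC, h⟩ := hT
  have hp : 0 < 2 * (C * S.card + 1) := by positivity
  refine ⟨S, (2 * (C * S.card + 1))⁻¹, by positivity, fun H _ _ _ π hπ v hv hs => ?_⟩
  obtain ⟨w, hw, hle⟩ := h H π hπ v
  have h1 : ∑ s ∈ S, ‖π s v - v‖ ≤ S.card * ((2 * (C * S.card + 1))⁻¹ * ‖v‖) := by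
    simpa using Finset.sum_le_card_nsmul S _ _ hs
  have h2 : ‖v - w‖ ≤ ‖v‖ / 2 := by
    refine hle.trans ((mul_le_mul_of_nonneg_left h1 hC).trans ?_)
    rw [← mul_assoc, ← mul_assoc, le_div_iff₀ two_pos]
    have h3 : C * S.card * (2 * (C * S.card + 1))⁻¹ * 2 ≤ 1 := by
      rw [mul_assoc, mul_comm _ (2 : ℝ), ← mul_assoc, ← div_eq_mul_inv, div_le_one hp]
      linarith
    nlinarith [norm_nonneg v]
  refine ⟨w, hw, h2, fun h0 => ?_⟩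
  rw [h0, sub_zero] at h2
  have := norm_pos_iff.mpr hv
  linarith

end Pool.Agent.P.MP_d483fb_an.Z.TZ
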