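import Pool.Agent.P.MP_d483fb_an.Z.TZ.KazDefs
import Pool.Agent.P.MP_d483fb_an.Z.ST.Defs

/-!
Hilbert sums of isometric representations; property (T) from the averaging theorem.
-/

open scoped RealInnerProductSpace Topology ENNReal
open Filter

namespace Pool.Agent.P.MP_d483fb_an.Z.TZ

section Sum

variable {G : Type*} [Group G] {ι : Type*} {H : ι → Type*} [∀ i, NormedAddCommGroup (H i)]
  [∀ i, InnerProductSpace ℝ (H i)]

theorem mem_sum (π : ∀ i, G →* (H i →L[ℝ] H i)) (hπ : ∀ i g v, ‖π i g v‖ = ‖v‖) (g : G)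
    (x : lp H 2) : Memℓp (fun i => π i g (x i)) 2 := by
  have h := (memℓp_gen_iff (p := 2) (by norm_num)).mp (lp.memℓp x)
  exact memℓp_gen (by simpa only [hπ] using h)

/-- The componentwise action as a linear map. -/
noncomputable def sumL (π : ∀ i, G →* (H i →L[ℝ] H i)) (hπ : ∀ i g v, ‖π i g v‖ = ‖v‖) (g : G) :
    lp H 2 →ₗ[ℝ] lp H 2 where
  toFun x := ⟨fun i => π i g (x i), mem_sum π hπ g x⟩
  map_add' x y := by
    ext i
    show π i g ((x + y) i) = π i g (x i) + π i g (y i)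
    rw [lp.coeFn_add, Pi.add_apply, map_add]
  map_smul' c x := by
    ext i
    show π i g ((c • x) i) = c • π i g (x i)
    rw [lp.coeFn_smul, Pi.smul_apply, map_smul]

theorem norm_sumL (π : ∀ i, G →* (H i →L[ℝ] H i)) (hπ : ∀ i g v, ‖π i g v‖ = ‖v‖) (g : G)
    (x : lp H 2) : ‖sumL π hπ g x‖ = ‖x‖ := by
  rw [lp.norm_eq_tsum_rpow (by norm_num), lp.norm_eq_tsum_rpow (by norm_num)]
  congr 1
  refine tsum_congr fun i => ?_
  rw [← hπ i g (x i)]
  rfl

/-- The Hilbert sum of a family of isometric representations. -/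
noncomputable def sumRep (π : ∀ i, G →* (H i →L[ℝ] H i)) (hπ : ∀ i g v, ‖π i g v‖ = ‖v‖) :
    G →* (lp H 2 →L[ℝ] lp H 2) where
  toFun g := (sumL π hπ g).mkContinuous 1 fun x => by rw [norm_sumL, one_mul]
  map_one' := by
    ext x i
    show π i 1 (x i) = x i
    rw [map_one]
    rfl
  map_mul' g h := by
    ext x i
    exact EM.pi_mul (π i) g h (x i)

theorem sumRep_apply (π : ∀ i, G →* (H i →L[ℝ] H i)) (hπ : ∀ i g v, ‖π i g v‖ = ‖v‖) (g : G)
    (x : lp H 2) (i : ι) : sumRep π hπ g x i = π i g (x i) := rfl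

theorem norm_sumRep (π : ∀ i, G →* (H i →L[ℝ] H i)) (hπ : ∀ i g v, ‖π i g v‖ = ‖v‖) (g : G)
    (x : lp H 2) : ‖sumRep π hπ g x‖ = ‖x‖ := norm_sumL π hπ g x

/-- The vectors with a continuous orbit form a closed set. -/
theorem isClosed_cont [TopologicalSpace G] {E : Type*} [NormedAddCommGroup E] [NormedSpace ℝ E]
    (π : G →* (E →L[ℝ] E)) (hπ : ∀ g v, ‖π g v‖ = ‖v‖) :
    IsClosed {v : E | Continuous fun g => π g v} := by
  refine isClosed_of_closure_subset fun v hv => ?_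
  refine continuous_of_uniform_approx_of_continuous fun U hU => ?_
  obtain ⟨ε, hε, h⟩ := Metric.mem_uniformity_dist.mp hU
  obtain ⟨w, hw, hd⟩ := Metric.mem_closure_iff.mp hv ε hε
  refine ⟨fun g => π g w, hw, fun g => h ?_⟩
  rwa [dist_eq_norm, ← map_sub, hπ, ← dist_eq_norm]

theorem continuous_sumRep [TopologicalSpace G] (π : ∀ i, G →* (H i →L[ℝ] H i))
    (hπ : ∀ i g v, ‖π i g v‖ = ‖v‖) (hc : ∀ i v, Continuous fun g => π i g v) (x : lp H 2) :
    Continuous fun g => sumRep π hπ g x := by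
  classical
  refine (isClosed_cont _ (norm_sumRep π hπ)).mem_of_tendsto
    (lp.hasSum_single (p := 2) (by norm_num) x) (Eventually.of_forall fun s => ?_)
  show Continuous fun g => sumRep π hπ g (∑ i ∈ s, lp.single 2 i (x i))
  simp only [map_sum]
  refine continuous_finsetSum _ fun i _ => ?_
  have : ∀ g, sumRep π hπ g (lp.single 2 i (x i)) = lp.single 2 i (π i g (x i)) := by
    intro g
    ext j
    rw [sumRep_apply]
    by_cases hj : j = i
    · subst hj
      simp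
    · rw [lp.single_apply_ne _ _ _ hj, lp.single_apply_ne _ _ _ hj, map_zero]
  simp only [this]
  exact (lp.isometry_single (E := H) (p := 2) i).continuous.comp (hc i _)

end Sum

/-- The conclusion of the averaging theorem, for all representations. -/
def AppT {G : Type} [Group G] [TopologicalSpace G] (sz : G → ℝ) : Prop :=
  ∀ (H : Type) [NormedAddCommGroup H] [InnerProductSpace ℝ H] [CompleteSpace H]
    (π : G →* (H →L[ℝ] H)), ST.Grow sz π → ∀ ξ : H, ∃ ζ, (∀ g, π g ζ = ζ) ∧ ST.App sz π ξ ζ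

theorem grow_of_norm {G : Type*} [Group G] [TopologicalSpace G] {E : Type*}
    [NormedAddCommGroup E] [NormedSpace ℝ E] {sz : G → ℝ} (h1 : ∀ g, 1 ≤ sz g)
    {π : G →* (E →L[ℝ] E)} (hπ : ∀ g v, ‖π g v‖ = ‖v‖) (hc : ∀ v, Continuous fun g => π g v) :
    ST.Grow sz π :=
  ⟨hc, fun ε hε => ⟨1, fun g => by
    rw [one_mul]
    refine (ContinuousLinearMap.opNorm_le_bound _ zero_le_one fun v => by
      rw [hπ, one_mul]).trans (Real.one_le_rpow (h1 g) hε.le)⟩⟩

theorem kazG_of_appT {G : Type} [Group G] [TopologicalSpace G] {sz : G → ℝ} (h1 : ∀ g, 1 ≤ sz g)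
    (hcpt : ∀ R : ℝ, ∃ Q : Set G, IsCompact Q ∧ ∀ g, sz g ≤ R → g ∈ Q) (hA : AppT sz) :
    KazG G := by
  by_contra hK
  unfold KazG at hK
  push Not at hK
  choose Q hQ hQ' using hcpt
  have hK' := fun n : ℕ => hK (Q (Real.exp n)) (hQ _) (1 / 2) (by norm_num)
  choose H i1 i2 i3 π hπ hc h0 v hv hv0 using hK'
  have hpos : ∀ n, 0 < ‖v n‖ := fun n => norm_pos_iff.mpr (hv0 n)
  let u : ∀ n, H n := fun n => (((n : ℝ) + 1)⁻¹ * ‖v n‖⁻¹) • v n
  have hu : ∀ n, ‖u n‖ = ((n : ℝ) + 1)⁻¹ := by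
    intro n
    have := hpos n
    simp only [u]
    rw [norm_smul, Real.norm_of_nonneg (by positivity), mul_assoc, inv_mul_cancel₀ this.ne',
      mul_one]
  have hm : Memℓp u 2 := by
    refine memℓp_gen ?_
    simp only [hu]
    have := (summable_nat_add_iff 1).mpr (Real.summable_nat_pow_inv.mpr (by norm_num : 1 < 2))
    refine this.congr fun n => ?_
    simp
  let ξ : lp H 2 := ⟨u, hm⟩
  obtain ⟨ζ, hζ, F, ⟨κ, hκ, C, hF⟩, hR⟩ := hA (lp H 2) (sumRep π hπ)
    (grow_of_norm h1 (norm_sumRep π hπ) (continuous_sumRep π hπ hc)) ξ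
  have hz : ζ = 0 := by
    ext n
    exact h0 n _ fun g => congrFun (congrArg Subtype.val (hζ g)) n
  have ht : Tendsto (fun n : ℕ => Real.exp n) atTop atTop :=
    Real.tendsto_exp_atTop.comp tendsto_natCast_atTop_atTop
  have hlim : Tendsto (fun n : ℕ => 2 * C * (((n : ℝ) + 1) * Real.exp (-κ * n))) atTop (𝓝 0) := by
    have a1 := (tendsto_rpow_mul_exp_neg_mul_atTop_nhds_zero 1 κ hκ).comp
      (tendsto_natCast_atTop_atTop (R := ℝ))
    have a2 := (tendsto_rpow_mul_exp_neg_mul_atTop_nhds_zero 0 κ hκ).comp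
      (tendsto_natCast_atTop_atTop (R := ℝ))
    have a3 := (a1.add a2).const_mul (2 * C)
    simp only [add_zero, mul_zero] at a3
    refine a3.congr fun n => ?_
    simp only [Function.comp, Real.rpow_one, Real.rpow_zero]
    ring
  obtain ⟨n, hn1, ⟨η, hη, hn2⟩, hn3⟩ := ((ht.eventually hF).and ((ht.eventually hR).and
    (hlim.eventually (gt_mem_nhds one_pos)))).exists
  have hconv : Convex ℝ {x : lp H 2 | ‖x n - u n‖ ≤ ‖u n‖ / 2} := by
    have := (convex_closedBall (u n) (‖u n‖ / 2)).linear_preimage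
      (lp.evalCLM ℝ H 2 n).toLinearMap
    have e : {x : lp H 2 | ‖x n - u n‖ ≤ ‖u n‖ / 2} = (lp.evalCLM ℝ H 2 n).toLinearMap ⁻¹'
        Metric.closedBall (u n) (‖u n‖ / 2) := by
      ext x
      simp only [Set.mem_preimage, mem_closedBall_iff_norm, Set.mem_ofPred_eq]
      rfl
    rw [e]
    exact this
  have hsub : η ∈ {x : lp H 2 | ‖x n - u n‖ ≤ ‖u n‖ / 2} := by
    refine convexHull_min ?_ hconv hη
    rintro x ⟨g, hg, rfl⟩
    show ‖π n g (u n) - u n‖ ≤ ‖u n‖ / 2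
    have := hv n g (hQ' _ g hg)
    simp only [u]
    rw [map_smul, ← smul_sub, norm_smul, norm_smul]
    nlinarith [norm_nonneg (((n : ℝ) + 1)⁻¹ * ‖v n‖⁻¹)]
  have b1 : ‖u n‖ / 2 ≤ ‖η n‖ := by
    have : ‖u n‖ ≤ ‖η n‖ + ‖η n - u n‖ := by
      simpa using norm_sub_le (η n) (η n - u n)
    have h2 : ‖η n - u n‖ ≤ ‖u n‖ / 2 := hsub
    linarith
  have b2 : ‖η n‖ ≤ C * Real.exp (-κ * n) := by
    refine (lp.norm_apply_le_norm (by norm_num) η n).trans ?_
    rw [hz, zero_sub, norm_neg] at hn2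
    refine hn2.trans (hn1.trans_eq ?_)
    rw [← Real.exp_mul, mul_comm (n : ℝ)]
  rw [hu] at b1
  have hn : (0 : ℝ) < (n : ℝ) + 1 := by positivity
  have b3 := mul_le_mul_of_nonneg_left (b1.trans b2) hn.le
  rw [← mul_div_assoc, mul_inv_cancel₀ hn.ne'] at b3
  nlinarith

end Pool.Agent.P.MP_d483fb_an.Z.TZ
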