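import Pool.Agent.P.MP_d483fb_an.Z.TZ.KazG

/-!
Induction of an isometric representation along a measurable cocycle, and property (T) for the
target group.
-/

open scoped RealInnerProductSpace Topology ENNReal
open Filter MeasureTheory Set

set_option linter.unusedSectionVars false

noncomputable section

namespace Pool.Agent.P.MP_d483fb_an.Z.TZ

section Res

variable {G : Type*} [Group G] {E : Type*} [NormedAddCommGroup E] [NormedSpace ℝ E]

/-- The restriction of a representation to an invariant subspace. -/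
def res (π : G →* (E →L[ℝ] E)) (W : Submodule ℝ E) (hW : ∀ g, ∀ v ∈ W, π g v ∈ W) :
    G →* (W →L[ℝ] W) where
  toFun g := ((π g).comp W.subtypeL).codRestrict _ fun v => hW g v v.2
  map_one' := by
    ext v
    show π 1 v = v
    rw [map_one]
    rfl
  map_mul' g h := by
    ext v
    show π (g * h) v = π g (π h v)
    rw [map_mul]
    rfl

/-- The vectors with a continuous orbit. -/
def cts [TopologicalSpace G] (π : G →* (E →L[ℝ] E)) : Submodule ℝ E where
  carrier := {v | Continuous fun g => π g v}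
  add_mem' ha hb := by
    simp only [mem_ofPred_eq, map_add]
    exact ha.add hb
  zero_mem' := by
    simp only [mem_ofPred_eq, map_zero]
    exact continuous_const
  smul_mem' c v hv := by
    simp only [mem_ofPred_eq, map_smul]
    exact hv.const_smul c

theorem cts_inv [TopologicalSpace G] [IsTopologicalGroup G] (π : G →* (E →L[ℝ] E)) (g : G)
    (v : E) (hv : v ∈ cts π) : π g v ∈ cts π := by
  have h : Continuous fun h => π (h * g) v := Continuous.comp hv (continuous_mul_const g)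
  refine h.congr fun h => ?_
  rw [map_mul]
  rfl

theorem mem_cts [TopologicalSpace G] [IsTopologicalGroup G] {π : G →* (E →L[ℝ] E)}
    (hπ : ∀ g v, ‖π g v‖ = ‖v‖) {v : E}
    (hv : Tendsto (fun g => ‖π g v - v‖) (𝓝 1) (𝓝 0)) : v ∈ cts π := by
  refine continuous_iff_continuousAt.mpr fun g₀ => ?_
  rw [ContinuousAt, tendsto_iff_norm_sub_tendsto_zero]
  have h : Tendsto (fun g => g₀⁻¹ * g) (𝓝 g₀) (𝓝 1) := by
    simpa using (continuous_const_mul g₀⁻¹).tendsto g₀
  refine (hv.comp h).congr fun g => ?_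
  show ‖π (g₀⁻¹ * g) v - v‖ = _
  rw [← hπ g₀, map_sub, ← mul_apply_eq_comp, ← map_mul, mul_inv_cancel_left]

end Res

/-- Property (T) applies to the continuous vectors of any isometric representation. -/
theorem KazG.cts {G : Type} [Group G] [TopologicalSpace G] [IsTopologicalGroup G] (hK : KazG G) :
    ∃ Q : Set G, IsCompact Q ∧ ∃ ε : ℝ, 0 < ε ∧ ∀ (H : Type) [NormedAddCommGroup H]
      [InnerProductSpace ℝ H] [CompleteSpace H] (π : G →* (H →L[ℝ] H)),
      (∀ g v, ‖π g v‖ = ‖v‖) → (∀ w, (∀ g, π g w = w) → w = 0) →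
      ∀ v : H, Tendsto (fun g => ‖π g v - v‖) (𝓝 1) (𝓝 0) →
        (∀ g ∈ Q, ‖π g v - v‖ ≤ ε * ‖v‖) → v = 0 := by
  obtain ⟨Q, hQ, ε, hε, h⟩ := hK
  refine ⟨Q, hQ, ε, hε, fun H _ _ _ π hπ h0 v hv hs => ?_⟩
  have : CompleteSpace (TZ.cts π) := (isClosed_cont π hπ).completeSpace_coe
  have := h (TZ.cts π) (res π _ (cts_inv π)) (fun g v => hπ g v)
    (fun v => continuous_induced_rng.mpr v.2)
    (fun w hw => Subtype.ext (h0 w fun g => congrArg Subtype.val (hw g))) ⟨v, mem_cts hπ hv⟩ hs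
  exact congrArg Subtype.val this

variable {G Γ B : Type} [Group G] [Group Γ] [MulAction G B] [MeasurableSpace B]
  [MeasurableSpace G] [MeasurableSpace Γ] [DiscreteMeasurableSpace Γ] [Countable Γ]
  {H : Type} [NormedAddCommGroup H] [InnerProductSpace ℝ H]

theorem sm_twist {X : Type*} [MeasurableSpace X] (π : Γ →* (H →L[ℝ] H)) {κ : X → Γ}
    (hκ : Measurable κ) {φ : X → H} (hφ : StronglyMeasurable φ) :
    StronglyMeasurable fun x => π (κ x) (φ x) := by
  let _ : TopologicalSpace Γ := ⊥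
  have : DiscreteTopology Γ := ⟨rfl⟩
  have : OpensMeasurableSpace Γ := ⟨fun _ _ => MeasurableSet.of_discrete⟩
  have hc : Continuous fun p : Γ × H => π p.1 p.2 :=
    continuous_prod_of_discrete_left.mpr fun a => (π a).continuous
  exact hc.comp_stronglyMeasurable (hκ.stronglyMeasurable.prodMk hφ)

/-- A measurable cocycle with values in a countable group. -/
structure Cc (G Γ B : Type) [Group G] [Group Γ] [MulAction G B] [MeasurableSpace B]
    [MeasurableSpace G] [MeasurableSpace Γ] where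
  c : G → B → Γ
  mul : ∀ g h b, c (g * h) b = c g (h • b) * c h b
  meas : Measurable fun p : G × B => c p.1 p.2

namespace Cc

variable (C : Cc G Γ B) (μ : Measure B) [MeasurableSMul₂ G B] [SMulInvariantMeasure G B μ]
  (π : Γ →* (H →L[ℝ] H)) (hπ : ∀ g v, ‖π g v‖ = ‖v‖)

theorem one (b : B) : C.c 1 b = 1 := by
  have := C.mul 1 1 b
  rwa [one_mul, one_smul, left_eq_mul] at this

theorem meas1 (g : G) : Measurable (C.c g) := C.meas.comp measurable_prodMk_left

/-- The twisted translate of a function. -/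
def tw (g : G) (φ : B → H) : B → H := fun b => π (C.c g (g⁻¹ • b)) (φ (g⁻¹ • b))

theorem tw_congr (g : G) {φ ψ : B → H} (h : φ =ᵐ[μ] ψ) : C.tw π g φ =ᵐ[μ] C.tw π g ψ := by
  filter_upwards [(measurePreserving_smul g⁻¹ μ).quasiMeasurePreserving.ae_eq_comp h] with b hb
  exact congrArg _ hb

include hπ in
theorem eLpNorm_tw (g : G) {φ : B → H} (hφ : AEStronglyMeasurable φ μ) :
    eLpNorm (C.tw π g φ) 2 μ = eLpNorm φ 2 μ := by
  rw [← eLpNorm_comp_measurePreserving hφ (measurePreserving_smul g⁻¹ μ)]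
  exact eLpNorm_congr_norm_ae (Eventually.of_forall fun b => hπ _ _)

theorem aesm_tw (g : G) {φ : B → H} (hφ : AEStronglyMeasurable φ μ) :
    AEStronglyMeasurable (C.tw π g φ) μ :=
  (sm_twist π ((C.meas1 g).comp (measurable_const_smul g⁻¹))
    (hφ.stronglyMeasurable_mk.comp_measurable (measurable_const_smul g⁻¹))).aestronglyMeasurable.congr
    (C.tw_congr μ π g hφ.ae_eq_mk).symm

include hπ in
theorem memLp_tw (g : G) (φ : Lp H 2 μ) : MemLp (C.tw π g φ) 2 μ :=
  ⟨C.aesm_tw μ π g (Lp.aestronglyMeasurable φ), by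
    rw [C.eLpNorm_tw μ π hπ g (Lp.aestronglyMeasurable φ)]
    exact (Lp.memLp φ).2⟩

/-- The induced action as a linear map. -/
def indL (g : G) : Lp H 2 μ →ₗ[ℝ] Lp H 2 μ where
  toFun φ := (C.memLp_tw μ π hπ g φ).toLp _
  map_add' φ ψ := by
    rw [← MemLp.toLp_add]
    refine MemLp.toLp_congr _ _ ((C.tw_congr μ π g (Lp.coeFn_add φ ψ)).trans
      (Eventually.of_forall fun b => ?_))
    simp [tw]
  map_smul' a φ := by
    rw [← MemLp.toLp_const_smul]
    refine MemLp.toLp_congr _ _ ((C.tw_congr μ π g (Lp.coeFn_smul a φ)).trans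
      (Eventually.of_forall fun b => ?_))
    simp [tw]

theorem indL_ae (g : G) (φ : Lp H 2 μ) : C.indL μ π hπ g φ =ᵐ[μ] C.tw π g φ :=
  (C.memLp_tw μ π hπ g φ).coeFn_toLp

theorem norm_indL (g : G) (φ : Lp H 2 μ) : ‖C.indL μ π hπ g φ‖ = ‖φ‖ := by
  rw [Lp.norm_def, Lp.norm_def, eLpNorm_congr_ae (C.indL_ae μ π hπ g φ),
    C.eLpNorm_tw μ π hπ g (Lp.aestronglyMeasurable φ)]

/-- The induced representation. -/
def ind : G →* (Lp H 2 μ →L[ℝ] Lp H 2 μ) where
  toFun g := (C.indL μ π hπ g).mkContinuous 1 fun φ => by rw [norm_indL, one_mul]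
  map_one' := by
    ext φ
    refine (C.indL_ae μ π hπ 1 φ).trans (Eventually.of_forall fun b => ?_)
    simp [tw, C.one]
  map_mul' g h := by
    ext φ
    refine (C.indL_ae μ π hπ (g * h) φ).trans (EventuallyEq.symm ?_)
    refine (C.indL_ae μ π hπ g _).trans ((C.tw_congr μ π g (C.indL_ae μ π hπ h φ)).trans
      (Eventually.of_forall fun b => ?_))
    simp [tw, C.mul, mul_smul]

theorem ind_ae (g : G) (φ : Lp H 2 μ) : C.ind μ π hπ g φ =ᵐ[μ] C.tw π g φ := C.indL_ae μ π hπ g φ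

theorem norm_ind (g : G) (φ : Lp H 2 μ) : ‖C.ind μ π hπ g φ‖ = ‖φ‖ := C.norm_indL μ π hπ g φ

/-- Invariant vectors of the induced representation take invariant values. -/
theorem ind_inv [SFinite μ] [MeasurableMul G] (ν : Measure G) [SFinite ν]
    [ν.IsMulRightInvariant] (hν : ν ≠ 0) (hst : ∀ b δ, ∃ k : G, k • b = b ∧ C.c k b = δ)
    (ζ : Lp H 2 μ) (hζ : ∀ g, C.ind μ π hπ g ζ = ζ) : ∀ᵐ b ∂μ, ∀ δ, π δ (ζ b) = ζ b := by
  have h1 : ∀ g : G, ∀ᵐ b ∂μ, π (C.c g b) (ζ b) = ζ (g • b) := by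
    intro g
    have h := (C.ind_ae μ π hπ g ζ).symm
    rw [hζ g] at h
    filter_upwards [(measurePreserving_smul g μ).quasiMeasurePreserving.ae_eq_comp h] with b hb
    simpa [tw] using hb
  have hm : MeasurableSet {p : G × B | π (C.c p.1 p.2) (ζ p.2) = ζ (p.1 • p.2)} :=
    (sm_twist π C.meas ((Lp.stronglyMeasurable ζ).comp_measurable
      measurable_snd)).measurableSet_eq_fun
      ((Lp.stronglyMeasurable ζ).comp_measurable (measurable_fst.smul measurable_snd))
  have h2 := (Measure.ae_ae_comm (μ := ν) (ν := μ)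
    (p := fun g b => π (C.c g b) (ζ b) = ζ (g • b)) hm).mp (Eventually.of_forall h1)
  filter_upwards [h2] with b hb δ
  obtain ⟨k, hk, rfl⟩ := hst b δ
  have : (ae ν).NeBot := ae_neBot.mpr hν
  obtain ⟨g, e1, e2⟩ := (hb.and
    ((measurePreserving_mul_right ν k).quasiMeasurePreserving.ae hb)).exists
  rw [C.mul, mul_smul, hk, EM.pi_mul, ← e1, ← sub_eq_zero, ← map_sub, ← norm_eq_zero, hπ,
    norm_eq_zero, sub_eq_zero] at e2
  exact e2

/-- The displacement of a constant function. -/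
theorem norm_ind_const [IsProbabilityMeasure μ] (g : G) (v : H) (S : Set Γ) {δ : ℝ} (hδ : 0 ≤ δ)
    (hS : ∀ s ∈ S, ‖π s v - v‖ ≤ δ) :
    ‖C.ind μ π hπ g (Lp.const 2 μ v) - Lp.const 2 μ v‖ ≤
      δ + 2 * ‖v‖ * √(μ.real {b | C.c g b ∉ S}) := by
  set U : Set B := (fun b => g⁻¹ • b) ⁻¹' {b | C.c g b ∉ S} with hU
  have hm : MeasurableSet {b | C.c g b ∉ S} := C.meas1 g (MeasurableSet.of_discrete (s := Sᶜ))
  have hUm : MeasurableSet U := measurable_const_smul g⁻¹ hm
  have hμU : μ.real U = μ.real {b | C.c g b ∉ S} :=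
    (measurePreserving_smul g⁻¹ μ).measureReal_preimage hm.nullMeasurableSet
  let F : Lp ℝ 2 μ := Lp.const 2 μ δ + indicatorConstLp 2 hUm (measure_ne_top μ U) (2 * ‖v‖)
  have hle : ‖C.ind μ π hπ g (Lp.const 2 μ v) - Lp.const 2 μ v‖ ≤ ‖F‖ := by
    refine Lp.norm_le_norm_of_ae_le ?_
    filter_upwards [Lp.coeFn_sub (C.ind μ π hπ g (Lp.const 2 μ v)) (Lp.const 2 μ v),
      C.ind_ae μ π hπ g (Lp.const 2 μ v), C.tw_congr μ π g (Lp.coeFn_const 2 μ v),
      Lp.coeFn_const 2 μ v, Lp.coeFn_const 2 μ δ,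
      Lp.coeFn_add (Lp.const 2 μ δ) (indicatorConstLp 2 hUm (measure_ne_top μ U) (2 * ‖v‖)),
      indicatorConstLp_coeFn (p := 2) (hs := hUm) (hμs := measure_ne_top μ U) (c := 2 * ‖v‖)]
      with b e1 e2 e3 e4 e5 e6 e7
    rw [e1, Pi.sub_apply, e2, e3, e4, e6, Pi.add_apply, e5, e7]
    refine le_trans ?_ (le_abs_self _)
    show ‖π (C.c g (g⁻¹ • b)) v - v‖ ≤ δ + _
    by_cases hb : b ∈ U
    · rw [indicator_of_mem hb]
      have := norm_sub_le (π (C.c g (g⁻¹ • b)) v) v
      rw [hπ] at this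
      linarith
    · rw [indicator_of_notMem hb, add_zero]
      exact hS _ (not_not.mp hb)
  refine hle.trans ((norm_add_le _ _).trans (add_le_add ?_ ?_))
  · rw [Lp.norm_const' _ _ _ (by norm_num) (by norm_num)]
    simp [abs_of_nonneg hδ]
  · rw [norm_indicatorConstLp (by norm_num) (by norm_num), hμU, Real.sqrt_eq_rpow,
      Real.norm_of_nonneg (by positivity)]
    simp

end Cc

/-- Property (T) passes from `G` to the target of a tight cocycle. -/
theorem Cc.hasT [TopologicalSpace G] [IsTopologicalGroup G] [MeasurableMul G] (hK : KazG G)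
    (C : Cc G Γ B) (μ : Measure B) [MeasurableSMul₂ G B] [SMulInvariantMeasure G B μ]
    [IsProbabilityMeasure μ] (ν : Measure G) [SFinite ν] [ν.IsMulRightInvariant] (hν : ν ≠ 0)
    (hst : ∀ b δ, ∃ k : G, k • b = b ∧ C.c k b = δ)
    (h1 : Tendsto (fun g => μ.real {b | C.c g b ≠ 1}) (𝓝 1) (𝓝 0))
    (ht : ∀ Q : Set G, IsCompact Q → ∀ η : ℝ, 0 < η →
      ∃ S : Finset Γ, ∀ g ∈ Q, μ.real {b | C.c g b ∉ S} ≤ η) : HasT Γ := by
  obtain ⟨Q, hQ, ε, hε, h⟩ := hK.cts
  obtain ⟨S, hS⟩ := ht Q hQ ((ε / 4) ^ 2) (by positivity)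
  refine hasT_of_gap S (half_pos hε) fun H _ _ _ π hπ h0 v hv => ?_
  have hn : ‖Lp.const 2 μ v‖ = ‖v‖ := by
    rw [Lp.norm_const' _ _ _ (by norm_num) (by norm_num)]
    simp
  have := h (Lp H 2 μ) (C.ind μ π hπ) (C.norm_ind μ π hπ) (fun ζ hζ => ?_) (Lp.const 2 μ v) ?_
    fun g hg => ?_
  · rwa [← norm_eq_zero, hn, norm_eq_zero] at this
  · refine Lp.eq_zero_iff_ae_eq_zero.mpr ?_
    filter_upwards [C.ind_inv μ π hπ ν hν hst ζ hζ] with b hb
    exact h0 _ hb
  · have h2 := (Real.continuous_sqrt.tendsto 0).comp h1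
    have h3 := h2.const_mul (2 * ‖v‖)
    rw [Real.sqrt_zero, mul_zero] at h3
    refine squeeze_zero (fun _ => norm_nonneg _) (fun g => ?_) h3
    simpa using C.norm_ind_const μ π hπ g v {1} le_rfl (by simp)
  · refine (C.norm_ind_const μ π hπ g v S (δ := ε / 2 * ‖v‖) (by positivity) hv).trans ?_
    have h2 : √(μ.real {b | C.c g b ∉ (S : Set Γ)}) ≤ ε / 4 :=
      Real.sqrt_le_iff.mpr ⟨by positivity, hS g hg⟩
    rw [hn]
    nlinarith [norm_nonneg v]

end Pool.Agent.P.MP_d483fb_an.Z.TZ
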