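import Pool.Agent.P.MP_d483fb_an.Z.TZ.Kaz
import Pool.Agent.P.MP_d483fb_an.Z.ST.Main
import Pool.Agent.P.MP_d483fb_an.Z.Su.Quot

/-!
Property (T) for a normed group with the data of the averaging theorem.
-/

open scoped Topology
open Filter Set

noncomputable section

namespace Pool.Agent.P.MP_d483fb_an.Z

variable {G : Type} [Group G] [TopologicalSpace G]

theorem Nm.size (N : Nm G) : ST.Size (fun g => Real.exp (N.len g)) N.len where
  one_le g := Real.one_le_exp (N.nonneg g)
  mul g h := by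
    rw [← Real.exp_add]
    exact Real.exp_le_exp.mpr (N.mul g h)
  inv g := by rw [N.inv]
  dd_nonneg := N.nonneg
  conj g h := by
    have := N.conj h⁻¹ g
    rwa [inv_inv, N.inv, show 2 * N.len h = (2 : ℕ) * N.len h by norm_num,
      Real.exp_nat_mul] at this
  loc := ⟨Real.exp 1, fun _ h => Real.exp_le_exp.mpr h⟩

theorem Nm.appT [IsTopologicalGroup G] [LocallyCompactSpace G] [T2Space G] (N : Nm G) {ι : Type}
    [Finite ι] (T : ι → ST.Data (fun g => Real.exp (N.len g)) N.len) (L : ι → Subgroup G)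
    (hn : ∀ i, (L i).Normal)
    (hN : ∀ i (S : Subgroup G), IsClosed (S : Set G) →
      (∀ g, ST.Contr N.len (T i).a g ∨ ST.Contr N.len (T i).a⁻¹ g → g ∈ S) → L i ≤ S)
    (htop : ∀ S : Subgroup G, IsClosed (S : Set G) → (∀ i, L i ≤ S) → S = ⊤) :
    TZ.AppT fun g => Real.exp (N.len g) := by
  intro H _ _ _ π hπ ξ
  have hs : tsupport (fun g => max 0 (1 - N.len g)) ⊆ {g | N.len g ≤ 1} := by
    refine closure_minimal (fun g hg => ?_) (N.cpt 1).isClosed
    by_contra hc
    exact hg (max_eq_left (by simpa using (not_le.mp hc).le))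
  refine ST.strongT N.size hπ T L hn hN htop (fun g => max 0 (1 - N.len g))
    (continuous_const.max (continuous_const.sub N.cont))
    ((N.cpt 1).of_isClosed_subset (isClosed_tsupport _) hs) (fun _ => le_max_left _ _)
    (by simp [N.one]) ⟨1, fun g h _ => ?_⟩ ⟨Real.exp 1, fun g hg => Real.exp_le_exp.mpr (hs hg)⟩ ξ
  rw [max_comm, max_comm 0, one_mul]
  refine (abs_max_sub_max_le_abs _ _ _).trans (abs_le.mpr ⟨?_, ?_⟩)
  · have := N.mul g⁻¹ h
    rw [N.inv] at this
    linarith
  · have := N.mul g (g⁻¹ * h)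
    rw [mul_inv_cancel_left] at this
    linarith

theorem Nm.kazG (N : Nm G) (hA : TZ.AppT fun g => Real.exp (N.len g)) : TZ.KazG G :=
  TZ.kazG_of_appT N.size.one_le (fun R => ⟨_, N.cpt (Real.log R), fun _ hg =>
    (Real.le_log_iff_exp_le ((Real.exp_pos _).trans_le hg)).mpr hg⟩) hA

end Pool.Agent.P.MP_d483fb_an.Z
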