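import Mathlib

/-!
Row-normalised kernels `exp (-m D)`: averaged tail bound and almost invariance.
-/

open MeasureTheory Filter Topology Set
open scoped ENNReal

noncomputable section

namespace Pool.Agent.P.MP_d483fb_an.Z.TZ

variable {Ω : Type} [MeasurableSpace Ω] {ν : Measure Ω} [IsProbabilityMeasure ν] {m : ℝ}
  {D : Ω × Ω → ℝ}

/-- The normalising factor of a row. -/
def kz (ν : Measure Ω) (m : ℝ) (D : Ω × Ω → ℝ) (w : Ω) : ℝ :=
  √(∫ w', Real.exp (-(2 * m * D (w, w'))) ∂ν)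

/-- The row-normalised kernel. -/
def kf (ν : Measure Ω) (m : ℝ) (D : Ω × Ω → ℝ) (p : Ω × Ω) : ℝ :=
  Real.exp (-(m * D p)) / kz ν m D p.1

theorem kz_int (hD : Measurable D) (h0 : ∀ p, 0 ≤ D p) (hm : 0 ≤ m) (w : Ω) :
    Integrable (fun w' => Real.exp (-(2 * m * D (w, w')))) ν := by
  refine Integrable.of_bound (Measurable.aestronglyMeasurable (by fun_prop)) 1
    (Eventually.of_forall fun w' => ?_)
  rw [Real.norm_of_nonneg (Real.exp_pos _).le, Real.exp_le_one_iff]
  have := h0 (w, w')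
  have : 0 ≤ 2 * m * D (w, w') := by positivity
  linarith

theorem kz_pos (hD : Measurable D) (h0 : ∀ p, 0 ≤ D p) (hm : 0 ≤ m) (w : Ω) : 0 < kz ν m D w :=
  Real.sqrt_pos.mpr (integral_exp_pos (kz_int hD h0 hm w))

omit [IsProbabilityMeasure ν] in
theorem kz_sq (w : Ω) : kz ν m D w ^ 2 = ∫ w', Real.exp (-(2 * m * D (w, w'))) ∂ν :=
  Real.sq_sqrt (integral_nonneg fun _ => (Real.exp_pos _).le)

theorem measurable_kz (hD : Measurable D) : Measurable (kz ν m D) := by
  have h : Measurable fun p : Ω × Ω => Real.exp (-(2 * m * D p)) := by fun_prop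
  exact h.stronglyMeasurable.integral_prod_right'.measurable.sqrt

theorem measurable_kf (hD : Measurable D) : Measurable (kf ν m D) :=
  Measurable.div (by fun_prop) ((measurable_kz hD).comp measurable_fst)

omit [IsProbabilityMeasure ν] in
theorem kf_nonneg (p : Ω × Ω) : 0 ≤ kf ν m D p := div_nonneg (Real.exp_pos _).le (Real.sqrt_nonneg _)

omit [IsProbabilityMeasure ν] in
theorem kf_sq (p : Ω × Ω) : kf ν m D p ^ 2 = Real.exp (-(2 * m * D p)) / kz ν m D p.1 ^ 2 := by
  rw [kf, div_pow, ← Real.exp_nat_mul]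
  congr 2
  push_cast
  ring

theorem kf_row (hD : Measurable D) (h0 : ∀ p, 0 ≤ D p) (hm : 0 ≤ m) (w : Ω) :
    ∫⁻ w', ENNReal.ofReal (kf ν m D (w, w') ^ 2) ∂ν = 1 := by
  simp only [kf_sq]
  rw [← ofReal_integral_eq_lintegral_ofReal ((kz_int hD h0 hm w).div_const _)
    (Eventually.of_forall fun w' => by positivity), integral_div, ← kz_sq,
    div_self (pow_pos (kz_pos hD h0 hm w) 2).ne', ENNReal.ofReal_one]

theorem kz_ge (hD : Measurable D) (h0 : ∀ p, 0 ≤ D p) (hm : 0 ≤ m) {w : Ω} {Q : Set Ω}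
    (hQ : MeasurableSet Q) (h : ∀ w' ∈ Q, D (w, w') ≤ 1) :
    ENNReal.ofReal (Real.exp (-(2 * m))) * ν Q ≤ ENNReal.ofReal (kz ν m D w ^ 2) := by
  rw [kz_sq, ofReal_integral_eq_lintegral_ofReal (kz_int hD h0 hm w)
    (Eventually.of_forall fun w' => (Real.exp_pos _).le), ← setLIntegral_const]
  refine (setLIntegral_mono' hQ fun w' hw => ?_).trans (setLIntegral_le_lintegral _ _)
  refine ENNReal.ofReal_le_ofReal (Real.exp_le_exp.mpr ?_)
  nlinarith [h w' hw]

theorem kf_fst (hD : Measurable D) (h0 : ∀ p, 0 ≤ D p) (hm : 0 ≤ m) {B : Set Ω}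
    (hB : MeasurableSet B) :
    ∫⁻ p in {p | p.1 ∈ B}, ENNReal.ofReal (kf ν m D p ^ 2) ∂ν.prod ν = ν B := by
  have hS : MeasurableSet {p : Ω × Ω | p.1 ∈ B} := measurable_fst hB
  have hf : Measurable fun p => ENNReal.ofReal (kf ν m D p ^ 2) :=
    ((measurable_kf hD).pow_const 2).ennreal_ofReal
  rw [← lintegral_indicator hS, lintegral_prod _ (hf.indicator hS).aemeasurable,
    ← lintegral_indicator_one hB]
  refine lintegral_congr fun w => ?_
  by_cases hw : w ∈ B
  · rw [indicator_of_mem hw, Pi.one_apply, ← kf_row (ν := ν) hD h0 hm w]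
    exact lintegral_congr fun w' => indicator_of_mem (show (w, w') ∈ {p : Ω × Ω | p.1 ∈ B} from hw) _
  · rw [indicator_of_notMem hw]
    exact (lintegral_congr fun w' =>
      indicator_of_notMem (show (w, w') ∉ {p : Ω × Ω | p.1 ∈ B} from hw) _).trans lintegral_zero

/-- The averaged tail bound, valid for every measure. -/
theorem kf_tail (hD : Measurable D) (h0 : ∀ p, 0 ≤ D p) {ι : Type} {G : Set Ω} {cell : Ω → ι}
    (hG : MeasurableSet G) (hc : ∀ i, MeasurableSet (G ∩ cell ⁻¹' {i}))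
    (h1 : ∀ w ∈ G, ∀ w' ∈ G, cell w' = cell w → D (w, w') ≤ 1) {C q : ℝ} (hC : 0 ≤ C)
    (hq : 0 ≤ q) (h2 : ∀ (w' : Ω) (j : ℕ), ∃ F : Finset ι, (F.card : ℝ) ≤ C * Real.exp (q * j) ∧
      ∀ w ∈ G, D (w, w') ≤ j → cell w ∈ F) (hm : q + 1 ≤ m) :
    ∫⁻ p in {p | p.1 ∈ G ∧ 2 < D p}, ENNReal.ofReal (kf ν m D p ^ 2) ∂ν.prod ν ≤
      ENNReal.ofReal (2 * C * Real.exp (3 * q - 2 * m)) := by
  have hm0 : 0 ≤ m := by linarith
  have hS : MeasurableSet {p : Ω × Ω | p.1 ∈ G ∧ 2 < D p} :=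
    (measurable_fst hG).inter (measurableSet_lt measurable_const hD)
  have hf : Measurable fun p => ENNReal.ofReal (kf ν m D p ^ 2) :=
    ((measurable_kf hD).pow_const 2).ennreal_ofReal
  rw [← lintegral_indicator hS, lintegral_prod_symm _ (hf.indicator hS).aemeasurable]
  refine (lintegral_mono fun w' => ?_).trans (by rw [lintegral_const, measure_univ, mul_one])
  choose F hF1 hF2 using h2 w'
  let u : ℕ → Ω → ℝ≥0∞ := fun j w => ∑ i ∈ F (j + 3),
    (G ∩ cell ⁻¹' {i}).indicator (fun _ => (ν (G ∩ cell ⁻¹' {i}))⁻¹) w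
  have hu : ∀ j, Measurable (u j) := fun j =>
    Finset.measurable_sum _ fun i _ => measurable_const.indicator (hc i)
  have iu : ∀ j, ∫⁻ w, u j w ∂ν ≤ ENNReal.ofReal (C * Real.exp (q * (j + 3 : ℕ))) := by
    intro j
    rw [lintegral_finsetSum _ fun i _ => measurable_const.indicator (hc i)]
    refine le_trans (Finset.sum_le_card_nsmul _ _ 1 fun i _ => ?_) ?_
    · rw [lintegral_indicator (hc i), setLIntegral_const]
      exact ENNReal.inv_mul_le_one _
    · rw [nsmul_eq_mul, mul_one, ← ENNReal.ofReal_natCast]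
      exact ENNReal.ofReal_le_ofReal (hF1 _)
  have pt : ∀ w, {p : Ω × Ω | p.1 ∈ G ∧ 2 < D p}.indicator
      (fun p => ENNReal.ofReal (kf ν m D p ^ 2)) (w, w') ≤
      ∑' j : ℕ, ENNReal.ofReal (Real.exp (-(2 * m * (j + 1)))) * u j w := by
    intro w
    by_cases hw : (w, w') ∈ {p : Ω × Ω | p.1 ∈ G ∧ 2 < D p}
    swap
    · rw [indicator_of_notMem hw]
      exact zero_le
    rw [indicator_of_mem hw]
    obtain ⟨hw1, hw2⟩ := hw
    simp only at hw1 hw2
    obtain ⟨j, hj1, hj2⟩ : ∃ j : ℕ, (j : ℝ) + 2 ≤ D (w, w') ∧ D (w, w') ≤ (j + 3 : ℕ) := by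
      refine ⟨⌊D (w, w') - 2⌋₊, ?_, ?_⟩
      · linarith [Nat.floor_le (show 0 ≤ D (w, w') - 2 by linarith)]
      · push_cast
        linarith [Nat.lt_floor_add_one (D (w, w') - 2)]
    refine le_trans ?_ (ENNReal.le_tsum j)
    have e1 : (ν (G ∩ cell ⁻¹' {cell w}))⁻¹ ≤ u j w := by
      refine le_trans (le_of_eq ?_) (Finset.single_le_sum (f := fun i =>
        (G ∩ cell ⁻¹' {i}).indicator (fun _ => (ν (G ∩ cell ⁻¹' {i}))⁻¹) w)
        (fun _ _ => zero_le) (hF2 _ w hw1 hj2))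
      rw [indicator_of_mem (show w ∈ G ∩ cell ⁻¹' {cell w} from ⟨hw1, rfl⟩)]
    refine le_trans ?_ (mul_le_mul_right e1 _)
    have e2 := kz_ge (ν := ν) hD h0 hm0 (w := w) (hc (cell w)) fun v hv => h1 w hw1 v hv.1 hv.2
    have e3 := pow_pos (kz_pos (ν := ν) hD h0 hm0 w) 2
    rw [kf_sq, ← div_eq_mul_inv, ENNReal.le_div_iff_mul_le (Or.inr (by simp [Real.exp_pos]))
      (Or.inl (measure_ne_top _ _))]
    have e4 : ν (G ∩ cell ⁻¹' {cell w}) ≤
        ENNReal.ofReal (Real.exp (2 * m) * kz ν m D w ^ 2) := by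
      rw [ENNReal.ofReal_mul (Real.exp_pos _).le]
      refine le_trans (le_of_eq ?_) (mul_le_mul_right e2 _)
      rw [← mul_assoc, ← ENNReal.ofReal_mul (Real.exp_pos _).le, ← Real.exp_add]
      simp
    refine (mul_le_mul_right e4 _).trans ?_
    rw [← ENNReal.ofReal_mul (by positivity)]
    refine ENNReal.ofReal_le_ofReal ?_
    rw [div_mul_eq_mul_div, ← mul_assoc, mul_div_assoc, div_self e3.ne', mul_one, ← Real.exp_add]
    exact Real.exp_le_exp.mpr (by nlinarith)
  refine (lintegral_mono pt).trans ?_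
  rw [lintegral_tsum fun j => ((hu j).const_mul _).aemeasurable]
  have tm : ∀ j : ℕ, ∫⁻ w, ENNReal.ofReal (Real.exp (-(2 * m * (j + 1)))) * u j w ∂ν ≤
      ENNReal.ofReal (C * Real.exp (3 * q - 2 * m) * (1 / 2) ^ j) := by
    intro j
    rw [lintegral_const_mul _ (hu j)]
    refine (mul_le_mul_right (iu j) _).trans ?_
    rw [← ENNReal.ofReal_mul (Real.exp_pos _).le]
    refine ENNReal.ofReal_le_ofReal ?_
    have a1 : Real.exp (-1) ≤ 1 / 2 := by
      rw [Real.exp_neg, one_div]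
      exact inv_anti₀ (by norm_num) (by linarith [Real.add_one_le_exp (1 : ℝ)])
    have a2 : Real.exp (-(j : ℝ)) ≤ (1 / 2) ^ j := by
      rw [show -(j : ℝ) = j * -1 by ring, Real.exp_nat_mul]
      exact pow_le_pow_left₀ (Real.exp_pos _).le a1 j
    rw [mul_left_comm, mul_assoc C]
    refine mul_le_mul_of_nonneg_left (le_trans ?_ (mul_le_mul_of_nonneg_left a2
      (Real.exp_pos _).le)) hC
    rw [← Real.exp_add, ← Real.exp_add]
    refine Real.exp_le_exp.mpr ?_
    push_cast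
    nlinarith [(Nat.cast_nonneg j : (0 : ℝ) ≤ j)]
  refine (ENNReal.tsum_le_tsum tm).trans (le_of_eq ?_)
  rw [← ENNReal.ofReal_tsum_of_nonneg (fun j => by positivity)
    (summable_geometric_two.mul_left _), tsum_mul_left, tsum_geometric_two]
  congr 1
  ring

omit [IsProbabilityMeasure ν] in
/-- Two unit vectors, one of which nearly dominates the other on a large set, are close. -/
theorem sq_sub_le {a b : Ω → ℝ} (ha : Measurable a) (hb : Measurable b) (a0 : ∀ w, 0 ≤ a w)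
    (b0 : ∀ w, 0 ≤ b w) (a1 : ∫⁻ w, ENNReal.ofReal (a w ^ 2) ∂ν = 1)
    (b1 : ∫⁻ w, ENNReal.ofReal (b w ^ 2) ∂ν = 1) {B : Set Ω} (hB : MeasurableSet B) {κ : ℝ}
    (k0 : 0 ≤ κ) (k1 : κ ≤ 1) (h : ∀ w ∉ B, κ * a w ≤ b w) :
    ∫⁻ w, ENNReal.ofReal ((a w - b w) ^ 2) ∂ν ≤
      ENNReal.ofReal (2 - 2 * κ) + 2 * ∫⁻ w in B, ENNReal.ofReal (a w ^ 2) ∂ν := by
  have ma : Measurable fun w => ENNReal.ofReal (a w ^ 2) := (ha.pow_const 2).ennreal_ofReal
  have mb : Measurable fun w => ENNReal.ofReal (b w ^ 2) := (hb.pow_const 2).ennreal_ofReal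
  have pt : ∀ w, ENNReal.ofReal ((a w - b w) ^ 2) + ENNReal.ofReal (2 * κ) * ENNReal.ofReal (a w ^ 2)
      ≤ ENNReal.ofReal (a w ^ 2) + ENNReal.ofReal (b w ^ 2) +
        2 * B.indicator (fun w => ENNReal.ofReal (a w ^ 2)) w := by
    intro w
    have := a0 w
    have := b0 w
    rw [← ENNReal.ofReal_mul (by positivity), ← ENNReal.ofReal_add (by positivity) (by positivity),
      ← ENNReal.ofReal_add (by positivity) (by positivity)]
    by_cases hw : w ∈ B
    · rw [indicator_of_mem hw, ← ENNReal.ofReal_ofNat, ← ENNReal.ofReal_mul (by norm_num),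
        ← ENNReal.ofReal_add (by positivity) (by positivity)]
      refine ENNReal.ofReal_le_ofReal ?_
      nlinarith [mul_nonneg (a0 w) (b0 w), sq_nonneg (a w)]
    · rw [indicator_of_notMem hw, mul_zero, add_zero]
      refine ENNReal.ofReal_le_ofReal ?_
      nlinarith [mul_le_mul_of_nonneg_left (h w hw) (a0 w)]
  have it := lintegral_mono (μ := ν) pt
  rw [lintegral_add_right _ (ma.const_mul _), lintegral_const_mul _ ma,
    lintegral_add_right _ ((ma.indicator hB).const_mul _), lintegral_add_right _ mb,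
    lintegral_const_mul _ (ma.indicator hB), lintegral_indicator hB, a1, b1, mul_one] at it
  have e : (1 + 1 : ℝ≥0∞) = ENNReal.ofReal (2 - 2 * κ) + ENNReal.ofReal (2 * κ) := by
    rw [← ENNReal.ofReal_add (by linarith) (by positivity), sub_add_cancel, one_add_one_eq_two,
      ENNReal.ofReal_ofNat]
  rw [e, add_right_comm] at it
  exact (ENNReal.add_le_add_iff_right ENNReal.ofReal_ne_top).mp it

/-- Almost invariance of the kernel under a measure preserving map. -/
theorem kf_inv (hD : Measurable D) (h0 : ∀ p, 0 ≤ D p) (hm : 0 ≤ m) {s : Ω → Ω}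
    (hs : MeasurePreserving s ν ν) {G : Set Ω} (hG : MeasurableSet G) {θ : ℝ} (hθ : 0 ≤ θ)
    (h : ∀ w ∈ G, s w ∈ G → ∀ w', (D (w, w') ≤ 2 → D (s w, s w') ≤ D (w, w') + θ) ∧
      (D (s w, s w') ≤ 2 → D (w, w') ≤ D (s w, s w') + θ)) :
    ∫⁻ p, ENNReal.ofReal ((kf ν m D (s p.1, s p.2) - kf ν m D p) ^ 2) ∂ν.prod ν ≤
      ENNReal.ofReal (2 * (m * θ)) +
        4 * ∫⁻ p in {p | p.1 ∉ G ∨ 2 < D p}, ENNReal.ofReal (kf ν m D p ^ 2) ∂ν.prod ν := by
  have hS : MeasurableSet {p : Ω × Ω | p.1 ∉ G ∨ 2 < D p} :=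
    (measurable_fst hG.compl).union (measurableSet_lt measurable_const hD)
  have hk := measurable_kf (ν := ν) (m := m) hD
  have hf : Measurable fun p => ENNReal.ofReal (kf ν m D p ^ 2) := (hk.pow_const 2).ennreal_ofReal
  have hss : Measurable fun p : Ω × Ω => (s p.1, s p.2) :=
    (hs.measurable.comp measurable_fst).prodMk (hs.measurable.comp measurable_snd)
  obtain ⟨T, hT⟩ : ∃ T : Ω → ℝ≥0∞, T = fun w => ∫⁻ w', {p : Ω × Ω | p.1 ∉ G ∨ 2 < D p}.indicator
    (fun p => ENNReal.ofReal (kf ν m D p ^ 2)) (w, w') ∂ν := ⟨_, rfl⟩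
  have mT : Measurable T := hT ▸ (hf.indicator hS).lintegral_prod_right'
  have iT : ∫⁻ p in {p | p.1 ∉ G ∨ 2 < D p}, ENNReal.ofReal (kf ν m D p ^ 2) ∂ν.prod ν =
      ∫⁻ w, T w ∂ν := by
    rw [← lintegral_indicator hS, lintegral_prod _ (hf.indicator hS).aemeasurable, hT]
  have row : ∀ w, Measurable fun w' => kf ν m D (w, w') := fun w => hk.comp measurable_prodMk_left
  have mB : ∀ w, MeasurableSet {w' | w ∉ G ∨ 2 < D (w, w')} := fun w =>
    measurable_prodMk_left (x := w) hS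
  have eT : ∀ w, T w = ∫⁻ w' in {w' | w ∉ G ∨ 2 < D (w, w')},
      ENNReal.ofReal (kf ν m D (w, w') ^ 2) ∂ν := fun w => by
    rw [hT, ← lintegral_indicator (mB w)]
    rfl
  have k0 : 0 ≤ Real.exp (-(m * θ)) := (Real.exp_pos _).le
  have k1 : Real.exp (-(m * θ)) ≤ 1 := Real.exp_le_one_iff.mpr (neg_nonpos.mpr (by positivity))
  have k2 : ENNReal.ofReal (2 - 2 * Real.exp (-(m * θ))) ≤ ENNReal.ofReal (2 * (m * θ)) :=
    ENNReal.ofReal_le_ofReal (by linarith [Real.add_one_le_exp (-(m * θ))])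
  have cmp : ∀ u u' v v', kz ν m D v ≤ kz ν m D u → D (v, v') ≤ D (u, u') + θ →
      Real.exp (-(m * θ)) * kf ν m D (u, u') ≤ kf ν m D (v, v') := by
    intro u u' v v' e1 e2
    rw [kf, kf, ← mul_div_assoc, ← Real.exp_add]
    exact div_le_div₀ (Real.exp_pos _).le (Real.exp_le_exp.mpr (by nlinarith))
      (kz_pos hD h0 hm v) e1
  have pt : ∀ w, ∫⁻ w', ENNReal.ofReal ((kf ν m D (s w, s w') - kf ν m D (w, w')) ^ 2) ∂ν ≤
      ENNReal.ofReal (2 * (m * θ)) + 2 * (T w + T (s w)) := by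
    intro w
    have b1 : ∫⁻ w', ENNReal.ofReal (kf ν m D (s w, s w') ^ 2) ∂ν = 1 := by
      rw [hs.lintegral_comp (f := fun v => ENNReal.ofReal (kf ν m D (s w, v) ^ 2))
        ((row _).pow_const 2).ennreal_ofReal, kf_row hD h0 hm]
    have mb : Measurable fun w' => kf ν m D (s w, s w') := (row _).comp hs.measurable
    have key : (∀ w' ∉ {w' | w ∉ G ∨ 2 < D (w, w')},
        Real.exp (-(m * θ)) * kf ν m D (w, w') ≤ kf ν m D (s w, s w')) ∨
        ∀ w' ∉ s ⁻¹' {w' | s w ∉ G ∨ 2 < D (s w, w')},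
          Real.exp (-(m * θ)) * kf ν m D (s w, s w') ≤ kf ν m D (w, w') := by
      by_cases g1 : w ∈ G
      swap
      · exact Or.inl fun w' hw => (hw (Or.inl g1)).elim
      by_cases g2 : s w ∈ G
      swap
      · exact Or.inr fun w' hw => (hw (Or.inl g2)).elim
      rcases le_total (kz ν m D (s w)) (kz ν m D w) with e | e
      · exact Or.inl fun w' hw => cmp _ _ _ _ e
          ((h w g1 g2 w').1 (not_lt.mp fun t => hw (Or.inr t)))
      · exact Or.inr fun w' hw => cmp _ _ _ _ e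
          ((h w g1 g2 w').2 (not_lt.mp fun t => hw (Or.inr t)))
    rcases key with e | e
    · have := sq_sub_le (row w) mb (fun _ => kf_nonneg _) (fun _ => kf_nonneg _)
        (kf_row hD h0 hm w) b1 (mB w) k0 k1 e
      simp only [sub_sq_comm (kf ν m D (w, _))] at this
      rw [← eT] at this
      exact this.trans (add_le_add k2 (mul_le_mul_right le_self_add _))
    · have := sq_sub_le mb (row w) (fun _ => kf_nonneg _) (fun _ => kf_nonneg _) b1
        (kf_row hD h0 hm w) (hs.measurable (mB (s w))) k0 k1 e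
      rw [hs.setLIntegral_comp_preimage (mB (s w))
        (f := fun v => ENNReal.ofReal (kf ν m D (s w, v) ^ 2))
        ((row _).pow_const 2).ennreal_ofReal, ← eT] at this
      exact this.trans (add_le_add k2 (mul_le_mul_right le_add_self _))
  have mm : Measurable fun p : Ω × Ω =>
      ENNReal.ofReal ((kf ν m D (s p.1, s p.2) - kf ν m D p) ^ 2) :=
    (((hk.comp hss).sub hk).pow_const 2).ennreal_ofReal
  rw [lintegral_prod _ mm.aemeasurable, iT]
  refine (lintegral_mono pt).trans (le_of_eq ?_)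
  rw [lintegral_add_left measurable_const, lintegral_const, measure_univ, mul_one,
    lintegral_const_mul (f := fun w => T w + T (s w)) _ (mT.add (mT.comp hs.measurable)),
    lintegral_add_left mT,
    hs.lintegral_comp mT]
  congr 1
  ring

end Pool.Agent.P.MP_d483fb_an.Z.TZ
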