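import Pool.Agent.P.MP_d483fb_an.Z.TZ.KerA
import Pool.Agent.P.MP_d483fb_an.Z.TZ.FrmDefs

/-!
Almost invariant row-normalised kernels near the diagonal of a frame bundle.
-/

open MeasureTheory Filter Topology Set
open scoped ENNReal

noncomputable section

namespace Pool.Agent.P.MP_d483fb_an.Z.TZ

/-- A measurable grid of mesh at most one with polynomial counting. -/
theorem exists_grid (V : Type) [NormedAddCommGroup V] [NormedSpace ℝ V] [FiniteDimensional ℝ V]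
    [MeasurableSpace V] [BorelSpace V] :
    ∃ (n : ℕ) (K : ℝ) (cell : V → Fin n → ℤ), 0 ≤ K ∧ Measurable cell ∧
      (∀ u v, cell u = cell v → ‖u - v‖ ≤ 1) ∧ ∀ (v₀ : V) (R : ℝ), 0 ≤ R →
        ∃ F : Finset (Fin n → ℤ), (F.card : ℝ) ≤ (K * (R + 1)) ^ n ∧
          ∀ v, ‖v - v₀‖ ≤ R → cell v ∈ F := by
  let e : V ≃L[ℝ] (Fin (Module.finrank ℝ V) → ℝ) := (Module.finBasis ℝ V).equivFunL
  obtain ⟨a, ha⟩ : ∃ a : ℝ, a = ‖e.symm.toContinuousLinearMap‖ + 1 := ⟨_, rfl⟩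
  have a0 : 0 < a := by rw [ha]; positivity
  obtain ⟨b, hb⟩ : ∃ b : ℝ, b = ‖e.toContinuousLinearMap‖ := ⟨_, rfl⟩
  have b0 : 0 ≤ b := by rw [hb]; positivity
  refine ⟨_, 2 * a * b + 2, fun v i => ⌊a * e v i⌋, by positivity, ?_, fun u v h => ?_,
    fun v₀ R hR => ?_⟩
  · exact measurable_pi_lambda _ fun i =>
      (Continuous.measurable (by fun_prop : Continuous fun v => a * e v i)).floor
  · have h1 : ‖e (u - v)‖ ≤ 1 / a := by
      refine (pi_norm_le_iff_of_nonneg (by positivity)).mpr fun i => ?_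
      have h2 := Int.abs_sub_lt_one_of_floor_eq_floor (congrFun h i)
      rw [← mul_sub, abs_mul, abs_of_pos a0] at h2
      rw [map_sub, Pi.sub_apply, Real.norm_eq_abs, le_div_iff₀' a0]
      exact h2.le
    have h2 := e.symm.toContinuousLinearMap.le_opNorm (e (u - v))
    rw [ContinuousLinearEquiv.coe_coe, e.symm_apply_apply] at h2
    refine h2.trans ((mul_le_mul_of_nonneg_left h1 (norm_nonneg _)).trans ?_)
    rw [mul_one_div, div_le_one a0]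
    linarith
  · refine ⟨Fintype.piFinset fun i => Finset.Icc ⌊a * e v₀ i - a * b * R⌋ ⌊a * e v₀ i + a * b * R⌋,
      ?_, fun v hv => ?_⟩
    · rw [Fintype.card_piFinset, Nat.cast_prod]
      refine (Finset.prod_le_prod (g := fun _ => (2 * a * b + 2) * (R + 1))
        (fun _ _ => Nat.cast_nonneg _) fun i _ => ?_).trans (by simp)
      have h1 : 0 ≤ a * b * R := by positivity
      have h2 : ⌊a * e v₀ i - a * b * R⌋ ≤ ⌊a * e v₀ i + a * b * R⌋ + 1 :=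
        (Int.floor_le_floor (by linarith)).trans (Int.le_add_one le_rfl)
      have h3 := Int.card_Icc_of_le _ _ h2
      have h4 : ((Finset.Icc ⌊a * e v₀ i - a * b * R⌋ ⌊a * e v₀ i + a * b * R⌋).card : ℝ) =
          ⌊a * e v₀ i + a * b * R⌋ + 1 - ⌊a * e v₀ i - a * b * R⌋ := by exact_mod_cast h3
      rw [h4]
      nlinarith [Int.floor_le (a * e v₀ i + a * b * R), Int.lt_floor_add_one (a * e v₀ i - a * b * R),
        mul_nonneg a0.le b0]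
    · refine Fintype.mem_piFinset.mpr fun i => ?_
      have h1 : |e v i - e v₀ i| ≤ b * R := by
        have h2 := e.toContinuousLinearMap.le_opNorm (v - v₀)
        rw [ContinuousLinearEquiv.coe_coe, map_sub, ← hb] at h2
        exact (norm_le_pi_norm (e v - e v₀) i).trans (h2.trans (mul_le_mul_of_nonneg_left hv b0))
      obtain ⟨h2, h3⟩ := abs_le.mp h1
      exact Finset.mem_Icc.mpr ⟨Int.floor_le_floor (by nlinarith), Int.floor_le_floor (by nlinarith)⟩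

variable {Γ Ω E F : Type} [Group Γ] [MulAction Γ Ω] [MeasurableSpace Ω]
  [NormedAddCommGroup E] [NormedSpace ℝ E] [NormedAddCommGroup F] [NormedSpace ℝ F]
  [MeasurableSpace F] (P : Frm Γ Ω E F)

/-- The rescaled distance. -/
def Frm.D (δ ρ : ℝ) (p : Ω × Ω) : ℝ :=
  ‖P.ψ p.1 (P.x p.2 - P.x p.1)‖ / ρ ^ 2 + ‖P.ψ p.1 ∘L P.φ p.2 - 1‖ / δ + ‖P.x p.2 - P.x p.1‖ / ρ

/-- Frames of bounded distortion. -/
def Frm.G (L : ℝ) : Set Ω := {w | ‖P.φ w‖ ≤ L ∧ ‖P.ψ w‖ ≤ L}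

theorem Frm.D_nonneg {δ ρ : ℝ} (hδ : 0 < δ) (hρ : 0 < ρ) (p : Ω × Ω) : 0 ≤ P.D δ ρ p := by
  unfold Frm.D
  positivity

theorem Frm.of_D_le {δ ρ t : ℝ} (hδ : 0 < δ) (hρ : 0 < ρ) {w w' : Ω} (h : P.D δ ρ (w, w') ≤ t) :
    ‖P.ψ w (P.x w' - P.x w)‖ ≤ t * ρ ^ 2 ∧ ‖P.ψ w ∘L P.φ w' - 1‖ ≤ t * δ ∧
      ‖P.x w' - P.x w‖ ≤ t * ρ := by
  have a1 : 0 ≤ ‖P.ψ w (P.x w' - P.x w)‖ / ρ ^ 2 := by positivity
  have a2 : 0 ≤ ‖P.ψ w ∘L P.φ w' - 1‖ / δ := by positivity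
  have a3 : 0 ≤ ‖P.x w' - P.x w‖ / ρ := by positivity
  unfold Frm.D at h
  simp only at h
  exact ⟨(div_le_iff₀ (by positivity)).mp (by linarith), (div_le_iff₀ hδ).mp (by linarith),
    (div_le_iff₀ hρ).mp (by linarith)⟩

theorem Frm.near : ∃ r : ℝ, 0 < r ∧ ∀ w w', ‖P.x w' - P.x w‖ ≤ r →
    ‖P.x w' - P.x w‖ ≤ 2 * (‖P.φ w‖ * ‖P.ψ w (P.x w' - P.x w)‖) ∧
      ‖P.φ w'‖ ≤ 2 * (‖P.φ w‖ * ‖P.ψ w ∘L P.φ w'‖) := by
  obtain ⟨r, hr, h⟩ := P.tan (1 / 2) (by norm_num)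
  refine ⟨r, hr, fun w w' hw => ?_⟩
  obtain ⟨h1, h2⟩ := h w w' hw
  have a1 := norm_le_insert' (P.x w' - P.x w) (P.φ w (P.ψ w (P.x w' - P.x w)))
  have a2 := (P.φ w).le_opNorm (P.ψ w (P.x w' - P.x w))
  have a3 := norm_le_insert' (P.φ w') (P.φ w ∘L P.ψ w ∘L P.φ w')
  have a4 := (P.φ w).opNorm_comp_le (P.ψ w ∘L P.φ w')
  exact ⟨by linarith, by linarith⟩

theorem Frm.small {L δ : ℝ} (hδ : 0 < δ) (hδ' : δ ≤ 1 / 2) : ∀ᶠ ρ in 𝓝[>] (0 : ℝ), ∀ w ∈ P.G L,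
    ∀ w', P.D δ ρ (w, w') ≤ 2 → ‖P.x w' - P.x w‖ ≤ 4 * L * ρ ^ 2 ∧ ‖P.φ w'‖ ≤ 4 * L := by
  obtain ⟨r, hr, h⟩ := P.near
  filter_upwards [Ioc_mem_nhdsGT (show 0 < r / 2 by positivity)] with ρ hρ w hw w' hD
  obtain ⟨a1, a2, a3⟩ := P.of_D_le hδ hρ.1 hD
  obtain ⟨b1, b2⟩ := h w w' (by linarith [hρ.2])
  have hL : 0 ≤ L := (norm_nonneg _).trans hw.1
  have c1 := mul_le_mul hw.1 a1 (norm_nonneg _) hL
  have c2 : ‖P.ψ w ∘L P.φ w'‖ ≤ 2 := by
    have := norm_le_insert' (P.ψ w ∘L P.φ w') 1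
    have : ‖(1 : E →L[ℝ] E)‖ ≤ 1 := ContinuousLinearMap.norm_id_le
    linarith
  have c3 := mul_le_mul hw.1 c2 (norm_nonneg _) hL
  exact ⟨by linarith, by linarith⟩

theorem Frm.cmp {L δ θ : ℝ} (hL : 0 < L) (hδ : 0 < δ) (hδ' : δ ≤ 1 / 2) (hθ : 0 < θ) (g : Γ) :
    ∀ᶠ ρ in 𝓝[>] (0 : ℝ), ∀ w ∈ P.G L, g • w ∈ P.G L → ∀ w', P.D δ ρ (w, w') ≤ 2 →
      P.D δ ρ (g • w, g • w') ≤ P.D δ ρ (w, w') + θ := by
  obtain ⟨C, r₁, hr₁, h₁⟩ := P.lip g
  obtain ⟨η, hη⟩ : ∃ η : ℝ, η = θ * δ / (12 * L ^ 2) := ⟨_, rfl⟩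
  have η0 : 0 < η := by rw [hη]; positivity
  have η1 : η * L * (4 * L) = θ / 3 * δ := by rw [hη]; field_simp; ring
  obtain ⟨r₂, hr₂, h₂⟩ := P.lin g η η0
  filter_upwards [P.small (L := L) hδ hδ', Ioc_mem_nhdsGT (show 0 < r₁ / 2 by positivity),
    Ioc_mem_nhdsGT (show 0 < r₂ / 2 by positivity),
    Ioc_mem_nhdsGT (show 0 < θ / 3 / ((|C| + 1) * (4 * L)) by positivity)]
    with ρ hs e1 e2 e3 w hw hg w' hD
  have hρ := e1.1
  obtain ⟨-, -, a3⟩ := P.of_D_le hδ hρ hD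
  obtain ⟨s1, s2⟩ := hs w hw w' hD
  have l1 := h₁ w w' (by linarith [e1.2])
  obtain ⟨l2, l3⟩ := h₂ w w' (by linarith [e2.2])
  have m0 : η * ‖P.ψ (g • w)‖ ≤ η * L := mul_le_mul_of_nonneg_left hg.2 η0.le
  have m1 := l2.trans (mul_le_mul m0 s1 (norm_nonneg _) (by positivity))
  have m2 := l3.trans (mul_le_mul m0 s2 (norm_nonneg _) (by positivity))
  have t1 : ‖P.ψ (g • w) (P.x (g • w') - P.x (g • w))‖ / ρ ^ 2 ≤
      ‖P.ψ w (P.x w' - P.x w)‖ / ρ ^ 2 + θ / 3 := by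
    rw [div_add' _ _ _ (by positivity), div_le_div_iff_of_pos_right (by positivity)]
    have := norm_le_insert' (P.ψ (g • w) (P.x (g • w') - P.x (g • w))) (P.ψ w (P.x w' - P.x w))
    have e : η * L * (4 * L * ρ ^ 2) = θ / 3 * δ * ρ ^ 2 := by rw [← η1]; ring
    have : θ / 3 * δ * ρ ^ 2 ≤ θ / 3 * ρ ^ 2 :=
      mul_le_mul_of_nonneg_right (by nlinarith) (by positivity)
    linarith
  have t2 : ‖P.ψ (g • w) ∘L P.φ (g • w') - 1‖ / δ ≤ ‖P.ψ w ∘L P.φ w' - 1‖ / δ + θ / 3 := by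
    rw [div_add' _ _ _ hδ.ne', div_le_div_iff_of_pos_right hδ]
    have := norm_sub_le_norm_sub_add_norm_sub (P.ψ (g • w) ∘L P.φ (g • w')) (P.ψ w ∘L P.φ w') 1
    linarith
  have t3 : ‖P.x (g • w') - P.x (g • w)‖ / ρ ≤ θ / 3 := by
    rw [div_le_iff₀ hρ]
    have u1 := e3.2
    rw [le_div_iff₀ (by positivity)] at u1
    have u2 : C * ‖P.x w' - P.x w‖ ≤ (|C| + 1) * (4 * L * ρ ^ 2) :=
      mul_le_mul (by linarith [le_abs_self C]) s1 (norm_nonneg _) (by positivity)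
    nlinarith [mul_le_mul_of_nonneg_right u1 hρ.le]
  have t4 : 0 ≤ ‖P.x w' - P.x w‖ / ρ := by positivity
  unfold Frm.D
  simp only
  linarith

theorem Frm.close {L δ ε : ℝ} (hL : 0 < L) (hδ : 0 < δ) (hδ' : δ ≤ 1 / 2) (hε : 0 < ε)
    (h : δ * (6 * L) ≤ ε) : ∀ᶠ ρ in 𝓝[>] (0 : ℝ), ∀ w ∈ P.G L, ∀ w', P.D δ ρ (w, w') ≤ 2 →
      ‖P.x w' - P.x w‖ + ‖P.φ w' - P.φ w‖ ≤ ε := by
  obtain ⟨r, hr, ht⟩ := P.tan (ε / (12 * L)) (by positivity)
  filter_upwards [P.small (L := L) hδ hδ', Ioc_mem_nhdsGT (show 0 < r / 2 by positivity),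
    Ioc_mem_nhdsGT (show 0 < ε / 6 by positivity)] with ρ hs e1 e2 w hw w' hD
  obtain ⟨-, a2, a3⟩ := P.of_D_le hδ e1.1 hD
  have t1 := (ht w w' (by linarith [e1.2])).2.trans
    (mul_le_mul_of_nonneg_left (hs w hw w' hD).2 (by positivity))
  have e : ε / (12 * L) * (4 * L) = ε / 3 := by field_simp; ring
  have e' : P.φ w ∘L P.ψ w ∘L P.φ w' - P.φ w = P.φ w ∘L (P.ψ w ∘L P.φ w' - 1) := by
    ext v
    simp
  have t2 := norm_sub_le_norm_sub_add_norm_sub (P.φ w') (P.φ w ∘L P.ψ w ∘L P.φ w') (P.φ w)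
  have t3 := ((P.φ w).opNorm_comp_le (P.ψ w ∘L P.φ w' - 1)).trans
    (mul_le_mul hw.1 a2 (norm_nonneg _) hL.le)
  rw [e'] at t2
  linarith [e2.2]

variable [FiniteDimensional ℝ E] [FiniteDimensional ℝ F] [BorelSpace F]

theorem Frm.measurable_D (δ ρ : ℝ) : Measurable (P.D δ ρ) := by
  have h0 : Measurable fun p : Ω × Ω => P.x p.2 - P.x p.1 :=
    (P.mx.comp measurable_snd).sub (P.mx.comp measurable_fst)
  have c1 : Measurable fun q : (F →L[ℝ] E) × F => ‖q.1 q.2‖ :=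
    Continuous.measurable (continuous_fst.clm_apply continuous_snd).norm
  have c2 : Measurable fun q : (F →L[ℝ] E) × (E →L[ℝ] F) => ‖q.1 ∘L q.2 - 1‖ :=
    Continuous.measurable ((continuous_fst.clm_comp continuous_snd).sub continuous_const).norm
  have p1 : Measurable fun p : Ω × Ω => (P.ψ p.1, P.x p.2 - P.x p.1) :=
    (P.mψ.comp measurable_fst).prodMk h0
  have p2 : Measurable fun p : Ω × Ω => (P.ψ p.1, P.φ p.2) :=
    (P.mψ.comp measurable_fst).prodMk (P.mφ.comp measurable_snd)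
  have h1 := (c1.comp p1).div_const (ρ ^ 2)
  have h2 := (c2.comp p2).div_const δ
  have h3 := h0.norm.div_const ρ
  simp only [Function.comp_apply] at h1 h2
  unfold Frm.D
  exact (h1.add h2).add h3

omit [FiniteDimensional ℝ E] [FiniteDimensional ℝ F] [BorelSpace F] in
theorem Frm.measurableSet_G (L : ℝ) : MeasurableSet (P.G L) :=
  (measurableSet_le P.mφ.norm measurable_const).inter (measurableSet_le P.mψ.norm measurable_const)

omit [FiniteDimensional ℝ E] [FiniteDimensional ℝ F] [BorelSpace F] in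
theorem Frm.exists_G (ν : Measure Ω) [IsProbabilityMeasure ν] {ε : ℝ} (hε : 0 < ε) :
    ∃ L : ℝ, 1 ≤ L ∧ ν (P.G L)ᶜ ≤ ENNReal.ofReal ε := by
  have h := tendsto_measure_iInter_atTop (μ := ν) (s := fun n : ℕ => (P.G (n + 1))ᶜ)
    (fun n => (P.measurableSet_G _).compl.nullMeasurableSet)
    (fun a b hab => compl_subset_compl.mpr fun w hw => by
      have : (a : ℝ) ≤ b := Nat.cast_le.mpr hab
      exact ⟨by linarith [hw.1], by linarith [hw.2]⟩) ⟨0, measure_ne_top _ _⟩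
  have e : ⋂ n : ℕ, (P.G (n + 1))ᶜ = ∅ := by
    refine eq_empty_of_forall_notMem fun w hw => ?_
    obtain ⟨n, hn⟩ := exists_nat_ge (‖P.φ w‖ + ‖P.ψ w‖)
    exact mem_iInter.mp hw n ⟨by linarith [norm_nonneg (P.ψ w)], by linarith [norm_nonneg (P.φ w)]⟩
  rw [e, measure_empty] at h
  obtain ⟨n, hn⟩ := (h.eventually_le_const (ENNReal.ofReal_pos.mpr hε)).exists
  exact ⟨n + 1, by linarith [(Nat.cast_nonneg n : (0 : ℝ) ≤ n)], hn⟩

theorem Frm.tail (ν : Measure Ω) [IsProbabilityMeasure ν] {L δ ε : ℝ} (hL : 1 ≤ L) (hδ : 0 < δ)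
    (hε : 0 < ε) : ∃ m : ℝ, 0 < m ∧ ∀ ρ : ℝ, 0 < ρ → ρ ≤ 1 →
      ∫⁻ p in {p | p.1 ∈ P.G L ∧ 2 < P.D δ ρ p}, ENNReal.ofReal (kf ν m (P.D δ ρ) p ^ 2)
        ∂ν.prod ν ≤ ENNReal.ofReal ε := by
  obtain ⟨n, K, cell, hK, mc, c1, c2⟩ := exists_grid (F × (E →L[ℝ] F))
  obtain ⟨r, hr, hn⟩ := P.near
  obtain ⟨A, hA⟩ : ∃ A : ℝ, A = 6 * L ^ 2 + 3 * L / r + 3 * L / δ * L + 1 := ⟨_, rfl⟩
  have A0 : 0 ≤ A := by rw [hA]; positivity
  obtain ⟨C, hC⟩ : ∃ C : ℝ, C = (K * A) ^ n := ⟨_, rfl⟩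
  have C0 : 0 ≤ C := by rw [hC]; positivity
  obtain ⟨m, m1, m2⟩ : ∃ m : ℝ, 2 * n + 1 ≤ m ∧ 2 * C * Real.exp (3 * (2 * n) - 2 * m) ≤ ε := by
    refine ⟨max (2 * n + 1) ((3 * (2 * n) - Real.log (ε / (2 * C + 1))) / 2), le_max_left _ _, ?_⟩
    have h1 : Real.exp (3 * (2 * n) - 2 * max (2 * n + 1 : ℝ)
        ((3 * (2 * n) - Real.log (ε / (2 * C + 1))) / 2)) ≤ ε / (2 * C + 1) := by
      rw [← Real.le_log_iff_exp_le (by positivity)]
      linarith [le_max_right (2 * n + 1 : ℝ) ((3 * (2 * n) - Real.log (ε / (2 * C + 1))) / 2)]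
    refine (mul_le_mul_of_nonneg_left h1 (by positivity)).trans ?_
    rw [← mul_div_assoc, div_le_iff₀ (by positivity)]
    nlinarith
  refine ⟨m, lt_of_lt_of_le (by positivity) m1, fun ρ hρ hρ1 => ?_⟩
  have L0 : 0 < L := by linarith
  have my : Measurable fun w => ((3 * L / ρ ^ 2) • P.x w, (3 * L / δ) • P.φ w) :=
    (P.mx.const_smul (3 * L / ρ ^ 2)).prodMk (P.mφ.const_smul (3 * L / δ))
  refine (kf_tail (P.measurable_D δ ρ) (P.D_nonneg hδ hρ)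
    (cell := fun w => cell ((3 * L / ρ ^ 2) • P.x w, (3 * L / δ) • P.φ w)) (P.measurableSet_G L)
    (fun i => (P.measurableSet_G L).inter ((mc.comp my) (measurableSet_singleton i)))
    (fun w hw w' _ e => ?_) C0 (by positivity) (fun w' j => ?_) m1).trans
    (ENNReal.ofReal_le_ofReal m2)
  · have h1 := c1 _ _ e
    rw [Prod.mk_sub_mk, ← smul_sub, ← smul_sub, norm_prod_le_iff, norm_smul, norm_smul,
      Real.norm_of_nonneg (by positivity), Real.norm_of_nonneg (by positivity),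
      div_mul_eq_mul_div, div_mul_eq_mul_div, div_le_one (by positivity), div_le_one hδ] at h1
    obtain ⟨h1, h2⟩ := h1
    have e' : P.ψ w ∘L P.φ w' - 1 = P.ψ w ∘L (P.φ w' - P.φ w) := by
      ext v
      simp [P.inv]
    have t1 : ‖P.ψ w (P.x w' - P.x w)‖ / ρ ^ 2 ≤ 1 / 3 := by
      rw [div_le_iff₀ (by positivity)]
      linarith [((P.ψ w).le_opNorm (P.x w' - P.x w)).trans
        (mul_le_mul_of_nonneg_right hw.2 (norm_nonneg _))]
    have t2 : ‖P.ψ w ∘L P.φ w' - 1‖ / δ ≤ 1 / 3 := by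
      rw [div_le_iff₀ hδ, e']
      linarith [((P.ψ w).opNorm_comp_le (P.φ w' - P.φ w)).trans
        (mul_le_mul_of_nonneg_right hw.2 (norm_nonneg _))]
    have t3 : ‖P.x w' - P.x w‖ / ρ ≤ 1 / 3 := by
      rw [div_le_iff₀ hρ]
      nlinarith [norm_nonneg (P.x w' - P.x w)]
    unfold Frm.D
    simp only
    linarith
  · have j0 : (0 : ℝ) ≤ j := Nat.cast_nonneg j
    obtain ⟨T, T1, T2⟩ := c2 ((3 * L / ρ ^ 2) • P.x w', 0)
      (6 * L ^ 2 * j + 3 * L / r * j ^ 2 + 3 * L / δ * L) (by positivity)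
    refine ⟨T, T1.trans ?_, fun w hw hD => T2 _ ?_⟩
    · rw [hC, show 2 * (n : ℝ) * j = n * (2 * j) by ring, Real.exp_nat_mul, ← mul_pow, mul_assoc K]
      refine pow_le_pow_left₀ (by positivity) (mul_le_mul_of_nonneg_left ?_ hK) n
      have u1 : (j : ℝ) ≤ Real.exp j := by linarith [Real.add_one_le_exp (j : ℝ)]
      have u2 : 1 ≤ Real.exp j := Real.one_le_exp j0
      have u3 : Real.exp (2 * j) = Real.exp j * Real.exp j := by rw [two_mul, Real.exp_add]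
      have u4 : (j : ℝ) ≤ Real.exp (2 * j) := by nlinarith
      have u5 : (j : ℝ) ^ 2 ≤ Real.exp (2 * j) := by nlinarith
      have u6 : 1 ≤ Real.exp (2 * j) := by nlinarith
      have v1 := mul_le_mul_of_nonneg_left u4 (show 0 ≤ 6 * L ^ 2 by positivity)
      have v2 := mul_le_mul_of_nonneg_left u5 (show 0 ≤ 3 * L / r by positivity)
      have v3 := mul_le_mul_of_nonneg_left u6 (show 0 ≤ 3 * L / δ * L by positivity)
      rw [hA]
      linarith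
    · obtain ⟨a1, -, a3⟩ := P.of_D_le hδ hρ hD
      have b : ‖P.x w' - P.x w‖ ≤ (2 * L * j + j ^ 2 / r) * ρ ^ 2 := by
        have b1 : 0 ≤ 2 * L * j * ρ ^ 2 := by positivity
        have b2 : 0 ≤ (j : ℝ) ^ 2 / r * ρ ^ 2 := by positivity
        rcases le_total ‖P.x w' - P.x w‖ r with t | t
        · linarith [(hn w w' t).1, mul_le_mul hw.1 a1 (norm_nonneg _) L0.le]
        · have b3 : ‖P.x w' - P.x w‖ ≤ (j : ℝ) ^ 2 / r * ρ ^ 2 := by
            rw [div_mul_eq_mul_div, le_div_iff₀ hr, ← mul_pow]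
            nlinarith [norm_nonneg (P.x w' - P.x w)]
          linarith
      rw [Prod.mk_sub_mk, ← smul_sub, sub_zero, norm_prod_le_iff, norm_smul, norm_smul,
        Real.norm_of_nonneg (by positivity), Real.norm_of_nonneg (by positivity), norm_sub_rev]
      have d1 : 0 ≤ 6 * L ^ 2 * j + 3 * L / r * j ^ 2 := by positivity
      have d2 : 0 ≤ 3 * L / δ * L := by positivity
      have d3 := mul_le_mul_of_nonneg_left b (show 0 ≤ 3 * L / ρ ^ 2 by positivity)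
      have d4 : 3 * L / ρ ^ 2 * ((2 * L * j + j ^ 2 / r) * ρ ^ 2) =
          6 * L ^ 2 * j + 3 * L / r * j ^ 2 := by field_simp; ring
      have d5 := mul_le_mul_of_nonneg_left hw.1 (show 0 ≤ 3 * L / δ by positivity)
      exact ⟨by linarith, by linarith⟩

/-- Almost invariant row-normalised kernels concentrated near the diagonal. -/
theorem Frm.exists_ker {ν : Measure Ω} [IsProbabilityMeasure ν]
    (hν : ∀ g : Γ, MeasurePreserving (fun w : Ω => g • w) ν ν) (S : Finset Γ) {ε : ℝ}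
    (hε : 0 < ε) : ∃ f : Ω × Ω → ℝ, Measurable f ∧
      (∀ w, ∫⁻ w', ENNReal.ofReal (f (w, w') ^ 2) ∂ν = 1) ∧
      (∀ s ∈ S, ∫⁻ p, ENNReal.ofReal ((f (s • p.1, s • p.2) - f p) ^ 2) ∂ν.prod ν ≤
        ENNReal.ofReal ε) ∧
      ∫⁻ p in {p | ε < ‖P.x p.2 - P.x p.1‖ + ‖P.φ p.2 - P.φ p.1‖}, ENNReal.ofReal (f p ^ 2)
        ∂ν.prod ν ≤ ENNReal.ofReal ε := by
  obtain ⟨L, hL, hG⟩ := P.exists_G ν (ε := ε / 10) (by positivity)
  have L0 : 0 < L := by linarith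
  obtain ⟨δ, hδ, δ1, δ2⟩ : ∃ δ : ℝ, 0 < δ ∧ δ ≤ 1 / 2 ∧ δ * (6 * L) ≤ ε :=
    ⟨min (1 / 2) (ε / (6 * L)), by positivity, min_le_left _ _,
      (le_div_iff₀ (by positivity)).mp (min_le_right _ _)⟩
  obtain ⟨m, hm, ht⟩ := P.tail ν (ε := ε / 10) hL hδ (by positivity)
  have hθ : 0 < ε / (10 * m) := by positivity
  obtain ⟨ρ, ⟨⟨e1, e2⟩, e3⟩, e4⟩ := (((((eventually_all_finset S).mpr fun s _ =>
    P.cmp L0 hδ δ1 hθ s).and ((eventually_all_finset S).mpr fun s _ =>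
    P.cmp L0 hδ δ1 hθ s⁻¹)).and (P.close L0 hδ δ1 hε δ2)).and
    (Ioc_mem_nhdsGT (show (0 : ℝ) < 1 by norm_num))).exists
  have mD := P.measurable_D δ ρ
  have D0 := P.D_nonneg hδ e4.1
  have bad : ∫⁻ p in {p | p.1 ∉ P.G L ∨ 2 < P.D δ ρ p},
      ENNReal.ofReal (kf ν m (P.D δ ρ) p ^ 2) ∂ν.prod ν ≤ ENNReal.ofReal (ε / 5) := by
    have sub : {p : Ω × Ω | p.1 ∉ P.G L ∨ 2 < P.D δ ρ p} ⊆
        {p | p.1 ∈ (P.G L)ᶜ} ∪ {p | p.1 ∈ P.G L ∧ 2 < P.D δ ρ p} := fun p hp => by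
      by_cases h : p.1 ∈ P.G L
      · exact Or.inr ⟨h, hp.resolve_left (not_not.mpr h)⟩
      · exact Or.inl h
    refine (lintegral_mono_set sub).trans ((lintegral_union_le _ _ _).trans ?_)
    rw [kf_fst mD D0 hm.le (P.measurableSet_G L).compl]
    refine (add_le_add hG (ht ρ e4.1 e4.2)).trans (le_of_eq ?_)
    rw [← ENNReal.ofReal_add (by positivity) (by positivity)]
    congr 1
    ring
  refine ⟨kf ν m (P.D δ ρ), measurable_kf mD, kf_row mD D0 hm.le, fun s hs => ?_, ?_⟩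
  · refine (kf_inv mD D0 hm.le (hν s) (P.measurableSet_G L) hθ.le fun w g1 g2 w' =>
      ⟨e1 s hs w g1 g2 w', fun hD => ?_⟩).trans ?_
    · have := e2 s hs (s • w) g2 (by rwa [inv_smul_smul]) (s • w') hD
      rwa [inv_smul_smul, inv_smul_smul] at this
    · refine (add_le_add_right (mul_le_mul_right bad 4) _).trans (le_of_eq ?_)
      rw [← ENNReal.ofReal_ofNat, ← ENNReal.ofReal_mul (by norm_num),
        ← ENNReal.ofReal_add (by positivity) (by positivity)]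
      congr 1
      field_simp
      ring
  · refine (lintegral_mono_set fun p hp => ?_).trans
      (bad.trans (ENNReal.ofReal_le_ofReal (by linarith)))
    by_contra h
    rw [mem_ofPred_eq, not_or, not_not, not_lt] at h
    exact absurd (e3 p.1 h.1 p.2 h.2) (not_le.mpr hp)

end Pool.Agent.P.MP_d483fb_an.Z.TZ
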