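import Pool.Agent.P.MP_d483fb_an.Z.TZ.KerB
import Pool.Agent.P.MP_d483fb_an.Z.TZ.KazDefs
import Pool.Agent.P.MP_d483fb_an.Z.EM.Defs

/-!
Property (T) turns the almost invariant kernels into invariant ones.
-/

open MeasureTheory Filter Topology Set
open scoped ENNReal

noncomputable section

namespace Pool.Agent.P.MP_d483fb_an.Z.TZ

theorem ofReal_norm_sq {X : Type} [MeasurableSpace X] {μ : Measure X} (u : Lp ℝ 2 μ) {g : X → ℝ}
    (h : u =ᵐ[μ] g) : ENNReal.ofReal (‖u‖ ^ 2) = ∫⁻ x, ENNReal.ofReal (g x ^ 2) ∂μ := by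
  rw [← real_inner_self_eq_norm_sq, L2.inner_def]
  simp only [real_inner_self_eq_norm_sq, Real.norm_eq_abs, sq_abs]
  rw [ofReal_integral_eq_lintegral_ofReal (Lp.memLp u).integrable_sq
    (Eventually.of_forall fun _ => sq_nonneg _)]
  refine lintegral_congr_ae ?_
  filter_upwards [h] with x hx
  rw [hx]

/-- Property (T) for the Koopman representation, in terms of functions. -/
theorem HasT.exists_inv {Γ : Type} [Group Γ] (hT : HasT Γ) {ε : ℝ} (hε : 0 < ε) :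
    ∃ (S : Finset Γ) (η : ℝ), 0 < η ∧ ∀ (X : Type) [MeasurableSpace X] [MulAction Γ X]
      (μ : Measure X), (∀ g : Γ, MeasurePreserving (fun x : X => g • x) μ μ) →
      ∀ f : X → ℝ, Measurable f → ∫⁻ x, ENNReal.ofReal (f x ^ 2) ∂μ ≠ ∞ →
      (∀ s ∈ S, ∫⁻ x, ENNReal.ofReal ((f (s • x) - f x) ^ 2) ∂μ ≤ ENNReal.ofReal η) →
      ∃ k : Lp ℝ 2 μ, (∀ g : Γ, ∀ᵐ x ∂μ, k (g • x) = k x) ∧
        ∫⁻ x, ENNReal.ofReal ((k x - f x) ^ 2) ∂μ ≤ ENNReal.ofReal ε := by
  classical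
  obtain ⟨S, C, hC, H⟩ := hT
  obtain ⟨t, ht⟩ : ∃ t : ℝ, t = √ε / (C * S.card + 1) := ⟨_, rfl⟩
  have t0 : 0 < t := by rw [ht]; positivity
  refine ⟨S.image fun s => s⁻¹, t ^ 2, by positivity, fun X _ _ μ hμ f hf h2 hs => ?_⟩
  have : MeasurableConstSMul Γ X := ⟨fun g => (hμ g).measurable⟩
  have : SMulInvariantMeasure Γ X μ :=
    ⟨fun g s hs => (hμ g).measure_preimage hs.nullMeasurableSet⟩
  have hm : MemLp f 2 μ := by
    rw [memLp_two_iff_integrable_sq hf.aestronglyMeasurable]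
    refine ⟨(hf.pow_const 2).aestronglyMeasurable, ?_⟩
    rw [hasFiniteIntegral_iff_ofReal (Eventually.of_forall fun _ => sq_nonneg _)]
    exact lt_top_iff_ne_top.mpr h2
  obtain ⟨k, hk, hd⟩ := H _ (EM.koop Γ μ) (EM.koop_norm μ) (hm.toLp f)
  refine ⟨k, fun g => ?_, ?_⟩
  · have := EM.koop_ae μ g⁻¹ k
    rw [hk, inv_inv] at this
    exact this.symm
  · have e1 : ∀ s ∈ S, ‖EM.koop Γ μ s (hm.toLp f) - hm.toLp f‖ ≤ t := by
      intro s h
      have a1 : (EM.koop Γ μ s (hm.toLp f) - hm.toLp f : Lp ℝ 2 μ) =ᵐ[μ]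
          fun x => f (s⁻¹ • x) - f x := by
        filter_upwards [Lp.coeFn_sub (EM.koop Γ μ s (hm.toLp f)) (hm.toLp f),
          EM.koop_ae μ s (hm.toLp f), hm.coeFn_toLp,
          (hμ s⁻¹).quasiMeasurePreserving.ae hm.coeFn_toLp] with x b1 b2 b3 b4
        rw [b1, Pi.sub_apply, b2, b3, b4]
      have a2 := hs _ (Finset.mem_image_of_mem _ h)
      rw [← ofReal_norm_sq _ a1, ENNReal.ofReal_le_ofReal_iff (by positivity)] at a2
      exact (pow_le_pow_iff_left₀ (norm_nonneg _) t0.le two_ne_zero).mp a2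
    have e2 : ‖k - hm.toLp f‖ ≤ √ε := by
      rw [norm_sub_rev]
      refine hd.trans ((mul_le_mul_of_nonneg_left (Finset.sum_le_card_nsmul _ _ t e1) hC).trans ?_)
      rw [nsmul_eq_mul, ← mul_assoc, ht, ← mul_div_assoc, div_le_iff₀ (by positivity)]
      nlinarith [Real.sqrt_nonneg ε]
    have a1 : (k - hm.toLp f : Lp ℝ 2 μ) =ᵐ[μ] fun x => k x - f x := by
      filter_upwards [Lp.coeFn_sub k (hm.toLp f), hm.coeFn_toLp] with x b1 b2
      rw [b1, Pi.sub_apply, b2]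
    rw [← ofReal_norm_sq _ a1]
    refine ENNReal.ofReal_le_ofReal ?_
    rw [← Real.sq_sqrt hε.le]
    exact pow_le_pow_left₀ (norm_nonneg _) e2 2

/-- A bounded Lipschitz measurable embedding into Euclidean space. -/
theorem exists_bdd_emb (V : Type) [NormedAddCommGroup V] [NormedSpace ℝ V] [FiniteDimensional ℝ V]
    [MeasurableSpace V] [BorelSpace V] : ∃ (N : ℕ) (β : V → EuclideanSpace ℝ (Fin N)) (M : ℝ),
      MeasurableEmbedding β ∧ (∀ v, ‖β v‖ ≤ M) ∧ ∀ u v, ‖β u - β v‖ ≤ M * ‖u - v‖ := by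
  let e : V ≃L[ℝ] EuclideanSpace ℝ (Fin (Module.finrank ℝ V)) := toEuclidean
  have lip : LipschitzWith 1 Real.arctan := by
    refine lipschitzWith_of_nnnorm_deriv_le Real.differentiable_arctan fun x => ?_
    rw [Real.deriv_arctan, ← NNReal.coe_le_coe, coe_nnnorm, NNReal.coe_one,
      Real.norm_of_nonneg (by positivity), div_le_one (by positivity)]
    nlinarith
  have : CompleteSpace V := FiniteDimensional.complete ℝ V
  refine ⟨_, fun v => WithLp.toLp 2 fun i => Real.arctan (e v i),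
    √(Module.finrank ℝ V * 2 ^ 2) + ‖e.toContinuousLinearMap‖, ?_, fun v => ?_, fun u v => ?_⟩
  · refine Continuous.measurableEmbedding ?_ fun u v h => e.injective ?_
    · exact (PiLp.continuous_toLp 2 _).comp
        (continuous_pi fun i => Real.continuous_arctan.comp (by fun_prop))
    · ext i
      exact Real.arctan_injective (congrFun (congrArg WithLp.ofLp h) i)
  · refine le_trans ?_ (le_add_of_nonneg_right (norm_nonneg _))
    rw [EuclideanSpace.norm_eq]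
    refine Real.sqrt_le_sqrt ((Finset.sum_le_card_nsmul _ _ ((2 : ℝ) ^ 2) fun i _ => ?_).trans
      (by simp))
    refine pow_le_pow_left₀ (norm_nonneg _) (abs_le.mpr ⟨?_, ?_⟩) 2
    · linarith [Real.neg_pi_div_two_lt_arctan (e v i), Real.pi_le_four]
    · linarith [Real.arctan_lt_pi_div_two (e v i), Real.pi_le_four]
  · have h1 := e.toContinuousLinearMap.le_opNorm (u - v)
    rw [ContinuousLinearEquiv.coe_coe, map_sub] at h1
    refine le_trans ?_ (h1.trans (mul_le_mul_of_nonneg_right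
      (le_add_of_nonneg_left (Real.sqrt_nonneg _)) (norm_nonneg _)))
    rw [EuclideanSpace.norm_eq, EuclideanSpace.norm_eq]
    refine Real.sqrt_le_sqrt (Finset.sum_le_sum fun i _ => pow_le_pow_left₀ (norm_nonneg _) ?_ 2)
    simpa [dist_eq_norm] using lip.dist_le_mul (e u i) (e v i)

variable {Γ Ω E F : Type} [Group Γ] [MulAction Γ Ω] [MeasurableSpace Ω]
  [NormedAddCommGroup E] [NormedSpace ℝ E] [NormedAddCommGroup F] [NormedSpace ℝ F]
  [MeasurableSpace F] [FiniteDimensional ℝ E] [FiniteDimensional ℝ F] [BorelSpace F]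

/-- Invariant kernels near the diagonal: the hypothesis of `outA`. -/
theorem Frm.hker (P : Frm Γ Ω E F) (hT : HasT Γ) {ν : Measure Ω} [IsProbabilityMeasure ν]
    (hν : ∀ g : Γ, MeasurePreserving (fun w : Ω => g • w) ν ν)
    (hemb : MeasurableEmbedding fun w => (P.x w, P.φ w)) :
    ∃ (N : ℕ) (c : Ω → EuclideanSpace ℝ (Fin N)) (M : ℝ), MeasurableEmbedding c ∧
      (∀ w, ‖c w‖ ≤ M) ∧ ∀ ε : ℝ, 0 < ε → ∃ (k : Lp ℝ 2 (ν.prod ν)) (f : Ω × Ω → ℝ),
        Measurable f ∧ (∀ γ : Γ, ∀ᵐ p ∂ν.prod ν, k (γ • p.1, γ • p.2) = k p) ∧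
        (∀ w, ∫⁻ w', ENNReal.ofReal (f (w, w') ^ 2) ∂ν = 1) ∧
        (∫⁻ p, ENNReal.ofReal ((k p - f p) ^ 2) ∂ν.prod ν ≤ ENNReal.ofReal ε) ∧
        ∫⁻ p, ENNReal.ofReal (f p ^ 2 * ‖c p.1 - c p.2‖) ∂ν.prod ν ≤ ENNReal.ofReal ε := by
  obtain ⟨N, β, M, b1, b2, b3⟩ := exists_bdd_emb (F × (E →L[ℝ] F))
  have M0 : 0 ≤ M := (norm_nonneg _).trans (b2 0)
  refine ⟨N, fun w => β (P.x w, P.φ w), M, b1.comp hemb, fun w => b2 _, fun ε hε => ?_⟩
  obtain ⟨S, η, hη, H⟩ := hT.exists_inv hε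
  obtain ⟨t, t0, t1, t2⟩ : ∃ t : ℝ, 0 < t ∧ t ≤ η ∧ t * (3 * M + 1) ≤ ε :=
    ⟨min η (ε / (3 * M + 1)), by positivity, min_le_left _ _,
      (le_div_iff₀ (by positivity)).mp (min_le_right _ _)⟩
  obtain ⟨f, hf, f1, f2, f3⟩ := P.exists_ker hν S t0
  have mf : Measurable fun p => ENNReal.ofReal (f p ^ 2) := (hf.pow_const 2).ennreal_ofReal
  have f0 : ∫⁻ p, ENNReal.ofReal (f p ^ 2) ∂ν.prod ν = 1 := by
    rw [lintegral_prod _ mf.aemeasurable]
    simp [f1]
  obtain ⟨k, k1, k2⟩ := H (Ω × Ω) (ν.prod ν) (fun g => (hν g).prod (hν g)) f hf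
    (by rw [f0]; exact ENNReal.one_ne_top)
    fun s hs => (f2 s hs).trans (ENNReal.ofReal_le_ofReal t1)
  refine ⟨k, f, hf, k1, f1, k2, ?_⟩
  have mS : MeasurableSet {p : Ω × Ω | t < ‖P.x p.2 - P.x p.1‖ + ‖P.φ p.2 - P.φ p.1‖} :=
    measurableSet_lt measurable_const
      (((P.mx.comp measurable_snd).sub (P.mx.comp measurable_fst)).norm.add
        ((P.mφ.comp measurable_snd).sub (P.mφ.comp measurable_fst)).norm)
  have pt : ∀ p : Ω × Ω,
      ENNReal.ofReal (f p ^ 2 * ‖β (P.x p.1, P.φ p.1) - β (P.x p.2, P.φ p.2)‖) ≤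
      ENNReal.ofReal (M * t) * ENNReal.ofReal (f p ^ 2) + ENNReal.ofReal (2 * M) *
        {p : Ω × Ω | t < ‖P.x p.2 - P.x p.1‖ + ‖P.φ p.2 - P.φ p.1‖}.indicator
          (fun p => ENNReal.ofReal (f p ^ 2)) p := by
    intro p
    by_cases hp : p ∈ {p : Ω × Ω | t < ‖P.x p.2 - P.x p.1‖ + ‖P.φ p.2 - P.φ p.1‖}
    · rw [indicator_of_mem hp, ← ENNReal.ofReal_mul (show 0 ≤ 2 * M by positivity), mul_comm (2 * M)]
      refine le_trans (ENNReal.ofReal_le_ofReal (mul_le_mul_of_nonneg_left ?_ (sq_nonneg _)))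
        le_add_self
      linarith [norm_sub_le (β (P.x p.1, P.φ p.1)) (β (P.x p.2, P.φ p.2)), b2 (P.x p.1, P.φ p.1),
        b2 (P.x p.2, P.φ p.2)]
    · rw [← ENNReal.ofReal_mul (show 0 ≤ M * t by positivity), mul_comm (M * t)]
      refine le_trans (ENNReal.ofReal_le_ofReal (mul_le_mul_of_nonneg_left ?_ (sq_nonneg _)))
        le_self_add
      rw [norm_sub_rev]
      refine (b3 _ _).trans (mul_le_mul_of_nonneg_left ?_ M0)
      rw [mem_ofPred_eq, not_lt] at hp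
      rw [Prod.mk_sub_mk, norm_prod_le_iff]
      exact ⟨(le_add_of_nonneg_right (norm_nonneg _)).trans hp,
        (le_add_of_nonneg_left (norm_nonneg _)).trans hp⟩
  refine (lintegral_mono pt).trans ?_
  rw [lintegral_add_left (mf.const_mul _), lintegral_const_mul _ mf,
    lintegral_const_mul _ (mf.indicator mS), lintegral_indicator mS, f0, mul_one]
  refine (add_le_add_right (mul_le_mul_right f3 _) _).trans ?_
  rw [← ENNReal.ofReal_mul (by positivity), ← ENNReal.ofReal_add (by positivity) (by positivity)]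
  exact ENNReal.ofReal_le_ofReal (by nlinarith)

end Pool.Agent.P.MP_d483fb_an.Z.TZ
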