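import Pool.Agent.P.MP_d483fb_an.Z.TZ.S2b
import Pool.Agent.P.MP_d483fb_an.Z.TZ.FrJet
import Pool.Agent.P.MP_d483fb_an.Z.MS.Main

/-!
An invariant probability on the suspension gives an invariant probability on the frames.
-/

open scoped Topology ENNReal
open MeasureTheory Filter Set

noncomputable section

namespace Pool.Agent.P.MP_d483fb_an.Z.TZ

variable {G : Type} [Group G] [TopologicalSpace G] [IsTopologicalGroup G] [T2Space G]
  [ConnectedSpace G] [LocallyCompactSpace G] [SecondCountableTopology G] [MeasurableSpace G]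
  [BorelSpace G] {n k : ℕ} {L : Lat G} {X : Type} [TopologicalSpace X]
  [TopologicalSpace.PseudoMetrizableSpace X] [MeasurableSpace X] [BorelSpace X]
  [MeasurableSpace.CountablyGenerated X] [MulAction G X] [ContinuousSMul G X]

theorem frames_of_inv {M : Type} [MeasurableSpace M] [StandardBorelSpace M] [Nonempty M]
    {α : L.Γ →* Equiv.Perm M} {V : Type} [NormedAddCommGroup V] [NormedSpace ℝ V]
    [FiniteDimensional ℝ V] (D : Std G n k) (E : Skw L α X) (hα : ∀ γ, Measurable (α γ))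
    (ν : Measure X) [IsProbabilityMeasure ν]
    (hG : ∀ g : G, MeasurePreserving (fun x : X => g • x) ν ν) (hE : D.ErgA ν)
    (A : L.Γ → M → (V →L[ℝ] V)ˣ) (hm : ∀ γ, Measurable fun p => (A γ p : V →L[ℝ] V))
    (hA : ∀ γ δ p, A (γ * δ) p = A γ (α δ p) * A δ p) {C : ℝ}
    (hC : ∀ γ p, ‖(A γ p : V →L[ℝ] V)‖ ≤ Real.exp (C * (1 + L.len γ)))
    (hv : D.ltV (Module.finrank ℝ V - 1)) (hD : SR.Dec D.a ∅) :
    ∃ η : Measure (M × (V →L[ℝ] V)ˣ), IsProbabilityMeasure η ∧
      ∀ γ, MeasurePreserving (fun w : M × (V →L[ℝ] V)ˣ => (α γ w.1, A γ w.1 * w.2)) η η :=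
  frames_of_exps D E hα ν hG hE A hm hA hC
    (fun Q S hS _ _ o i => MS.exps_zero D Q (D.gErg hG hE) S hS o hv i) hD

/-- The case of the derivative cocycle. -/
theorem frames_jets {M : Type} [MetricSpace M] [CompactSpace M] [MeasurableSpace M] [BorelSpace M]
    [Nonempty M] {α : L.Γ →* Equiv.Perm M} {m : ℕ} (D : Std G n k) (E : Skw L α X)
    (J : NF.Jets α (fun γ => L.len γ) m) (ν : Measure X) [IsProbabilityMeasure ν]
    (hG : ∀ g : G, MeasurePreserving (fun x : X => g • x) ν ν) (hE : D.ErgA ν)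
    (hv : D.ltV m) (hD : SR.Dec D.a ∅) :
    ∃ η : Measure (M × GLu m), IsProbabilityMeasure η ∧
      ∀ γ, MeasurePreserving (fun w : M × GLu m => (α γ w.1, Dlu J γ w.1 * w.2)) η η := by
  have hα : ∀ γ, Measurable (α γ) := fun γ =>
    (LipschitzWith.of_dist_le_mul (K := ⟨_, (Real.exp_pos _).le⟩) (J.lip γ)).continuous.measurable
  refine frames_of_inv D E hα ν hG hE (Dlu J) (measurable_Dl J) (Dlu_mul J)
    (C := ‖linvL m‖ + J.Lr 2) (fun γ p => (norm_Dl_le J γ p).trans ?_) (fun H h1 h2 => ?_) hD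
  · have h0 : 0 ≤ ‖linvL m‖ := (linvL m).opNorm_nonneg
    have h1 := L.nonneg γ
    rw [add_mul, Real.exp_add]
    refine mul_le_mul_of_nonneg_right ?_ (Real.exp_pos _).le
    nlinarith [Real.add_one_le_exp (‖linvL m‖ * (1 + L.len γ)), mul_nonneg h0 h1]
  · refine lt_of_le_of_lt ?_ (hv H h1 h2)
    simp

end Pool.Agent.P.MP_d483fb_an.Z.TZ
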