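import Pool.Agent.P.MP_d483fb_an.Z.TZ.Fib
import Pool.Agent.P.MP_d483fb_an.Z.Top.Defs
import Pool.Agent.P.MP_d483fb_an.Z.MS.Rep
import Pool.Agent.P.MP_d483fb_an.Z.Su.ToLen
import Pool.Agent.P.MP_d483fb_an.Z.Path.GeoStd
import Pool.Agent.P.MP_d483fb_an.Os.MainT

/-!
The linear cocycle over a suspension defined by a cocycle of the lattice.
-/

open scoped Topology ENNReal
open MeasureTheory Filter Set

set_option linter.unusedSectionVars false

noncomputable section

namespace Pool.Agent.P.MP_d483fb_an.Z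

/-- If all exponents vanish the cocycle is subexponential in probability. -/
theorem subexp_of_lam {k W X V : Type} [NontriviallyNormedField k] [SeminormedAddCommGroup W]
    [MeasurableSpace X] {μ : Measure X} [IsFiniteMeasure μ] [NormedAddCommGroup V]
    [NormedSpace k V] {S : Os.Sys W X μ} {A : W → X → V →L[k] V} {ι : Type} [Fintype ι]
    (o : Os.OseA S A ι) (h : ∀ i, o.lam i = 0) {ε : ℝ} (hε : 0 < ε) {δ : ℝ≥0∞} (hδ : δ ≠ 0) :
    ∃ Q : ℝ, ∀ t, μ {x | Real.exp (Q + ε * ‖t‖) < ‖A t x‖} ≤ δ := by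
  obtain ⟨q, hqm, -, -, hq⟩ := o.est ε hε
  have hlim := tendsto_measure_iInter_atTop (μ := μ) (s := fun n : ℕ => {x | (n : ℝ) < q x})
    (fun n => (measurableSet_lt measurable_const hqm).nullMeasurableSet)
    (fun m n hmn x hx => lt_of_le_of_lt (Nat.cast_le.2 hmn : (m : ℝ) ≤ n) hx)
    ⟨0, measure_ne_top _ _⟩
  have he : ⋂ n : ℕ, {x | (n : ℝ) < q x} = ∅ := eq_empty_of_forall_notMem fun x hx => by
    obtain ⟨m, hm⟩ := exists_nat_ge (q x)
    exact absurd (mem_iInter.1 hx m) (not_lt.2 hm)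
  rw [he, measure_empty] at hlim
  obtain ⟨n, hn⟩ := (hlim.eventually (ge_mem_nhds (pos_iff_ne_zero.2 hδ))).exists
  refine ⟨Fintype.card ι + 2 * n, fun t => le_trans (measure_mono_ae ?_) hn⟩
  filter_upwards [o.ae0] with x hx0 hx
  by_contra hno
  have h2 : q x ≤ n := not_lt.1 hno
  have h3 : Real.exp (Fintype.card ι + 2 * n + ε * ‖t‖) < ‖A t x‖ := hx
  refine absurd h3 (not_lt.2 (ContinuousLinearMap.opNorm_le_bound _ (Real.exp_pos _).le
    fun v => ?_))
  have hi : ∀ i, ‖A t x (o.P i x v)‖ ≤ Real.exp (2 * n + ε * ‖t‖) * ‖v‖ := by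
    intro i
    obtain ⟨hP, hA⟩ := hq x hx0 i
    have h1 := (hA t _ (o.P_mem x hx0 i v)).1
    rw [h i, AddMonoidHom.zero_apply, add_zero] at h1
    have h4 : ‖o.P i x v‖ ≤ Real.exp (q x) * ‖v‖ :=
      ((o.P i x).le_opNorm v).trans (mul_le_mul_of_nonneg_right hP (norm_nonneg _))
    refine h1.trans ((mul_le_mul_of_nonneg_left h4 (Real.exp_pos _).le).trans ?_)
    rw [← mul_assoc, ← Real.exp_add]
    exact mul_le_mul_of_nonneg_right (Real.exp_le_exp.2 (by linarith)) (norm_nonneg _)
  calc ‖A t x v‖ = ‖∑ i, A t x (o.P i x v)‖ := by rw [← map_sum, o.P_sum x hx0]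
    _ ≤ ∑ _i : ι, Real.exp (2 * n + ε * ‖t‖) * ‖v‖ :=
        (norm_sum_le _ _).trans (Finset.sum_le_sum fun i _ => hi i)
    _ = Fintype.card ι * (Real.exp (2 * n + ε * ‖t‖) * ‖v‖) := by
        rw [Finset.sum_const, Finset.card_univ, nsmul_eq_mul]
    _ ≤ Real.exp (Fintype.card ι) * (Real.exp (2 * n + ε * ‖t‖) * ‖v‖) :=
        mul_le_mul_of_nonneg_right (by linarith [Real.add_one_le_exp (Fintype.card ι : ℝ)])
          (by positivity)
    _ = _ := by rw [← mul_assoc, ← Real.exp_add, add_assoc]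

namespace Skw

variable {G : Type} [Group G] [TopologicalSpace G] [IsTopologicalGroup G] [T2Space G]
  [SecondCountableTopology G] [MeasurableSpace G] [BorelSpace G] {L : Lat G} {M : Type}
  [MeasurableSpace M] {α : L.Γ →* Equiv.Perm M} {X : Type} [MeasurableSpace X] [MulAction G X]
  (E : Skw L α X)

theorem measurable_π : Measurable E.π := E.e.measurable.fst

theorem π_smul (g : G) (x : X) : E.π (g • x) = g • E.π x := congrArg Prod.fst (E.smul g x)

theorem snd_smul (g : G) (x : X) : (E.e (g • x)).2 = α (L.c g (E.π x)) (E.e x).2 :=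
  congrArg Prod.snd (E.smul g x)

/-- The cocycle over the suspension. -/
def lift {H : Type} (A : L.Γ → M → H) (g : G) (x : X) : H := A (L.c g (E.π x)) (E.e x).2

theorem lift_mul {H : Type} [Mul H] {A : L.Γ → M → H}
    (hA : ∀ γ δ p, A (γ * δ) p = A γ (α δ p) * A δ p) (g h : G) (x : X) :
    E.lift A (g * h) x = E.lift A g (h • x) * E.lift A h x := by
  rw [lift, lift, lift, L.c_mul, hA, π_smul, snd_smul]

theorem measurable_lift {H : Type} [MeasurableSpace H] {A : L.Γ → M → H}
    (hm : ∀ γ, Measurable (A γ)) : Measurable fun p : G × X => E.lift A p.1 p.2 :=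
  (measurable_from_prod_countable_left (f := fun p : M × L.Γ => A p.2 p.1) hm).comp
    ((E.e.measurable.snd.comp measurable_snd).prodMk
      (L.measurable_c.comp (measurable_fst.prodMk (E.measurable_π.comp measurable_snd))))

/-- An invariant probability for the lifted cocycle gives one for the cocycle of the lattice. -/
theorem fibre {H : Type} [Group H] [MeasurableSpace H] [MeasurableMul₂ H] [StandardBorelSpace H]
    [StandardBorelSpace M] [Nonempty M] (hα : ∀ γ, Measurable (α γ)) {A : L.Γ → M → H}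
    (hm : ∀ γ, Measurable (A γ)) (hA : ∀ γ δ p, A (γ * δ) p = A γ (α δ p) * A δ p)
    (η : Measure (X × H)) [IsProbabilityMeasure η]
    (hη : ∀ g : G, MeasurePreserving (fun p : X × H => (g • p.1, E.lift A g p.1 * p.2)) η η) :
    ∃ ν : Measure (M × H), IsProbabilityMeasure ν ∧
      ∀ γ, MeasurePreserving (fun w : M × H => (α γ w.1, A γ w.1 * w.2)) ν ν := by
  have h1 : ∀ p, A 1 p = 1 := fun p => by
    have := hA 1 1 p
    rw [mul_one, map_one, Equiv.Perm.one_apply] at this
    exact left_eq_mul.1 this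
  let act : L.Γ → M × H → M × H := fun γ w => (α γ w.1, A γ w.1 * w.2)
  have hact : ∀ γ, Measurable (act γ) := fun γ =>
    ((hα γ).comp measurable_fst).prodMk (((hm γ).comp measurable_fst).mul measurable_snd)
  let Φ : X × H → L.B × (M × H) := fun p => ((E.e p.1).1, (E.e p.1).2, p.2)
  have hΦ : Measurable Φ := (E.e.measurable.fst.comp measurable_fst).prodMk
    ((E.e.measurable.snd.comp measurable_fst).prodMk measurable_snd)
  have : IsProbabilityMeasure (η.map Φ) := Measure.isProbabilityMeasure_map hΦ.aemeasurable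
  refine L.fibre_measure act (fun y => ?_) (fun γ δ y => ?_) hact (η.map Φ) fun g => ?_
  · simp [act, h1]
  · simp [act, hA, mul_assoc]
  · have hT : Measurable fun p : L.B × (M × H) => (g • p.1, act (L.c g p.1) p.2) :=
      (((continuous_const_smul g).measurable).comp measurable_fst).prodMk
        (L.measurable_act hact (L.measurable_c.comp (measurable_const.prodMk measurable_fst))
          measurable_snd)
    refine ⟨hT, ?_⟩
    rw [Measure.map_map hT hΦ]
    have he : (fun p : L.B × (M × H) => (g • p.1, act (L.c g p.1) p.2)) ∘ Φ =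
        Φ ∘ fun p : X × H => (g • p.1, E.lift A g p.1 * p.2) := by
      funext p
      simp only [Function.comp, Φ, act, E.smul, lift, π]
    rw [he, ← Measure.map_map hΦ (hη g).measurable, (hη g).map_eq]

variable {V : Type} [NormedAddCommGroup V] [NormedSpace ℝ V] [FiniteDimensional ℝ V]

/-- The lifted cocycle as a measurable linear cocycle. -/
def co {ν : Measure X} (hG : ∀ g : G, MeasurePreserving (fun x : X => g • x) ν ν)
    {A : L.Γ → M → (V →L[ℝ] V)ˣ} (hm : ∀ γ, Measurable fun p => (A γ p : V →L[ℝ] V))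
    (hA : ∀ γ δ p, A (γ * δ) p = A γ (α δ p) * A δ p) : MS.Co G ν ℝ V where
  c g x := (E.lift A g x : (V →L[ℝ] V)ˣ)
  mp := hG
  meas := (E.measurable_lift (A := fun γ p => (A γ p : V →L[ℝ] V)) hm).stronglyMeasurable
  one x := by
    have := E.lift_mul hA 1 1 x
    rw [mul_one, one_smul] at this
    rw [left_eq_mul.1 this, Units.val_one]
  mul g h x := by rw [E.lift_mul hA, Units.val_mul]

end Skw

namespace Std

variable {G : Type} [Group G] [TopologicalSpace G] [IsTopologicalGroup G] {n k : ℕ}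
  (D : Std G n k) {X : Type} [MeasurableSpace X] [MulAction G X] {ν : Measure X}

/-- The Cartan action as an ergodic system. -/
def sysA [IsFiniteMeasure ν] (hI : D.InvA ν) (hE : D.ErgA ν) : Os.Sys (Euc k) X ν where
  act t x := D.a t • x
  zero x := by rw [D.geo_a_zero, one_smul]
  add s t x := by rw [D.geo_a_add, mul_smul]
  mp := hI
  erg U hU h := hE U hU fun s =>
    (ae_eq_of_subset_of_measure_ge (fun x hx => h s x hx)
      ((hI s).measure_preimage hU.nullMeasurableSet).le hU.nullMeasurableSet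
      (measure_ne_top _ _)).symm

theorem gErg (hG : ∀ g : G, MeasurePreserving (fun x : X => g • x) ν ν) (hE : D.ErgA ν) :
    MS.GErg G ν where
  mp := hG
  erg U hU h := by
    rw [eventuallyConst_set']
    rcases hE U hU fun s => h _ with h1 | h1
    · exact Or.inl (ae_eq_empty.2 h1)
    · exact Or.inr (ae_eq_univ.2 h1)

end Std

/-- The lifted cocycle is controlled by the height. -/
theorem Skw.tcoc {G : Type} [Group G] [TopologicalSpace G] [IsTopologicalGroup G] [T2Space G]
    [SecondCountableTopology G] [MeasurableSpace G] [BorelSpace G] {L : Lat G} {M : Type}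
    [MeasurableSpace M] {α : L.Γ →* Equiv.Perm M} {X : Type} [MeasurableSpace X] [MulAction G X]
    (E : Skw L α X) {V : Type} [NormedAddCommGroup V] [NormedSpace ℝ V] {n k : ℕ} (D : Std G n k)
    {ν : Measure X} (S : Os.Sys (Euc k) X ν) (hS : ∀ t x, S.act t x = D.a t • x)
    {A : L.Γ → M → V →L[ℝ] V} (h1 : ∀ p, A 1 p = 1)
    (hA : ∀ γ δ p, A (γ * δ) p = A γ (α δ p) * A δ p) {C : ℝ}
    (hC : ∀ γ p, ‖A γ p‖ ≤ Real.exp (C * (1 + L.len γ))) :
    ∃ (h : X → ℝ) (K : ℝ), Os.TCoc S (fun t x => E.lift A (D.a t) x) h K := by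
  obtain ⟨B, hB⟩ := D.geo_len_a L.toLen
  have hB' : ∀ s, L.len (D.a s) ≤ 2 * B * (‖s‖ + 1) := fun s => by
    have h2 := (L.le_toLen (D.a s)).trans (hB s)
    have h3 : (0 : ℝ) ≤ B := Nat.cast_nonneg B
    nlinarith [norm_nonneg s]
  have h0 : 0 ≤ |C| := abs_nonneg C
  have hB0 : (0 : ℝ) ≤ B := Nat.cast_nonneg B
  refine ⟨fun x => 2 * |C| * L.ht (E.π x), |C| * (1 + 4 * B),
    fun x v => ?_, fun s t x v => ?_, fun s x v => ?_, by positivity,
    measurable_const.mul (L.measurable_ht.comp E.measurable_π),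
    fun x => mul_nonneg (by positivity) (L.ht_nonneg _), fun s x => ?_⟩
  · rw [D.geo_a_zero, Skw.lift, L.c_one, h1]
    rfl
  · rw [D.geo_a_add, E.lift_mul hA, hS]
    rfl
  · refine ((E.lift A (D.a s) x).le_opNorm v).trans
      (mul_le_mul_of_nonneg_right ((hC _ _).trans (Real.exp_le_exp.2 ?_)) (norm_nonneg _))
    have h2 := L.len_c' (D.a s) (E.π x)
    have h3 := L.nonneg (L.c (D.a s) (E.π x))
    have h4 : C * (1 + L.len (L.c (D.a s) (E.π x))) ≤ |C| * (1 + L.len (L.c (D.a s) (E.π x))) :=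
      mul_le_mul_of_nonneg_right (le_abs_self C) (by linarith)
    have h5 : 1 + L.len (L.c (D.a s) (E.π x)) ≤ (1 + 4 * B) * (‖s‖ + 1) + 2 * L.ht (E.π x) := by
      nlinarith [hB' s, norm_nonneg s]
    nlinarith [mul_le_mul_of_nonneg_left h5 h0]
  · rw [hS, E.π_smul]
    have h2 := L.ht_smul (D.a s) (E.π x)
    have h3 : L.ht (D.a s • E.π x) ≤ L.ht (E.π x) + 2 * B * (‖s‖ + 1) := by linarith [hB' s]
    have h4 := mul_le_mul_of_nonneg_left h3 h0
    nlinarith [norm_nonneg s, mul_nonneg h0 (norm_nonneg s)]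

end Pool.Agent.P.MP_d483fb_an.Z
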