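import Pool.Agent.P.MP_d483fb_an.Z.TZ.S2a
import Pool.Agent.P.MP_d483fb_an.Z.TZ.Frame

/-!
Vanishing exponents over the suspension give an invariant probability on the frames of the fibre.
-/

open scoped Topology ENNReal
open MeasureTheory Filter Set

noncomputable section

namespace Pool.Agent.P.MP_d483fb_an.Z.TZ

variable {G : Type} [Group G] [TopologicalSpace G] [IsTopologicalGroup G] [T2Space G]
  [LocallyCompactSpace G] [SecondCountableTopology G] [MeasurableSpace G] [BorelSpace G]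
  {n k : ℕ} {L : Lat G} {M : Type} [MeasurableSpace M] [StandardBorelSpace M] [Nonempty M]
  {α : L.Γ →* Equiv.Perm M} {X : Type} [MeasurableSpace X] [MeasurableSpace.CountablyGenerated X]
  [MulAction G X] {V : Type} [NormedAddCommGroup V] [NormedSpace ℝ V] [FiniteDimensional ℝ V]

theorem frames_of_exps (D : Std G n k) (E : Skw L α X) (hα : ∀ γ, Measurable (α γ))
    (ν : Measure X) [IsProbabilityMeasure ν]
    (hG : ∀ g : G, MeasurePreserving (fun x : X => g • x) ν ν) (hE : D.ErgA ν)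
    (A : L.Γ → M → (V →L[ℝ] V)ˣ) (hm : ∀ γ, Measurable fun p => (A γ p : V →L[ℝ] V))
    (hA : ∀ γ δ p, A (γ * δ) p = A γ (α δ p) * A δ p) {C : ℝ}
    (hC : ∀ γ p, ‖(A γ p : V →L[ℝ] V)‖ ≤ Real.exp (C * (1 + L.len γ)))
    (hexp : ∀ (Q : MS.Co G ν ℝ V) (S : Os.Sys (Euc k) X ν), (∀ t x, S.act t x = D.a t • x) →
      ∀ (ι : Type) [Fintype ι] (o : Os.OseA S (fun t x => Q.c (D.a t) x) ι) (i : ι), o.lam i = 0)
    (hD : SR.Dec D.a ∅) :
    ∃ η : Measure (M × (V →L[ℝ] V)ˣ), IsProbabilityMeasure η ∧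
      ∀ γ, MeasurePreserving (fun w : M × (V →L[ℝ] V)ˣ => (α γ w.1, A γ w.1 * w.2)) η η := by
  have := FiniteDimensional.proper_real V
  have h1 : ∀ p, A 1 p = 1 := fun p => by
    have := hA 1 1 p
    rw [mul_one, map_one, Equiv.Perm.one_apply] at this
    exact left_eq_mul.1 this
  have hT : Measurable fun p : G × X => p.1 • p.2 := by
    have h2 : Measurable fun p : G × X => E.e (p.1 • p.2) := by
      simp only [E.smul]
      have hsm : Measurable fun p : G × L.B => p.1 • p.2 := Continuous.measurable (by fun_prop)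
      exact (hsm.comp (measurable_fst.prodMk (E.measurable_π.comp measurable_snd))).prodMk
        (E.measurable_lift (A := fun γ p => α γ p) hα)
    exact E.e.measurableEmbedding.measurable_comp_iff.1 h2
  let S := D.sysA (fun s => hG (D.a s)) hE
  let Q := E.co hG hm hA
  obtain ⟨h, K, hc⟩ := E.tcoc D S (fun _ _ => rfl) (A := fun γ p => (A γ p : V →L[ℝ] V))
    (fun p => by rw [h1, Units.val_one]) (fun γ δ p => by rw [hA, Units.val_mul]) hC
  obtain ⟨ι, _, ⟨o⟩⟩ := Os.oseledets_temp hc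
    (Q.meas.comp_measurable (g := fun p : Euc k × X => (D.a p.1, p.2))
      ((D.geo_a_cont.measurable.comp measurable_fst).prodMk measurable_snd))
  obtain ⟨η, _, -, hη⟩ := frame ν (fun (g : G) (x : X) => g • x) hT (one_smul G) mul_smul hG
    (E.lift A) (E.measurable_lift (A := fun γ p => (A γ p : V →L[ℝ] V)) hm) (E.lift_mul hA)
    D.geo_a_neg hD fun ε hε δ hδ => subexp_of_lam o (hexp Q S (fun _ _ => rfl) ι o) hε hδ
  exact E.fibre hα (fun γ => measurable_comap_iff.2 (hm γ)) hA η hη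

end Pool.Agent.P.MP_d483fb_an.Z.TZ
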