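import Pool.Agent.P.MP_d483fb_an.Z.Stmt

/-!
Integral operators with square integrable kernels are compact.
-/

open MeasureTheory Set Filter Topology
open scoped RealInnerProductSpace

set_option linter.unusedSectionVars false

noncomputable section

namespace Pool.Agent.P.MP_d483fb_an.Z.TZ.Spec

variable {Ω : Type} [MeasurableSpace Ω] {P : Measure Ω} [IsProbabilityMeasure P]

theorem ae_fst {p : Ω → Prop} (h : ∀ᵐ x ∂P, p x) : ∀ᵐ x ∂P.prod P, p x.1 :=
  (Measure.quasiMeasurePreserving_fst (μ := P) (ν := P)).ae h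

theorem ae_snd {p : Ω → Prop} (h : ∀ᵐ x ∂P, p x) : ∀ᵐ x ∂P.prod P, p x.2 :=
  (Measure.quasiMeasurePreserving_snd (μ := P) (ν := P)).ae h

theorem inner_L2 {α : Type} [MeasurableSpace α] {Q : Measure α} (u v : Lp ℝ 2 Q) :
    ⟪u, v⟫ = ∫ p, u p * v p ∂Q := by
  rw [L2.inner_def]
  refine integral_congr_ae (ae_of_all _ fun p => ?_)
  simp [mul_comm]

theorem memT (u v : Lp ℝ 2 P) : MemLp (fun x : Ω × Ω => u x.1 * v x.2) 2 (P.prod P) := by
  have hm : Measurable fun x : Ω × Ω => u x.1 * v x.2 :=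
    ((Lp.stronglyMeasurable u).measurable.comp measurable_fst).mul
      ((Lp.stronglyMeasurable v).measurable.comp measurable_snd)
  rw [memLp_two_iff_integrable_sq hm.aestronglyMeasurable]
  simp only [mul_pow]
  exact ((memLp_two_iff_integrable_sq (Lp.aestronglyMeasurable u)).1 (Lp.memLp u)).mul_prod
    ((memLp_two_iff_integrable_sq (Lp.aestronglyMeasurable v)).1 (Lp.memLp v))

/-- The product kernel of two functions. -/
def tens (u v : Lp ℝ 2 P) : Lp ℝ 2 (P.prod P) := (memT u v).toLp _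

theorem tens_ae (u v : Lp ℝ 2 P) : tens u v =ᵐ[P.prod P] fun x => u x.1 * v x.2 :=
  (memT u v).coeFn_toLp

theorem inner_tens (u v u' v' : Lp ℝ 2 P) : ⟪tens u v, tens u' v'⟫ = ⟪u, u'⟫ * ⟪v, v'⟫ := by
  rw [inner_L2, inner_L2, inner_L2, ← integral_prod_mul]
  refine integral_congr_ae ?_
  filter_upwards [tens_ae u v, tens_ae u' v'] with x h1 h2
  rw [h1, h2]
  ring

theorem norm_tens (u v : Lp ℝ 2 P) : ‖tens u v‖ = ‖u‖ * ‖v‖ := by
  have h := inner_tens u v u v
  rw [real_inner_self_eq_norm_sq, real_inner_self_eq_norm_sq, real_inner_self_eq_norm_sq,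
    ← mul_pow] at h
  exact (pow_left_inj₀ (norm_nonneg _) (by positivity) two_ne_zero).1 h

theorem inner_tens' (k : Lp ℝ 2 (P.prod P)) (u v : Lp ℝ 2 P) :
    ⟪k, tens u v⟫ = ∫ x, k x * (u x.1 * v x.2) ∂P.prod P := by
  rw [inner_L2]
  refine integral_congr_ae ?_
  filter_upwards [tens_ae u v] with x hx
  rw [hx]

theorem tens_add_left (u u' v : Lp ℝ 2 P) : tens (u + u') v = tens u v + tens u' v := by
  refine Lp.ext ?_
  filter_upwards [tens_ae (u + u') v, tens_ae u v, tens_ae u' v,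
    Lp.coeFn_add (tens u v) (tens u' v), ae_fst (Lp.coeFn_add u u')] with x h1 h2 h3 h4 h5
  rw [h1, h4, Pi.add_apply, h2, h3, h5, Pi.add_apply]
  ring

theorem tens_add_right (u v v' : Lp ℝ 2 P) : tens u (v + v') = tens u v + tens u v' := by
  refine Lp.ext ?_
  filter_upwards [tens_ae u (v + v'), tens_ae u v, tens_ae u v',
    Lp.coeFn_add (tens u v) (tens u v'), ae_snd (Lp.coeFn_add v v')] with x h1 h2 h3 h4 h5
  rw [h1, h4, Pi.add_apply, h2, h3, h5, Pi.add_apply]
  ring

theorem tens_smul_left (a : ℝ) (u v : Lp ℝ 2 P) : tens (a • u) v = a • tens u v := by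
  refine Lp.ext ?_
  filter_upwards [tens_ae (a • u) v, tens_ae u v,
    Lp.coeFn_smul a (tens u v), ae_fst (Lp.coeFn_smul a u)] with x h1 h2 h4 h5
  rw [h1, h4, Pi.smul_apply, h2, h5, Pi.smul_apply, smul_eq_mul, smul_eq_mul]
  ring

theorem tens_smul_right (a : ℝ) (u v : Lp ℝ 2 P) : tens u (a • v) = a • tens u v := by
  refine Lp.ext ?_
  filter_upwards [tens_ae u (a • v), tens_ae u v,
    Lp.coeFn_smul a (tens u v), ae_snd (Lp.coeFn_smul a v)] with x h1 h2 h4 h5
  rw [h1, h4, Pi.smul_apply, h2, h5, Pi.smul_apply, smul_eq_mul, smul_eq_mul]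
  ring

theorem bound_tens (k : Lp ℝ 2 (P.prod P)) (u v : Lp ℝ 2 P) :
    ‖⟪k, tens u v⟫‖ ≤ ‖k‖ * ‖v‖ * ‖u‖ := by
  have h := norm_inner_le_norm (𝕜 := ℝ) k (tens u v)
  rw [norm_tens] at h
  calc ‖⟪k, tens u v⟫‖ ≤ ‖k‖ * (‖u‖ * ‖v‖) := h
    _ = ‖k‖ * ‖v‖ * ‖u‖ := by ring

theorem exists_op (k : Lp ℝ 2 (P.prod P)) :
    ∃ T : Lp ℝ 2 P →L[ℝ] Lp ℝ 2 P, ∀ u v : Lp ℝ 2 P, ⟪u, T v⟫ = ⟪k, tens u v⟫ := by
  let B₀ : Lp ℝ 2 P →ₗ[ℝ] Lp ℝ 2 P →ₗ[ℝ] ℝ :=
    LinearMap.mk₂ ℝ (fun v u => ⟪k, tens u v⟫)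
      (fun v v' u => by rw [tens_add_right, inner_add_right])
      (fun a v u => by rw [tens_smul_right, real_inner_smul_right, smul_eq_mul])
      (fun v u u' => by rw [tens_add_left, inner_add_right])
      (fun a v u => by rw [tens_smul_left, real_inner_smul_right, smul_eq_mul])
  let B : Lp ℝ 2 P →L[ℝ] Lp ℝ 2 P →L[ℝ] ℝ :=
    LinearMap.mkContinuous₂ B₀ ‖k‖ fun v u => bound_tens k u v
  refine ⟨InnerProductSpace.continuousLinearMapOfBilin B, fun u v => ?_⟩
  rw [real_inner_comm, InnerProductSpace.continuousLinearMapOfBilin_apply]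
  rfl

/-- The integral operator of a kernel. -/
def opK (k : Lp ℝ 2 (P.prod P)) : Lp ℝ 2 P →L[ℝ] Lp ℝ 2 P := (exists_op k).choose

theorem opK_spec (k : Lp ℝ 2 (P.prod P)) (u v : Lp ℝ 2 P) : ⟪u, opK k v⟫ = ⟪k, tens u v⟫ :=
  (exists_op k).choose_spec u v

theorem opK_ext {k : Lp ℝ 2 (P.prod P)} {T : Lp ℝ 2 P →L[ℝ] Lp ℝ 2 P}
    (h : ∀ u v, ⟪u, T v⟫ = ⟪k, tens u v⟫) : opK k = T := by
  refine ContinuousLinearMap.ext fun v => ext_inner_left ℝ fun u => ?_
  rw [opK_spec, h]

theorem norm_opK_le (k : Lp ℝ 2 (P.prod P)) : ‖opK k‖ ≤ ‖k‖ := by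
  refine ContinuousLinearMap.opNorm_le_bound _ (norm_nonneg _) fun v => ?_
  have h1 := bound_tens k (opK k v) v
  rw [← opK_spec, real_inner_self_eq_norm_mul_norm, Real.norm_eq_abs,
    abs_of_nonneg (by positivity)] at h1
  rcases (norm_nonneg (opK k v)).eq_or_lt with h0 | h0
  · rw [← h0]; positivity
  · exact le_of_mul_le_mul_right h1 h0

theorem opK_add (k l : Lp ℝ 2 (P.prod P)) : opK (k + l) = opK k + opK l :=
  opK_ext fun u v => by
    rw [add_apply, inner_add_right, opK_spec, opK_spec, inner_add_left]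

theorem opK_sub (k l : Lp ℝ 2 (P.prod P)) : opK (k - l) = opK k - opK l :=
  opK_ext fun u v => by
    rw [sub_apply, inner_sub_right, opK_spec, opK_spec, inner_sub_left]

theorem opK_smul (a : ℝ) (k : Lp ℝ 2 (P.prod P)) : opK (a • k) = a • opK k :=
  opK_ext fun u v => by
    rw [smul_apply, real_inner_smul_right, opK_spec, real_inner_smul_left]

theorem opK_tens (u v : Lp ℝ 2 P) : opK (tens u v) = InnerProductSpace.rankOne ℝ u v :=
  opK_ext fun u' v' => by
    rw [InnerProductSpace.rankOne_apply, real_inner_smul_right, inner_tens, real_inner_comm u' u,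
      mul_comm]

theorem opK_zero : opK (0 : Lp ℝ 2 (P.prod P)) = 0 :=
  opK_ext fun u v => by simp

theorem continuous_opK : Continuous fun k : Lp ℝ 2 (P.prod P) => opK k := by
  refine (LipschitzWith.of_dist_le_mul (K := 1) fun k l => ?_).continuous
  rw [dist_eq_norm, dist_eq_norm, ← opK_sub, NNReal.coe_one, one_mul]
  exact norm_opK_le _

theorem integrable_L2 {α : Type} [MeasurableSpace α] {μ : Measure α} [IsProbabilityMeasure μ]
    (k : Lp ℝ 2 μ) : Integrable k μ :=
  (Lp.memLp k).integrable (by norm_num)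

theorem dense_tens : Dense (Submodule.span ℝ {k : Lp ℝ 2 (P.prod P) | ∃ u v, k = tens u v} :
    Set (Lp ℝ 2 (P.prod P))) := by
  rw [Submodule.dense_iff_topologicalClosure_eq_top, Submodule.topologicalClosure_eq_top_iff,
    Submodule.eq_bot_iff]
  intro k hk
  have hk' : ∀ u v : Lp ℝ 2 P, ⟪k, tens u v⟫ = 0 := fun u v => by
    rw [real_inner_comm]
    exact (Submodule.mem_orthogonal _ _).1 hk _ (Submodule.subset_span ⟨u, v, rfl⟩)
  have hint := integrable_L2 k
  have hrect : ∀ s t : Set Ω, MeasurableSet s → MeasurableSet t →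
      ∫ x in s ×ˢ t, k x ∂P.prod P = 0 := by
    intro s t hs ht
    have h1 := hk' (indicatorConstLp 2 hs (measure_ne_top _ _) (1 : ℝ))
      (indicatorConstLp 2 ht (measure_ne_top _ _) (1 : ℝ))
    rw [inner_tens'] at h1
    rw [← h1, ← integral_indicator (hs.prod ht)]
    refine integral_congr_ae ?_
    filter_upwards [ae_fst (indicatorConstLp_coeFn (p := 2) (hs := hs)
      (hμs := measure_ne_top P s) (c := (1 : ℝ))), ae_snd (indicatorConstLp_coeFn (p := 2)
      (hs := ht) (hμs := measure_ne_top P t) (c := (1 : ℝ)))] with x h2 h3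
    rw [h2, h3]
    by_cases hx1 : x.1 ∈ s <;> by_cases hx2 : x.2 ∈ t <;> simp [indicator, hx1, hx2]
  have huniv : ∫ x, k x ∂P.prod P = 0 := by
    have := hrect univ univ MeasurableSet.univ MeasurableSet.univ
    rwa [univ_prod_univ, Measure.restrict_univ] at this
  have hall : ∀ s : Set (Ω × Ω), MeasurableSet s → ∫ x in s, k x ∂P.prod P = 0 := by
    intro s hs
    induction s, hs using MeasurableSpace.induction_on_inter generateFrom_prod.symm
      isPiSystem_prod with
    | empty => simp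
    | basic t ht =>
      obtain ⟨a, ha, b, hb, rfl⟩ := ht
      exact hrect a b ha hb
    | compl t htm iht =>
      rw [setIntegral_compl htm hint, huniv, iht, sub_zero]
    | iUnion f hfd hfm ihf =>
      rw [integral_iUnion hfm hfd hint.integrableOn]
      simp [ihf]
  have h0 := hint.ae_eq_zero_of_forall_setIntegral_eq_zero fun s hs _ => hall s hs
  exact Lp.ext (h0.trans (Lp.coeFn_zero ℝ 2 (P.prod P)).symm)

theorem isCompact_opK (k : Lp ℝ 2 (P.prod P)) : IsCompactOperator (opK k) := by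
  have hc : IsClosed {k : Lp ℝ 2 (P.prod P) | IsCompactOperator (opK k)} :=
    isClosed_setOfPred_isCompactOperator.preimage continuous_opK
  have h1 : ((Submodule.span ℝ {k : Lp ℝ 2 (P.prod P) | ∃ u v, k = tens u v} :
      Submodule ℝ (Lp ℝ 2 (P.prod P))) : Set (Lp ℝ 2 (P.prod P))) ⊆
      {k | IsCompactOperator (opK k)} := by
    intro l hl
    induction hl using Submodule.span_induction with
    | mem x hx =>
      obtain ⟨u, v, rfl⟩ := hx
      show IsCompactOperator (opK (tens u v))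
      rw [opK_tens, InnerProductSpace.rankOne_def']
      exact (isCompactOperator_of_locallyCompactSpace_dom (innerSL ℝ v)).clm_comp
        (ContinuousLinearMap.toSpanSingleton ℝ u)
    | zero =>
      show IsCompactOperator (opK (0 : Lp ℝ 2 (P.prod P)))
      rw [opK_zero]
      exact isCompactOperator_zero
    | add x y _ _ hx hy =>
      show IsCompactOperator (opK (x + y))
      rw [opK_add]
      exact IsCompactOperator.add hx hy
    | smul a x _ hx =>
      show IsCompactOperator (opK (a • x))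
      rw [opK_smul]
      exact IsCompactOperator.smul hx a
  exact hc.closure_subset_iff.2 h1 (dense_tens k)

theorem int_mul (k : Lp ℝ 2 (P.prod P)) (v : Lp ℝ 2 P) :
    Integrable (fun x : Ω × Ω => k x * v x.2) (P.prod P) := by
  have h1 : MemLp (fun x : Ω × Ω => v x.2) 2 (P.prod P) :=
    (Lp.memLp v).comp_measurePreserving (measurePreserving_snd (μ := P) (ν := P))
  exact (Lp.memLp k).integrable_mul h1

theorem opK_ae (k : Lp ℝ 2 (P.prod P)) (v : Lp ℝ 2 P) :
    opK k v =ᵐ[P] fun p => ∫ q, k (p, q) * v q ∂P := by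
  have hi := int_mul k v
  refine Integrable.ae_eq_of_forall_setIntegral_eq _ _ (integrable_L2 _) hi.integral_prod_left
    fun s hs hs' => ?_
  rw [← L2.inner_indicatorConstLp_one hs hs'.ne, opK_spec, inner_tens']
  have h1 : ∫ x, k x * (indicatorConstLp 2 hs hs'.ne (1 : ℝ) x.1 * v x.2) ∂P.prod P =
      ∫ x in s ×ˢ univ, k x * v x.2 ∂P.prod P := by
    rw [← integral_indicator (hs.prod MeasurableSet.univ)]
    refine integral_congr_ae ?_
    filter_upwards [ae_fst (indicatorConstLp_coeFn (p := 2) (hs := hs)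
      (hμs := hs'.ne) (c := (1 : ℝ)))] with x h2
    rw [h2]
    by_cases hx1 : x.1 ∈ s <;> simp [indicator, hx1]
  rw [h1, setIntegral_prod _ hi.integrableOn, Measure.restrict_univ]

/-- The operator of an invariant kernel commutes with composition. -/
theorem opK_comp {τ : Ω → Ω} (hτ : MeasurePreserving τ P P) (he : MeasurableEmbedding τ)
    {k : Lp ℝ 2 (P.prod P)} (hk : ∀ᵐ p ∂P.prod P, k (τ p.1, τ p.2) = k p) (v : Lp ℝ 2 P) :
    opK k (Lp.compMeasurePreserving τ hτ v) = Lp.compMeasurePreserving τ hτ (opK k v) := by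
  refine Lp.ext ?_
  filter_upwards [opK_ae k (Lp.compMeasurePreserving τ hτ v),
    Lp.coeFn_compMeasurePreserving (opK k v) hτ, hτ.quasiMeasurePreserving.ae (opK_ae k v),
    Measure.ae_ae_of_ae_prod hk] with w h1 h2 h3 h4
  rw [h1, h2, Function.comp_apply, h3, ← hτ.integral_comp he fun q => k (τ w, q) * v q]
  refine integral_congr_ae ?_
  filter_upwards [h4, Lp.coeFn_compMeasurePreserving v hτ] with q h5 h6
  rw [h6, Function.comp_apply, h5]

end Pool.Agent.P.MP_d483fb_an.Z.TZ.Spec
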