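import Pool.Agent.P.MP_d483fb_an.Z.TZ.Spec2

/-!
Products of orthogonal groups: compactness, small kernels, matrices of finite dimensional invariant
subspaces.
-/

open MeasureTheory Set Filter Topology
open scoped RealInnerProductSpace Matrix

set_option linter.unusedSectionVars false

noncomputable section

namespace Pool.Agent.P.MP_d483fb_an.Z.TZ.Spec

/-- The orthogonal group. -/
abbrev Orth (n : ℕ) : Type := unitary (Mat n)

instance (n : ℕ) : CompactSpace (Orth n) := by
  refine isCompact_iff_compactSpace.1 (?_ : IsCompact (unitary (Mat n) : Set (Mat n)))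
  have h : IsCompact (Set.pi univ fun _ : Fin n => Set.pi univ fun _ : Fin n => Icc (-1 : ℝ) 1) :=
    isCompact_univ_pi fun _ => isCompact_univ_pi fun _ => isCompact_Icc
  refine IsCompact.of_isClosed_subset (X := Mat n) h (isClosed_unitary (R := Mat n))
    fun U hU i _ j _ => ?_
  have := entry_norm_bound_of_unitary (𝕜 := ℝ) hU i j
  rwa [Real.norm_eq_abs, abs_le] at this

theorem Orth.mul_tr {n : ℕ} (k : Orth n) : (k : Mat n) * (k : Mat n)ᵀ = 1 := by
  have := k.2.2
  rwa [Matrix.star_eq_conjTranspose, Matrix.conjTranspose_eq_transpose_of_trivial] at this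

theorem small_ker {ι : Type} {d : ι → ℕ} (K : Subgroup (∀ t, Orth (d t))) {U : Set K}
    (hU : U ∈ 𝓝 (1 : K)) : ∃ (n : ℕ) (ρ : K →* Mat n), Continuous ρ ∧ (∀ k, ρ k * (ρ k)ᵀ = 1) ∧
      ∀ k, ρ k = 1 → k ∈ U := by
  classical
  obtain ⟨W, hW, hWU⟩ := (mem_nhds_subtype _ _ _).1 hU
  rw [nhds_pi, Filter.mem_pi] at hW
  obtain ⟨I, hI, t, ht, hIW⟩ := hW
  have := hI.fintype
  let e := Fintype.equivFin (Σ i : I, Fin (d i))
  let B : K → ∀ i : I, Mat (d i) := fun k i => (k.1 i : Mat (d i))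
  have hB : Continuous B := continuous_pi fun i =>
    continuous_subtype_val.comp ((continuous_apply i.1).comp continuous_subtype_val)
  let ρ : K →* Mat (Fintype.card (Σ i : I, Fin (d i))) :=
    { toFun := fun k => (Matrix.blockDiagonal' (B k)).submatrix e.symm e.symm
      map_one' := by
        have : B 1 = 1 := rfl
        rw [this, Matrix.blockDiagonal'_one, Matrix.submatrix_one_equiv]
      map_mul' := fun a b => by
        rw [Matrix.submatrix_mul_equiv, ← Matrix.blockDiagonal'_mul]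
        rfl }
  have hρ : ∀ k, ρ k = (Matrix.blockDiagonal' (B k)).submatrix e.symm e.symm := fun _ => rfl
  refine ⟨_, ρ, hB.matrix_blockDiagonal'.matrix_submatrix _ _, fun k => ?_, fun k hk => ?_⟩
  · rw [hρ, Matrix.transpose_submatrix, Matrix.submatrix_mul_equiv,
      Matrix.blockDiagonal'_transpose, ← Matrix.blockDiagonal'_mul]
    have : (fun i : I => B k i * (B k i)ᵀ) = 1 := funext fun i => Orth.mul_tr _
    rw [this, Matrix.blockDiagonal'_one, Matrix.submatrix_one_equiv]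
  · refine hWU (hIW fun i hi => ?_)
    have h1 : k.1 i = 1 := by
      refine Subtype.ext (Matrix.ext fun a b => ?_)
      have h2 := congrFun (congrFun hk (e ⟨⟨i, hi⟩, a⟩)) (e ⟨⟨i, hi⟩, b⟩)
      rw [hρ, Matrix.submatrix_apply, e.symm_apply_apply, e.symm_apply_apply,
        Matrix.blockDiagonal'_apply_eq] at h2
      refine h2.trans ?_
      simp [Matrix.one_apply]
    show k.1 i ∈ t i
    rw [h1]
    exact mem_of_mem_nhds (ht i)

/-- A finite dimensional invariant subspace gives a homomorphism to an orthogonal group, and the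
orbit map of a vector is given by a polynomial formula. -/
theorem exists_rep {Γ H : Type} [Group Γ] [NormedAddCommGroup H] [InnerProductSpace ℝ H]
    (U : Γ → H →L[ℝ] H) (hU : ∀ γ a b, ⟪U γ a, b⟫ = ⟪a, U γ⁻¹ b⟫)
    (hm : ∀ γ δ v, U (γ * δ) v = U γ (U δ v)) (h1 : ∀ v, U 1 v = v) (V : Submodule ℝ H)
    [FiniteDimensional ℝ V] (hV : ∀ γ, ∀ x ∈ V, U γ x ∈ V) {u : H} (hu : u ∈ V) :
    ∃ (n : ℕ) (R : Γ →* Orth n) (e : Fin n → H) (a : Fin n → Orth n → ℝ), (∀ i, Continuous (a i)) ∧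
      ∀ γ, ∑ i, a i (R γ) • e i = U γ⁻¹ u := by
  let b := stdOrthonormalBasis ℝ V
  let e : Fin (Module.finrank ℝ V) → H := fun i => (b i : H)
  have hexp : ∀ x ∈ V, ∑ i, ⟪e i, x⟫ • e i = x := fun x hx => by
    have := congrArg Subtype.val (b.sum_repr' ⟨x, hx⟩)
    rw [Submodule.coe_sum] at this
    exact this
  let R₀ : Γ → Mat (Module.finrank ℝ V) := fun γ => Matrix.of fun i j => ⟪e i, U γ (e j)⟫
  have hmul : ∀ γ δ, R₀ (γ * δ) = R₀ γ * R₀ δ := fun γ δ => by
    ext i j
    rw [Matrix.mul_apply]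
    show ⟪e i, U (γ * δ) (e j)⟫ = ∑ l, ⟪e i, U γ (e l)⟫ * ⟪e l, U δ (e j)⟫
    rw [hm]
    conv_lhs => rw [← hexp _ (hV δ _ (b j).2)]
    rw [map_sum, inner_sum]
    refine Finset.sum_congr rfl fun l _ => ?_
    rw [map_smul, real_inner_smul_right, mul_comm]
  have hone : R₀ 1 = 1 := by
    ext i j
    show ⟪e i, U 1 (e j)⟫ = _
    rw [h1, Matrix.one_apply]
    exact orthonormal_iff_ite.1 b.orthonormal i j
  have htr : ∀ γ, star (R₀ γ) = R₀ γ⁻¹ := fun γ => by
    ext i j
    rw [Matrix.star_apply, star_trivial]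
    show ⟪e j, U γ (e i)⟫ = ⟪e i, U γ⁻¹ (e j)⟫
    rw [real_inner_comm, hU]
  have hmem : ∀ γ, R₀ γ ∈ unitary (Mat (Module.finrank ℝ V)) := fun γ =>
    ⟨by rw [htr, ← hmul, inv_mul_cancel, hone], by rw [htr, ← hmul, mul_inv_cancel, hone]⟩
  let R : Γ →* Orth (Module.finrank ℝ V) :=
    { toFun := fun γ => ⟨R₀ γ, hmem γ⟩
      map_one' := Subtype.ext hone
      map_mul' := fun γ δ => Subtype.ext (hmul γ δ) }
  refine ⟨_, R, e, fun i k => ∑ j, (k : Mat _) j i * ⟪e j, u⟫, fun i => ?_, fun γ => ?_⟩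
  · exact continuous_finsetSum _ fun j _ =>
      (continuous_subtype_val.matrix_elem j i).mul continuous_const
  · rw [← hexp _ (hV γ⁻¹ u hu)]
    refine Finset.sum_congr rfl fun i _ => ?_
    congr 1
    show ∑ j, ⟪e j, U γ (e i)⟫ * ⟪e j, u⟫ = _
    rw [← hU]
    conv_rhs => rw [← hexp u hu]
    rw [inner_sum]
    refine Finset.sum_congr rfl fun j _ => ?_
    rw [real_inner_smul_right, mul_comm, real_inner_comm (e j)]

end Pool.Agent.P.MP_d483fb_an.Z.TZ.Spec
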